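import Pool.Agent.LinfX.Rnp

/-!
Banach limits and complementation in the bidual.
-/

open MeasureTheory Set Filter Topology
open scoped ENNReal NNReal

namespace Pool.Agent.LinfX

variable {𝕜 : Type*} [RCLike 𝕜]
variable {X : Type*} [NormedAddCommGroup X] [NormedSpace 𝕜 X]

/-- The limit of a bounded scalar sequence along a fixed free ultrafilter. -/
noncomputable def ulim (a : ℕ → 𝕜) : 𝕜 := limUnder (hyperfilter ℕ : Filter ℕ) a

lemma tendsto_ulim {a : ℕ → 𝕜} {C : ℝ} (h : ∀ n, ‖a n‖ ≤ C) :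
    Tendsto a (hyperfilter ℕ : Filter ℕ) (𝓝 (ulim a)) := by
  apply tendsto_nhds_limUnder
  obtain ⟨l, -, hl⟩ := (isCompact_closedBall (0 : 𝕜) C).ultrafilter_le_nhds
    ((hyperfilter ℕ).map a) (by
      rw [Ultrafilter.coe_map, le_principal_iff, mem_map]
      apply Filter.univ_mem'
      intro n
      change a n ∈ Metric.closedBall 0 C
      rw [mem_closedBall_zero_iff]
      exact h n)
  exact ⟨l, hl⟩

lemma ulim_eq {a : ℕ → 𝕜} {C : ℝ} (h : ∀ n, ‖a n‖ ≤ C) {l : 𝕜}
    (hl : Tendsto a (hyperfilter ℕ : Filter ℕ) (𝓝 l)) : ulim a = l :=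
  tendsto_nhds_unique (tendsto_ulim h) hl

lemma dual_seq_le (y : linfSeq X) (z : StrongDual 𝕜 X) (n : ℕ) : ‖z (y n)‖ ≤ ‖y‖ * ‖z‖ := by
  rw [mul_comm]
  exact (z.le_opNorm _).trans (mul_le_mul_of_nonneg_left (nrm_apply y n) (norm_nonneg _))

/-- The weak* limit along an ultrafilter. -/
noncomputable def wlim (𝕜 : Type*) [RCLike 𝕜] (X : Type*) [NormedAddCommGroup X]
    [NormedSpace 𝕜 X] : linfSeq X →L[𝕜] StrongDual 𝕜 (StrongDual 𝕜 X) :=
  LinearMap.mkContinuous₂
    (LinearMap.mk₂ 𝕜 (fun (y : linfSeq X) (z : StrongDual 𝕜 X) => ulim (fun n => z (y n)))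
      (by
        intro y y' z
        refine ulim_eq (dual_seq_le (y + y') z) ?_
        have h1 := (tendsto_ulim (dual_seq_le y z)).add (tendsto_ulim (dual_seq_le y' z))
        refine h1.congr fun n => ?_
        rw [← map_add]
        rfl)
      (by
        intro c y z
        refine ulim_eq (dual_seq_le (c • y) z) ?_
        have h1 := (tendsto_ulim (dual_seq_le y z)).const_smul c
        refine h1.congr fun n => ?_
        rw [← map_smul]
        rfl)
      (by
        intro y z z'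
        refine ulim_eq (dual_seq_le y (z + z')) ?_
        exact (tendsto_ulim (dual_seq_le y z)).add (tendsto_ulim (dual_seq_le y z')))
      (by
        intro c y z
        refine ulim_eq (dual_seq_le y (c • z)) ?_
        exact (tendsto_ulim (dual_seq_le y z)).const_smul c)) 1 (by
      intro y z
      rw [LinearMap.mk₂_apply, one_mul]
      exact le_of_tendsto (tendsto_ulim (dual_seq_le y z)).norm
        (Eventually.of_forall fun n => dual_seq_le y z n))

lemma wlim_apply (y : linfSeq X) (z : StrongDual 𝕜 X) :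
    wlim 𝕜 X y z = ulim (fun n => z (y n)) := rfl

/-- A space complemented in its bidual has a Banach limit. -/
theorem ComplementedInBidual.hasBanachLimit (h : ComplementedInBidual 𝕜 X) :
    HasBanachLimit 𝕜 X := by
  obtain ⟨P, hP⟩ := h
  refine ⟨P.comp (wlim 𝕜 X), fun y a hy => ?_⟩
  rw [ContinuousLinearMap.comp_apply]
  have h1 : wlim 𝕜 X y = NormedSpace.inclusionInDoubleDual 𝕜 X a := by
    ext z
    rw [wlim_apply, NormedSpace.dual_def]
    apply ulim_eq (dual_seq_le y z)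
    have h2 : Tendsto (fun n => z (y n)) atTop (𝓝 (z a)) := (z.continuous.tendsto a).comp hy
    exact h2.mono_left Nat.hyperfilter_le_atTop
  rw [h1, hP]

/-- The second adjoint of a finite rank operator has values in the space. -/
lemma exists_finite_ext (Q : X →L[𝕜] X)
    [FiniteDimensional 𝕜 (LinearMap.range (Q : X →ₗ[𝕜] X))] :
    ∃ Q' : StrongDual 𝕜 (StrongDual 𝕜 X) →L[𝕜] X, (∀ φ, ‖Q' φ‖ ≤ ‖Q‖ * ‖φ‖) ∧
      ∀ (φ : StrongDual 𝕜 (StrongDual 𝕜 X)) (z : StrongDual 𝕜 X), z (Q' φ) = φ (z.comp Q) := by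
  set W := LinearMap.range (Q : X →ₗ[𝕜] X) with hW
  let b := Module.finBasis 𝕜 W
  let Qr : X →L[𝕜] W := Q.codRestrict W (fun x => ⟨x, rfl⟩)
  let f : Fin (Module.finrank 𝕜 W) → StrongDual 𝕜 X := fun i =>
    (LinearMap.toContinuousLinearMap (b.coord i)).comp Qr
  have hf : ∀ x, ∑ i, f i x • (b i : X) = Q x := by
    intro x
    have h1 := b.sum_repr (Qr x)
    have h2 : ((∑ i, b.repr (Qr x) i • b i : W) : X) = Q x := by rw [h1]; rfl
    rw [← h2, Submodule.coe_sum]
    rfl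
  let Q0 : StrongDual 𝕜 (StrongDual 𝕜 X) →L[𝕜] X :=
    ∑ i, (NormedSpace.inclusionInDoubleDual 𝕜 (StrongDual 𝕜 X) (f i)).smulRight (b i : X)
  have hQ0 : ∀ φ, Q0 φ = ∑ i, φ (f i) • (b i : X) := by
    intro φ
    simp only [Q0, sum_apply, ContinuousLinearMap.smulRight_apply]
    rfl
  have hz : ∀ (φ : StrongDual 𝕜 (StrongDual 𝕜 X)) (z : StrongDual 𝕜 X),
      z (Q0 φ) = φ (z.comp Q) := by
    intro φ z
    have h1 : z.comp Q = ∑ i, z (b i : X) • f i := by
      ext x
      rw [ContinuousLinearMap.comp_apply, ← hf x, map_sum, sum_apply]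
      apply Finset.sum_congr rfl
      intro i _
      rw [map_smul, smul_apply, smul_eq_mul, smul_eq_mul, mul_comm]
    rw [h1, map_sum, hQ0, map_sum]
    apply Finset.sum_congr rfl
    intro i _
    rw [map_smul, map_smul, smul_eq_mul, smul_eq_mul, mul_comm]
  refine ⟨Q0, ?_, hz⟩
  intro φ
  obtain ⟨z, hz1, hz2⟩ := exists_dual_vector'' 𝕜 (Q0 φ)
  have h1 : ‖Q0 φ‖ = ‖z (Q0 φ)‖ := by
    rw [hz2, RCLike.norm_ofReal, abs_norm]
  rw [h1, hz φ z]
  calc ‖φ (z.comp Q)‖ ≤ ‖φ‖ * ‖z.comp Q‖ := φ.le_opNorm _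
    _ ≤ ‖φ‖ * (‖z‖ * ‖Q‖) :=
        mul_le_mul_of_nonneg_left (ContinuousLinearMap.opNorm_comp_le _ _) φ.opNorm_nonneg
    _ ≤ ‖φ‖ * (1 * ‖Q‖) := by
        apply mul_le_mul_of_nonneg_left _ φ.opNorm_nonneg
        exact mul_le_mul_of_nonneg_right hz1 (norm_nonneg _)
    _ = ‖Q‖ * ‖φ‖ := by ring

/-- Under the approximation property for sequences, a space with a Banach limit is complemented
in its bidual. -/
theorem HasBanachLimit.complementedInBidual [CompleteSpace X] (hb : HasSeqBAP 𝕜 X)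
    (h : HasBanachLimit 𝕜 X) : ComplementedInBidual 𝕜 X := by
  obtain ⟨Q, hQ, hQx⟩ := hb
  obtain ⟨L, hL⟩ := h
  obtain ⟨C, hC⟩ : ∃ C, ∀ n, ‖Q n‖ ≤ C := by
    apply banach_steinhaus
    intro x
    obtain ⟨C, hC⟩ := ((hQx x).norm).bddAbove_range
    exact ⟨C, fun n => hC ⟨n, rfl⟩⟩
  have hC0 : 0 ≤ C := (norm_nonneg _).trans (hC 0)
  choose Q' hQ'n hQ' using fun n => @exists_finite_ext 𝕜 _ X _ _ (Q n) (hQ n)
  let V : StrongDual 𝕜 (StrongDual 𝕜 X) →L[𝕜] linfSeq X := LinearMap.mkContinuous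
    { toFun := fun φ => mkB (fun n => Q' n φ) (C * ‖φ‖) (fun n =>
        (hQ'n n φ).trans (mul_le_mul_of_nonneg_right (hC n) φ.opNorm_nonneg))
      map_add' := by
        intro φ ψ
        ext n
        exact map_add (Q' n) φ ψ
      map_smul' := by
        intro c φ
        ext n
        exact map_smul (Q' n) c φ } C (by
      intro φ
      exact nrm_le (by positivity) fun n =>
        (hQ'n n φ).trans (mul_le_mul_of_nonneg_right (hC n) φ.opNorm_nonneg))
  refine ⟨L.comp V, fun x => ?_⟩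
  rw [ContinuousLinearMap.comp_apply]
  apply hL
  have h1 : ∀ n, V (NormedSpace.inclusionInDoubleDual 𝕜 X x) n = Q n x := by
    intro n
    change Q' n (NormedSpace.inclusionInDoubleDual 𝕜 X x) = Q n x
    apply (SeparatingDual.eq_iff_forall_dual_eq (R := 𝕜)).2
    intro z
    rw [hQ' n, NormedSpace.dual_def]
    rfl
  simp only [h1]
  exact hQx x

end Pool.Agent.LinfX
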