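import Pool.Agent.LinfX.Lat5

/-!
Spaces isomorphic to Banach lattices, real and complex scalars.
-/

open MeasureTheory Set Filter Topology
open scoped ENNReal NNReal

namespace Pool.Agent.LinfX

/-- Almost everywhere convergent sequences have a generalised limit; version without scalars. -/
def AEAdd (X : Type*) [NormedAddCommGroup X] : Prop :=
  ∃ (P : linfSeq (LinfUnit X) →+ LinfUnit X) (C : ℝ), (∀ F, ‖P F‖ ≤ C * ‖F‖) ∧
    ∀ (F : linfSeq (LinfUnit X)) (g : LinfUnit X),
    (∀ᵐ t ∂mu, Tendsto (fun m => (F m : ℝ → X) t) atTop (𝓝 ((g : ℝ → X) t))) → P F = g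

/-- Operators acting on bounded sequences. -/
noncomputable def mapSeq {A B : Type*} [NormedAddCommGroup A] [NormedSpace ℝ A]
    [NormedAddCommGroup B] [NormedSpace ℝ B] (T : A →L[ℝ] B) : linfSeq A →L[ℝ] linfSeq B :=
  LinearMap.mkContinuous
    { toFun := fun y => mkB (fun n => T (y n)) (‖T‖ * ‖y‖) (fun n =>
        (T.le_opNorm _).trans (mul_le_mul_of_nonneg_left (nrm_apply y n) (norm_nonneg _)))
      map_add' := by
        intro a b
        ext n
        exact map_add T (a n) (b n)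
      map_smul' := by
        intro c a
        ext n
        exact map_smul T c (a n) } ‖T‖ (by
      intro y
      exact nrm_le (by positivity) fun n =>
        (T.le_opNorm _).trans (mul_le_mul_of_nonneg_left (nrm_apply y n) (norm_nonneg _)))

lemma mapSeq_apply {A B : Type*} [NormedAddCommGroup A] [NormedSpace ℝ A]
    [NormedAddCommGroup B] [NormedSpace ℝ B] (T : A →L[ℝ] B) (y : linfSeq A) (n : ℕ) :
    mapSeq T y n = T (y n) := rfl

/-- The property passes to complemented subspaces. -/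
theorem AEProp.aeAdd {L : Type*} [NormedAddCommGroup L] [NormedSpace ℝ L] (h : AEProp ℝ L)
    {X : Type*} [NormedAddCommGroup X] [NormedSpace ℝ X] (T : X →L[ℝ] L) (S : L →L[ℝ] X)
    (hST : ∀ x, S (T x) = x) : AEAdd X := by
  obtain ⟨P, hP⟩ := h
  set Q : linfSeq (LinfUnit X) →L[ℝ] LinfUnit X :=
    (S.compLpL ∞ mu).comp (P.comp (mapSeq (T.compLpL ∞ mu))) with hQ
  refine ⟨(Q : linfSeq (LinfUnit X) →+ LinfUnit X), ‖Q‖, fun F => Q.le_opNorm F,
    fun F g hF => ?_⟩
  change Q F = g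
  rw [hQ, ContinuousLinearMap.comp_apply, ContinuousLinearMap.comp_apply]
  have h1 : P (mapSeq (T.compLpL ∞ mu) F) = T.compLpL ∞ mu g := by
    apply hP
    have h2 : ∀ᵐ t ∂mu, ∀ m, (mapSeq (T.compLpL ∞ mu) F m : ℝ → L) t = T ((F m : ℝ → X) t) :=
      ae_all_iff.2 fun m => by
        rw [mapSeq_apply]
        exact T.coeFn_compLpL (F m)
    filter_upwards [h2, T.coeFn_compLpL (p := ∞) (μ := mu) g, hF] with t h3 h4 h5
    simp only [h3, h4]
    exact (T.continuous.tendsto _).comp h5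
  rw [h1]
  apply Lp.ext
  filter_upwards [S.coeFn_compLpL (p := ∞) (μ := mu) (T.compLpL ∞ mu g),
    T.coeFn_compLpL (p := ∞) (μ := mu) g] with t h3 h4
  rw [h3, h4, hST]

/-- Introduction of scalars. -/
theorem AEAdd.aeProp {X : Type*} [NormedAddCommGroup X] (h : AEAdd X) (𝕜 : Type*) [RCLike 𝕜]
    [NormedSpace 𝕜 X] : AEProp 𝕜 X := by
  obtain ⟨P, C, hC, hP⟩ := h
  have hPc : Continuous P := AddMonoidHomClass.continuous_of_bound P C hC
  have hreal : ∀ (r : ℝ) (F : linfSeq (LinfUnit X)), P ((r : 𝕜) • F) = (r : 𝕜) • P F := by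
    let _ : NormedSpace ℝ (linfSeq (LinfUnit X)) := NormedSpace.restrictScalars ℝ 𝕜 _
    let _ : NormedSpace ℝ (LinfUnit X) := NormedSpace.restrictScalars ℝ 𝕜 _
    exact fun r F => map_real_smul P hPc r F
  rcases RCLike.I_mul_I_ax (K := 𝕜) with hI | hI
  · have hc : ∀ c : 𝕜, ((RCLike.re c : ℝ) : 𝕜) = c := fun c => by
      have := RCLike.re_add_im c
      rw [hI, mul_zero, add_zero] at this
      exact this
    refine ⟨LinearMap.mkContinuous
      { toFun := P
        map_add' := fun F G => map_add P F G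
        map_smul' := fun c F => by
          rw [RingHom.id_apply, ← hc c]
          exact hreal _ F } C hC, fun F g hF => hP F g hF⟩
  · set Q : linfSeq (LinfUnit X) → LinfUnit X := fun F =>
      ((1 / 2 : ℝ) : 𝕜) • (P F - (RCLike.I : 𝕜) • P ((RCLike.I : 𝕜) • F)) with hQ
    have hQadd : ∀ F G, Q (F + G) = Q F + Q G := by
      intro F G
      simp only [hQ]
      rw [smul_add, map_add, map_add]
      module
    have hQreal : ∀ (r : ℝ) F, Q ((r : 𝕜) • F) = (r : 𝕜) • Q F := by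
      intro r F
      simp only [hQ]
      have h1 : (RCLike.I : 𝕜) • ((r : 𝕜) • F) = (r : 𝕜) • ((RCLike.I : 𝕜) • F) := smul_comm _ _ _
      rw [h1, hreal, hreal]
      module
    have hQI : ∀ F, Q ((RCLike.I : 𝕜) • F) = (RCLike.I : 𝕜) • Q F := by
      intro F
      simp only [hQ]
      have h1 : (RCLike.I : 𝕜) • ((RCLike.I : 𝕜) • F) = -F := by
        rw [smul_smul, hI, neg_one_smul]
      rw [h1, map_neg]
      have h2 : (RCLike.I : 𝕜) • (((1 / 2 : ℝ) : 𝕜) •
          (P F - (RCLike.I : 𝕜) • P ((RCLike.I : 𝕜) • F))) =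
          ((1 / 2 : ℝ) : 𝕜) • ((RCLike.I : 𝕜) • P F -
            ((RCLike.I : 𝕜) * (RCLike.I : 𝕜)) • P ((RCLike.I : 𝕜) • F)) := by
        module
      rw [h2, hI]
      module
    have hQsmul : ∀ (c : 𝕜) F, Q (c • F) = c • Q F := by
      intro c F
      have h1 := RCLike.re_add_im c
      rw [← h1, add_smul, hQadd, hQreal, mul_smul, hQreal, hQI]
      module
    have hQn : ∀ F, ‖Q F‖ ≤ C * ‖F‖ := by
      intro F
      simp only [hQ]
      have hI1 : ‖(RCLike.I : 𝕜)‖ ≤ 1 := by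
        have h1 : ‖(RCLike.I : 𝕜)‖ * ‖(RCLike.I : 𝕜)‖ = 1 := by
          rw [← norm_mul, hI, norm_neg, norm_one]
        nlinarith [norm_nonneg (RCLike.I : 𝕜)]
      have hC0 : ∀ F, 0 ≤ C * ‖F‖ := fun F => (norm_nonneg _).trans (hC F)
      rw [norm_smul, RCLike.norm_ofReal, abs_of_pos (by norm_num : (0 : ℝ) < 1 / 2)]
      have h2 : ‖P F - (RCLike.I : 𝕜) • P ((RCLike.I : 𝕜) • F)‖ ≤ C * ‖F‖ + C * ‖F‖ := by
        refine (norm_sub_le _ _).trans (add_le_add (hC F) ?_)
        rw [norm_smul]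
        have h3 : ‖P ((RCLike.I : 𝕜) • F)‖ ≤ C * ‖F‖ := by
          refine (hC _).trans ?_
          rw [norm_smul]
          have h4 : ‖(RCLike.I : 𝕜)‖ = 1 := by
            have h1 : ‖(RCLike.I : 𝕜)‖ * ‖(RCLike.I : 𝕜)‖ = 1 := by
              rw [← norm_mul, hI, norm_neg, norm_one]
            nlinarith [norm_nonneg (RCLike.I : 𝕜)]
          rw [h4, one_mul]
        calc ‖(RCLike.I : 𝕜)‖ * ‖P ((RCLike.I : 𝕜) • F)‖ ≤ 1 * (C * ‖F‖) :=
              mul_le_mul hI1 h3 (norm_nonneg _) zero_le_one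
          _ = C * ‖F‖ := one_mul _
      linarith
    refine ⟨LinearMap.mkContinuous
      { toFun := Q
        map_add' := hQadd
        map_smul' := hQsmul } C hQn, fun F g hF => ?_⟩
    change Q F = g
    simp only [hQ]
    have h1 : P F = g := hP F g hF
    have h2 : P ((RCLike.I : 𝕜) • F) = (RCLike.I : 𝕜) • g := by
      apply hP
      have h3 : ∀ᵐ t ∂mu, ∀ m, (((RCLike.I : 𝕜) • F) m : ℝ → X) t =
          (RCLike.I : 𝕜) • (F m : ℝ → X) t := ae_all_iff.2 fun m => by
        filter_upwards [Lp.coeFn_smul (RCLike.I : 𝕜) (F m)] with t ht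
        change (((RCLike.I : 𝕜) • (F m) : LinfUnit X) : ℝ → X) t = _
        rw [ht, Pi.smul_apply]
      filter_upwards [h3, Lp.coeFn_smul (RCLike.I : 𝕜) g, hF] with t h4 h5 h6
      simp only [h4]
      rw [h5, Pi.smul_apply]
      exact h6.const_smul _
    rw [h1, h2, smul_smul, hI, neg_one_smul, sub_neg_eq_add, ← two_smul 𝕜, smul_smul]
    push_cast
    rw [show (1 / 2 : 𝕜) * 2 = 1 by norm_num, one_smul]

/-- A real copy of `c_0` gives a copy of `c_0`. -/
lemma not_containsC0_of_iso {𝕜 : Type*} [RCLike 𝕜] {X : Type*} [NormedAddCommGroup X]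
    [NormedSpace 𝕜 X] [CompleteSpace X] (hX : ¬ ContainsC0 𝕜 X) {L : Type*}
    [NormedAddCommGroup L] [NormedSpace ℝ L] (T : X → L) (hT0 : T 0 = 0) (hT : Continuous T)
    (S : L →+ X) {K : ℝ} (hS : ∀ y, ‖S y‖ ≤ K * ‖y‖) (hTS : ∀ y, T (S y) = y) (hK : 0 ≤ K) :
    ¬ ContainsC0 ℝ L := by
  rintro ⟨J, c, hc, hJ⟩
  have hWU : WU (K * (‖J‖ * 1)) (fun n => S (J (ec ℝ n))) := by
    intro F
    rw [← map_sum, ← map_sum]
    refine (hS _).trans (mul_le_mul_of_nonneg_left ?_ hK)
    refine (J.le_opNorm _).trans (mul_le_mul_of_nonneg_left ?_ (norm_nonneg _))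
    have := norm_comb (𝕜 := ℝ) F (fun _ => 1) zero_le_one (fun _ => by simp)
    simpa using this
  have h1 := hWU.tendsto_zero 𝕜 hX
  have h2 : Tendsto (fun n => J (ec ℝ n)) atTop (𝓝 0) := by
    have h3 := (hT.tendsto 0).comp h1
    rw [hT0] at h3
    refine h3.congr fun n => ?_
    exact hTS _
  have h3 := h2.norm
  rw [norm_zero] at h3
  have h4 : ∀ n, c ≤ ‖J (ec ℝ n)‖ := fun n => by
    have h5 := hJ (ec ℝ n)
    have h6 := norm_ec (𝕜 := ℝ) n
    nlinarith
  have := ge_of_tendsto' h3 h4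
  linarith

/-- If the Banach space `X` is isomorphic as a real Banach space to a real Banach lattice and does
not contain `c_0`, then almost everywhere convergent sequences have a generalised limit. -/
theorem lattice_aeProp (𝕜 : Type*) [RCLike 𝕜] (X : Type*) [NormedAddCommGroup X]
    [NormedSpace 𝕜 X] [CompleteSpace X] (L : Type*) [NormedAddCommGroup L] [Lattice L]
    [HasSolidNorm L] [IsOrderedAddMonoid L] [NormedSpace ℝ L] [CompleteSpace L] (e : X ≃+ L)
    (he : Continuous e) (he' : Continuous e.symm) (hX : ¬ ContainsC0 𝕜 X) : AEProp 𝕜 X := by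
  let _ : NormedSpace ℝ X := NormedSpace.restrictScalars ℝ 𝕜 X
  let T : X →L[ℝ] L := AddMonoidHom.toRealLinearMap (e : X →+ L) he
  let S : L →L[ℝ] X := AddMonoidHom.toRealLinearMap (e.symm : L →+ X) he'
  have hL : ¬ ContainsC0 ℝ L := not_containsC0_of_iso hX T (map_zero T) T.continuous
    (S : L →+ X) (fun y => S.le_opNorm y) (fun y => e.apply_symm_apply y) (norm_nonneg S)
  exact ((AEProp.of_KB (KB.of_not_containsC0 hL)).aeAdd T S
    (fun x => e.symm_apply_apply x)).aeProp 𝕜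

/-- **Banach lattices.** -/
theorem lattice_main (𝕜 : Type*) [RCLike 𝕜] (X : Type*) [NormedAddCommGroup X]
    [NormedSpace 𝕜 X] [CompleteSpace X] (L : Type*) [NormedAddCommGroup L] [Lattice L]
    [HasSolidNorm L] [IsOrderedAddMonoid L] [NormedSpace ℝ L] [CompleteSpace L] (e : X ≃+ L)
    (he : Continuous e) (he' : Continuous e.symm) (hX : ¬ ContainsLinf 𝕜 X) :
    Iso 𝕜 (linfSeq X) (LinfUnit X) ↔ ¬ ContainsC0 𝕜 X := by
  refine ⟨fun h hc0 => ?_, fun h => (lattice_aeProp 𝕜 X L e he he' h).iso⟩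
  exact main hc0 (E := fun _ => X) (fun _ => hX) h.symm.complemented

end Pool.Agent.LinfX
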