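import Pool.Agent.LinfX.WUC

/-!
Restriction operators on `L^∞([0,1], X)`, and absolute continuity, off a small set, of operators
into Banach spaces without `c_0`.
-/

open MeasureTheory Set Filter Topology
open scoped ENNReal NNReal

namespace Pool.Agent.LinfX

variable {𝕜 : Type*} [RCLike 𝕜]
variable {X : Type*} [NormedAddCommGroup X] [NormedSpace 𝕜 X]

lemma memLp_ind {X : Type*} [NormedAddCommGroup X] {B : Set ℝ} (hB : MeasurableSet B)
    (f : LinfUnit X) : MemLp (B.indicator f) ∞ mu := (Lp.memLp f).indicator hB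

/-- Multiplication by an indicator function. -/
noncomputable def cutAux {X : Type*} [NormedAddCommGroup X] {B : Set ℝ} (hB : MeasurableSet B)
    (f : LinfUnit X) : LinfUnit X :=
  (memLp_ind hB f).toLp (B.indicator f)

lemma cutAux_coe {X : Type*} [NormedAddCommGroup X] {B : Set ℝ} (hB : MeasurableSet B)
    (f : LinfUnit X) : (cutAux hB f : ℝ → X) =ᵐ[mu] B.indicator f :=
  MemLp.coeFn_toLp (memLp_ind hB f)

/-- Multiplication by an indicator function as an operator. -/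
noncomputable def cutL (𝕜 : Type*) [RCLike 𝕜] {X : Type*} [NormedAddCommGroup X]
    [NormedSpace 𝕜 X] {B : Set ℝ} (hB : MeasurableSet B) : LinfUnit X →L[𝕜] LinfUnit X :=
  LinearMap.mkContinuous
    { toFun := fun f => cutAux hB f
      map_add' := by
        intro f g
        apply Lp.ext
        filter_upwards [cutAux_coe hB (f + g), Lp.coeFn_add f g,
          Lp.coeFn_add (cutAux hB f) (cutAux hB g), cutAux_coe hB f, cutAux_coe hB g]
          with t h1 h2 h3 h4 h5
        rw [h1, h3, Pi.add_apply, h4, h5]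
        by_cases ht : t ∈ B
        · simp only [indicator_of_mem ht, h2, Pi.add_apply]
        · simp only [indicator_of_notMem ht, add_zero]
      map_smul' := by
        intro c f
        apply Lp.ext
        filter_upwards [cutAux_coe hB (c • f), Lp.coeFn_smul c f,
          Lp.coeFn_smul c (cutAux hB f), cutAux_coe hB f] with t h1 h2 h3 h4
        rw [RingHom.id_apply, h1, h3, Pi.smul_apply, h4]
        by_cases ht : t ∈ B
        · simp only [indicator_of_mem ht, h2, Pi.smul_apply]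
        · simp only [indicator_of_notMem ht, smul_zero] } 1 (by
      intro f
      rw [one_mul]
      apply norm_le_of_ae (norm_nonneg _)
      filter_upwards [cutAux_coe hB f, ae_norm_le f] with t h1 h2
      change ‖cutAux hB f t‖ ≤ ‖f‖
      rw [h1]
      exact (norm_indicator_le_norm_self _ _).trans h2)

open Classical in
/-- Multiplication by the indicator function of `B` (zero if `B` is not measurable). -/
noncomputable def cut (𝕜 : Type*) [RCLike 𝕜] {X : Type*} [NormedAddCommGroup X]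
    [NormedSpace 𝕜 X] (B : Set ℝ) : LinfUnit X →L[𝕜] LinfUnit X :=
  if hB : MeasurableSet B then cutL 𝕜 hB else 0

lemma cut_coe {B : Set ℝ} (hB : MeasurableSet B) (f : LinfUnit X) :
    (cut 𝕜 B f : ℝ → X) =ᵐ[mu] B.indicator f := by
  unfold cut
  rw [dif_pos hB]
  exact cutAux_coe hB f

lemma norm_cut_le (B : Set ℝ) (f : LinfUnit X) : ‖cut 𝕜 B f‖ ≤ ‖f‖ := by
  by_cases hB : MeasurableSet B
  · apply norm_le_of_ae (norm_nonneg _)
    filter_upwards [cut_coe (𝕜 := 𝕜) hB f, ae_norm_le f] with t h1 h2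
    rw [h1]
    exact (norm_indicator_le_norm_self _ _).trans h2
  · unfold cut
    rw [dif_neg hB]
    simp

lemma cut_opNorm_le (B : Set ℝ) : ‖(cut 𝕜 B : LinfUnit X →L[𝕜] LinfUnit X)‖ ≤ 1 :=
  ContinuousLinearMap.opNorm_le_bound _ zero_le_one fun f => by
    rw [one_mul]; exact norm_cut_le B f

lemma cut_cut {A B : Set ℝ} (hA : MeasurableSet A) (hB : MeasurableSet B) (f : LinfUnit X) :
    cut 𝕜 A (cut 𝕜 B f) = cut 𝕜 (A ∩ B) f := by
  apply Lp.ext
  filter_upwards [cut_coe (𝕜 := 𝕜) hA (cut 𝕜 B f), cut_coe (𝕜 := 𝕜) hB f,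
    cut_coe (𝕜 := 𝕜) (hA.inter hB) f] with t h1 h2 h3
  rw [h1, h3]
  by_cases hta : t ∈ A
  · rw [indicator_of_mem hta, h2]
    by_cases htb : t ∈ B
    · rw [indicator_of_mem htb, indicator_of_mem (show t ∈ A ∩ B from ⟨hta, htb⟩)]
    · rw [indicator_of_notMem htb, indicator_of_notMem (fun h => htb h.2)]
  · rw [indicator_of_notMem hta, indicator_of_notMem (fun h => hta h.1)]

lemma cut_eq_of_subset {A B : Set ℝ} (hA : MeasurableSet A) (hB : MeasurableSet B) (h : A ⊆ B)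
    (f : LinfUnit X) : cut 𝕜 B (cut 𝕜 A f) = cut 𝕜 A f := by
  rw [cut_cut hB hA, inter_eq_right.2 h]

variable {Y : Type*} [NormedAddCommGroup Y] [NormedSpace 𝕜 Y]

lemma norm_comp_cut_mono (T : LinfUnit X →L[𝕜] Y) {A B : Set ℝ} (hA : MeasurableSet A)
    (hB : MeasurableSet B) (h : A ⊆ B) : ‖T.comp (cut 𝕜 A)‖ ≤ ‖T.comp (cut 𝕜 B)‖ := by
  apply ContinuousLinearMap.opNorm_le_bound _ (norm_nonneg _)
  intro f
  have h1 := (T.comp (cut 𝕜 B)).le_opNorm (cut 𝕜 A f)
  rw [ContinuousLinearMap.comp_apply, cut_eq_of_subset hA hB h] at h1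
  exact h1.trans (mul_le_mul_of_nonneg_left (norm_cut_le A f) (norm_nonneg _))

/-- A finite sum of restrictions to disjoint sets. -/
lemma norm_sum_cut_le {B : ℕ → Set ℝ} (hB : ∀ j, MeasurableSet (B j))
    (hd : ∀ i j, i ≠ j → Disjoint (B i) (B j)) (f : ℕ → LinfUnit X) {C : ℝ} (hC : 0 ≤ C)
    (hf : ∀ j, ‖f j‖ ≤ C) (F : Finset ℕ) : ‖∑ j ∈ F, cut 𝕜 (B j) (f j)‖ ≤ C := by
  apply norm_le_of_ae hC
  have e1 := Lp.coeFn_finsetSum (p := ∞) (μ := mu) F (fun j => cut 𝕜 (B j) (f j))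
  have e2 : ∀ᵐ t ∂mu, ∀ j, (cut 𝕜 (B j) (f j) : ℝ → X) t = (B j).indicator (f j) t :=
    ae_all_iff.2 fun j => cut_coe (hB j) (f j)
  have e3 : ∀ᵐ t ∂mu, ∀ j, ‖f j t‖ ≤ C := ae_all_iff.2 fun j => by
    filter_upwards [ae_norm_le (f j)] with t ht
    exact ht.trans (hf j)
  filter_upwards [e1, e2, e3] with t h1 h2 h3
  rw [h1, Finset.sum_apply, Finset.sum_congr rfl (fun j _ => h2 j)]
  by_cases hex : ∃ i ∈ F, t ∈ B i
  · obtain ⟨i, hi, hti⟩ := hex
    rw [Finset.sum_eq_single_of_mem i hi]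
    · rw [indicator_of_mem hti]; exact h3 i
    · intro j _ hji
      apply indicator_of_notMem
      exact fun htj => Set.disjoint_left.1 (hd j i hji) htj hti
  · push Not at hex
    rw [Finset.sum_eq_zero]
    · rw [norm_zero]; exact hC
    · intro j hj
      exact indicator_of_notMem (hex j hj) _

/-- The semivariation of an operator into a space without `c_0` tends to zero along disjoint
sets. -/
lemma tendsto_disjoint [CompleteSpace Y] (hY : ¬ ContainsC0 𝕜 Y) (T : LinfUnit X →L[𝕜] Y)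
    {B : ℕ → Set ℝ} (hB : ∀ j, MeasurableSet (B j)) (hd : ∀ i j, i ≠ j → Disjoint (B i) (B j))
    {η : ℝ} (hη : 0 < η) (hlow : ∀ j, η < ‖T.comp (cut 𝕜 (B j))‖) : False := by
  have hex : ∀ j, ∃ f : LinfUnit X, ‖f‖ < 1 ∧ η < ‖T (cut 𝕜 (B j) f)‖ := by
    intro j
    obtain ⟨f, hf1, hf2⟩ := (T.comp (cut 𝕜 (B j))).exists_lt_apply_of_lt_opNorm (hlow j)
    exact ⟨f, hf1, hf2⟩
  choose f hf1 hf2 using hex
  have hu : WU (‖T‖ * 1) (fun j => T (cut 𝕜 (B j) (f j))) := by
    intro F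
    rw [← map_sum]
    refine (T.le_opNorm _).trans ?_
    exact mul_le_mul_of_nonneg_left
      (norm_sum_cut_le hB hd f zero_le_one (fun j => (hf1 j).le) F) (norm_nonneg _)
  have h1 := hu.tendsto_zero 𝕜 hY
  rw [Metric.tendsto_atTop] at h1
  obtain ⟨N, hN⟩ := h1 η hη
  have h2 := hN N le_rfl
  rw [dist_zero_right] at h2
  exact absurd (hf2 N) (not_lt.2 h2.le)

/-- Off a set of small measure, an operator into a space without `c_0` has uniformly small
semivariation on small sets; one level. -/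
lemma exists_level [CompleteSpace Y] (hY : ¬ ContainsC0 𝕜 Y) (T : LinfUnit X →L[𝕜] Y)
    {η : ℝ} (hη : 0 < η) {ε : ℝ≥0∞} (hε : 0 < ε) :
    ∃ A : Set ℝ, MeasurableSet A ∧ mu A ≤ ε ∧ ∃ θ : ℝ≥0∞, 0 < θ ∧ ∀ B : Set ℝ, MeasurableSet B →
      Disjoint B A → mu B ≤ θ → ‖T.comp (cut 𝕜 B)‖ ≤ η := by
  by_contra hcon
  push Not at hcon
  obtain ⟨ε', hε'0, hε'⟩ := ENNReal.exists_pos_sum_of_countable hε.ne' ℕ
  have hstep : ∀ (A : Set ℝ) (θ : ℝ≥0∞), ∃ B : Set ℝ, MeasurableSet B ∧ (MeasurableSet A →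
      mu A ≤ ε → 0 < θ → (Disjoint B A ∧ mu B ≤ θ ∧ η < ‖T.comp (cut 𝕜 B)‖)) := by
    intro A θ
    by_cases h : MeasurableSet A ∧ mu A ≤ ε ∧ 0 < θ
    · obtain ⟨B, hB1, hB2, hB3, hB4⟩ := hcon A h.1 h.2.1 θ h.2.2
      exact ⟨B, hB1, fun _ _ _ => ⟨hB2, hB3, hB4⟩⟩
    · exact ⟨∅, MeasurableSet.empty, fun h1 h2 h3 => absurd ⟨h1, h2, h3⟩ h⟩
  choose pick hpm hpick using hstep
  let A : ℕ → Set ℝ := fun n => Nat.rec ∅ (fun k s => s ∪ pick s (ε' k)) n
  have hA0 : A 0 = ∅ := rfl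
  have hA : ∀ n, A (n + 1) = A n ∪ pick (A n) (ε' n) := fun n => rfl
  have hAm : ∀ n, MeasurableSet (A n) := by
    intro n
    induction n with
    | zero => exact MeasurableSet.empty
    | succ n ih => rw [hA]; exact ih.union (hpm _ _)
  have hAle : ∀ n, mu (A n) ≤ ∑ k ∈ Finset.range n, (ε' k : ℝ≥0∞) ∧ mu (A n) ≤ ε := by
    intro n
    have hfin : ∀ n, ∑ k ∈ Finset.range n, (ε' k : ℝ≥0∞) ≤ ε := fun n =>
      (ENNReal.sum_le_tsum _).trans hε'.le
    induction n with
    | zero => rw [hA0]; simp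
    | succ n ih =>
      obtain ⟨-, h2, -⟩ := hpick (A n) (ε' n) (hAm n) ih.2 (by exact_mod_cast hε'0 n)
      have h3 : mu (A (n + 1)) ≤ ∑ k ∈ Finset.range (n + 1), (ε' k : ℝ≥0∞) := by
        rw [hA, Finset.sum_range_succ]
        exact (measure_union_le _ _).trans (add_le_add ih.1 h2)
      exact ⟨h3, h3.trans (hfin _)⟩
  have hprop : ∀ n, Disjoint (pick (A n) (ε' n)) (A n) ∧
      η < ‖T.comp (cut 𝕜 (pick (A n) (ε' n)))‖ := by
    intro n
    obtain ⟨h1, -, h3⟩ := hpick (A n) (ε' n) (hAm n) (hAle n).2 (by exact_mod_cast hε'0 n)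
    exact ⟨h1, h3⟩
  have hmono : Monotone A := monotone_nat_of_le_succ fun n => by
    rw [hA]; exact subset_union_left
  have hdisj : ∀ i j, i < j → Disjoint (pick (A j) (ε' j)) (pick (A i) (ε' i)) := by
    intro i j hij
    refine (hprop j).1.mono_right ?_
    refine Subset.trans ?_ (hmono (Nat.succ_le_of_lt hij))
    rw [Nat.succ_eq_add_one, hA]
    exact subset_union_right
  refine tendsto_disjoint hY T (B := fun n => pick (A n) (ε' n)) (fun n => hpm _ _) ?_ hη
    (fun n => (hprop n).2)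
  intro i j hij
  rcases lt_or_gt_of_ne hij with h1 | h1
  · exact (hdisj i j h1).symm
  · exact hdisj j i h1

/-- `T` is absolutely continuous on the subsets of the complement of `A`. -/
def ACoff (T : LinfUnit X →L[𝕜] Y) (A : Set ℝ) : Prop :=
  ∀ η : ℝ, 0 < η → ∃ θ : ℝ≥0∞, 0 < θ ∧ ∀ B : Set ℝ, MeasurableSet B →
      Disjoint B A → mu B ≤ θ → ‖T.comp (cut 𝕜 B)‖ ≤ η

/-- Off a set of small measure, countably many operators into a space without `c_0` are
absolutely continuous. -/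
theorem exists_ACoff [CompleteSpace Y] (hY : ¬ ContainsC0 𝕜 Y) (T : ℕ → LinfUnit X →L[𝕜] Y)
    {ε : ℝ≥0∞} (hε : 0 < ε) :
    ∃ A : Set ℝ, MeasurableSet A ∧ mu A ≤ ε ∧ ∀ n, ACoff (T n) A := by
  obtain ⟨ε', hε'0, hε'⟩ := ENNReal.exists_pos_sum_of_countable hε.ne' (ℕ × ℕ)
  have hl : ∀ p : ℕ × ℕ, _ := fun p : ℕ × ℕ => exists_level hY (T p.1)
    (η := 1 / ((p.2 : ℝ) + 1)) (by positivity) (ε := ε' p) (by exact_mod_cast hε'0 p)
  choose A hAm hAle θ hθ hA using hl
  refine ⟨⋃ p, A p, MeasurableSet.iUnion hAm, ?_, ?_⟩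
  · refine (measure_iUnion_le _).trans ?_
    exact (ENNReal.tsum_le_tsum hAle).trans hε'.le
  · intro n η hη
    obtain ⟨k, hk⟩ := exists_nat_one_div_lt hη
    refine ⟨θ (n, k), hθ (n, k), fun B hB hBA hBθ => ?_⟩
    exact (hA (n, k) B hB (hBA.mono_right (subset_iUnion A (n, k))) hBθ).trans hk.le

/-- Choice of signs: averaging over all signs. -/
lemma exists_signs_norm {ι : Type*} [Fintype ι] [DecidableEq ι] {Z : Type*} [AddCommGroup Z]
    [Module 𝕜 Z] (ρ : ι → Z → ℝ) (hsub : ∀ i a b, ρ i (a - b) ≤ ρ i a + ρ i b)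
    (htwo : ∀ i a, 2 * ρ i a ≤ ρ i ((2 : 𝕜) • a)) (hneg : ∀ i a, ρ i (-a) = ρ i a)
    (v : ι → Z) : ∃ ε : ι → 𝕜, (∀ i, ε i = 1 ∨ ε i = -1) ∧
      ∑ i, ρ i (v i) ≤ ∑ i, ρ i (∑ j, ε j • v j) := by
  classical
  let s : Bool → 𝕜 := fun b => if b then 1 else -1
  let g : (ι → Bool) → Z := fun ε => ∑ j, s (ε j) • v j
  have hflip : ∀ (i : ι) (ε : ι → Bool), g ε - g (Function.update ε i (!ε i)) =
      (2 : 𝕜) • (s (ε i) • v i) := by
    intro i ε
    have h1 : g ε = s (ε i) • v i + ∑ j ∈ Finset.univ.erase i, s (ε j) • v j :=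
      (Finset.add_sum_erase _ _ (Finset.mem_univ i)).symm
    have h2 : g (Function.update ε i (!ε i)) = s (!ε i) • v i +
        ∑ j ∈ Finset.univ.erase i, s (ε j) • v j := by
      have : g (Function.update ε i (!ε i)) = s (Function.update ε i (!ε i) i) • v i +
        ∑ j ∈ Finset.univ.erase i, s (Function.update ε i (!ε i) j) • v j :=
        (Finset.add_sum_erase _ _ (Finset.mem_univ i)).symm
      rw [this, Function.update_self]
      congr 1
      apply Finset.sum_congr rfl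
      intro j hj
      rw [Function.update_of_ne (Finset.ne_of_mem_erase hj)]
    rw [h1, h2, add_sub_add_right_eq_sub]
    cases ε i
    · simp only [s, Bool.not_false, if_true]
      rw [← sub_smul, smul_smul]
      congr 1
      norm_num
    · simp only [s, Bool.not_true, if_true]
      rw [← sub_smul, smul_smul]
      congr 1
      norm_num
  have hρs : ∀ (i : ι) (ε : ι → Bool), ρ i (s (ε i) • v i) = ρ i (v i) := by
    intro i ε
    cases ε i
    · simp [s, hneg]
    · simp [s]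
  have hinv : ∀ i : ι, Function.Involutive (fun ε : ι → Bool => Function.update ε i (!ε i)) := by
    intro i ε
    simp
  have hsum : ∀ i : ι, ∑ _ε : ι → Bool, ρ i (v i) ≤ ∑ ε : ι → Bool, ρ i (g ε) := by
    intro i
    have e1 : ∑ ε : ι → Bool, ρ i (g (Function.update ε i (!ε i))) = ∑ ε : ι → Bool, ρ i (g ε) :=
      Equiv.sum_comp (Function.Involutive.toPerm _ (hinv i)) (fun ε => ρ i (g ε))
    have e2 : ∑ ε : ι → Bool, 2 * ρ i (v i) ≤
        ∑ ε : ι → Bool, (ρ i (g ε) + ρ i (g (Function.update ε i (!ε i)))) := by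
      apply Finset.sum_le_sum
      intro ε _
      have h1 := hsub i (g ε) (g (Function.update ε i (!ε i)))
      have h2 := htwo i (s (ε i) • v i)
      rw [hflip] at h1
      rw [hρs] at h2
      linarith
    rw [Finset.sum_add_distrib, e1, ← Finset.mul_sum] at e2
    linarith
  have htot : ∑ _ε : ι → Bool, ∑ i, ρ i (v i) ≤ ∑ ε : ι → Bool, ∑ i, ρ i (g ε) := by
    rw [Finset.sum_comm]
    rw [Finset.sum_comm (f := fun ε i => ρ i (g ε))]
    exact Finset.sum_le_sum fun i _ => hsum i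
  obtain ⟨ε, -, hε⟩ := Finset.exists_le_of_sum_le (Finset.univ_nonempty) htot
  refine ⟨fun i => s (ε i), fun i => ?_, hε⟩
  have : ∀ b : Bool, s b = 1 ∨ s b = -1 := by
    intro b; cases b
    · right; rfl
    · left; rfl
  exact this (ε i)

end Pool.Agent.LinfX
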