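import Pool.Agent.LinfX.Defs

open MeasureTheory Set Filter Topology
open scoped ENNReal

namespace Pool.Agent.LinfX

/-- Rosenthal's lemma for superadditive bounded set functions. -/
lemma rosenthal_aux (ν : ℕ → Set ℕ → ℝ) (_hpos : ∀ n A, 0 ≤ ν n A)
    (hmono : ∀ n A B, A ⊆ B → ν n A ≤ ν n B)
    (hadd : ∀ n A B, Disjoint A B → ν n A + ν n B ≤ ν n (A ∪ B)) {ε : ℝ} (hε : 0 < ε) (N : ℕ) :
    ∀ S : Set ℕ, S.Infinite → (∀ n ∈ S, ν n S ≤ N * ε) →
      ∃ M ⊆ S, M.Infinite ∧ ∀ n ∈ M, ν n (M \ {n}) < ε := by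
  induction N with
  | zero =>
    intro S hS h
    refine ⟨S, Subset.rfl, hS, fun n hn => ?_⟩
    have h1 := h n hn
    have h2 := hmono n (S \ {n}) S sdiff_subset
    simp only [Nat.cast_zero, zero_mul] at h1
    linarith
  | succ N ih =>
    intro S hS h
    set e := hS.natEmbedding with he
    -- pieces
    set piece : ℕ → Set ℕ := fun p => range (fun q : ℕ => ((e (Nat.pair p q) : S) : ℕ)) with hpiece
    have hinj : ∀ p q p' q', ((e (Nat.pair p q) : S) : ℕ) = (e (Nat.pair p' q') : S) →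
        p = p' ∧ q = q' := by
      intro p q p' q' hEq
      have h1 := e.injective (Subtype.ext hEq)
      have h2 := Nat.pair_eq_pair.1 h1
      exact h2
    have hsub : ∀ p, piece p ⊆ S := by
      rintro p _ ⟨q, rfl⟩
      exact (e (Nat.pair p q)).2
    have hinf : ∀ p, (piece p).Infinite := by
      intro p
      apply infinite_range_of_injective
      intro q q' hqq
      exact (hinj _ _ _ _ hqq).2
    by_cases hp : ∃ p, ∀ n ∈ piece p, ν n (piece p \ {n}) < ε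
    · obtain ⟨p, hp⟩ := hp
      exact ⟨piece p, hsub p, hinf p, hp⟩
    · push Not at hp
      choose k hk hkν using hp
      have hkinj : Function.Injective k := by
        intro p p' hpp
        obtain ⟨q, hq⟩ := hk p
        obtain ⟨q', hq'⟩ := hk p'
        simp only at hq hq'
        rw [← hpp] at hq'
        exact (hinj _ _ _ _ (hq.trans hq'.symm)).1
      have hS' : (range k).Infinite := infinite_range_of_injective hkinj
      have hS'S : range k ⊆ S := by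
        rintro _ ⟨p, rfl⟩
        exact hsub p (hk p)
      obtain ⟨M, hM, hMi, hMν⟩ := ih (range k) hS' (by
        rintro _ ⟨p, rfl⟩
        have hdis : Disjoint (range k) (piece p \ {k p}) := by
          rw [Set.disjoint_left]
          rintro _ ⟨p', rfl⟩ ⟨h1, h2⟩
          apply h2
          obtain ⟨q, hq⟩ := h1
          obtain ⟨q', hq'⟩ := hk p'
          simp only at hq hq'
          have := (hinj _ _ _ _ (hq.trans hq'.symm)).1
          rw [mem_singleton_iff, this]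
        have h1 := hadd (k p) _ _ hdis
        have h2 := hmono (k p) (range k ∪ (piece p \ {k p})) S
          (union_subset hS'S (sdiff_subset.trans (hsub p)))
        have h3 := h (k p) (hS'S ⟨p, rfl⟩)
        have h4 := hkν p
        push_cast at h3
        linarith)
      exact ⟨M, hM.trans hS'S, hMi, hMν⟩

variable {𝕜 : Type*} [RCLike 𝕜]

/-- The variation of a functional on a set of coordinates. -/
noncomputable def vari (w : lp (fun _ : ℕ => 𝕜) ∞ →L[𝕜] 𝕜) (A : Set ℕ) : ℝ :=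
  sSup ((fun a => ‖w a‖) '' {a : lp (fun _ : ℕ => 𝕜) ∞ | ‖a‖ ≤ 1 ∧ ∀ i ∉ A, a i = 0})

lemma vari_bdd (w : lp (fun _ : ℕ => 𝕜) ∞ →L[𝕜] 𝕜) (A : Set ℕ) :
    BddAbove ((fun a => ‖w a‖) '' {a : lp (fun _ : ℕ => 𝕜) ∞ | ‖a‖ ≤ 1 ∧ ∀ i ∉ A, a i = 0}) := by
  refine ⟨‖w‖, ?_⟩
  rintro _ ⟨a, ⟨ha, -⟩, rfl⟩
  exact (w.le_opNorm a).trans (mul_le_of_le_one_right (norm_nonneg _) ha)

lemma le_vari (w : lp (fun _ : ℕ => 𝕜) ∞ →L[𝕜] 𝕜) {A : Set ℕ} {a : lp (fun _ : ℕ => 𝕜) ∞}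
    (h1 : ‖a‖ ≤ 1) (h2 : ∀ i ∉ A, a i = 0) : ‖w a‖ ≤ vari w A :=
  le_csSup (vari_bdd w A) ⟨a, ⟨h1, h2⟩, rfl⟩

lemma vari_nonneg (w : lp (fun _ : ℕ => 𝕜) ∞ →L[𝕜] 𝕜) (A : Set ℕ) : 0 ≤ vari w A := by
  have := le_vari w (A := A) (a := 0) (by simp) (by simp)
  simpa using this

lemma vari_le (w : lp (fun _ : ℕ => 𝕜) ∞ →L[𝕜] 𝕜) (A : Set ℕ) {C : ℝ}
    (h : ∀ a : lp (fun _ : ℕ => 𝕜) ∞, ‖a‖ ≤ 1 → (∀ i ∉ A, a i = 0) → ‖w a‖ ≤ C) :
    vari w A ≤ C := by
  apply csSup_le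
  · exact ⟨_, ⟨0, by simp, rfl⟩⟩
  · rintro _ ⟨a, ⟨h1, h2⟩, rfl⟩
    exact h a h1 h2

lemma vari_le_norm (w : lp (fun _ : ℕ => 𝕜) ∞ →L[𝕜] 𝕜) (A : Set ℕ) : vari w A ≤ ‖w‖ :=
  vari_le w A fun a ha _ => (w.le_opNorm a).trans (mul_le_of_le_one_right (norm_nonneg _) ha)

lemma vari_mono (w : lp (fun _ : ℕ => 𝕜) ∞ →L[𝕜] 𝕜) {A B : Set ℕ} (h : A ⊆ B) :
    vari w A ≤ vari w B :=
  vari_le w A fun _ h1 h2 => le_vari w h1 fun i hi => h2 i fun hiA => hi (h hiA)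

/-- A unimodular scalar rotating `z` to `‖z‖`. -/
lemma exists_rot (z : 𝕜) : ∃ c : 𝕜, ‖c‖ = 1 ∧ c * z = (‖z‖ : 𝕜) := by
  by_cases hz : z = 0
  · exact ⟨1, by simp, by simp [hz]⟩
  · refine ⟨(‖z‖ : 𝕜) / z, ?_, ?_⟩
    · rw [norm_div, RCLike.norm_ofReal, abs_norm, div_self (norm_ne_zero_iff.2 hz)]
    · rw [div_mul_cancel₀ _ hz]

lemma vari_add (w : lp (fun _ : ℕ => 𝕜) ∞ →L[𝕜] 𝕜) {A B : Set ℕ} (h : Disjoint A B) :
    vari w A + vari w B ≤ vari w (A ∪ B) := by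
  have key : ∀ a b : lp (fun _ : ℕ => 𝕜) ∞, ‖a‖ ≤ 1 → (∀ i ∉ A, a i = 0) → ‖b‖ ≤ 1 →
      (∀ i ∉ B, b i = 0) → ‖w a‖ + ‖w b‖ ≤ vari w (A ∪ B) := by
    intro a b ha1 ha2 hb1 hb2
    obtain ⟨c, hc, hca⟩ := exists_rot (w a)
    obtain ⟨d, hd, hdb⟩ := exists_rot (w b)
    have h1 : w (c • a + d • b) = ((‖w a‖ + ‖w b‖ : ℝ) : 𝕜) := by
      rw [map_add, map_smul, map_smul, smul_eq_mul, smul_eq_mul, hca, hdb]
      push_cast
      ring
    have h2 : ‖w (c • a + d • b)‖ = ‖w a‖ + ‖w b‖ := by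
      rw [h1, RCLike.norm_ofReal, abs_of_nonneg (by positivity)]
    rw [← h2]
    apply le_vari
    · apply lp.norm_le_of_forall_le zero_le_one
      intro i
      have hval : (c • a + d • b : lp (fun _ : ℕ => 𝕜) ∞) i = c * a i + d * b i := rfl
      rw [hval]
      by_cases hiA : i ∈ A
      · have hiB : i ∉ B := fun hiB => Set.disjoint_left.1 h hiA hiB
        rw [hb2 i hiB, mul_zero, add_zero, norm_mul, hc, one_mul]
        exact (lp.norm_apply_le_norm ENNReal.top_ne_zero a i).trans ha1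
      · rw [ha2 i hiA, mul_zero, zero_add, norm_mul, hd, one_mul]
        exact (lp.norm_apply_le_norm ENNReal.top_ne_zero b i).trans hb1
    · intro i hi
      have hval : (c • a + d • b : lp (fun _ : ℕ => 𝕜) ∞) i = c * a i + d * b i := rfl
      rw [hval, ha2 i (fun h => hi (Or.inl h)), hb2 i (fun h => hi (Or.inr h))]
      ring
  have h1 : vari w A ≤ vari w (A ∪ B) - vari w B := by
    apply vari_le
    intro a ha1 ha2
    have h2 : vari w B ≤ vari w (A ∪ B) - ‖w a‖ := by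
      apply vari_le
      intro b hb1 hb2
      have := key a b ha1 ha2 hb1 hb2
      linarith
    linarith
  linarith

/-- Rosenthal's lemma for functionals on `ℓ^∞`. -/
lemma rosenthal (w : ℕ → (lp (fun _ : ℕ => 𝕜) ∞ →L[𝕜] 𝕜)) {C : ℝ} (hC : ∀ n, ‖w n‖ ≤ C)
    {S : Set ℕ} (hS : S.Infinite) {ε : ℝ} (hε : 0 < ε) :
    ∃ M ⊆ S, M.Infinite ∧ ∀ n ∈ M, ∀ a : lp (fun _ : ℕ => 𝕜) ∞, (∀ i ∉ M, a i = 0) →
      a n = 0 → ‖w n a‖ ≤ ε * ‖a‖ := by
  obtain ⟨N, hN⟩ := exists_nat_ge (C / ε)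
  obtain ⟨M, hMS, hM, hMν⟩ := rosenthal_aux (fun n A => vari (w n) A)
    (fun n A => vari_nonneg _ _) (fun n A B h => vari_mono _ h) (fun n A B h => vari_add _ h)
    hε N S hS (by
      intro n _
      refine (vari_le_norm _ _).trans ((hC n).trans ?_)
      rwa [div_le_iff₀ hε] at hN)
  refine ⟨M, hMS, hM, fun n hn a ha han => ?_⟩
  by_cases ha0 : a = 0
  · rw [ha0]; simp
  have hpos : 0 < ‖a‖ := norm_pos_iff.2 ha0
  have h1 := le_vari (w n) (A := M \ {n}) (a := (‖a‖⁻¹ : 𝕜) • a) (by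
      rw [norm_smul, norm_inv, RCLike.norm_ofReal, abs_norm, inv_mul_cancel₀ hpos.ne']) (by
      intro i hi
      have hval : ((‖a‖⁻¹ : 𝕜) • a : lp (fun _ : ℕ => 𝕜) ∞) i = (‖a‖⁻¹ : 𝕜) * a i := rfl
      rw [hval]
      by_cases hiM : i ∈ M
      · have : i = n := by
          by_contra hne
          exact hi ⟨hiM, hne⟩
        rw [this, han, mul_zero]
      · rw [ha i hiM, mul_zero])
  have h2 := hMν n hn
  rw [map_smul, norm_smul, norm_inv, RCLike.norm_ofReal, abs_norm] at h1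
  have h3 : ‖a‖⁻¹ * ‖w n a‖ ≤ ε := h1.trans h2.le
  rwa [inv_mul_le_iff₀ hpos, mul_comm] at h3

/-- The `j`-th unit vector of `ℓ^∞`. -/
noncomputable def ev (𝕜 : Type*) [RCLike 𝕜] (j : ℕ) : lp (fun _ : ℕ => 𝕜) ∞ :=
  lp.single ∞ j (1 : 𝕜)

lemma ev_self (j : ℕ) : ev 𝕜 j j = 1 := lp.single_apply_self _ _ _

lemma ev_ne {i j : ℕ} (h : i ≠ j) : ev 𝕜 j i = 0 := lp.single_apply_ne _ _ _ h

/-- A weakly null sequence of functionals tends to zero along the diagonal. -/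
lemma diag_small (w : ℕ → (lp (fun _ : ℕ => 𝕜) ∞ →L[𝕜] 𝕜)) {C : ℝ} (hC : ∀ n, ‖w n‖ ≤ C)
    (hw : ∀ a, Tendsto (fun n => w n a) atTop (𝓝 0)) {δ : ℝ} (hδ : 0 < δ) :
    ∃ n, ‖w n (ev 𝕜 n)‖ < δ := by
  by_contra hcon
  push Not at hcon
  obtain ⟨M, -, hM, hMw⟩ := rosenthal w hC (S := univ) infinite_univ (half_pos hδ)
  classical
  set a : lp (fun _ : ℕ => 𝕜) ∞ := ⟨fun i => if i ∈ M then (1 : 𝕜) else 0, memℓp_infty
    ⟨1, by rintro _ ⟨i, rfl⟩; simp only; split_ifs <;> simp⟩⟩ with ha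
  have hai : ∀ i, a i = if i ∈ M then (1 : 𝕜) else 0 := fun i => rfl
  have ha1 : ‖a‖ ≤ 1 := by
    apply lp.norm_le_of_forall_le zero_le_one
    intro i
    rw [hai]; split_ifs <;> simp
  have h1 := (Metric.tendsto_atTop.1 (hw a)) (δ / 2) (half_pos hδ)
  obtain ⟨N, hN⟩ := h1
  obtain ⟨n, hn, hnN⟩ := hM.exists_gt N
  have h2 := hN n hnN.le
  rw [dist_zero_right] at h2
  have h3 := hMw n hn (a - ev 𝕜 n) (by
      intro i hi
      have : (a - ev 𝕜 n : lp (fun _ : ℕ => 𝕜) ∞) i = a i - ev 𝕜 n i := rfl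
      rw [this, hai, if_neg hi, ev_ne, sub_zero]
      rintro rfl
      exact hi hn) (by
      have : (a - ev 𝕜 n : lp (fun _ : ℕ => 𝕜) ∞) n = a n - ev 𝕜 n n := rfl
      rw [this, hai, if_pos hn, ev_self, sub_self])
  have h4 : ‖a - ev 𝕜 n‖ ≤ 1 := by
    apply lp.norm_le_of_forall_le zero_le_one
    intro i
    have : (a - ev 𝕜 n : lp (fun _ : ℕ => 𝕜) ∞) i = a i - ev 𝕜 n i := rfl
    rw [this]
    by_cases hin : i = n
    · rw [hin, hai, if_pos hn, ev_self, sub_self]; simp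
    · rw [ev_ne hin, sub_zero]
      exact (lp.norm_apply_le_norm ENNReal.top_ne_zero a i).trans ha1
  have h5 := hcon n
  have h6 : ‖w n (ev 𝕜 n)‖ ≤ ‖w n a‖ + ‖w n (a - ev 𝕜 n)‖ := by
    have : w n (ev 𝕜 n) = w n a - w n (a - ev 𝕜 n) := by rw [map_sub]; ring
    rw [this]
    exact norm_sub_le _ _
  have h7 : δ / 2 * ‖a - ev 𝕜 n‖ ≤ δ / 2 := mul_le_of_le_one_right (half_pos hδ).le h4
  linarith

variable {Z : Type*} [NormedAddCommGroup Z] [NormedSpace 𝕜 Z]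

/-- Rosenthal's theorem: an operator on `ℓ^∞` which is not small on the unit vectors fixes a copy
of `ℓ^∞`. -/
lemma containsLinf_of_operator (A : lp (fun _ : ℕ => 𝕜) ∞ →L[𝕜] Z) {c : ℝ} (hc : 0 < c)
    {S : Set ℕ} (hS : S.Infinite) (hA : ∀ j ∈ S, c ≤ ‖A (ev 𝕜 j)‖) : ContainsLinf 𝕜 Z := by
  classical
  have hz : ∀ j : ℕ, ∃ z : StrongDual 𝕜 Z, ‖z‖ ≤ 1 ∧ z (A (ev 𝕜 j)) = (‖A (ev 𝕜 j)‖ : 𝕜) := by
    intro j
    obtain ⟨z, hz1, hz2⟩ := exists_dual_vector'' 𝕜 (A (ev 𝕜 j))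
    exact ⟨z, hz1, hz2⟩
  choose z hz1 hz2 using hz
  obtain ⟨M, hMS, hM, hMw⟩ := rosenthal (fun j => (z j).comp A) (C := ‖A‖) (by
      intro j
      refine (ContinuousLinearMap.opNorm_comp_le _ _).trans ?_
      exact mul_le_of_le_one_left (norm_nonneg _) (hz1 j)) hS (half_pos hc)
  set e := hM.natEmbedding with he
  have heinj : Function.Injective (fun j => ((e j : M) : ℕ)) :=
    Subtype.val_injective.comp e.injective
  -- the embedding of `ℓ^∞` onto the coordinates in the range of `e`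
  set ext : (ℕ → 𝕜) → ℕ → 𝕜 := fun a => Function.extend (fun j => ((e j : M) : ℕ)) a 0 with hext
  have hext1 : ∀ a j, ext a (e j : M) = a j := fun a j => heinj.extend_apply _ _ _
  have hext2 : ∀ a i, (¬ ∃ j, ((e j : M) : ℕ) = i) → ext a i = 0 := fun a i hi =>
    Function.extend_apply' _ _ _ hi
  have hbd : ∀ a : lp (fun _ : ℕ => 𝕜) ∞, ∀ i, ‖ext a i‖ ≤ ‖a‖ := by
    intro a i
    by_cases hi : ∃ j, ((e j : M) : ℕ) = i
    · obtain ⟨j, rfl⟩ := hi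
      rw [hext1]
      exact lp.norm_apply_le_norm ENNReal.top_ne_zero a j
    · rw [hext2 a i hi, norm_zero]; exact norm_nonneg _
  let ι : lp (fun _ : ℕ => 𝕜) ∞ →L[𝕜] lp (fun _ : ℕ => 𝕜) ∞ :=
    LinearMap.mkContinuous
      { toFun := fun a => ⟨ext a, memℓp_infty ⟨‖a‖, by rintro _ ⟨i, rfl⟩; exact hbd a i⟩⟩
        map_add' := by
          intro a b
          ext i
          change ext (⇑a + ⇑b) i = ext a i + ext b i
          by_cases hi : ∃ j, ((e j : M) : ℕ) = i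
          · obtain ⟨j, rfl⟩ := hi
            rw [hext1, hext1, hext1]; rfl
          · rw [hext2 _ i hi, hext2 _ i hi, hext2 _ i hi, add_zero]
        map_smul' := by
          intro r a
          ext i
          change ext (r • ⇑a) i = r • ext a i
          by_cases hi : ∃ j, ((e j : M) : ℕ) = i
          · obtain ⟨j, rfl⟩ := hi
            rw [hext1, hext1]; rfl
          · rw [hext2 _ i hi, hext2 _ i hi, smul_zero] } 1 (by
      intro a
      rw [one_mul]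
      exact lp.norm_le_of_forall_le (norm_nonneg _) (hbd a))
  have hι : ∀ a i, (ι a) i = ext a i := fun a i => rfl
  refine ⟨A.comp ι, c / 2, half_pos hc, fun a => ?_⟩
  have key : ∀ j, c * ‖a j‖ ≤ ‖A (ι a)‖ + c / 2 * ‖a‖ := by
    intro j
    set n : ℕ := ((e j : M) : ℕ) with hn
    have hnM : n ∈ M := (e j).2
    have h1 := hMw n hnM (ι a - (a j) • ev 𝕜 n) (by
        intro i hi
        have : (ι a - (a j) • ev 𝕜 n : lp (fun _ : ℕ => 𝕜) ∞) i = ι a i - a j * ev 𝕜 n i := rfl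
        rw [this, hι, hext2, ev_ne, mul_zero, sub_zero]
        · rintro rfl; exact hi hnM
        · rintro ⟨j', rfl⟩; exact hi (e j').2) (by
        have : (ι a - (a j) • ev 𝕜 n : lp (fun _ : ℕ => 𝕜) ∞) n = ι a n - a j * ev 𝕜 n n := rfl
        rw [this, hι, hn, hext1, ev_self, mul_one, sub_self])
    have h2 : ‖ι a - (a j) • ev 𝕜 n‖ ≤ ‖a‖ := by
      apply lp.norm_le_of_forall_le (norm_nonneg _)
      intro i
      have : (ι a - (a j) • ev 𝕜 n : lp (fun _ : ℕ => 𝕜) ∞) i = ι a i - a j * ev 𝕜 n i := rfl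
      rw [this]
      by_cases hin : i = n
      · rw [hin, hι, hn, hext1, ev_self, mul_one, sub_self, norm_zero]; exact norm_nonneg _
      · rw [ev_ne hin, mul_zero, sub_zero, hι]
        exact hbd a i
    have h3 : ((z n).comp A) (ι a) = ((z n).comp A) (ι a - (a j) • ev 𝕜 n) +
        a j * (‖A (ev 𝕜 n)‖ : 𝕜) := by
      rw [map_sub, map_smul]
      simp only [ContinuousLinearMap.comp_apply, smul_eq_mul]
      rw [hz2]; ring
    have h4 : ‖((z n).comp A) (ι a)‖ ≤ ‖A (ι a)‖ := by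
      rw [ContinuousLinearMap.comp_apply]
      exact ((z n).le_opNorm _).trans (mul_le_of_le_one_left (norm_nonneg _) (hz1 n))
    have h5 : ‖a j * (‖A (ev 𝕜 n)‖ : 𝕜)‖ = ‖a j‖ * ‖A (ev 𝕜 n)‖ := by
      rw [norm_mul, RCLike.norm_ofReal, abs_norm]
    have h6 : c * ‖a j‖ ≤ ‖a j‖ * ‖A (ev 𝕜 n)‖ := by
      rw [mul_comm]
      exact mul_le_mul_of_nonneg_left (hA n (hMS hnM)) (norm_nonneg _)
    have h7 : ‖a j * (‖A (ev 𝕜 n)‖ : 𝕜)‖ ≤ ‖((z n).comp A) (ι a)‖ +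
        ‖((z n).comp A) (ι a - (a j) • ev 𝕜 n)‖ := by
      have : a j * (‖A (ev 𝕜 n)‖ : 𝕜) = ((z n).comp A) (ι a) -
        ((z n).comp A) (ι a - (a j) • ev 𝕜 n) := by rw [h3]; ring
      rw [this]
      exact norm_sub_le _ _
    have h8 : c / 2 * ‖ι a - (a j) • ev 𝕜 n‖ ≤ c / 2 * ‖a‖ :=
      mul_le_mul_of_nonneg_left h2 (half_pos hc).le
    rw [h5] at h7
    linarith
  have h9 : ‖a‖ ≤ (‖A (ι a)‖ + c / 2 * ‖a‖) / c := by
    apply lp.norm_le_of_forall_le (by positivity)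
    intro j
    rw [le_div_iff₀ hc, mul_comm]
    exact key j
  rw [le_div_iff₀ hc] at h9
  change c / 2 * ‖a‖ ≤ ‖A (ι a)‖
  linarith

end Pool.Agent.LinfX
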