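import Pool.Agent.LinfX.BL3

/-!
Almost everywhere convergent sequences: a bounded operator `ℓ^∞(L^∞([0,1], X)) → L^∞([0,1], X)`
which assigns to each almost everywhere convergent bounded sequence its limit.
-/

open MeasureTheory Set Filter Topology
open scoped ENNReal NNReal

namespace Pool.Agent.LinfX

variable {𝕜 : Type*} [RCLike 𝕜]
variable {X : Type*} [NormedAddCommGroup X] [NormedSpace 𝕜 X]
variable {Y : Type*} [NormedAddCommGroup Y] [NormedSpace 𝕜 Y]
variable {Z : Type*} [NormedAddCommGroup Z] [NormedSpace 𝕜 Z]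

/-- Almost everywhere convergent sequences have a generalised limit. -/
def AEProp (𝕜 : Type*) [RCLike 𝕜] (X : Type*) [NormedAddCommGroup X] [NormedSpace 𝕜 X] : Prop :=
  ∃ P : linfSeq (LinfUnit X) →L[𝕜] LinfUnit X, ∀ (F : linfSeq (LinfUnit X)) (g : LinfUnit X),
    (∀ᵐ t ∂mu, Tendsto (fun m => (F m : ℝ → X) t) atTop (𝓝 ((g : ℝ → X) t))) → P F = g

lemma glue_sm {W : Type*} [TopologicalSpace W] [TopologicalSpace.PseudoMetrizableSpace W]
    {i : ℝ → ℕ} (hi : Measurable i) {f : ℕ → ℝ → W}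
    (hf : ∀ j, AEStronglyMeasurable (f j) mu) :
    AEStronglyMeasurable (fun t => f (i t) t) mu := by
  have hU : (⋃ j, i ⁻¹' {j}) = univ := by
    ext t; simp
  have h1 : AEStronglyMeasurable (fun t => f (i t) t) (mu.restrict (⋃ j, i ⁻¹' {j})) := by
    rw [aestronglyMeasurable_iUnion_iff]
    intro j
    refine (hf j).restrict.congr ?_
    filter_upwards [ae_restrict_mem (hi (measurableSet_singleton j))] with t ht
    have : i t = j := ht
    rw [this]
  rwa [hU, Measure.restrict_univ] at h1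

/-- Gluing functions along a countable measurable partition. -/
lemma glue_mem {i : ℝ → ℕ} (hi : Measurable i) {K : ℝ}
    {f : ℕ → LinfUnit X} (hf : ∀ j, ‖f j‖ ≤ K) :
    MemLp (fun t => (f (i t) : ℝ → X) t) ∞ mu := by
  apply memLp_top_of_bound (glue_sm hi (f := fun j => (f j : ℝ → X))
    (fun j => Lp.aestronglyMeasurable (f j))) K
  have h1 : ∀ᵐ t ∂mu, ∀ j, ‖(f j : ℝ → X) t‖ ≤ K := ae_all_iff.2 fun j => by
    filter_upwards [ae_norm_le (f j)] with t ht
    exact ht.trans (hf j)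
  filter_upwards [h1] with t ht
  exact ht (i t)

/-- Gluing operators along a countable measurable partition. -/
theorem exists_glue {i : ℝ → ℕ} (hi : Measurable i) {K : ℝ} (hK : 0 ≤ K)
    (U : ℕ → Z →L[𝕜] LinfUnit X) (hU : ∀ j, ‖U j‖ ≤ K) :
    ∃ G : Z →L[𝕜] LinfUnit X, ∀ z, ∀ᵐ t ∂mu, (G z : ℝ → X) t = (U (i t) z : ℝ → X) t := by
  have hmem : ∀ z : Z, MemLp (fun t => (U (i t) z : ℝ → X) t) ∞ mu := fun z =>
    glue_mem hi (K := K * ‖z‖) (f := fun j => U j z) (fun j =>
      ((U j).le_opNorm z).trans (mul_le_mul_of_nonneg_right (hU j) (norm_nonneg _)))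
  have hco : ∀ z : Z, ((hmem z).toLp _ : ℝ → X) =ᵐ[mu] fun t => (U (i t) z : ℝ → X) t :=
    fun z => MemLp.coeFn_toLp (hmem z)
  let G : Z →L[𝕜] LinfUnit X := LinearMap.mkContinuous
    { toFun := fun z => (hmem z).toLp _
      map_add' := by
        intro z w
        apply Lp.ext
        have h1 : ∀ᵐ t ∂mu, ∀ j, (U j (z + w) : ℝ → X) t = (U j z : ℝ → X) t + (U j w : ℝ → X) t :=
          ae_all_iff.2 fun j => by
            rw [map_add]
            filter_upwards [Lp.coeFn_add (U j z) (U j w)] with t ht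
            rw [ht, Pi.add_apply]
        filter_upwards [hco (z + w), hco z, hco w, h1,
          Lp.coeFn_add ((hmem z).toLp _) ((hmem w).toLp _)] with t h2 h3 h4 h5 h6
        rw [h2, h6, Pi.add_apply, h3, h4, h5]
      map_smul' := by
        intro c z
        apply Lp.ext
        have h1 : ∀ᵐ t ∂mu, ∀ j, (U j (c • z) : ℝ → X) t = c • (U j z : ℝ → X) t :=
          ae_all_iff.2 fun j => by
            rw [map_smul]
            filter_upwards [Lp.coeFn_smul c (U j z)] with t ht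
            rw [ht, Pi.smul_apply]
        filter_upwards [hco (c • z), hco z, h1,
          Lp.coeFn_smul c ((hmem z).toLp _)] with t h2 h3 h5 h6
        rw [RingHom.id_apply, h2, h6, Pi.smul_apply, h3, h5] } K (by
      intro z
      apply norm_le_of_ae (mul_nonneg hK (norm_nonneg _))
      have h1 : ∀ᵐ t ∂mu, ∀ j, ‖(U j z : ℝ → X) t‖ ≤ K * ‖z‖ := ae_all_iff.2 fun j => by
        filter_upwards [ae_norm_le (U j z)] with t ht
        exact ht.trans (((U j).le_opNorm z).trans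
          (mul_le_mul_of_nonneg_right (hU j) (norm_nonneg _)))
      change ∀ᵐ t ∂mu, ‖((hmem z).toLp _ : ℝ → X) t‖ ≤ K * ‖z‖
      filter_upwards [hco z, h1] with t h2 h3
      rw [h2]
      exact h3 (i t))
  exact ⟨G, hco⟩

/-- Absolutely continuous operators preserve bounded almost everywhere convergence. -/
lemma tendsto_of_ACoff {T : LinfUnit X →L[𝕜] Y} {A E : Set ℝ} (hE : MeasurableSet E)
    (hd : Disjoint E A) (hT : ACoff T A) {D : ℕ → LinfUnit X} {C : ℝ} (hC : ∀ m, ‖D m‖ ≤ C)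
    (hD : ∀ᵐ t ∂mu, Tendsto (fun m => (D m : ℝ → X) t) atTop (𝓝 0)) :
    Tendsto (fun m => T (cut 𝕜 E (D m))) atTop (𝓝 0) := by
  have hC0 : 0 ≤ C := (norm_nonneg _).trans (hC 0)
  rw [Metric.tendsto_atTop]
  intro ε hε
  obtain ⟨θ, hθ, hθB⟩ := hT (ε / (2 * (C + 1))) (by positivity)
  -- Egorov
  obtain ⟨θ', hθ'0, hθ'⟩ : ∃ θ' : ℝ, 0 < θ' ∧ ENNReal.ofReal θ' ≤ θ := by
    by_cases h : θ = ∞
    · exact ⟨1, one_pos, by rw [h]; exact le_top⟩
    · exact ⟨θ.toReal, ENNReal.toReal_pos hθ.ne' h, (ENNReal.ofReal_toReal h).le⟩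
  obtain ⟨B, hBm, hBθ, hBu⟩ := tendstoUniformlyOn_of_ae_tendsto' (μ := mu)
    (f := fun m => (D m : ℝ → X)) (g := fun _ => (0 : X))
    (fun m => Lp.stronglyMeasurable (D m)) stronglyMeasurable_const hD hθ'0
  have hT1 := hθB (B ∩ E) (hBm.inter hE) (hd.mono_left inter_subset_right)
    ((measure_mono inter_subset_left).trans (hBθ.trans hθ'))
  rw [Metric.tendstoUniformlyOn_iff] at hBu
  have hu := hBu (ε / (4 * (‖T‖ + 1))) (by positivity)
  rw [eventually_atTop] at hu
  obtain ⟨N, hN⟩ := hu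
  refine ⟨N, fun m hm => ?_⟩
  rw [dist_zero_right]
  have hsplit : cut 𝕜 E (D m) = cut 𝕜 (B ∩ E) (D m) + cut 𝕜 E (cut 𝕜 Bᶜ (D m)) := by
    rw [cut_cut hE hBm.compl]
    apply Lp.ext
    filter_upwards [cut_coe (𝕜 := 𝕜) hE (D m), cut_coe (𝕜 := 𝕜) (hBm.inter hE) (D m),
      cut_coe (𝕜 := 𝕜) (hE.inter hBm.compl) (D m),
      Lp.coeFn_add (cut 𝕜 (B ∩ E) (D m)) (cut 𝕜 (E ∩ Bᶜ) (D m))] with t h1 h2 h3 h4
    rw [h1, h4, Pi.add_apply, h2, h3]
    by_cases hte : t ∈ E
    · by_cases htb : t ∈ B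
      · rw [indicator_of_mem hte, indicator_of_mem (show t ∈ B ∩ E from ⟨htb, hte⟩),
          indicator_of_notMem (fun h => h.2 htb), add_zero]
      · rw [indicator_of_mem hte, indicator_of_notMem (fun h => htb h.1),
          indicator_of_mem (show t ∈ E ∩ Bᶜ from ⟨hte, htb⟩), zero_add]
    · rw [indicator_of_notMem hte, indicator_of_notMem (fun h => hte h.2),
        indicator_of_notMem (fun h => hte h.1), add_zero]
  have h1 : ‖T (cut 𝕜 (B ∩ E) (D m))‖ ≤ ε / (2 * (C + 1)) * C := by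
    have := (T.comp (cut 𝕜 (B ∩ E))).le_opNorm (D m)
    rw [ContinuousLinearMap.comp_apply] at this
    exact this.trans (mul_le_mul hT1 (hC m) (norm_nonneg _) (by positivity))
  have h2 : ‖cut 𝕜 Bᶜ (D m)‖ ≤ ε / (4 * (‖T‖ + 1)) := by
    apply norm_le_of_ae (by positivity)
    filter_upwards [cut_coe (𝕜 := 𝕜) hBm.compl (D m)] with t h3
    rw [h3]
    by_cases htb : t ∈ Bᶜ
    · rw [indicator_of_mem htb]
      have := hN m hm t htb
      rw [dist_comm, dist_zero_right] at this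
      exact this.le
    · rw [indicator_of_notMem htb, norm_zero]; positivity
  have h3 : ‖T (cut 𝕜 E (cut 𝕜 Bᶜ (D m)))‖ ≤ ‖T‖ * (ε / (4 * (‖T‖ + 1))) := by
    refine (T.le_opNorm _).trans ?_
    exact mul_le_mul_of_nonneg_left ((norm_cut_le _ _).trans h2) (norm_nonneg _)
  rw [hsplit, map_add]
  refine (norm_add_le _ _).trans_lt ?_
  have h4 : ε / (2 * (C + 1)) * C ≤ ε / 2 := by
    rw [div_mul_eq_mul_div, div_le_div_iff₀ (by positivity) (by norm_num)]
    nlinarith
  have h5 : ‖T‖ * (ε / (4 * (‖T‖ + 1))) ≤ ε / 4 := by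
    have hT0 := norm_nonneg T
    rw [mul_div_assoc', div_le_div_iff₀ (by positivity) (by norm_num)]
    nlinarith
  linarith

/-- The operator `F ↦ (Λ ((T_n (1_E F_m))_m))_n`. -/
noncomputable def VE (T : LinfUnit X →L[𝕜] linfSeq X)
    (L : linfSeq X →L[𝕜] X) (E : Set ℝ) : linfSeq (LinfUnit X) →L[𝕜] linfSeq X :=
  LinearMap.mkContinuous
    { toFun := fun F => mkB (fun n => L (mkB (fun m => T (cut 𝕜 E (F m)) n) (‖T‖ * ‖F‖)
        (fun m => (nrm_apply (T (cut 𝕜 E (F m))) n).trans ((T.le_opNorm _).trans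
          (mul_le_mul_of_nonneg_left ((norm_cut_le _ _).trans (nrm_apply F m))
            (norm_nonneg _)))))) (‖L‖ * (‖T‖ * ‖F‖)) (fun n => by
          refine (L.le_opNorm _).trans (mul_le_mul_of_nonneg_left ?_ (norm_nonneg _))
          exact nrm_le (by positivity) fun m => (nrm_apply (T (cut 𝕜 E (F m))) n).trans
            ((T.le_opNorm _).trans (mul_le_mul_of_nonneg_left ((norm_cut_le _ _).trans
              (nrm_apply F m)) (norm_nonneg _))))
      map_add' := by
        intro F G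
        ext n
        change L _ = L _ + L _
        rw [← map_add]
        congr 1
        ext m
        change T (cut 𝕜 E (F m + G m)) n = T (cut 𝕜 E (F m)) n + T (cut 𝕜 E (G m)) n
        rw [map_add, map_add]
        rfl
      map_smul' := by
        intro c F
        rw [RingHom.id_apply]
        ext n
        change L _ = c • L _
        rw [← map_smul]
        congr 1
        ext m
        change T (cut 𝕜 E (c • F m)) n = c • T (cut 𝕜 E (F m)) n
        rw [map_smul, map_smul]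
        rfl } (‖L‖ * ‖T‖) (by
      intro F
      apply nrm_le (by positivity)
      intro n
      change ‖L _‖ ≤ _
      refine (L.le_opNorm _).trans ?_
      rw [mul_assoc]
      refine mul_le_mul_of_nonneg_left ?_ (norm_nonneg _)
      exact nrm_le (by positivity) fun m => (nrm_apply (T (cut 𝕜 E (F m))) n).trans
            ((T.le_opNorm _).trans (mul_le_mul_of_nonneg_left ((norm_cut_le _ _).trans
              (nrm_apply F m)) (norm_nonneg _))))

/-- The operator `F ↦ S ((Λ ((T_n (1_E F_m))_m))_n)`. -/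
noncomputable def UE (T : LinfUnit X →L[𝕜] linfSeq X) (S : linfSeq X →L[𝕜] LinfUnit X)
    (L : linfSeq X →L[𝕜] X) (E : Set ℝ) : linfSeq (LinfUnit X) →L[𝕜] LinfUnit X :=
  S.comp (VE T L E)

lemma norm_VE_le (T : LinfUnit X →L[𝕜] linfSeq X)
    (L : linfSeq X →L[𝕜] X) (E : Set ℝ) : ‖VE T L E‖ ≤ ‖L‖ * ‖T‖ := by
  unfold VE
  exact LinearMap.mkContinuous_norm_le _ (by positivity) _

lemma norm_UE_le (T : LinfUnit X →L[𝕜] linfSeq X) (S : linfSeq X →L[𝕜] LinfUnit X)
    (L : linfSeq X →L[𝕜] X) (E : Set ℝ) : ‖UE T S L E‖ ≤ ‖S‖ * (‖L‖ * ‖T‖) := by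
  unfold UE
  refine (ContinuousLinearMap.opNorm_comp_le _ _).trans ?_
  exact mul_le_mul_of_nonneg_left (norm_VE_le T L E) (norm_nonneg _)

/-- If `L` is a Banach limit, `E` is disjoint from `A`, then `UE` recovers the limit. -/
lemma UE_eq (T : LinfUnit X →L[𝕜] linfSeq X) (S : linfSeq X →L[𝕜] LinfUnit X)
    (hST : ∀ f, S (T f) = f) (L : linfSeq X →L[𝕜] X)
    (hL : ∀ (x : linfSeq X) (a : X), Tendsto (fun n => x n) atTop (𝓝 a) → L x = a)
    {A E : Set ℝ} (hE : MeasurableSet E) (hd : Disjoint E A)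
    (hA : ∀ n, ACoff ((evL 𝕜 n).comp T) A) (F : linfSeq (LinfUnit X)) (g : LinfUnit X)
    (hF : ∀ᵐ t ∂mu, Tendsto (fun m => (F m : ℝ → X) t) atTop (𝓝 ((g : ℝ → X) t))) :
    UE T S L E F = cut 𝕜 E g := by
  have h1 : ∀ n, Tendsto (fun m => T (cut 𝕜 E (F m)) n) atTop (𝓝 (T (cut 𝕜 E g) n)) := by
    intro n
    have h2 := tendsto_of_ACoff hE hd (hA n) (D := fun m => F m - g) (C := ‖F‖ + ‖g‖)
      (fun m => (norm_sub_le _ _).trans (add_le_add (nrm_apply F m) le_rfl)) (by
        have h3 : ∀ᵐ t ∂mu, ∀ m, ((F m - g : LinfUnit X) : ℝ → X) t =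
            (F m : ℝ → X) t - (g : ℝ → X) t := ae_all_iff.2 fun m => by
          filter_upwards [Lp.coeFn_sub (F m) g] with t ht
          rw [ht, Pi.sub_apply]
        filter_upwards [hF, h3] with t h4 h5
        simp only [h5]
        have := h4.sub_const ((g : ℝ → X) t)
        rwa [sub_self] at this)
    have h3 : ∀ m, ((evL 𝕜 n).comp T) (cut 𝕜 E (F m - g)) =
        T (cut 𝕜 E (F m)) n - T (cut 𝕜 E g) n := by
      intro m
      rw [map_sub, map_sub]
      rfl
    simp only [h3] at h2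
    have h4 := h2.add_const (T (cut 𝕜 E g) n)
    simpa using h4
  have h2 : UE T S L E F = S (T (cut 𝕜 E g)) := by
    unfold UE
    rw [ContinuousLinearMap.comp_apply]
    congr 1
    ext n
    change L _ = T (cut 𝕜 E g) n
    exact hL _ _ (h1 n)
  rw [h2, hST]

/-- If `X` does not contain `c_0` and `L^∞([0,1], X)` is complemented in `ℓ^∞(X)`, then almost
everywhere convergent sequences have a generalised limit. -/
theorem AEProp.of_complemented [CompleteSpace X] (hX : ¬ ContainsC0 𝕜 X)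
    (h : IsComplementedIn 𝕜 (LinfUnit X) (linfSeq X)) : AEProp 𝕜 X := by
  obtain ⟨L, hL⟩ := exists_banachLimit hX h
  obtain ⟨T, S, hST⟩ := h
  have hex : ∀ j : ℕ, ∃ A : Set ℝ, MeasurableSet A ∧ mu A ≤ (2⁻¹ : ℝ≥0∞) ^ j ∧
      ∀ n, ACoff ((evL 𝕜 n).comp T) A := fun j =>
    exists_ACoff hX (fun n => (evL 𝕜 n).comp T) (ENNReal.pow_pos (by simp) j)
  choose A hAm hAle hA using hex
  have hnull : mu (⋂ j, A j) = 0 := by
    apply le_antisymm _ (bot_le)
    have h1 : Tendsto (fun j : ℕ => (2⁻¹ : ℝ≥0∞) ^ j) atTop (𝓝 0) :=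
      ENNReal.tendsto_pow_atTop_nhds_zero_of_lt_one (by
        exact ENNReal.inv_lt_one.2 (by norm_num))
    exact ge_of_tendsto' h1 fun j => (measure_mono (iInter_subset A j)).trans (hAle j)
  classical
  have hp : ∀ t : ℝ, ∃ j, (t ∉ A j ∨ t ∈ ⋂ j, A j) := by
    intro t
    by_cases ht : t ∈ ⋂ j, A j
    · exact ⟨0, Or.inr ht⟩
    · rw [mem_iInter] at ht
      push Not at ht
      obtain ⟨j, hj⟩ := ht
      exact ⟨j, Or.inl hj⟩
  set i : ℝ → ℕ := fun t => Nat.find (hp t) with hi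
  have him : Measurable i := by
    apply measurable_find
    intro k
    have : {x | x ∉ A k ∨ x ∈ ⋂ j, A j} = (A k)ᶜ ∪ ⋂ j, A j := rfl
    rw [this]
    exact (hAm k).compl.union (MeasurableSet.iInter hAm)
  set E : ℕ → Set ℝ := fun j => (i ⁻¹' {j}) \ A j with hEdef
  have hEm : ∀ j, MeasurableSet (E j) := fun j =>
    (him (measurableSet_singleton j)).diff (hAm j)
  have hEd : ∀ j, Disjoint (E j) (A j) := fun j => disjoint_sdiff_left
  obtain ⟨G, hG⟩ := exists_glue him (K := ‖S‖ * (‖L‖ * ‖T‖)) (by positivity)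
    (fun j => UE T S L (E j)) (fun j => norm_UE_le T S L (E j))
  refine ⟨G, fun F g hF => ?_⟩
  apply Lp.ext
  have h1 : ∀ᵐ t ∂mu, ∀ j, (UE T S L (E j) F : ℝ → X) t = (E j).indicator g t :=
    ae_all_iff.2 fun j => by
      rw [UE_eq T S hST L hL (hEm j) (hEd j) (hA j) F g hF]
      exact cut_coe (hEm j) g
  have h2 : ∀ᵐ t ∂mu, t ∉ ⋂ j, A j := measure_eq_zero_iff_ae_notMem.1 hnull
  filter_upwards [hG F, h1, h2] with t h3 h4 h5
  rw [h3, h4]
  apply indicator_of_mem
  refine ⟨rfl, ?_⟩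
  rcases Nat.find_spec (hp t) with h6 | h6
  · exact h6
  · exact absurd h6 h5

end Pool.Agent.LinfX
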