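import Pool.Agent.LinfX.Dyadic

open MeasureTheory Set Filter Topology
open scoped ENNReal

namespace Pool.Agent.LinfX

variable (𝕜 : Type*) [RCLike 𝕜]

/-- The class of a bounded real function in `L^∞([0,1], 𝕜)`. -/
noncomputable def toL (f : ℝ → ℝ) : Lp 𝕜 ∞ mu :=
  open Classical in if h : MemLp (fun t => (f t : 𝕜)) ∞ mu then h.toLp _ else 0

variable {𝕜}

lemma memLp_of {f : ℝ → ℝ} (hf : Measurable f) (hb : ∀ t, |f t| ≤ 1) :
    MemLp (fun t => (f t : 𝕜)) ∞ mu := by
  apply memLp_top_of_bound _ 1 (Eventually.of_forall fun t => ?_)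
  · exact (RCLike.measurable_ofReal.comp hf).aestronglyMeasurable
  · rw [RCLike.norm_ofReal]; exact hb t

lemma toL_coe {f : ℝ → ℝ} (hf : Measurable f) (hb : ∀ t, |f t| ≤ 1) :
    (toL 𝕜 f : ℝ → 𝕜) =ᵐ[mu] fun t => (f t : 𝕜) := by
  unfold toL
  rw [dif_pos (memLp_of hf hb)]
  exact MemLp.coeFn_toLp _

/-- Norm bound in `L^∞`. -/
lemma norm_le_of_ae {Z : Type*} [NormedAddCommGroup Z] {g : Lp Z ∞ mu} {C : ℝ} (hC : 0 ≤ C)
    (h : ∀ᵐ t ∂mu, ‖g t‖ ≤ C) : ‖g‖ ≤ C := by
  have := Lp.norm_le_of_ae_bound hC h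
  simpa using this

/-- Pointwise bound by the `L^∞` norm. -/
lemma ae_norm_le {Z : Type*} [NormedAddCommGroup Z] (g : Lp Z ∞ mu) : ∀ᵐ t ∂mu, ‖g t‖ ≤ ‖g‖ := by
  have h1 : ∀ᵐ t ∂mu, ‖g t‖ₑ ≤ eLpNormEssSup g mu := ae_le_eLpNormEssSup
  filter_upwards [h1] with t ht
  have h2 : eLpNormEssSup g mu ≠ ∞ := by
    have := (Lp.memLp g).2
    rw [eLpNorm_exponent_top] at this
    exact this.ne
  rw [Lp.norm_def, eLpNorm_exponent_top]
  have h3 : ‖g t‖ = (‖g t‖ₑ).toReal := by simp
  rw [h3]
  exact ENNReal.toReal_mono h2 ht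

lemma integrable_of_Linf {Z : Type*} [NormedAddCommGroup Z] (g : Lp Z ∞ mu) :
    Integrable g mu := by
  have : MemLp g 1 mu := (Lp.memLp g).mono_exponent le_top
  exact memLp_one_iff_integrable.1 this

lemma norm_toL_le {f : ℝ → ℝ} (hf : Measurable f) (hb : ∀ t, |f t| ≤ 1) : ‖toL 𝕜 f‖ ≤ 1 := by
  apply norm_le_of_ae zero_le_one
  filter_upwards [toL_coe (𝕜 := 𝕜) hf hb] with t ht
  rw [ht, RCLike.norm_ofReal]; exact hb t

variable {Y : Type*} [NormedAddCommGroup Y] [NormedSpace 𝕜 Y]

/-- `f ↦ f ⊗ y`. -/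
noncomputable def tens (y : Y) : Lp 𝕜 ∞ mu →L[𝕜] Lp Y ∞ mu :=
  (ContinuousLinearMap.toSpanSingleton 𝕜 y).compLpL ∞ mu

lemma tens_coe (y : Y) (f : Lp 𝕜 ∞ mu) : (tens y f : ℝ → Y) =ᵐ[mu] fun t => f t • y := by
  have := ContinuousLinearMap.coeFn_compLpL (p := ∞) (μ := mu)
    (ContinuousLinearMap.toSpanSingleton 𝕜 y) f
  filter_upwards [this] with t ht
  rw [tens, ht, ContinuousLinearMap.toSpanSingleton_apply]

/-- The functional `g ↦ ∫ f(t) y'(g(t)) dt`. -/
noncomputable def pr (f : Lp 𝕜 ∞ mu) (y' : StrongDual 𝕜 Y) : Lp Y ∞ mu →L[𝕜] 𝕜 :=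
  LinearMap.mkContinuous
    { toFun := fun g => ∫ t, f t * y' (g t) ∂mu
      map_add' := by
        intro g h
        have i1 : ∀ g : Lp Y ∞ mu, Integrable (fun t => f t * y' (g t)) mu := by
          intro g
          have h1 : Integrable (fun t => y' (g t)) mu := y'.integrable_comp (integrable_of_Linf g)
          refine h1.bdd_mul (c := ‖f‖) (Lp.aestronglyMeasurable f) (ae_norm_le f)
        rw [← integral_add (i1 g) (i1 h)]
        apply integral_congr_ae
        filter_upwards [Lp.coeFn_add g h] with t ht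
        rw [ht, Pi.add_apply, map_add, mul_add]
      map_smul' := by
        intro c g
        rw [RingHom.id_apply, smul_eq_mul, ← integral_const_mul]
        apply integral_congr_ae
        filter_upwards [Lp.coeFn_smul c g] with t ht
        rw [ht, Pi.smul_apply, map_smul, smul_eq_mul]
        ring }
    ((∫ t, ‖f t‖ ∂mu) * ‖y'‖) (by
      intro g
      change ‖∫ t, f t * y' (g t) ∂mu‖ ≤ _
      refine (norm_integral_le_integral_norm _).trans ?_
      have h1 : ∫ t, ‖f t * y' (g t)‖ ∂mu ≤ ∫ t, ‖f t‖ * (‖y'‖ * ‖g‖) ∂mu := by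
        apply integral_mono_of_nonneg (Eventually.of_forall fun t => norm_nonneg _)
        · exact (integrable_of_Linf f).norm.mul_const _
        · filter_upwards [ae_norm_le g] with t ht
          rw [norm_mul]
          gcongr
          exact (y'.le_opNorm _).trans (by gcongr)
      refine h1.trans (le_of_eq ?_)
      rw [integral_mul_const]
      ring)

lemma pr_apply (f : Lp 𝕜 ∞ mu) (y' : StrongDual 𝕜 Y) (g : Lp Y ∞ mu) :
    pr f y' g = ∫ t, f t * y' (g t) ∂mu := rfl

lemma norm_pr_le (f : Lp 𝕜 ∞ mu) (y' : StrongDual 𝕜 Y) (g : Lp Y ∞ mu) :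
    ‖pr f y' g‖ ≤ (∫ t, ‖f t‖ ∂mu) * ‖y'‖ * ‖g‖ := by
  refine ((pr f y').le_opNorm g).trans ?_
  gcongr
  refine LinearMap.mkContinuous_norm_le _ (by positivity) _

lemma pr_integrable (f : Lp 𝕜 ∞ mu) (y' : StrongDual 𝕜 Y) (g : Lp Y ∞ mu) :
    Integrable (fun t => f t * y' (g t)) mu := by
  have h1 : Integrable (fun t => y' (g t)) mu := y'.integrable_comp (integrable_of_Linf g)
  exact h1.bdd_mul (c := ‖f‖) (Lp.aestronglyMeasurable f) (ae_norm_le f)

lemma pr_add (f f' : Lp 𝕜 ∞ mu) (y' : StrongDual 𝕜 Y) (g : Lp Y ∞ mu) :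
    pr (f + f') y' g = pr f y' g + pr f' y' g := by
  rw [pr_apply, pr_apply, pr_apply, ← integral_add (pr_integrable f y' g) (pr_integrable f' y' g)]
  apply integral_congr_ae
  filter_upwards [Lp.coeFn_add f f'] with t ht
  rw [ht, Pi.add_apply, add_mul]

lemma pr_smul (c : 𝕜) (f : Lp 𝕜 ∞ mu) (y' : StrongDual 𝕜 Y) (g : Lp Y ∞ mu) :
    pr (c • f) y' g = c * pr f y' g := by
  rw [pr_apply, pr_apply, ← integral_const_mul]
  apply integral_congr_ae
  filter_upwards [Lp.coeFn_smul c f] with t ht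
  rw [ht, Pi.smul_apply, smul_eq_mul, mul_assoc]

lemma pr_zero (y' : StrongDual 𝕜 Y) (g : Lp Y ∞ mu) : pr (0 : Lp 𝕜 ∞ mu) y' g = 0 := by
  have := pr_smul (0 : 𝕜) 0 y' g
  simpa using this

/-- Choice of signs. -/
lemma exists_signs {ι : Type*} [DecidableEq ι] (b : ι → ι → ℝ) (G : Finset ι) :
    ∃ ε : ι → ℝ, (∀ i, ε i = 1 ∨ ε i = -1) ∧
      ∑ i ∈ G, ∑ j ∈ G, ε i * ε j * b i j ≤ ∑ i ∈ G, b i i := by
  induction G using Finset.induction_on with
  | empty => exact ⟨fun _ => 1, fun _ => Or.inl rfl, by simp⟩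
  | insert a G ha ih =>
    obtain ⟨ε, hε, hle⟩ := ih
    set x : ℝ := ∑ j ∈ G, ε j * (b a j + b j a) with hx
    set σ : ℝ := if 0 ≤ x then -1 else 1 with hσ
    have hσ1 : σ = 1 ∨ σ = -1 := by rw [hσ]; split_ifs <;> simp
    have hσx : σ * x ≤ 0 := by
      rw [hσ]; split_ifs with h
      · linarith
      · push Not at h; linarith
    refine ⟨Function.update ε a σ, ?_, ?_⟩
    · intro i
      by_cases hi : i = a
      · rw [hi, Function.update_self]; exact hσ1
      · rw [Function.update_of_ne hi]; exact hε i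
    · have hne : ∀ j ∈ G, Function.update ε a σ j = ε j := by
        intro j hj
        apply Function.update_of_ne
        rintro rfl; exact ha hj
      rw [Finset.sum_insert ha, Finset.sum_insert ha, Function.update_self]
      have e1 : ∑ j ∈ G, σ * Function.update ε a σ j * b a j = σ * ∑ j ∈ G, ε j * b a j := by
        rw [Finset.mul_sum]
        apply Finset.sum_congr rfl
        intro j hj
        rw [hne j hj]; ring
      have e2 : ∑ i ∈ G, ∑ j ∈ insert a G, Function.update ε a σ i * Function.update ε a σ j *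
          b i j = σ * ∑ i ∈ G, ε i * b i a + ∑ i ∈ G, ∑ j ∈ G, ε i * ε j * b i j := by
        rw [Finset.mul_sum, ← Finset.sum_add_distrib]
        apply Finset.sum_congr rfl
        intro i hi
        rw [Finset.sum_insert ha, Function.update_self, hne i hi]
        have : ∑ j ∈ G, ε i * Function.update ε a σ j * b i j = ∑ j ∈ G, ε i * ε j * b i j := by
          apply Finset.sum_congr rfl
          intro j hj
          rw [hne j hj]
        rw [this]; ring
      rw [e1, e2, Finset.sum_insert ha (f := fun i => b i i)]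
      have hσσ : σ * σ = 1 := by rcases hσ1 with h | h <;> rw [h] <;> ring
      have hx' : x = ∑ j ∈ G, ε j * b a j + ∑ j ∈ G, ε j * b j a := by
        rw [hx, ← Finset.sum_add_distrib]
        apply Finset.sum_congr rfl
        intro j _; ring
      rw [hx'] at hσx
      rw [hσσ]
      linarith

/-- Truncation of sequences. -/
noncomputable def trunc {E : ℕ → Type*} [∀ i, NormedAddCommGroup (E i)]
    [∀ i, NormedSpace 𝕜 (E i)] (K : ℕ) : lp E ∞ →L[𝕜] lp E ∞ :=
  LinearMap.mkContinuous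
    { toFun := fun a => ⟨fun i => if i < K then a i else 0, memℓp_infty ⟨‖a‖, by
        rintro _ ⟨i, rfl⟩
        simp only
        split_ifs
        · exact lp.norm_apply_le_norm ENNReal.top_ne_zero a i
        · rw [norm_zero]; exact norm_nonneg _⟩⟩
      map_add' := by
        intro a b
        ext i
        change (if i < K then (a + b : lp E ∞) i else 0) = (if i < K then a i else 0) +
          (if i < K then b i else 0)
        split_ifs
        · rfl
        · simp
      map_smul' := by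
        intro c a
        ext i
        change (if i < K then (c • a : lp E ∞) i else 0) = c • (if i < K then a i else 0)
        split_ifs
        · rfl
        · simp } 1 (by
      intro a
      rw [one_mul]
      apply lp.norm_le_of_forall_le (norm_nonneg _)
      intro i
      change ‖if i < K then a i else 0‖ ≤ ‖a‖
      split_ifs
      · exact lp.norm_apply_le_norm ENNReal.top_ne_zero a i
      · rw [norm_zero]; exact norm_nonneg _)

lemma trunc_apply {E : ℕ → Type*} [∀ i, NormedAddCommGroup (E i)]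
    [∀ i, NormedSpace 𝕜 (E i)] (K : ℕ) (a : lp E ∞) (i : ℕ) :
    trunc (𝕜 := 𝕜) K a i = if i < K then a i else 0 := rfl

end Pool.Agent.LinfX
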