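import Pool.Agent.LinfX.Decomp
import Pool.Agent.LinfX.Ops

open MeasureTheory Set Filter Topology
open scoped ENNReal

namespace Pool.Agent.LinfX

variable {𝕜 : Type*} [RCLike 𝕜]
variable {X : Type*} [NormedAddCommGroup X] [NormedSpace 𝕜 X]

/-- The index of the piece of the partition of `[0,1]` containing `t`. -/
noncomputable def kk (t : ℝ) : ℕ := ⌊1 / t⌋₊

lemma kk_meas : Measurable kk := by
  unfold kk
  exact Nat.measurable_floor.comp (measurable_const.div measurable_id)

/-- The pieces. -/
def piece (n : ℕ) : Set ℝ := {t | kk t = n + 1}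

lemma piece_meas (n : ℕ) : MeasurableSet (piece n) := kk_meas (MeasurableSet.of_discrete (s := {n + 1}))

lemma piece_pos (n : ℕ) : 0 < mu (piece n) := by
  have hsub : Ioo (1 / ((n : ℝ) + 2)) (1 / ((n : ℝ) + 1)) ⊆ piece n := by
    rintro t ⟨h1, h2⟩
    have h0 : 0 < t := lt_trans (by positivity) h1
    change ⌊1 / t⌋₊ = n + 1
    rw [Nat.floor_eq_iff (by positivity)]
    push_cast
    constructor
    · rw [le_div_iff₀ h0]
      rw [lt_div_iff₀ (by positivity)] at h2
      linarith
    · rw [div_lt_iff₀ h0]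
      rw [div_lt_iff₀ (by positivity)] at h1
      linarith
  have h1 : 0 < mu (Ioo (1 / ((n : ℝ) + 2)) (1 / ((n : ℝ) + 1))) := by
    rw [Measure.restrict_apply measurableSet_Ioo, inter_eq_left.2, Real.volume_Ioo,
      ENNReal.ofReal_pos, sub_pos]
    · apply one_div_lt_one_div_of_lt (by positivity)
      linarith
    · rintro t ⟨h1, h2⟩
      have h0 : (0 : ℝ) < 1 / ((n : ℝ) + 2) := by positivity
      have h3 : 1 / ((n : ℝ) + 1) ≤ 1 := by
        rw [div_le_one (by positivity)]
        have : (0 : ℝ) ≤ n := Nat.cast_nonneg n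
        linarith
      exact ⟨by linarith, by linarith⟩
  exact h1.trans_le (measure_mono hsub)

/-- Averages over sets of positive measure. -/
noncomputable def avg [CompleteSpace X] [NormedSpace ℝ X] (A : Set ℝ) (f : ℝ → X) : X :=
  (mu A).toReal⁻¹ • ∫ t in A, f t ∂mu

lemma norm_avg_le [CompleteSpace X] [NormedSpace ℝ X] {A : Set ℝ} (hA : 0 < mu A) {f : ℝ → X}
    {C : ℝ} (hf : ∀ᵐ t ∂mu, ‖f t‖ ≤ C) : ‖avg A f‖ ≤ C := by
  have hA' : 0 < (mu A).toReal := ENNReal.toReal_pos hA.ne' (measure_ne_top _ _)
  unfold avg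
  rw [norm_smul, norm_inv, Real.norm_of_nonneg hA'.le, inv_mul_le_iff₀ hA']
  have h1 : ∀ᵐ t ∂mu.restrict A, ‖f t‖ ≤ C := ae_restrict_of_ae hf
  have := norm_setIntegral_le_of_norm_le_const_ae' (μ := mu) (s := A) (f := f) (C := C)
    (measure_lt_top _ _) (by
      filter_upwards [hf] with t ht _ using ht)
  rw [measureReal_def] at this
  linarith

/-- The average as a bounded operator on `L^∞([0,1], X)`. -/
noncomputable def avgL [CompleteSpace X] (A : Set ℝ) (hA : 0 < mu A) : LinfUnit X →L[𝕜] X :=
  letI : NormedSpace ℝ X := NormedSpace.restrictScalars ℝ 𝕜 X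
  LinearMap.mkContinuous
    { toFun := fun f => avg A f
      map_add' := by
        intro f g
        unfold avg
        rw [← smul_add, ← integral_add (integrable_of_Linf f).integrableOn
          (integrable_of_Linf g).integrableOn]
        congr 1
        apply integral_congr_ae
        exact ae_restrict_of_ae (Lp.coeFn_add f g)
      map_smul' := by
        intro c f
        unfold avg
        rw [RingHom.id_apply, smul_comm c]
        congr 1
        rw [← integral_smul]
        apply integral_congr_ae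
        exact ae_restrict_of_ae (Lp.coeFn_smul c f) } 1 (by
      intro f
      rw [one_mul]
      exact norm_avg_le hA (ae_norm_le f))

lemma avgL_apply [CompleteSpace X] (A : Set ℝ) (hA : 0 < mu A) (f : LinfUnit X) :
    letI : NormedSpace ℝ X := NormedSpace.restrictScalars ℝ 𝕜 X
    avgL (𝕜 := 𝕜) A hA f = avg A f := rfl

/-- `ℓ^∞(X)` is complemented in `L^∞([0,1], X)`. -/
theorem seq_complemented_unit [CompleteSpace X] : IsComplementedIn 𝕜 (linfSeq X) (LinfUnit X) := by
  let _ : NormedSpace ℝ X := NormedSpace.restrictScalars ℝ 𝕜 X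
  have hmeas : ∀ a : linfSeq X, StronglyMeasurable (fun t : ℝ => a (kk t - 1)) := fun a =>
    (StronglyMeasurable.of_discrete (f := fun n : ℕ => a (n - 1))).comp_measurable kk_meas
  have hmem : ∀ a : linfSeq X, MemLp (fun t : ℝ => a (kk t - 1)) ∞ mu := fun a =>
    memLp_top_of_bound (hmeas a).aestronglyMeasurable ‖a‖
      (Eventually.of_forall fun t => nrm_apply a _)
  let T : linfSeq X →L[𝕜] LinfUnit X := LinearMap.mkContinuous
    { toFun := fun a => (hmem a).toLp _
      map_add' := by
        intro a b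
        rw [← MemLp.toLp_add]
        rfl
      map_smul' := by
        intro c a
        rw [RingHom.id_apply, ← MemLp.toLp_const_smul]
        rfl } 1 (by
      intro a
      rw [one_mul]
      apply norm_le_of_ae (norm_nonneg _)
      change ∀ᵐ t ∂mu, ‖((hmem a).toLp _ : ℝ → X) t‖ ≤ ‖a‖
      filter_upwards [MemLp.coeFn_toLp (hmem a)] with t ht
      rw [ht]
      exact nrm_apply a _)
  have hT : ∀ a, (T a : ℝ → X) =ᵐ[mu] fun t => a (kk t - 1) := fun a => MemLp.coeFn_toLp (hmem a)
  let S : LinfUnit X →L[𝕜] linfSeq X := LinearMap.mkContinuous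
    { toFun := fun f => mkB (fun n => avgL (𝕜 := 𝕜) (piece n) (piece_pos n) f) ‖f‖ (fun n => by
        exact norm_avg_le (piece_pos n) (ae_norm_le f))
      map_add' := by
        intro f g
        ext n
        exact map_add (avgL (𝕜 := 𝕜) (piece n) (piece_pos n)) f g
      map_smul' := by
        intro c f
        ext n
        exact map_smul (avgL (𝕜 := 𝕜) (piece n) (piece_pos n)) c f } 1 (by
      intro f
      rw [one_mul]
      apply nrm_le (norm_nonneg _)
      intro n
      exact norm_avg_le (piece_pos n) (ae_norm_le f))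
  refine ⟨T, S, fun a => ?_⟩
  ext n
  change avg (piece n) (T a) = a n
  unfold avg
  have h1 : ∫ t in piece n, (T a : ℝ → X) t ∂mu = ∫ _ in piece n, a n ∂mu := by
    apply integral_congr_ae
    filter_upwards [ae_restrict_of_ae (hT a), ae_restrict_mem (piece_meas n)] with t h1 h2
    rw [h1]
    have : kk t = n + 1 := h2
    rw [this]
    rfl
  rw [h1, setIntegral_const, smul_smul, measureReal_def, inv_mul_cancel₀, one_smul]
  exact (ENNReal.toReal_pos (piece_pos n).ne' (measure_ne_top _ _)).ne'

/-- If all averages of a function are bounded by `C`, so is the function. -/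
lemma ae_le_of_avg [CompleteSpace X] [NormedSpace ℝ X] {f : ℝ → X} (hf : AEStronglyMeasurable f mu)
    (hi : Integrable f mu) {C : ℝ}
    (h : ∀ A : Set ℝ, MeasurableSet A → 0 < mu A → ‖avg A f‖ ≤ C) : ∀ᵐ t ∂mu, ‖f t‖ ≤ C := by
  obtain ⟨g, hg, hfg⟩ := hf
  obtain ⟨s, hs, hgs⟩ := hg.isSeparable_range
  have key : ∀ z ∈ s, ∀ ρ : ℚ, 0 < (ρ : ℝ) → C < ‖z‖ - ρ →
      mu {t | dist (g t) z < ρ} = 0 := by
    intro z _ ρ hρ hz
    by_contra hne
    have hA : 0 < mu {t | dist (g t) z < ρ} := pos_iff_ne_zero.2 hne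
    have hAm : MeasurableSet {t | dist (g t) z < ρ} :=
      measurableSet_lt (hg.dist stronglyMeasurable_const).measurable measurable_const
    set A := {t | dist (g t) z < ρ} with hAdef
    have hA' : 0 < (mu A).toReal := ENNReal.toReal_pos hA.ne' (measure_ne_top _ _)
    have h1 := h A hAm hA
    have hgi : Integrable g mu := hi.congr hfg
    have e1 : avg A f = avg A g := by
      unfold avg
      congr 1
      exact integral_congr_ae (ae_restrict_of_ae hfg)
    have e2 : avg A (fun t => g t - z) = avg A g - z := by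
      unfold avg
      rw [integral_sub hgi.integrableOn (integrable_const _), setIntegral_const, smul_sub,
        smul_smul, measureReal_def, inv_mul_cancel₀ hA'.ne', one_smul]
    have h2 : ‖avg A (fun t => g t - z)‖ ≤ ρ := by
      unfold avg
      rw [norm_smul, norm_inv, Real.norm_of_nonneg hA'.le, inv_mul_le_iff₀ hA']
      have := norm_setIntegral_le_of_norm_le_const (μ := mu) (s := A)
        (f := fun t => g t - z) (C := (ρ : ℝ)) (measure_lt_top _ _) (by
          intro t ht
          have : dist (g t) z < ρ := ht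
          rw [dist_eq_norm] at this
          exact this.le)
      rw [measureReal_def] at this
      linarith
    rw [e2] at h2
    rw [e1] at h1
    have h3 : ‖z‖ ≤ ‖avg A g‖ + ‖avg A g - z‖ := by
      have : z = avg A g - (avg A g - z) := by abel
      calc ‖z‖ = ‖avg A g - (avg A g - z)‖ := by rw [← this]
        _ ≤ _ := norm_sub_le _ _
    linarith
  have hnull : mu {t | C < ‖g t‖} = 0 := by
    have hsub : {t | C < ‖g t‖} ⊆ ⋃ z ∈ s, ⋃ ρ ∈ {ρ : ℚ | 0 < (ρ : ℝ) ∧ C < ‖z‖ - ρ},
        {t | dist (g t) z < ρ} := by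
      intro t ht
      have ht' : C < ‖g t‖ := ht
      obtain ⟨ρ, hρ1, hρ2⟩ := exists_rat_btwn (show (0 : ℝ) < (‖g t‖ - C) / 2 by linarith)
      have hcl : g t ∈ closure s := hgs ⟨t, rfl⟩
      obtain ⟨z, hz, hzd⟩ := Metric.mem_closure_iff.1 hcl ρ hρ1
      simp only [mem_iUnion, mem_ofPred_eq, exists_prop]
      refine ⟨z, hz, ρ, ⟨hρ1, ?_⟩, hzd⟩
      have h4 : ‖g t‖ ≤ ‖z‖ + dist (g t) z := by
        rw [dist_eq_norm]
        calc ‖g t‖ = ‖z + (g t - z)‖ := by congr 1; abel
          _ ≤ _ := norm_add_le _ _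
      linarith
    refine measure_mono_null hsub ?_
    rw [measure_biUnion_null_iff hs]
    intro z hz
    rw [measure_biUnion_null_iff (Set.to_countable _)]
    intro ρ hρ
    exact key z hz ρ hρ.1 hρ.2
  have h5 : ∀ᵐ t ∂mu, ‖g t‖ ≤ C := by
    rw [ae_iff]
    refine measure_mono_null ?_ hnull
    intro t ht
    have : ¬ ‖g t‖ ≤ C := ht
    exact not_le.1 this
  filter_upwards [hfg, h5] with t h6 h7
  rw [h6]; exact h7

end Pool.Agent.LinfX
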