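import Pool.Agent.LinfX.Normal

/-!
If `L^∞([0,1], X)` is complemented in `ℓ^∞(X)` and `X` does not contain `c_0`, then there is an
`X`-valued Banach limit.
-/

open MeasureTheory Set Filter Topology
open scoped ENNReal NNReal

namespace Pool.Agent.LinfX

variable {𝕜 : Type*} [RCLike 𝕜]
variable {X : Type*} [NormedAddCommGroup X] [NormedSpace 𝕜 X]

/-- The constant functions. -/
noncomputable def cf (x : X) : LinfUnit X := Lp.const ∞ mu x

lemma cf_coe (x : X) : (cf x : ℝ → X) =ᵐ[mu] fun _ => x := Lp.coeFn_const _ _ _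

lemma norm_cf_le (x : X) : ‖cf x‖ ≤ ‖x‖ := by
  apply norm_le_of_ae (norm_nonneg _)
  filter_upwards [cf_coe x] with t ht
  rw [ht]

lemma cf_add (x y : X) : cf (x + y) = cf x + cf y := map_add (Lp.const ∞ mu) x y

lemma cf_smul (c : 𝕜) (x : X) : cf (c • x) = c • cf x := by
  apply Lp.ext
  filter_upwards [cf_coe (c • x), Lp.coeFn_smul c (cf x), cf_coe x] with t h1 h2 h3
  rw [h1, h2, Pi.smul_apply, h3]

/-- The operator `y ↦ (T_n (1_V ⊗ y_n))_n`. -/
noncomputable def RV (T : LinfUnit X →L[𝕜] linfSeq X) (V : Set ℝ) : linfSeq X →L[𝕜] linfSeq X :=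
  LinearMap.mkContinuous
    { toFun := fun y => mkB (fun n => T (cut 𝕜 V (cf (y n))) n) (‖T‖ * ‖y‖) (fun n => by
        refine (nrm_apply _ _).trans ((T.le_opNorm _).trans ?_)
        exact mul_le_mul_of_nonneg_left ((norm_cut_le _ _).trans
          ((norm_cf_le _).trans (nrm_apply y n))) (norm_nonneg _))
      map_add' := by
        intro a b
        ext n
        change T (cut 𝕜 V (cf (a n + b n))) n =
          T (cut 𝕜 V (cf (a n))) n + T (cut 𝕜 V (cf (b n))) n
        rw [cf_add, map_add, map_add]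
        rfl
      map_smul' := by
        intro c a
        ext n
        change T (cut 𝕜 V (cf (c • a n))) n = c • T (cut 𝕜 V (cf (a n))) n
        rw [cf_smul, map_smul, map_smul]
        rfl } ‖T‖ (by
      intro y
      exact nrm_le (by positivity) fun n => by
        refine (nrm_apply (T (cut 𝕜 V (cf (y n)))) n).trans ((T.le_opNorm _).trans ?_)
        exact mul_le_mul_of_nonneg_left ((norm_cut_le _ _).trans
          ((norm_cf_le _).trans (nrm_apply y n))) (norm_nonneg _))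

lemma RV_apply (T : LinfUnit X →L[𝕜] linfSeq X) (V : Set ℝ) (y : linfSeq X) (n : ℕ) :
    RV T V y n = T (cut 𝕜 V (cf (y n))) n := rfl

lemma RV_cseq (T : LinfUnit X →L[𝕜] linfSeq X) (V : Set ℝ) (x : X) :
    RV T V (cseq x) = T (cut 𝕜 V (cf x)) := by
  ext n
  rw [RV_apply, cseq_apply]

lemma cf_zero : cf (0 : X) = 0 := map_zero (Lp.const ∞ mu)

lemma RV_sg (T : LinfUnit X →L[𝕜] linfSeq X) (V : Set ℝ) (x : X) (n : ℕ) :
    RV T V (sg n x) = sg n (T (cut 𝕜 V (cf x)) n) := by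
  ext i
  rw [RV_apply, sg_apply, sg_apply]
  split_ifs with h
  · rw [h]
  · rw [cf_zero, map_zero, map_zero]
    rfl

/-- Blocks of an operator with values in `L^∞([0,1], X)` tend to zero in `L^1`. -/
lemma no_blocks [CompleteSpace X] (hX : ¬ ContainsC0 𝕜 X) (S : linfSeq X →L[𝕜] LinfUnit X)
    {c K : ℝ} (hc : 0 < c)
    (h : ∀ N : ℕ, ∃ M : ℕ, ∃ y : linfSeq X, N ≤ M ∧ ‖y‖ ≤ K ∧ (∀ n, n < N → y n = 0) ∧
      (∀ n, M ≤ n → y n = 0) ∧ c ≤ ∫ t, ‖S y t‖ ∂mu) : False := by
  choose M y hNM hyn hy1 hy2 hyc using h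
  have hK : 0 ≤ K := (norm_nonneg _).trans (hyn 0)
  let N : ℕ → ℕ := fun j => Nat.rec 0 (fun _ n => M n) j
  have hN : ∀ j, N (j + 1) = M (N j) := fun j => rfl
  have hmono : Monotone N := monotone_nat_of_le_succ fun j => by rw [hN]; exact hNM _
  set u : ℕ → linfSeq X := fun j => y (N j) with hu
  have hsupp : ∀ i j k, i < j → u i k ≠ 0 → u j k = 0 := by
    intro i j k hij hik
    apply hy1
    by_contra hcon
    push Not at hcon
    apply hik
    apply hy2
    refine le_trans ?_ hcon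
    rw [← hN]
    exact hmono hij
  have hsum : ∀ F : Finset ℕ, ‖∑ j ∈ F, u j‖ ≤ K := by
    intro F
    apply nrm_le hK
    intro k
    rw [lp.coeFn_sum, Finset.sum_apply]
    by_cases hex : ∃ i ∈ F, u i k ≠ 0
    · obtain ⟨i, hi, hik⟩ := hex
      rw [Finset.sum_eq_single_of_mem i hi]
      · exact (nrm_apply _ _).trans (hyn _)
      · intro j _ hji
        rcases lt_or_gt_of_ne hji with h1 | h1
        · by_contra hne
          exact hik (hsupp j i k h1 hne)
        · exact hsupp i j k h1 hik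
    · push Not at hex
      rw [Finset.sum_eq_zero hex, norm_zero]
      exact hK
  have hWU : ∀ᵐ t ∂mu, WU (‖S‖ * K) (fun j => S (u j) t) := by
    have h1 : ∀ F : Finset ℕ, ∀ᵐ t ∂mu, ‖∑ j ∈ F, S (u j) t‖ ≤ ‖S‖ * K := by
      intro F
      filter_upwards [ae_norm_le (S (∑ j ∈ F, u j)),
        Lp.coeFn_finsetSum (p := ∞) (μ := mu) F (fun j => S (u j))] with t h2 h3
      rw [map_sum, h3, Finset.sum_apply] at h2
      refine h2.trans ?_
      rw [← map_sum]
      exact (S.le_opNorm _).trans (mul_le_mul_of_nonneg_left (hsum F) (norm_nonneg _))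
    exact ae_all_iff.2 h1
  have hlim : ∀ᵐ t ∂mu, Tendsto (fun j => ‖S (u j) t‖) atTop (𝓝 0) := by
    filter_upwards [hWU] with t ht
    have := (ht.tendsto_zero 𝕜 hX).norm
    rwa [norm_zero] at this
  have hint : Tendsto (fun j => ∫ t, ‖S (u j) t‖ ∂mu) atTop (𝓝 (∫ _ : ℝ, (0 : ℝ) ∂mu)) := by
    apply tendsto_integral_of_dominated_convergence (fun _ => ‖S‖ * K)
    · intro j
      exact (Lp.aestronglyMeasurable _).norm
    · exact integrable_const _
    · intro j
      filter_upwards [ae_norm_le (S (u j))] with t ht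
      rw [norm_norm]
      exact ht.trans ((S.le_opNorm _).trans (mul_le_mul_of_nonneg_left (hyn _) (norm_nonneg _)))
    · exact hlim
  rw [integral_zero] at hint
  have := ge_of_tendsto hint (Eventually.of_forall fun j => hyc (N j))
  linarith

/-- The pieces used below. -/
def Vp (A : Set ℝ) (m i : ℕ) : Set ℝ := Ico ((i : ℝ) / m) ((i + 1 : ℝ) / m) \ A

lemma Vp_meas {A : Set ℝ} (hA : MeasurableSet A) (m i : ℕ) : MeasurableSet (Vp A m i) :=
  measurableSet_Ico.diff hA

lemma Vp_disj (A : Set ℝ) {m : ℕ} (hm : 0 < m) (i j : ℕ) (hij : i ≠ j) :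
    Disjoint (Vp A m i) (Vp A m j) := by
  have key : ∀ i j : ℕ, i < j → Disjoint (Vp A m i) (Vp A m j) := by
    intro i j hij
    rw [Set.disjoint_left]
    rintro t ⟨⟨_, h1⟩, _⟩ ⟨⟨h2, _⟩, _⟩
    have hm' : (0 : ℝ) < m := by exact_mod_cast hm
    have h3 : ((i : ℝ) + 1) / m ≤ (j : ℝ) / m := by
      apply div_le_div_of_nonneg_right _ hm'.le
      exact_mod_cast hij
    linarith
  rcases lt_or_gt_of_ne hij with h | h
  · exact key i j h
  · exact (key j i h).symm

lemma Vp_mu_le (A : Set ℝ) {m : ℕ} (hm : 0 < m) (i : ℕ) : mu (Vp A m i) ≤ (m : ℝ≥0∞)⁻¹ := by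
  have hm' : (0 : ℝ) < m := by exact_mod_cast hm
  have h1 : mu (Vp A m i) ≤ volume (Ico ((i : ℝ) / m) ((i + 1 : ℝ) / m)) :=
    (measure_mono (sdiff_subset)).trans (Measure.restrict_apply_le _ _)
  refine h1.trans ?_
  rw [Real.volume_Ico, ← sub_div, add_sub_cancel_left, one_div, ENNReal.ofReal_inv_of_pos hm',
    ENNReal.ofReal_natCast]

lemma Vp_cover (A : Set ℝ) {m : ℕ} (hm : 0 < m) :
    mu Aᶜ ≤ ∑ i : Fin m, mu (Vp A m i) := by
  have hm' : (0 : ℝ) < m := by exact_mod_cast hm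
  have h1 : mu Aᶜ = mu (Aᶜ ∩ Ico 0 1) := by
    apply measure_congr
    filter_upwards [ae_mem_Ico] with t ht
    apply propext
    exact ⟨fun h => ⟨h, ht⟩, fun h => h.1⟩
  rw [h1]
  have h2 : Aᶜ ∩ Ico 0 1 ⊆ ⋃ i : Fin m, Vp A m i := by
    rintro t ⟨htA, ht0, ht1⟩
    rw [mem_iUnion]
    have h3 : ⌊t * m⌋₊ < m := by
      rw [Nat.floor_lt (by positivity)]
      nlinarith
    refine ⟨⟨⌊t * m⌋₊, h3⟩, ⟨?_, ?_⟩, htA⟩
    · rw [div_le_iff₀ hm']
      exact Nat.floor_le (by positivity)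
    · rw [lt_div_iff₀ hm']
      exact Nat.lt_floor_add_one _
  refine (measure_mono h2).trans ?_
  refine (measure_iUnion_le _).trans ?_
  rw [tsum_fintype]

end Pool.Agent.LinfX
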