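import Pool.Agent.LinfX.BL

open MeasureTheory Set Filter Topology
open scoped ENNReal NNReal

namespace Pool.Agent.LinfX

variable {𝕜 : Type*} [RCLike 𝕜]
variable {X : Type*} [NormedAddCommGroup X] [NormedSpace 𝕜 X]

/-- The operator `y ↦ avg_V S (T_n (1_V ⊗ y_n))_n`. -/
noncomputable def Aop [CompleteSpace X] (T : LinfUnit X →L[𝕜] linfSeq X)
    (S : linfSeq X →L[𝕜] LinfUnit X) (V : Set ℝ) (hV : 0 < mu V) : linfSeq X →L[𝕜] X :=
  (avgL V hV).comp (S.comp (RV T V))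

lemma norm_avgL_le' [CompleteSpace X] (V : Set ℝ) (hV : 0 < mu V) (f : LinfUnit X) :
    ‖avgL (𝕜 := 𝕜) V hV f‖ ≤ ‖f‖ := by
  let _ : NormedSpace ℝ X := NormedSpace.restrictScalars ℝ 𝕜 X
  exact norm_avg_le hV (ae_norm_le f)

lemma norm_sg_le (n : ℕ) (x : X) : ‖sg n x‖ ≤ ‖x‖ := by
  apply nrm_le (norm_nonneg _)
  intro i
  rw [sg_apply]
  split_ifs
  · exact le_rfl
  · rw [norm_zero]; exact norm_nonneg _

lemma norm_Aop_sg_le [CompleteSpace X] (T : LinfUnit X →L[𝕜] linfSeq X)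
    (S : linfSeq X →L[𝕜] LinfUnit X) (V : Set ℝ) (hV : 0 < mu V) (n : ℕ) (x : X) :
    ‖Aop T S V hV (sg n x)‖ ≤ ‖S‖ * (‖((evL 𝕜 n).comp T).comp (cut 𝕜 V)‖ * ‖x‖) := by
  unfold Aop
  rw [ContinuousLinearMap.comp_apply, ContinuousLinearMap.comp_apply, RV_sg]
  refine (norm_avgL_le' V hV _).trans ((S.le_opNorm _).trans ?_)
  apply mul_le_mul_of_nonneg_left _ (norm_nonneg _)
  refine (norm_sg_le _ _).trans ?_
  have h1 := (((evL 𝕜 n).comp T).comp (cut 𝕜 V)).le_opNorm (cf x)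
  refine h1.trans ?_
  exact mul_le_mul_of_nonneg_left (norm_cf_le x) (norm_nonneg _)

/-- Restriction of a sequence to the window `[N, M)`. -/
noncomputable def win (𝕜 : Type*) [RCLike 𝕜] {X : Type*} [NormedAddCommGroup X]
    [NormedSpace 𝕜 X] (N M : ℕ) : linfSeq X →L[𝕜] linfSeq X :=
  trunc (𝕜 := 𝕜) M - trunc (𝕜 := 𝕜) N

lemma win_apply {N M : ℕ} (hNM : N ≤ M) (y : linfSeq X) (i : ℕ) :
    win 𝕜 N M y i = if N ≤ i ∧ i < M then y i else 0 := by
  have e : win 𝕜 N M y i = trunc (𝕜 := 𝕜) M y i - trunc (𝕜 := 𝕜) N y i := rfl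
  rw [e, trunc_apply, trunc_apply]
  by_cases hi1 : i < N
  · rw [if_pos hi1, if_pos (lt_of_lt_of_le hi1 hNM), sub_self, if_neg]
    omega
  · by_cases hi2 : i < M
    · rw [if_pos hi2, if_neg hi1, sub_zero, if_pos]
      omega
    · rw [if_neg hi2, if_neg hi1, sub_zero, if_neg]
      omega

lemma norm_win_le {N M : ℕ} (hNM : N ≤ M) (y : linfSeq X) : ‖win 𝕜 N M y‖ ≤ ‖y‖ := by
  apply nrm_le (norm_nonneg _)
  intro i
  rw [win_apply hNM]
  split_ifs
  · exact nrm_apply y i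
  · rw [norm_zero]; exact norm_nonneg _

/-- Lower bound for one piece. -/
lemma piece_bound [CompleteSpace X] (T : LinfUnit X →L[𝕜] linfSeq X)
    (S : linfSeq X →L[𝕜] LinfUnit X) (V : Set ℝ) (hV : 0 < mu V) (N : ℕ) (x : X)
    (hx : ‖x‖ ≤ 1) {b : X} (hb : HasSum (fun n => Aop T S V hV (sg n x)) b) (hb2 : 1 / 2 < ‖b‖)
    (hN : ∀ n < N, ‖((evL 𝕜 n).comp T).comp (cut 𝕜 V)‖ ≤ 1 / (8 * (N + 1) * (‖S‖ + 1))) :
    ∃ M₀ : ℕ, ∀ M, M₀ ≤ M → (mu V).toReal / 4 ≤
      ∫ t in V, ‖S (win 𝕜 N M (T (cut 𝕜 V (cf x)))) t‖ ∂mu := by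
  let _ : NormedSpace ℝ X := NormedSpace.restrictScalars ℝ 𝕜 X
  have h1 : ∀ᶠ M in atTop, 1 / 2 < ‖∑ n ∈ Finset.range M, Aop T S V hV (sg n x)‖ :=
    (hb.tendsto_sum_nat.norm).eventually (lt_mem_nhds hb2)
  obtain ⟨M₁, hM₁⟩ := eventually_atTop.1 h1
  refine ⟨max M₁ N, fun M hM => ?_⟩
  have hMN : N ≤ M := (le_max_right _ _).trans hM
  have h2 := hM₁ M ((le_max_left _ _).trans hM)
  rw [← Finset.sum_range_add_sum_Ico _ hMN] at h2
  have h3 : ‖∑ n ∈ Finset.range N, Aop T S V hV (sg n x)‖ ≤ 1 / 8 := by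
    refine (norm_sum_le _ _).trans ?_
    have h4 : ∀ n ∈ Finset.range N, ‖Aop T S V hV (sg n x)‖ ≤ 1 / (8 * (N + 1)) := by
      intro n hn
      refine (norm_Aop_sg_le T S V hV n x).trans ?_
      have h5 := hN n (Finset.mem_range.1 hn)
      have h6 := norm_nonneg S
      have h7 : ‖((evL 𝕜 n).comp T).comp (cut 𝕜 V)‖ * ‖x‖ ≤ 1 / (8 * (N + 1) * (‖S‖ + 1)) := by
        calc _ ≤ 1 / (8 * (N + 1) * (‖S‖ + 1)) * 1 :=
              mul_le_mul h5 hx (norm_nonneg _) (by positivity)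
          _ = _ := mul_one _
      calc ‖S‖ * (‖((evL 𝕜 n).comp T).comp (cut 𝕜 V)‖ * ‖x‖)
          ≤ (‖S‖ + 1) * (1 / (8 * (N + 1) * (‖S‖ + 1))) :=
            mul_le_mul (by linarith) h7 (by positivity) (by positivity)
        _ = 1 / (8 * (N + 1)) := by field_simp
    refine (Finset.sum_le_sum h4).trans ?_
    rw [Finset.sum_const, Finset.card_range, nsmul_eq_mul, mul_one_div,
      div_le_div_iff₀ (by positivity) (by norm_num)]
    nlinarith
  have h8 : 1 / 4 ≤ ‖∑ n ∈ Finset.Ico N M, Aop T S V hV (sg n x)‖ := by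
    have := norm_add_le (∑ n ∈ Finset.range N, Aop T S V hV (sg n x))
      (∑ n ∈ Finset.Ico N M, Aop T S V hV (sg n x))
    linarith
  set z : linfSeq X := win 𝕜 N M (T (cut 𝕜 V (cf x))) with hz
  have hzsum : z = ∑ n ∈ Finset.Ico N M, sg n (T (cut 𝕜 V (cf x)) n) := by
    ext i
    rw [sum_sg_apply (fun n => T (cut 𝕜 V (cf x)) n), hz, win_apply hMN]
    simp only [Finset.mem_Ico]
  have havg : avgL (𝕜 := 𝕜) V hV (S z) = ∑ n ∈ Finset.Ico N M, Aop T S V hV (sg n x) := by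
    rw [hzsum, map_sum, map_sum]
    apply Finset.sum_congr rfl
    intro n _
    unfold Aop
    rw [ContinuousLinearMap.comp_apply, ContinuousLinearMap.comp_apply, RV_sg]
  rw [← havg, avgL_apply] at h8
  have hV' : 0 < (mu V).toReal := ENNReal.toReal_pos hV.ne' (measure_ne_top _ _)
  have h9 : ‖avg V (S z)‖ * (mu V).toReal = ‖∫ t in V, S z t ∂mu‖ := by
    unfold avg
    rw [norm_smul, norm_inv, Real.norm_of_nonneg hV'.le]
    field_simp
  have h10 : ‖∫ t in V, S z t ∂mu‖ ≤ ∫ t in V, ‖S z t‖ ∂mu := norm_integral_le_integral_norm _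
  nlinarith

/-- The key claim. -/
lemma exists_good [CompleteSpace X] (hX : ¬ ContainsC0 𝕜 X) (T : LinfUnit X →L[𝕜] linfSeq X)
    (S : linfSeq X →L[𝕜] LinfUnit X) {A : Set ℝ} (hA : MeasurableSet A) (hAc : 0 < mu Aᶜ)
    (hAC : ∀ n, ACoff ((evL 𝕜 n).comp T) A) :
    ∃ V : Set ℝ, MeasurableSet V ∧ ∃ hV : 0 < mu V, ∃ B : linfSeq X →L[𝕜] X,
      (∀ y : linfSeq X, Tendsto (fun n => y n) atTop (𝓝 0) → B y = Aop T S V hV y) ∧
      ∀ x, ‖B (cseq x)‖ ≤ 1 / 2 * ‖x‖ := by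
  by_contra hcon
  push Not at hcon
  -- the bad vectors
  have hbad : ∀ V : Set ℝ, MeasurableSet V → ∀ hV : 0 < mu V, ∃ x b : X, ‖x‖ ≤ 1 ∧
      HasSum (fun n => Aop T S V hV (sg n x)) b ∧ 1 / 2 < ‖b‖ := by
    intro V hVm hV
    obtain ⟨B, hB1, hB2⟩ := exists_normal hX (Aop T S V hV)
    obtain ⟨x, hx⟩ := hcon V hVm hV B hB2
    have hx0 : x ≠ 0 := by
      rintro rfl
      have : cseq (0 : X) = 0 := by ext n; rfl
      rw [this, map_zero, norm_zero] at hx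
      simp at hx
    have hxn : 0 < ‖x‖ := norm_pos_iff.2 hx0
    set r : 𝕜 := ((‖x‖⁻¹ : ℝ) : 𝕜) with hr
    have hrn : ‖r‖ = ‖x‖⁻¹ := by
      rw [hr, RCLike.norm_ofReal, abs_of_pos (inv_pos.2 hxn)]
    have hB1' := hB1 (cseq (r • x))
    simp only [cseq_apply] at hB1'
    refine ⟨r • x, B (cseq (r • x)), ?_, hB1', ?_⟩
    · rw [norm_smul, hrn, inv_mul_cancel₀ hxn.ne']
    · have e : cseq (r • x) = r • cseq x := (cseqL 𝕜).map_smul r x
      rw [e, map_smul, norm_smul, hrn, inv_mul_eq_div, lt_div_iff₀ hxn]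
      exact hx
  have hAc' : 0 < (mu Aᶜ).toReal := ENNReal.toReal_pos hAc.ne' (measure_ne_top _ _)
  refine no_blocks hX S (c := (mu Aᶜ).toReal / 4) (K := ‖T‖) (by positivity) fun N => ?_
  -- choice of the scale
  have hη : (0 : ℝ) < 1 / (8 * (N + 1) * (‖S‖ + 1)) := by positivity
  choose θ hθ0 hθ using fun n => hAC n _ hη
  obtain ⟨θ', hθ'0, hθ'⟩ : ∃ θ' : ℝ≥0∞, 0 < θ' ∧ ∀ n < N, θ' ≤ θ n := by
    have : ∀ K : ℕ, ∃ θ' : ℝ≥0∞, 0 < θ' ∧ ∀ n < K, θ' ≤ θ n := by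
      intro K
      induction K with
      | zero => exact ⟨1, one_pos, fun n hn => absurd hn (Nat.not_lt_zero _)⟩
      | succ K ih =>
        obtain ⟨θ', h1, h2⟩ := ih
        refine ⟨min θ' (θ K), lt_min h1 (hθ0 K), fun n hn => ?_⟩
        rcases Nat.lt_succ_iff_lt_or_eq.1 hn with h | h
        · exact (min_le_left _ _).trans (h2 n h)
        · rw [h]; exact min_le_right _ _
    exact this N
  obtain ⟨m, hm⟩ := ENNReal.exists_inv_nat_lt hθ'0.ne'
  have hm0 : 0 < m := by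
    rcases Nat.eq_zero_or_pos m with h | h
    · rw [h] at hm; simp at hm
    · exact h
  set V : ℕ → Set ℝ := Vp A m with hV
  have hVm : ∀ i, MeasurableSet (V i) := fun i => Vp_meas hA m i
  have hVA : ∀ i, Disjoint (V i) A := fun i => disjoint_sdiff_left
  have hVmu : ∀ i, mu (V i) ≤ θ' := fun i => (Vp_mu_le A hm0 i).trans hm.le
  have hpiece : ∀ i, ∃ x : X, ‖x‖ ≤ 1 ∧ ∃ M₀ : ℕ, ∀ M, M₀ ≤ M → (mu (V i)).toReal / 4 ≤
      ∫ t in V i, ‖S (win 𝕜 N M (T (cut 𝕜 (V i) (cf x)))) t‖ ∂mu := by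
    intro i
    by_cases hpos : 0 < mu (V i)
    · obtain ⟨x, b, hx, hb, hb2⟩ := hbad (V i) (hVm i) hpos
      refine ⟨x, hx, piece_bound T S (V i) hpos N x hx hb hb2 fun n hn => ?_⟩
      exact hθ n (V i) (hVm i) (hVA i) ((hVmu i).trans (hθ' n hn))
    · refine ⟨0, by simp, 0, fun M _ => ?_⟩
      have h0 : mu (V i) = 0 := le_antisymm (not_lt.1 hpos) bot_le
      rw [h0, ENNReal.toReal_zero, zero_div]
      exact integral_nonneg fun t => norm_nonneg _
  choose x hx M₀ hM₀ using hpiece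
  obtain ⟨M, hMN, hM⟩ : ∃ M, N ≤ M ∧ ∀ i : Fin m, M₀ i ≤ M := by
    refine ⟨max N (Finset.univ.sup fun i : Fin m => M₀ i), le_max_left _ _, fun i => ?_⟩
    exact (Finset.le_sup (f := fun i : Fin m => M₀ i) (Finset.mem_univ i)).trans (le_max_right _ _)
  -- signs
  obtain ⟨ε, hε, hsum⟩ := exists_signs_norm (𝕜 := 𝕜) (ι := Fin m) (Z := LinfUnit X)
    (fun i g => ∫ t in V i, ‖g t‖ ∂mu) (by
      intro i a b
      rw [← integral_add (integrable_of_Linf a).norm.integrableOn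
        (integrable_of_Linf b).norm.integrableOn]
      apply integral_mono_ae (integrable_of_Linf (a - b)).norm.integrableOn
        ((integrable_of_Linf a).norm.add (integrable_of_Linf b).norm).integrableOn
      filter_upwards [ae_restrict_of_ae (Lp.coeFn_sub a b)] with t ht
      rw [ht, Pi.sub_apply]
      exact norm_sub_le _ _) (by
      intro i a
      rw [← integral_const_mul]
      apply le_of_eq
      apply integral_congr_ae
      filter_upwards [ae_restrict_of_ae (Lp.coeFn_smul (2 : 𝕜) a)] with t ht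
      rw [ht, Pi.smul_apply, norm_smul, RCLike.norm_ofNat]) (by
      intro i a
      apply integral_congr_ae
      filter_upwards [ae_restrict_of_ae (Lp.coeFn_neg a)] with t ht
      rw [ht, Pi.neg_apply, norm_neg])
    (fun i => S (win 𝕜 N M (T (cut 𝕜 (V i) (cf (x i))))))
  -- the function
  set f : LinfUnit X := ∑ i : Fin m, ε i • cut 𝕜 (V i) (cf (x i)) with hf
  have hfn : ‖f‖ ≤ 1 := by
    have h1 := norm_sum_cut_le (𝕜 := 𝕜) (B := V) hVm (fun i j hij => Vp_disj A hm0 i j hij)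
      (fun i => if h : i < m then ε ⟨i, h⟩ • cf (x i) else 0) zero_le_one (by
        intro i
        split_ifs with h
        · rw [norm_smul]
          have h2 : ‖ε ⟨i, h⟩‖ = 1 := by
            rcases hε ⟨i, h⟩ with h3 | h3 <;> rw [h3] <;> simp
          rw [h2, one_mul]
          exact (norm_cf_le _).trans (hx i)
        · rw [norm_zero]; exact zero_le_one) (Finset.range m)
    rw [Finset.sum_range] at h1
    refine le_of_eq_of_le ?_ h1
    rw [hf]
    congr 1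
    apply Finset.sum_congr rfl
    intro i _
    rw [dif_pos i.2, map_smul]
  refine ⟨M, win 𝕜 N M (T f), hMN, ?_, ?_, ?_, ?_⟩
  · refine (norm_win_le hMN _).trans ((T.le_opNorm _).trans ?_)
    exact mul_le_of_le_one_right (norm_nonneg _) hfn
  · intro n hn
    rw [win_apply hMN, if_neg]
    omega
  · intro n hn
    rw [win_apply hMN, if_neg]
    omega
  · have e1 : ∑ j : Fin m, ε j • S (win 𝕜 N M (T (cut 𝕜 (V j) (cf (x j))))) =
        S (win 𝕜 N M (T f)) := by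
      rw [hf]
      simp only [map_sum, map_smul]
    rw [e1] at hsum
    have h1 : (mu Aᶜ).toReal ≤ ∑ i : Fin m, (mu (V i)).toReal := by
      rw [← ENNReal.toReal_sum (fun i _ => measure_ne_top _ _)]
      exact ENNReal.toReal_mono (by
        rw [ENNReal.sum_ne_top]
        exact fun i _ => measure_ne_top _ _) (Vp_cover A hm0)
    have h2 : ∑ i : Fin m, (mu (V i)).toReal / 4 ≤
        ∑ i : Fin m, ∫ t in V i, ‖S (win 𝕜 N M (T (cut 𝕜 (V i) (cf (x i))))) t‖ ∂mu :=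
      Finset.sum_le_sum fun i _ => hM₀ i M (hM i)
    have h3 : ∑ i : Fin m, ∫ t in V i, ‖S (win 𝕜 N M (T f)) t‖ ∂mu ≤
        ∫ t, ‖S (win 𝕜 N M (T f)) t‖ ∂mu := by
      rw [← integral_iUnion_fintype (fun i : Fin m => hVm i) (by
        intro i j hij
        exact Vp_disj A hm0 i j (fun h => hij (Fin.ext h)))
        (fun i => (integrable_of_Linf _).norm.integrableOn)]
      exact setIntegral_le_integral (integrable_of_Linf _).norm
        (Eventually.of_forall fun t => norm_nonneg _)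
    rw [← Finset.sum_div] at h2
    linarith [h2.trans (hsum.trans h3)]

end Pool.Agent.LinfX
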