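import Pool.Agent.LinfX.Defs

open MeasureTheory Filter Topology
open scoped ENNReal

namespace Pool.Agent.LinfX

/-- The Banach space `ℓ^∞(X)` as a type. -/
noncomputable abbrev SeqT (X : Type*) [NormedAddCommGroup X] : Type _ := ↥(linfSeq X)

/-- The Banach space `L^∞([0,1], X)` as a type. -/
noncomputable abbrev UnitT (X : Type*) [NormedAddCommGroup X] : Type _ := ↥(LinfUnit X)

/-- The Banach space `L^1([0,1])` as a type. -/
noncomputable abbrev LOneT (𝕜 : Type*) [RCLike 𝕜] : Type _ := ↥(Lp 𝕜 1 mu)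

/-- The Banach space of all bounded linear operators `L^1([0,1]) → X`. -/
noncomputable abbrev OpT (𝕜 : Type*) [RCLike 𝕜] (X : Type*) [NormedAddCommGroup X]
    [NormedSpace 𝕜 X] : Type _ := LOneT 𝕜 →L[𝕜] X

/-- The Banach spaces `ℓ^∞(X)` and `L^∞([0,1], X)` are isomorphic. -/
def SpacesIso (𝕜 : Type*) [RCLike 𝕜] (X : Type*) [NormedAddCommGroup X] [NormedSpace 𝕜 X] :
    Prop := Iso 𝕜 (SeqT X) (UnitT X)

/-- `X` admits an `X`-valued Banach limit: a bounded linear operator `ℓ^∞(X) → X` which assigns to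
each norm convergent sequence its limit. -/
def HasBanachLimit (𝕜 : Type*) [RCLike 𝕜] (X : Type*) [NormedAddCommGroup X] [NormedSpace 𝕜 X] :
    Prop :=
  ∃ Λ : SeqT X →L[𝕜] X, ∀ (x : SeqT X) (a : X),
    Tendsto (fun n => x n) atTop (𝓝 a) → Λ x = a

/-- The operator `R : L^1([0,1]) → X` is represented by the function `g ∈ L^∞([0,1], X)`:
`R φ = ∫ φ(t) g(t) dt` for all `φ`. -/
def Represents {𝕜 : Type*} [RCLike 𝕜] {X : Type*} [NormedAddCommGroup X] [NormedSpace 𝕜 X]
    (g : UnitT X) (R : OpT 𝕜 X) : Prop :=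
  letI : NormedSpace ℝ X := NormedSpace.restrictScalars ℝ 𝕜 X
  ∀ φ : LOneT 𝕜, R φ = ∫ t, (φ : ℝ → 𝕜) t • (g : ℝ → X) t ∂mu

/-- The representable operators form a complemented subspace of the space of all bounded linear
operators `L^1([0,1]) → X`: there is a bounded linear operator which recovers from each
representable operator the function which represents it. -/
def RepComplemented (𝕜 : Type*) [RCLike 𝕜] (X : Type*) [NormedAddCommGroup X]
    [NormedSpace 𝕜 X] : Prop :=
  ∃ P : OpT 𝕜 X →L[𝕜] UnitT X, ∀ (g : UnitT X) (R : OpT 𝕜 X), Represents g R → P R = g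

/-- The Radon-Nikodym property: every bounded linear operator `L^1([0,1]) → X` is
representable. -/
def HasRNP (𝕜 : Type*) [RCLike 𝕜] (X : Type*) [NormedAddCommGroup X] [NormedSpace 𝕜 X] : Prop :=
  ∀ R : OpT 𝕜 X, ∃ g : UnitT X, Represents g R

/-- There is a sequence of bounded finite rank operators on `X` that tends to the identity
pointwise. (For separable `X` this is the bounded approximation property.) -/
def HasSeqBAP (𝕜 : Type*) [RCLike 𝕜] (X : Type*) [NormedAddCommGroup X] [NormedSpace 𝕜 X] :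
    Prop :=
  ∃ Q : ℕ → X →L[𝕜] X, (∀ n, FiniteDimensional 𝕜 (LinearMap.range (Q n : X →ₗ[𝕜] X))) ∧
    ∀ x, Tendsto (fun n => Q n x) atTop (𝓝 x)

/-- `X` is complemented in its bidual. -/
def ComplementedInBidual (𝕜 : Type*) [RCLike 𝕜] (X : Type*) [NormedAddCommGroup X]
    [NormedSpace 𝕜 X] : Prop :=
  ∃ P : StrongDual 𝕜 (StrongDual 𝕜 X) →L[𝕜] X,
    ∀ x, P (NormedSpace.inclusionInDoubleDual 𝕜 X x) = x

end Pool.Agent.LinfX
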