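import Pool.Agent.LinfX.BL2
import Pool.Agent.LinfX.Defs2

open MeasureTheory Set Filter Topology
open scoped ENNReal NNReal

namespace Pool.Agent.LinfX

variable {𝕜 : Type*} [RCLike 𝕜]
variable {X : Type*} [NormedAddCommGroup X] [NormedSpace 𝕜 X]

/-- If `X` does not contain `c_0` and `L^∞([0,1], X)` is complemented in `ℓ^∞(X)`, then there is an
`X`-valued Banach limit. -/
theorem exists_banachLimit [CompleteSpace X] (hX : ¬ ContainsC0 𝕜 X)
    (h : IsComplementedIn 𝕜 (LinfUnit X) (linfSeq X)) : HasBanachLimit 𝕜 X := by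
  obtain ⟨T, S, hST⟩ := h
  let _ : NormedSpace ℝ X := NormedSpace.restrictScalars ℝ 𝕜 X
  obtain ⟨A, hA, hAle, hAC⟩ := exists_ACoff hX (fun n => (evL 𝕜 n).comp T)
    (ε := 1 / 2) (by simp)
  have hAc : 0 < mu Aᶜ := by
    rw [measure_compl hA (measure_ne_top _ _), mu_univ]
    have : mu A < 1 := hAle.trans_lt (by
      rw [one_div]
      exact ENNReal.inv_lt_one.2 (by norm_num))
    exact tsub_pos_of_lt this
  obtain ⟨V, hVm, hV, B, hB0, hBc⟩ := exists_good hX T S hA hAc hAC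
  set N : X →L[𝕜] X := B.comp (cseqL 𝕜) with hN
  have hNn : ‖N‖ < 1 := by
    have : ‖N‖ ≤ 1 / 2 := by
      apply ContinuousLinearMap.opNorm_le_bound _ (by norm_num)
      intro x
      rw [hN, ContinuousLinearMap.comp_apply, cseqL_apply]
      exact hBc x
    linarith
  set U : (X →L[𝕜] X)ˣ := Units.oneSub N hNn with hU
  have hUv : (U : X →L[𝕜] X) = 1 - N := rfl
  refine ⟨((U⁻¹ : (X →L[𝕜] X)ˣ) : X →L[𝕜] X).comp (Aop T S V hV - B), fun y a hy => ?_⟩
  -- reduction to constant sequences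
  have h1 : (Aop T S V hV - B) y = (Aop T S V hV - B) (cseq a) := by
    rw [← sub_eq_zero, ← map_sub]
    have h2 : Tendsto (fun n => (y - cseq a : linfSeq X) n) atTop (𝓝 0) := by
      have e : (fun n => (y - cseq a : linfSeq X) n) = fun n => y n - a := rfl
      rw [e]
      have := hy.sub_const a
      rwa [sub_self] at this
    have h3 := hB0 _ h2
    change Aop T S V hV (y - cseq a) - B (y - cseq a) = 0
    rw [h3, sub_self]
  have h4 : Aop T S V hV (cseq a) = a := by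
    unfold Aop
    rw [ContinuousLinearMap.comp_apply, ContinuousLinearMap.comp_apply, RV_cseq, hST, avgL_apply]
    unfold avg
    have h5 : ∫ t in V, (cut 𝕜 V (cf a) : ℝ → X) t ∂mu = ∫ _ in V, a ∂mu := by
      apply integral_congr_ae
      filter_upwards [ae_restrict_of_ae (cut_coe (𝕜 := 𝕜) hVm (cf a)),
        ae_restrict_of_ae (cf_coe a), ae_restrict_mem hVm] with t h6 h7 h8
      rw [h6, indicator_of_mem h8, h7]
    rw [h5, setIntegral_const, smul_smul, measureReal_def, inv_mul_cancel₀, one_smul]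
    exact (ENNReal.toReal_pos hV.ne' (measure_ne_top _ _)).ne'
  have h5 : (Aop T S V hV - B) (cseq a) = (U : X →L[𝕜] X) a := by
    rw [hUv]
    change Aop T S V hV (cseq a) - B (cseq a) = a - N a
    rw [h4]
    rfl
  rw [ContinuousLinearMap.comp_apply, h1, h5]
  have h6 : ((U⁻¹ : (X →L[𝕜] X)ˣ) : X →L[𝕜] X) * (U : X →L[𝕜] X) = 1 := U.inv_mul
  calc ((U⁻¹ : (X →L[𝕜] X)ˣ) : X →L[𝕜] X) ((U : X →L[𝕜] X) a) =
      (((U⁻¹ : (X →L[𝕜] X)ˣ) : X →L[𝕜] X) * (U : X →L[𝕜] X)) a := rfl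
    _ = a := by rw [h6]; rfl

end Pool.Agent.LinfX
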