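import Pool.Agent.LinfX.Defs

open MeasureTheory Set Filter Topology
open scoped ENNReal

namespace Pool.Agent.LinfX

variable {𝕜 : Type*} [RCLike 𝕜]

section index

variable {X Y : Type*} [NormedAddCommGroup X] [NormedSpace 𝕜 X] [NormedAddCommGroup Y]
  [NormedSpace 𝕜 Y]

/-- Bounded families. -/
noncomputable abbrev LI (ι : Type*) (X : Type*) [NormedAddCommGroup X] := lp (fun _ : ι => X) ∞

/-- Constructor of bounded families. -/
noncomputable def mkB {ι : Type*} (f : ι → X) (C : ℝ) (h : ∀ i, ‖f i‖ ≤ C) : LI ι X :=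
  ⟨f, memℓp_infty ⟨C, by rintro _ ⟨i, rfl⟩; exact h i⟩⟩

lemma mkB_apply {ι : Type*} (f : ι → X) (C : ℝ) (h : ∀ i, ‖f i‖ ≤ C) (i : ι) :
    mkB f C h i = f i := rfl

lemma nrm_apply {ι : Type*} (a : LI ι X) (i : ι) : ‖a i‖ ≤ ‖a‖ :=
  lp.norm_apply_le_norm ENNReal.top_ne_zero a i

lemma nrm_le {ι : Type*} {a : LI ι X} {C : ℝ} (hC : 0 ≤ C) (h : ∀ i, ‖a i‖ ≤ C) : ‖a‖ ≤ C :=
  lp.norm_le_of_forall_le hC h

/-- Reindexing. -/
noncomputable def reindex {ι κ : Type*} (e : ι ≃ κ) : LI ι X ≃L[𝕜] LI κ X :=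
  LinearEquiv.toContinuousLinearEquivOfBounds
    { toFun := fun a => mkB (fun k => a (e.symm k)) ‖a‖ (fun k => nrm_apply a _)
      map_add' := fun a b => by ext k; rfl
      map_smul' := fun c a => by ext k; rfl
      invFun := fun a => mkB (fun i => a (e i)) ‖a‖ (fun i => nrm_apply a _)
      left_inv := fun a => by
        ext i
        change a (e.symm (e i)) = a i
        rw [e.symm_apply_apply]
      right_inv := fun a => by
        ext i
        change a (e (e.symm i)) = a i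
        rw [e.apply_symm_apply] } 1 1
    (fun a => by rw [one_mul]; exact nrm_le (norm_nonneg _) fun k => nrm_apply a _)
    (fun a => by rw [one_mul]; exact nrm_le (norm_nonneg _) fun k => nrm_apply a _)

/-- Families over a disjoint union. -/
noncomputable def sumEquiv (ι κ : Type*) : LI (ι ⊕ κ) X ≃L[𝕜] LI ι X × LI κ X :=
  LinearEquiv.toContinuousLinearEquivOfBounds
    { toFun := fun a => (mkB (fun i => a (Sum.inl i)) ‖a‖ (fun _ => nrm_apply a _),
        mkB (fun i => a (Sum.inr i)) ‖a‖ (fun _ => nrm_apply a _))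
      map_add' := fun a b => rfl
      map_smul' := fun c a => rfl
      invFun := fun p => mkB (Sum.elim p.1 p.2) ‖p‖ (by
        rintro (i | i)
        · exact (nrm_apply p.1 i).trans (norm_fst_le p)
        · exact (nrm_apply p.2 i).trans (norm_snd_le p))
      left_inv := fun a => by
        ext i
        rcases i with i | i <;> rfl
      right_inv := fun p => rfl } 1 1
    (fun a => by
      rw [one_mul]
      exact norm_prod_le_iff.2 ⟨nrm_le (norm_nonneg _) fun _ => nrm_apply a _,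
        nrm_le (norm_nonneg _) fun _ => nrm_apply a _⟩)
    (fun p => by
      rw [one_mul]
      apply nrm_le (norm_nonneg _)
      rintro (i | i)
      · exact (nrm_apply p.1 i).trans (norm_fst_le p)
      · exact (nrm_apply p.2 i).trans (norm_snd_le p))

/-- Families over a product. -/
noncomputable def prodEquiv (ι κ : Type*) : LI (ι × κ) X ≃L[𝕜] LI ι (LI κ X) :=
  LinearEquiv.toContinuousLinearEquivOfBounds
    { toFun := fun a => mkB (fun i => mkB (fun k => a (i, k)) ‖a‖ (fun _ => nrm_apply a _)) ‖a‖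
        (fun _ => nrm_le (norm_nonneg _) fun _ => nrm_apply a _)
      map_add' := fun a b => rfl
      map_smul' := fun c a => rfl
      invFun := fun a => mkB (fun p => a p.1 p.2) ‖a‖
        (fun p => (nrm_apply (a p.1) p.2).trans (nrm_apply a p.1))
      left_inv := fun a => rfl
      right_inv := fun p => rfl } 1 1
    (fun a => by
      rw [one_mul]
      exact nrm_le (norm_nonneg _) fun _ => nrm_le (norm_nonneg _) fun _ => nrm_apply a _)
    (fun a => by
      rw [one_mul]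
      exact nrm_le (norm_nonneg _) fun p => (nrm_apply (a p.1) p.2).trans (nrm_apply a p.1))

/-- Families in a product. -/
noncomputable def pairEquiv (ι : Type*) : LI ι (X × Y) ≃L[𝕜] LI ι X × LI ι Y :=
  LinearEquiv.toContinuousLinearEquivOfBounds
    { toFun := fun a => (mkB (fun i => (a i).1) ‖a‖ (fun i => (norm_fst_le _).trans (nrm_apply a _)),
        mkB (fun i => (a i).2) ‖a‖ (fun i => (norm_snd_le _).trans (nrm_apply a _)))
      map_add' := fun a b => rfl
      map_smul' := fun c a => rfl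
      invFun := fun p => mkB (fun i => (p.1 i, p.2 i)) ‖p‖ (fun i =>
        norm_prod_le_iff.2 ⟨(nrm_apply p.1 i).trans (norm_fst_le p),
          (nrm_apply p.2 i).trans (norm_snd_le p)⟩)
      left_inv := fun a => rfl
      right_inv := fun p => rfl } 1 1
    (fun a => by
      rw [one_mul]
      exact norm_prod_le_iff.2 ⟨nrm_le (norm_nonneg _) fun i => (norm_fst_le _).trans (nrm_apply a _),
        nrm_le (norm_nonneg _) fun i => (norm_snd_le _).trans (nrm_apply a _)⟩)
    (fun p => by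
      rw [one_mul]
      exact nrm_le (norm_nonneg _) fun i =>
        norm_prod_le_iff.2 ⟨(nrm_apply p.1 i).trans (norm_fst_le p),
          (nrm_apply p.2 i).trans (norm_snd_le p)⟩)

/-- Families over one point. -/
noncomputable def unitEquiv : LI Unit X ≃L[𝕜] X :=
  LinearEquiv.toContinuousLinearEquivOfBounds
    { toFun := fun a => a ()
      map_add' := fun a b => rfl
      map_smul' := fun c a => rfl
      invFun := fun x => mkB (fun _ => x) ‖x‖ (fun _ => le_rfl)
      left_inv := fun a => by ext i; rfl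
      right_inv := fun p => rfl } 1 1
    (fun a => by rw [one_mul]; exact nrm_apply a _)
    (fun p => by rw [one_mul]; exact nrm_le (norm_nonneg _) fun i => le_rfl)

/-- Families in isomorphic spaces. -/
noncomputable def mapEquiv (ι : Type*) (e : X ≃L[𝕜] Y) : LI ι X ≃L[𝕜] LI ι Y :=
  LinearEquiv.toContinuousLinearEquivOfBounds
    { toFun := fun a => mkB (fun i => e (a i)) (‖(e : X →L[𝕜] Y)‖ * ‖a‖)
        (fun i => ((e : X →L[𝕜] Y).le_opNorm _).trans
          (mul_le_mul_of_nonneg_left (nrm_apply a _) (norm_nonneg _)))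
      map_add' := fun a b => by ext i; exact map_add e _ _
      map_smul' := fun c a => by ext i; exact map_smul e _ _
      invFun := fun a => mkB (fun i => e.symm (a i)) (‖(e.symm : Y →L[𝕜] X)‖ * ‖a‖)
        (fun i => ((e.symm : Y →L[𝕜] X).le_opNorm _).trans
          (mul_le_mul_of_nonneg_left (nrm_apply a _) (norm_nonneg _)))
      left_inv := fun a => by ext i; exact e.symm_apply_apply _
      right_inv := fun a => by ext i; exact e.apply_symm_apply _ } ‖(e : X →L[𝕜] Y)‖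
        ‖(e.symm : Y →L[𝕜] X)‖
    (fun a => nrm_le (by positivity) fun i => ((e : X →L[𝕜] Y).le_opNorm _).trans
          (mul_le_mul_of_nonneg_left (nrm_apply a _) (norm_nonneg _)))
    (fun a => nrm_le (by positivity) fun i => ((e.symm : Y →L[𝕜] X).le_opNorm _).trans
          (mul_le_mul_of_nonneg_left (nrm_apply a _) (norm_nonneg _)))

variable {A B C D : Type*} [NormedAddCommGroup A] [NormedSpace 𝕜 A] [NormedAddCommGroup B]
  [NormedSpace 𝕜 B] [NormedAddCommGroup C] [NormedSpace 𝕜 C] [NormedAddCommGroup D]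
  [NormedSpace 𝕜 D]

lemma Iso.refl : Iso 𝕜 A A := ⟨ContinuousLinearEquiv.refl 𝕜 A⟩
lemma Iso.symm (h : Iso 𝕜 A B) : Iso 𝕜 B A := ⟨h.some.symm⟩
lemma Iso.trans (h : Iso 𝕜 A B) (h' : Iso 𝕜 B C) : Iso 𝕜 A C := ⟨h.some.trans h'.some⟩
lemma Iso.prod (h : Iso 𝕜 A B) (h' : Iso 𝕜 C D) : Iso 𝕜 (A × C) (B × D) :=
  ⟨h.some.prodCongr h'.some⟩
lemma Iso.comm : Iso 𝕜 (A × B) (B × A) := ⟨ContinuousLinearEquiv.prodComm 𝕜 A B⟩
lemma Iso.assoc : Iso 𝕜 ((A × B) × C) (A × (B × C)) := ⟨ContinuousLinearEquiv.prodAssoc 𝕜 A B C⟩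
lemma Iso.seq (h : Iso 𝕜 A B) : Iso 𝕜 (linfSeq A) (linfSeq B) := ⟨mapEquiv ℕ h.some⟩

/-- `ℓ^∞(A)` is isomorphic to its square. -/
lemma iso_square : Iso 𝕜 (linfSeq A) (linfSeq A × linfSeq A) :=
  ⟨(reindex Equiv.natSumNatEquivNat.symm).trans (sumEquiv ℕ ℕ)⟩

/-- `ℓ^∞(A)` is isomorphic to `ℓ^∞(ℓ^∞(A))`. -/
lemma iso_seqseq : Iso 𝕜 (linfSeq A) (linfSeq (linfSeq A)) :=
  ⟨(reindex Nat.pairEquiv.symm).trans (prodEquiv ℕ ℕ)⟩

/-- `A ⊕ ℓ^∞(A)` is isomorphic to `ℓ^∞(A)`. -/
lemma iso_cons : Iso 𝕜 (A × linfSeq A) (linfSeq A) := by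
  have e : (Unit ⊕ ℕ) ≃ ℕ := (Equiv.sumComm _ _).trans Equiv.natSumPUnitEquivNat
  have h1 : Iso 𝕜 (LI Unit A × linfSeq A) (linfSeq A) :=
    ⟨((sumEquiv Unit ℕ).symm).trans (reindex e)⟩
  exact (Iso.prod ⟨unitEquiv.symm⟩ Iso.refl).trans h1

lemma iso_pair : Iso 𝕜 (linfSeq (A × B)) (linfSeq A × linfSeq B) := ⟨pairEquiv ℕ⟩

/-- Splitting off a complemented subspace. -/
lemma iso_of_complemented {A B : Type*} [NormedAddCommGroup A] [NormedSpace 𝕜 A]
    [NormedAddCommGroup B] [NormedSpace 𝕜 B] (h : IsComplementedIn 𝕜 A B) :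
    ∃ D : Submodule 𝕜 B, Iso 𝕜 B (A × D) := by
  obtain ⟨T, S, hST⟩ := h
  exact ⟨_, ⟨ContinuousLinearEquiv.equivOfRightInverse S T hST⟩⟩

/-- Pelczynski's decomposition method. -/
theorem decomposition {X B : Type*} [NormedAddCommGroup X] [NormedSpace 𝕜 X]
    [NormedAddCommGroup B] [NormedSpace 𝕜 B] (h1 : IsComplementedIn 𝕜 B (linfSeq X))
    (h2 : IsComplementedIn 𝕜 (linfSeq X) B) : Iso 𝕜 (linfSeq X) B := by
  obtain ⟨C, hC⟩ := iso_of_complemented h1
  obtain ⟨D, hD⟩ := iso_of_complemented h2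
  -- `B ⊕ A ≅ A`
  have s1 : Iso 𝕜 (linfSeq X) (linfSeq B × linfSeq C) :=
    (iso_seqseq.trans hC.seq).trans iso_pair
  have s2 : Iso 𝕜 (B × linfSeq X) (linfSeq X) :=
    (((Iso.refl.prod s1).trans Iso.assoc.symm).trans (iso_cons.prod Iso.refl)).trans s1.symm
  -- `A ⊕ B ≅ B`
  have s3 : Iso 𝕜 (linfSeq X × B) B :=
    (((Iso.refl.prod hD).trans Iso.assoc.symm).trans (iso_square.symm.prod Iso.refl)).trans hD.symm
  exact (s2.symm.trans Iso.comm).trans s3

lemma IsComplementedIn.trans (h : IsComplementedIn 𝕜 A B) (h' : IsComplementedIn 𝕜 B C) :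
    IsComplementedIn 𝕜 A C := by
  obtain ⟨T, S, hST⟩ := h
  obtain ⟨T', S', hST'⟩ := h'
  refine ⟨T'.comp T, S.comp S', fun a => ?_⟩
  simp only [ContinuousLinearMap.comp_apply, hST', hST]

lemma Iso.complemented (h : Iso 𝕜 A B) : IsComplementedIn 𝕜 A B :=
  ⟨(h.some : A →L[𝕜] B), (h.some.symm : B →L[𝕜] A), fun a => h.some.symm_apply_apply a⟩

/-- `A` is complemented in `ℓ^∞(A)`. -/
lemma complemented_seq : IsComplementedIn 𝕜 A (linfSeq A) := by
  have h : IsComplementedIn 𝕜 A (A × linfSeq A) :=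
    ⟨ContinuousLinearMap.inl 𝕜 A (linfSeq A), ContinuousLinearMap.fst 𝕜 A (linfSeq A),
      fun a => rfl⟩
  exact h.trans iso_cons.complemented

end index

end Pool.Agent.LinfX
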