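import Mathlib

open MeasureTheory
open scoped ENNReal

namespace Pool.Agent.LinfX

/-- `A` is isomorphic to a subspace of `B`: there is a linear embedding of `A` into `B`. -/
def IsEmbeddedIn (𝕜 : Type*) [RCLike 𝕜] (A B : Type*) [NormedAddCommGroup A]
    [NormedSpace 𝕜 A] [NormedAddCommGroup B] [NormedSpace 𝕜 B] : Prop :=
  ∃ (J : A →L[𝕜] B) (c : ℝ), 0 < c ∧ ∀ a, c * ‖a‖ ≤ ‖J a‖

/-- `A` is isomorphic to a complemented subspace of `B`. -/
def IsComplementedIn (𝕜 : Type*) [RCLike 𝕜] (A B : Type*) [NormedAddCommGroup A]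
    [NormedSpace 𝕜 A] [NormedAddCommGroup B] [NormedSpace 𝕜 B] : Prop :=
  ∃ (T : A →L[𝕜] B) (S : B →L[𝕜] A), ∀ a, S (T a) = a

/-- `A` and `B` are isomorphic: there is a bounded linear bijection with bounded inverse. -/
def Iso (𝕜 : Type*) [RCLike 𝕜] (A B : Type*) [NormedAddCommGroup A] [NormedSpace 𝕜 A]
    [NormedAddCommGroup B] [NormedSpace 𝕜 B] : Prop := Nonempty (A ≃L[𝕜] B)

/-- The `ℓ^∞`-sum of a sequence of Banach spaces. -/
noncomputable abbrev linfSum (E : ℕ → Type*) [∀ n, NormedAddCommGroup (E n)] := lp E ∞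

/-- The Banach space `ℓ^∞(X)` of bounded sequences in `X`. -/
noncomputable abbrev linfSeq (X : Type*) [NormedAddCommGroup X] := lp (fun _ : ℕ => X) ∞

/-- Lebesgue measure on `[0,1]`. -/
noncomputable abbrev mu : Measure ℝ := volume.restrict (Set.Icc (0 : ℝ) 1)

/-- The Banach space `L^∞([0,1], X)`. -/
noncomputable abbrev LinfUnit (X : Type*) [NormedAddCommGroup X] := Lp X ∞ mu

/-- `X` contains an isomorphic copy of `c_0`. (`ZeroAtInftyContinuousMap ℕ 𝕜` is the space of all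
sequences of scalars that tend to zero, with the supremum norm.) -/
def ContainsC0 (𝕜 : Type*) [RCLike 𝕜] (X : Type*) [NormedAddCommGroup X] [NormedSpace 𝕜 X] : Prop :=
  IsEmbeddedIn 𝕜 (ZeroAtInftyContinuousMap ℕ 𝕜) X

/-- `X` contains an isomorphic copy of `ℓ^∞`. -/
def ContainsLinf (𝕜 : Type*) [RCLike 𝕜] (X : Type*) [NormedAddCommGroup X] [NormedSpace 𝕜 X] :
    Prop :=
  IsEmbeddedIn 𝕜 (linfSeq 𝕜) X

end Pool.Agent.LinfX
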