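import Pool.Agent.LinfX.AE

/-!
Differentiation, and the sufficiency of the existence of a generalised limit for almost everywhere
convergent sequences.
-/

open MeasureTheory Set Filter Topology
open scoped ENNReal NNReal

namespace Pool.Agent.LinfX

/-- Centres of the intervals of length `1/(m+1)`. -/
noncomputable def cen (m k : ℕ) : ℝ := (((min k m : ℕ) : ℝ) + 1 / 2) / ((m : ℝ) + 1)

/-- Intervals of length `1/(m+1)`. -/
noncomputable def JJ (m k : ℕ) : Set ℝ := Metric.closedBall (cen m k) (1 / (2 * ((m : ℝ) + 1)))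

/-- Index of the interval that contains `t`. -/
noncomputable def idx (m : ℕ) (t : ℝ) : ℕ := ⌊((m : ℝ) + 1) * t⌋₊

lemma idx_meas (m : ℕ) : Measurable (idx m) := by
  unfold idx
  exact Nat.measurable_floor.comp (measurable_const.mul measurable_id)

lemma JJ_meas (m k : ℕ) : MeasurableSet (JJ m k) := measurableSet_closedBall

lemma JJ_sub (m k : ℕ) : JJ m k ⊆ Icc 0 1 := by
  intro t ht
  unfold JJ at ht
  rw [Real.closedBall_eq_Icc] at ht
  obtain ⟨h1, h2⟩ := ht
  unfold cen at h1 h2
  have hm : (0 : ℝ) < (m : ℝ) + 1 := by positivity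
  have hk : ((min k m : ℕ) : ℝ) ≤ m := by exact_mod_cast min_le_right k m
  have hk0 : (0 : ℝ) ≤ ((min k m : ℕ) : ℝ) := Nat.cast_nonneg _
  constructor
  · refine le_trans ?_ h1
    have : (((min k m : ℕ) : ℝ) + 1 / 2) / ((m : ℝ) + 1) - 1 / (2 * ((m : ℝ) + 1)) =
        ((min k m : ℕ) : ℝ) / ((m : ℝ) + 1) := by
      field_simp; ring
    rw [this]
    positivity
  · refine h2.trans ?_
    have : (((min k m : ℕ) : ℝ) + 1 / 2) / ((m : ℝ) + 1) + 1 / (2 * ((m : ℝ) + 1)) =
        (((min k m : ℕ) : ℝ) + 1) / ((m : ℝ) + 1) := by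
      field_simp; ring
    rw [this, div_le_one hm]
    linarith

lemma JJ_pos (m k : ℕ) : 0 < mu (JJ m k) := by
  rw [Measure.restrict_apply (JJ_meas m k), inter_eq_left.2 (JJ_sub m k)]
  unfold JJ
  rw [Real.volume_closedBall, ENNReal.ofReal_pos]
  positivity

lemma mem_JJ (m : ℕ) {t : ℝ} (ht : t ∈ Ico (0 : ℝ) 1) : t ∈ JJ m (idx m t) := by
  have hm : (0 : ℝ) < (m : ℝ) + 1 := by positivity
  have h1 : idx m t ≤ m := by
    unfold idx
    have : ⌊((m : ℝ) + 1) * t⌋₊ < m + 1 := by
      rw [Nat.floor_lt (mul_nonneg hm.le ht.1)]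
      push_cast
      nlinarith [ht.2]
    omega
  unfold JJ cen
  rw [min_eq_left h1, Real.closedBall_eq_Icc]
  have h2 : ((idx m t : ℕ) : ℝ) ≤ ((m : ℝ) + 1) * t := Nat.floor_le (mul_nonneg hm.le ht.1)
  have h3 : ((m : ℝ) + 1) * t < ((idx m t : ℕ) : ℝ) + 1 := Nat.lt_floor_add_one _
  constructor
  · have : (((idx m t : ℕ) : ℝ) + 1 / 2) / ((m : ℝ) + 1) - 1 / (2 * ((m : ℝ) + 1)) =
        ((idx m t : ℕ) : ℝ) / ((m : ℝ) + 1) := by
      field_simp; ring
    rw [this, div_le_iff₀ hm]
    linarith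
  · have : (((idx m t : ℕ) : ℝ) + 1 / 2) / ((m : ℝ) + 1) + 1 / (2 * ((m : ℝ) + 1)) =
        (((idx m t : ℕ) : ℝ) + 1) / ((m : ℝ) + 1) := by
      field_simp; ring
    rw [this, le_div_iff₀ hm]
    linarith

/-- Lebesgue's differentiation theorem. -/
lemma ae_tendsto_avg {Z : Type*} [NormedAddCommGroup Z] [NormedSpace ℝ Z] [CompleteSpace Z]
    {f : ℝ → Z} (hf : Integrable f mu) :
    ∀ᵐ t ∂mu, Tendsto (fun m => avg (JJ m (idx m t)) f) atTop (𝓝 (f t)) := by
  have hf' : Integrable ((Icc (0 : ℝ) 1).indicator f) volume :=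
    (integrable_indicator_iff measurableSet_Icc).2 hf
  have h1 := IsUnifLocDoublingMeasure.ae_tendsto_average (μ := (volume : Measure ℝ))
    hf'.locallyIntegrable 1
  filter_upwards [ae_restrict_of_ae h1, ae_mem_Ico] with t h2 h3
  have h4 := h2 (ι := ℕ) (l := atTop) (fun m => cen m (idx m t))
    (fun m => 1 / (2 * ((m : ℝ) + 1))) (by
      rw [tendsto_nhdsWithin_iff]
      constructor
      · have h5 := (tendsto_one_div_add_atTop_nhds_zero_nat (𝕜 := ℝ)).const_mul (1 / 2)
        rw [mul_zero] at h5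
        refine h5.congr fun m => ?_
        field_simp
      · exact Eventually.of_forall fun m => by
          change (0 : ℝ) < _
          positivity) (Eventually.of_forall fun m => by
      rw [one_mul]
      exact mem_JJ m h3)
  have h5 : (Icc (0 : ℝ) 1).indicator f t = f t :=
    indicator_of_mem (Ico_subset_Icc_self h3) f
  rw [h5] at h4
  refine h4.congr fun m => ?_
  rw [setAverage_eq]
  have h6 : Metric.closedBall (cen m (idx m t)) (1 / (2 * ((m : ℝ) + 1))) = JJ m (idx m t) := rfl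
  rw [h6]
  unfold avg
  rw [Measure.restrict_restrict (JJ_meas _ _), inter_eq_left.2 (JJ_sub _ _),
    Measure.restrict_apply (JJ_meas _ _), inter_eq_left.2 (JJ_sub _ _), measureReal_def]
  congr 1
  apply setIntegral_congr_fun (JJ_meas _ _)
  intro s hs
  exact indicator_of_mem (JJ_sub _ _ hs) f

variable {𝕜 : Type*} [RCLike 𝕜]
variable {X : Type*} [NormedAddCommGroup X] [NormedSpace 𝕜 X]

lemma pull_mem {i : ℝ → ℕ} (hi : Measurable i) (a : linfSeq X) :
    MemLp (fun t : ℝ => a (i t)) ∞ mu :=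
  memLp_top_of_bound ((StronglyMeasurable.of_discrete (f := fun n : ℕ => a n)).comp_measurable
    hi).aestronglyMeasurable ‖a‖ (Eventually.of_forall fun t => nrm_apply a _)

/-- Composition with a measurable map `[0,1] → ℕ`. -/
noncomputable def pull (𝕜 : Type*) [RCLike 𝕜] {X : Type*} [NormedAddCommGroup X]
    [NormedSpace 𝕜 X] {i : ℝ → ℕ} (hi : Measurable i) : linfSeq X →L[𝕜] LinfUnit X :=
  LinearMap.mkContinuous
    { toFun := fun a => (pull_mem hi a).toLp _
      map_add' := by
        intro a b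
        rw [← MemLp.toLp_add]
        rfl
      map_smul' := by
        intro c a
        rw [RingHom.id_apply, ← MemLp.toLp_const_smul]
        rfl } 1 (by
      intro a
      rw [one_mul]
      apply norm_le_of_ae (norm_nonneg _)
      change ∀ᵐ t ∂mu, ‖((pull_mem hi a).toLp _ : ℝ → X) t‖ ≤ ‖a‖
      filter_upwards [MemLp.coeFn_toLp (pull_mem hi a)] with t ht
      rw [ht]
      exact nrm_apply a _)

lemma pull_coe {i : ℝ → ℕ} (hi : Measurable i) (a : linfSeq X) :
    (pull 𝕜 hi a : ℝ → X) =ᵐ[mu] fun t => a (i t) := MemLp.coeFn_toLp (pull_mem hi a)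

lemma norm_pull_le {i : ℝ → ℕ} (hi : Measurable i) (a : linfSeq X) : ‖pull 𝕜 hi a‖ ≤ ‖a‖ := by
  apply norm_le_of_ae (norm_nonneg _)
  filter_upwards [pull_coe (𝕜 := 𝕜) hi a] with t ht
  rw [ht]
  exact nrm_apply a _

lemma pairIdx_meas (m : ℕ) : Measurable (fun t => Nat.pair m (idx m t)) :=
  (measurable_of_countable (fun k : ℕ => Nat.pair m k)).comp (idx_meas m)

/-- The operator `y ↦ (t ↦ y_{m, i_m(t)})_m`. -/
noncomputable def Gall (𝕜 : Type*) [RCLike 𝕜] (X : Type*) [NormedAddCommGroup X]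
    [NormedSpace 𝕜 X] : linfSeq X →L[𝕜] linfSeq (LinfUnit X) :=
  LinearMap.mkContinuous
    { toFun := fun y => mkB (fun m => pull 𝕜 (pairIdx_meas m) y) ‖y‖
        (fun m => norm_pull_le (pairIdx_meas m) y)
      map_add' := by
        intro a b
        ext m : 2
        exact map_add (pull 𝕜 (pairIdx_meas m)) a b
      map_smul' := by
        intro c a
        ext m : 2
        exact map_smul (pull 𝕜 (pairIdx_meas m)) c a } 1 (by
      intro y
      rw [one_mul]
      exact nrm_le (norm_nonneg _) fun m => norm_pull_le (pairIdx_meas m) y)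

lemma Gall_apply (y : linfSeq X) (m : ℕ) : Gall 𝕜 X y m = pull 𝕜 (pairIdx_meas m) y := rfl

/-- The operator `f ↦ (avg f over the interval (m,k))_{m,k}`. -/
noncomputable def Tall (𝕜 : Type*) [RCLike 𝕜] (X : Type*) [NormedAddCommGroup X]
    [NormedSpace 𝕜 X] [CompleteSpace X] : LinfUnit X →L[𝕜] linfSeq X :=
  letI : NormedSpace ℝ X := NormedSpace.restrictScalars ℝ 𝕜 X
  LinearMap.mkContinuous
    { toFun := fun f => mkB (fun n => avgL (𝕜 := 𝕜) (JJ n.unpair.1 n.unpair.2) (JJ_pos _ _) f) ‖f‖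
        (fun n => norm_avg_le (JJ_pos _ _) (ae_norm_le f))
      map_add' := by
        intro f g
        ext n
        exact map_add (avgL (𝕜 := 𝕜) (JJ n.unpair.1 n.unpair.2) (JJ_pos _ _)) f g
      map_smul' := by
        intro c f
        ext n
        exact map_smul (avgL (𝕜 := 𝕜) (JJ n.unpair.1 n.unpair.2) (JJ_pos _ _)) c f } 1 (by
      intro f
      rw [one_mul]
      apply nrm_le (norm_nonneg _)
      intro n
      exact norm_avg_le (JJ_pos _ _) (ae_norm_le f))

lemma Tall_apply [CompleteSpace X] (f : LinfUnit X) (m k : ℕ) :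
    letI : NormedSpace ℝ X := NormedSpace.restrictScalars ℝ 𝕜 X
    Tall 𝕜 X f (Nat.pair m k) = avg (JJ m k) f := by
  let _ : NormedSpace ℝ X := NormedSpace.restrictScalars ℝ 𝕜 X
  change avg (JJ (Nat.pair m k).unpair.1 (Nat.pair m k).unpair.2) f = avg (JJ m k) f
  rw [Nat.unpair_pair]

/-- If almost everywhere convergent sequences have a generalised limit, then `L^∞([0,1], X)` is
complemented in `ℓ^∞(X)`. -/
theorem AEProp.complemented [CompleteSpace X] (h : AEProp 𝕜 X) :
    IsComplementedIn 𝕜 (LinfUnit X) (linfSeq X) := by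
  let _ : NormedSpace ℝ X := NormedSpace.restrictScalars ℝ 𝕜 X
  obtain ⟨P, hP⟩ := h
  refine ⟨Tall 𝕜 X, P.comp (Gall 𝕜 X), fun f => ?_⟩
  rw [ContinuousLinearMap.comp_apply]
  apply hP
  have h1 : ∀ᵐ t ∂mu, ∀ m, (Gall 𝕜 X (Tall 𝕜 X f) m : ℝ → X) t = avg (JJ m (idx m t)) f :=
    ae_all_iff.2 fun m => by
      rw [Gall_apply]
      filter_upwards [pull_coe (𝕜 := 𝕜) (pairIdx_meas m) (Tall 𝕜 X f)] with t ht
      rw [ht, Tall_apply]
  filter_upwards [h1, ae_tendsto_avg (integrable_of_Linf f)] with t h2 h3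
  simp only [h2]
  exact h3

/-- If almost everywhere convergent sequences have a generalised limit, then the two spaces are
isomorphic. -/
theorem AEProp.iso [CompleteSpace X] (h : AEProp 𝕜 X) : Iso 𝕜 (linfSeq X) (LinfUnit X) :=
  decomposition h.complemented seq_complemented_unit

/-- If almost everywhere convergent sequences have a generalised limit, then there is an
`X`-valued Banach limit. -/
theorem AEProp.hasBanachLimit [CompleteSpace X] (h : AEProp 𝕜 X) : HasBanachLimit 𝕜 X := by
  let _ : NormedSpace ℝ X := NormedSpace.restrictScalars ℝ 𝕜 X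
  obtain ⟨P, hP⟩ := h
  let C : linfSeq X →L[𝕜] linfSeq (LinfUnit X) := LinearMap.mkContinuous
    { toFun := fun y => mkB (fun m => cf (y m)) ‖y‖
        (fun m => (norm_cf_le _).trans (nrm_apply y m))
      map_add' := by
        intro a b
        ext m : 2
        exact cf_add (a m) (b m)
      map_smul' := by
        intro c a
        ext m : 2
        exact cf_smul c (a m) } 1 (by
      intro y
      rw [one_mul]
      exact nrm_le (norm_nonneg _) fun m => (norm_cf_le _).trans (nrm_apply y m))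
  have hC : ∀ y m, C y m = cf (y m) := fun _ _ => rfl
  have hpos : 0 < mu (univ : Set ℝ) := by simp
  refine ⟨(avgL (𝕜 := 𝕜) univ hpos).comp (P.comp C), fun y a hy => ?_⟩
  rw [ContinuousLinearMap.comp_apply, ContinuousLinearMap.comp_apply, avgL_apply]
  have h1 : P (C y) = cf a := by
    apply hP
    have h1 : ∀ᵐ t ∂mu, ∀ m, (C y m : ℝ → X) t = y m := ae_all_iff.2 fun m => by
      rw [hC]
      exact cf_coe (y m)
    filter_upwards [h1, cf_coe a] with t h2 h3
    simp only [h2, h3]
    exact hy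
  rw [h1]
  unfold avg
  rw [Measure.restrict_univ, integral_congr_ae (cf_coe a), integral_const, smul_smul,
    measureReal_def, inv_mul_cancel₀, one_smul]
  exact (ENNReal.toReal_pos hpos.ne' (measure_ne_top _ _)).ne'

end Pool.Agent.LinfX
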