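import Pool.Agent.LinfX.Rosenthal

open MeasureTheory Set Filter Topology
open scoped ENNReal

namespace Pool.Agent.LinfX

/-- `s` is constant on the dyadic intervals of level `m`. -/
def Dy {β : Type*} (m : ℕ) (s : ℝ → β) : Prop :=
  ∀ t t' : ℝ, ⌊(2 : ℝ) ^ m * t⌋ = ⌊(2 : ℝ) ^ m * t'⌋ → s t = s t'

lemma floor_half (m : ℕ) (t : ℝ) : ⌊(2 : ℝ) ^ m * t⌋ = ⌊(2 : ℝ) ^ (m + 1) * t⌋ / 2 := by
  have h := Int.floor_div_natCast ((2 : ℝ) ^ (m + 1) * t) 2
  have e : (2 : ℝ) ^ (m + 1) * t / ((2 : ℕ) : ℝ) = 2 ^ m * t := by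
    push_cast; ring
  rw [e] at h
  simpa using h

lemma Dy.succ {β : Type*} {m : ℕ} {s : ℝ → β} (h : Dy m s) : Dy (m + 1) s := by
  intro t t' htt
  apply h
  rw [floor_half, floor_half m t', htt]

lemma Dy.mono {β : Type*} {m m' : ℕ} {s : ℝ → β} (h : Dy m s) (hm : m ≤ m') : Dy m' s := by
  induction hm with
  | refl => exact h
  | step _ ih => exact ih.succ

/-- Rademacher functions. -/
noncomputable def rad (m : ℕ) (t : ℝ) : ℝ := if Even ⌊(2 : ℝ) ^ m * t⌋ then 1 else -1

lemma rad_meas (m : ℕ) : Measurable (rad m) := by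
  unfold rad
  have h1 : Measurable fun t : ℝ => ⌊(2 : ℝ) ^ m * t⌋ :=
    Int.measurable_floor.comp (measurable_const.mul measurable_id)
  have h2 : MeasurableSet {t : ℝ | Even ⌊(2 : ℝ) ^ m * t⌋} :=
    h1 (MeasurableSet.of_discrete (s := {k : ℤ | Even k}))
  exact Measurable.ite h2 measurable_const measurable_const

lemma rad_abs (m : ℕ) (t : ℝ) : |rad m t| = 1 := by
  unfold rad; split_ifs <;> simp

lemma rad_sq (m : ℕ) (t : ℝ) : rad m t * rad m t = 1 := by
  unfold rad; split_ifs <;> simp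

lemma Dy.measurable {β : Type*} [MeasurableSpace β] {m : ℕ} {s : ℝ → β} (h : Dy m s) :
    Measurable s := by
  have h1 : Measurable fun t : ℝ => ⌊(2 : ℝ) ^ m * t⌋ :=
    Int.measurable_floor.comp (measurable_const.mul measurable_id)
  have e : s = (fun k : ℤ => s ((k : ℝ) / 2 ^ m)) ∘ (fun t : ℝ => ⌊(2 : ℝ) ^ m * t⌋) := by
    funext t
    simp only [Function.comp]
    apply h
    have : (2 : ℝ) ^ m * (((⌊(2 : ℝ) ^ m * t⌋ : ℤ) : ℝ) / 2 ^ m) = ((⌊(2 : ℝ) ^ m * t⌋ : ℤ) : ℝ) := by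
      field_simp
    rw [this, Int.floor_intCast]
  rw [e]
  exact (measurable_of_countable _).comp h1

lemma Dy.stronglyMeasurable {β : Type*} [TopologicalSpace β] {m : ℕ} {s : ℝ → β} (h : Dy m s) :
    StronglyMeasurable s := by
  have h1 : Measurable fun t : ℝ => ⌊(2 : ℝ) ^ m * t⌋ :=
    Int.measurable_floor.comp (measurable_const.mul measurable_id)
  have e : s = (fun k : ℤ => s ((k : ℝ) / 2 ^ m)) ∘ (fun t : ℝ => ⌊(2 : ℝ) ^ m * t⌋) := by
    funext t
    simp only [Function.comp]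
    apply h
    have : (2 : ℝ) ^ m * (((⌊(2 : ℝ) ^ m * t⌋ : ℤ) : ℝ) / 2 ^ m) = ((⌊(2 : ℝ) ^ m * t⌋ : ℤ) : ℝ) := by
      field_simp
    rw [this, Int.floor_intCast]
  rw [e]
  exact (StronglyMeasurable.of_discrete).comp_measurable h1

variable {Z : Type*} [NormedAddCommGroup Z] [NormedSpace ℝ Z]

lemma mem_unit_iff (m : ℕ) (t : ℝ) : t ∈ Ico (0 : ℝ) 1 ↔
    ⌊(2 : ℝ) ^ m * t⌋ ∈ Ico (0 : ℤ) (2 ^ m) := by
  have h2 : (0 : ℝ) < 2 ^ m := by positivity
  rw [mem_Ico, mem_Ico, Int.floor_lt, Int.floor_nonneg]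
  push_cast
  constructor
  · rintro ⟨h0, h1⟩
    exact ⟨by positivity, by nlinarith⟩
  · rintro ⟨h0, h1⟩
    constructor
    · by_contra hneg
      push Not at hneg
      nlinarith
    · by_contra hge
      push Not at hge
      nlinarith

/-- A Rademacher function is orthogonal to the functions of lower level. -/
lemma integral_rad (m : ℕ) {g : ℝ → Z} (hg : Dy m g) (hi : Integrable g mu) :
    ∫ t, rad (m + 1) t • g t ∂mu = 0 := by
  classical
  have h2 : (0 : ℝ) < 2 ^ (m + 1) := by positivity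
  set δ : ℝ := 1 / 2 ^ (m + 1) with hδ
  set k : ℝ → ℤ := fun t => ⌊(2 : ℝ) ^ (m + 1) * t⌋ with hk
  have hkδ : ∀ t, k (t + δ) = k t + 1 := by
    intro t
    simp only [hk]
    have : (2 : ℝ) ^ (m + 1) * (t + δ) = 2 ^ (m + 1) * t + 1 := by
      rw [hδ]; field_simp
    rw [this, Int.floor_add_one]
  set e : ℝ → Z := fun t => if t ∈ Ico (0 : ℝ) 1 ∧ Even (k t) then g t else 0 with he
  set o : ℝ → Z := fun t => if t ∈ Ico (0 : ℝ) 1 ∧ ¬ Even (k t) then g t else 0 with ho
  have hshift : ∀ t, o (t + δ) = e t := by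
    intro t
    simp only [ho, he]
    have hpow : (2 : ℤ) ^ (m + 1) = 2 * 2 ^ m := by ring
    by_cases hev : Even (k t)
    · have h1 : ¬ Even (k (t + δ)) := by rw [hkδ, Int.even_add_one, not_not]; exact hev
      have h3 : t + δ ∈ Ico (0 : ℝ) 1 ↔ t ∈ Ico (0 : ℝ) 1 := by
        rw [mem_unit_iff (m + 1), mem_unit_iff (m + 1) t]
        change k (t + δ) ∈ _ ↔ k t ∈ _
        rw [hkδ, mem_Ico, mem_Ico, hpow]
        obtain ⟨c, hc⟩ := hev
        constructor <;> rintro ⟨_, _⟩ <;> constructor <;> omega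
      have h4 : g (t + δ) = g t := by
        apply hg
        rw [floor_half, floor_half m t]
        change k (t + δ) / 2 = k t / 2
        rw [hkδ]
        obtain ⟨c, hc⟩ := hev
        omega
      rw [h4]
      by_cases ht : t ∈ Ico (0 : ℝ) 1
      · rw [if_pos ⟨h3.2 ht, h1⟩, if_pos ⟨ht, hev⟩]
      · rw [if_neg (fun h => ht (h3.1 h.1)), if_neg (fun h => ht h.1)]
    · have h1 : Even (k (t + δ)) := by rw [hkδ, Int.even_add_one]; exact hev
      rw [if_neg (fun h => h.2 h1), if_neg (fun h => hev h.2)]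
  have hmu : mu = volume.restrict (Ico (0 : ℝ) 1) := Measure.restrict_congr_set Ico_ae_eq_Icc.symm
  have hkm : Measurable k :=
    Int.measurable_floor.comp (measurable_const.mul measurable_id)
  have hEset : MeasurableSet {t : ℝ | Even (k t)} :=
    hkm (MeasurableSet.of_discrete (s := {k : ℤ | Even k}))
  have hgI : IntegrableOn g (Ico (0 : ℝ) 1) volume := by
    rw [hmu] at hi; exact hi
  have eind : e = (Ico (0 : ℝ) 1 ∩ {t | Even (k t)}).indicator g := by
    funext t
    simp only [he, indicator_apply, mem_inter_iff, mem_ofPred_eq]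
  have oind : o = (Ico (0 : ℝ) 1 ∩ {t | Even (k t)}ᶜ).indicator g := by
    funext t
    simp only [ho, indicator_apply, mem_inter_iff, mem_compl_iff, mem_ofPred_eq]
  have ei : Integrable e volume := by
    rw [eind]
    exact (hgI.mono_set inter_subset_left).integrable_indicator (measurableSet_Ico.inter hEset)
  have oi : Integrable o volume := by
    rw [oind]
    exact (hgI.mono_set inter_subset_left).integrable_indicator
      (measurableSet_Ico.inter hEset.compl)
  have hEq : ∫ t, e t = ∫ t, o t := by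
    rw [← integral_add_right_eq_self o δ]
    exact integral_congr_ae (Eventually.of_forall fun t => (hshift t).symm)
  rw [hmu, ← integral_indicator measurableSet_Ico]
  have hfun : (Ico (0 : ℝ) 1).indicator (fun t => rad (m + 1) t • g t) = fun t => e t - o t := by
    funext t
    simp only [indicator_apply, he, ho, rad]
    change (if t ∈ Ico (0 : ℝ) 1 then (if Even (k t) then (1 : ℝ) else -1) • g t else 0) = _
    by_cases ht : t ∈ Ico (0 : ℝ) 1
    · by_cases hev : Even (k t)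
      · simp [ht, hev]
      · simp [ht, hev]
    · simp [ht]
  rw [hfun, integral_sub ei oi, hEq, sub_self]

/-- Density of the dyadic step functions in `L^1`. -/
lemma exists_dyadic_approx {g : ℝ → Z} (hg : Integrable g mu) {ε : ℝ} (hε : 0 < ε) :
    ∃ (m : ℕ) (g' : ℝ → Z), Dy m g' ∧ Integrable g' mu ∧ ∫ t, ‖g t - g' t‖ ∂mu ≤ ε := by
  obtain ⟨φ, hφc, hφi, hφ, hφint⟩ := hg.exists_hasCompactSupport_integral_sub_le (half_pos hε)
  have huc : UniformContinuous φ := hφ.uniformContinuous_of_tendsto_cocompact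
    (hφc.is_zero_at_infty)
  obtain ⟨δ, hδ, hδφ⟩ := Metric.uniformContinuous_iff.1 huc (ε / 2) (half_pos hε)
  obtain ⟨m, hm⟩ := exists_pow_lt_of_lt_one hδ (show (1 / 2 : ℝ) < 1 by norm_num)
  set g' : ℝ → Z := fun t => φ ((⌊(2 : ℝ) ^ m * t⌋ : ℤ) / 2 ^ m) with hg'
  have hDy : Dy m g' := by
    intro t t' htt
    simp only [hg', htt]
  have hclose : ∀ t, ‖φ t - g' t‖ ≤ ε / 2 := by
    intro t
    have h2 : (0 : ℝ) < 2 ^ m := by positivity
    have : dist t ((⌊(2 : ℝ) ^ m * t⌋ : ℤ) / 2 ^ m : ℝ) < δ := by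
      rw [Real.dist_eq]
      have l1 := Int.floor_le ((2 : ℝ) ^ m * t)
      have l2 := Int.lt_floor_add_one ((2 : ℝ) ^ m * t)
      have e : t - ((⌊(2 : ℝ) ^ m * t⌋ : ℤ) / 2 ^ m : ℝ) =
          ((2 : ℝ) ^ m * t - (⌊(2 : ℝ) ^ m * t⌋ : ℤ)) / 2 ^ m := by field_simp
      rw [e, abs_div, abs_of_pos h2, abs_of_nonneg (by linarith), div_lt_iff₀ h2]
      have hm' : (1 : ℝ) < δ * 2 ^ m := by
        rw [one_div_pow, div_lt_iff₀ h2] at hm
        exact hm
      linarith
    have := hδφ this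
    rw [dist_eq_norm] at this
    exact this.le
  have hg'i : Integrable g' mu := by
    have h1 : Integrable (fun t => φ t - g' t) mu := by
      refine Integrable.of_bound ?_ (ε / 2) (Eventually.of_forall hclose)
      exact (hφ.aestronglyMeasurable).sub (hDy.stronglyMeasurable.aestronglyMeasurable)
    have h2 := hφint.sub h1
    refine h2.congr (Eventually.of_forall fun t => ?_)
    simp
  refine ⟨m, g', hDy, hg'i, ?_⟩
  have h1 : ∫ t, ‖g t - g' t‖ ∂mu ≤ ∫ t, (‖g t - φ t‖ + ε / 2) ∂mu := by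
    apply integral_mono_of_nonneg (Eventually.of_forall fun t => norm_nonneg _)
    · exact (hg.sub hφint).norm.add (integrable_const _)
    · refine Eventually.of_forall fun t => ?_
      have := hclose t
      calc ‖g t - g' t‖ = ‖(g t - φ t) + (φ t - g' t)‖ := by congr 1; abel
        _ ≤ ‖g t - φ t‖ + ‖φ t - g' t‖ := norm_add_le _ _
        _ ≤ ‖g t - φ t‖ + ε / 2 := by linarith
  refine h1.trans ?_
  have hn : Integrable (fun t => ‖g t - φ t‖) mu := (hg.sub hφint).norm
  rw [integral_add hn (integrable_const _)]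
  have h2 : ∫ _ : ℝ, ε / 2 ∂mu = ε / 2 := by
    rw [integral_const]
    simp
  rw [h2]
  linarith

end Pool.Agent.LinfX
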