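import Pool.Agent.LinfX.Avg

open MeasureTheory Set Filter Topology
open scoped ENNReal

namespace Pool.Agent.LinfX

universe u

variable {𝕜 : Type*} [RCLike 𝕜]
variable {Y : Type u} [NormedAddCommGroup Y] [NormedSpace 𝕜 Y] [CompleteSpace Y]

/-- Sets of positive measure. -/
def PSet : Type := {A : Set ℝ // MeasurableSet A ∧ 0 < mu A}

instance : Nonempty PSet := ⟨⟨univ, MeasurableSet.univ, by simp⟩⟩

/-- The ambient space. -/
noncomputable abbrev ZZ (Y : Type u) [NormedAddCommGroup Y] := LI (ℕ → PSet) Y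

lemma norm_avgL_le {X : Type*} [NormedAddCommGroup X] [NormedSpace 𝕜 X] [CompleteSpace X]
    (A : Set ℝ) (hA : 0 < mu A) (f : LinfUnit X) : ‖avgL (𝕜 := 𝕜) A hA f‖ ≤ ‖f‖ := by
  let _ : NormedSpace ℝ X := NormedSpace.restrictScalars ℝ 𝕜 X
  exact norm_avg_le hA (ae_norm_le f)

/-- The embedding of `L^∞([0,1], Z)` into `Z`. -/
noncomputable def sig : LinfUnit (ZZ Y) →ₗᵢ[𝕜] ZZ Y where
  toFun f := mkB (fun s => (avgL (𝕜 := 𝕜) (s 0).1 (s 0).2.2 f) (fun n => s (n + 1))) ‖f‖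
    (fun s => (nrm_apply _ _).trans (norm_avgL_le _ (s 0).2.2 f))
  map_add' f g := by
    ext s
    change (avgL (𝕜 := 𝕜) (s 0).1 (s 0).2.2 (f + g)) (fun n => s (n + 1)) =
      (avgL (𝕜 := 𝕜) (s 0).1 (s 0).2.2 f) (fun n => s (n + 1)) +
      (avgL (𝕜 := 𝕜) (s 0).1 (s 0).2.2 g) (fun n => s (n + 1))
    rw [map_add]
    rfl
  map_smul' c f := by
    ext s
    change (avgL (𝕜 := 𝕜) (s 0).1 (s 0).2.2 (c • f)) (fun n => s (n + 1)) =
      c • (avgL (𝕜 := 𝕜) (s 0).1 (s 0).2.2 f) (fun n => s (n + 1))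
    rw [map_smul]
    rfl
  norm_map' f := by
    let _ : NormedSpace ℝ (ZZ Y) := NormedSpace.restrictScalars ℝ 𝕜 (ZZ Y)
    change ‖(mkB (fun s => (avgL (𝕜 := 𝕜) (s 0).1 (s 0).2.2 f) (fun n => s (n + 1))) ‖f‖
      (fun s => (nrm_apply _ _).trans (norm_avgL_le _ (s 0).2.2 f)) : ZZ Y)‖ = ‖f‖
    set a : ZZ Y := mkB (fun s => (avgL (𝕜 := 𝕜) (s 0).1 (s 0).2.2 f) (fun n => s (n + 1))) ‖f‖
      (fun s => (nrm_apply _ _).trans (norm_avgL_le _ (s 0).2.2 f)) with ha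
    apply le_antisymm
    · apply nrm_le (norm_nonneg _)
      intro s
      exact (nrm_apply (avgL (𝕜 := 𝕜) (s 0).1 (s 0).2.2 f) (fun n => s (n + 1))).trans
        (norm_avgL_le (𝕜 := 𝕜) (s 0).1 (s 0).2.2 f)
    · apply norm_le_of_ae (norm_nonneg _)
      apply ae_le_of_avg (Lp.aestronglyMeasurable f) (integrable_of_Linf f)
      intro A hA hA0
      apply nrm_le (norm_nonneg _)
      intro s'
      exact nrm_apply a (fun n => Nat.casesOn n (⟨A, hA, hA0⟩ : PSet) s')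

/-- The functions with values in a subspace. -/
def Lw {Z : Type*} [NormedAddCommGroup Z] [NormedSpace 𝕜 Z] (W : Submodule 𝕜 Z) :
    Submodule 𝕜 (LinfUnit Z) where
  carrier := {f | ∀ᵐ t ∂mu, f t ∈ W}
  add_mem' := by
    intro f g hf hg
    have hf' : ∀ᵐ t ∂mu, f t ∈ W := hf
    have hg' : ∀ᵐ t ∂mu, g t ∈ W := hg
    change ∀ᵐ t ∂mu, (f + g : LinfUnit Z) t ∈ W
    filter_upwards [hf', hg', Lp.coeFn_add f g] with t h1 h2 h3
    rw [h3]
    exact W.add_mem h1 h2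
  zero_mem' := by
    change ∀ᵐ t ∂mu, (0 : LinfUnit Z) t ∈ W
    filter_upwards [Lp.coeFn_zero Z ∞ mu] with t h
    rw [h]
    exact W.zero_mem
  smul_mem' := by
    intro c f hf
    have hf' : ∀ᵐ t ∂mu, f t ∈ W := hf
    change ∀ᵐ t ∂mu, (c • f : LinfUnit Z) t ∈ W
    filter_upwards [hf', Lp.coeFn_smul c f] with t h1 h2
    rw [h2]
    exact W.smul_mem c h1

lemma mem_Lw {Z : Type*} [NormedAddCommGroup Z] [NormedSpace 𝕜 Z] {W : Submodule 𝕜 Z}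
    {f : LinfUnit Z} : f ∈ Lw W ↔ ∀ᵐ t ∂mu, f t ∈ W := Iff.rfl

lemma Lw_closed {Z : Type*} [NormedAddCommGroup Z] [NormedSpace 𝕜 Z] {W : Submodule 𝕜 Z}
    (hW : IsClosed (W : Set Z)) : IsClosed (Lw W : Set (LinfUnit Z)) := by
  apply IsSeqClosed.isClosed
  intro f g hf hfg
  have h1 : ∀ᵐ t ∂mu, ∀ n, f n t ∈ W := ae_all_iff.2 fun n => hf n
  have h2 : ∀ᵐ t ∂mu, ∀ n, ‖f n t - g t‖ ≤ ‖f n - g‖ := by
    rw [ae_all_iff]
    intro n
    filter_upwards [ae_norm_le (f n - g), Lp.coeFn_sub (f n) g] with t h3 h4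
    rw [h4] at h3
    exact h3
  change ∀ᵐ t ∂mu, g t ∈ W
  filter_upwards [h1, h2] with t h3 h4
  have h5 : Tendsto (fun n => f n t) atTop (𝓝 (g t)) := by
    rw [tendsto_iff_norm_sub_tendsto_zero]
    have h6 : Tendsto (fun n => ‖f n - g‖) atTop (𝓝 0) :=
      tendsto_iff_norm_sub_tendsto_zero.1 hfg
    exact squeeze_zero (fun n => norm_nonneg _) h4 h6
  exact hW.mem_of_tendsto h5 (Eventually.of_forall h3)

lemma Lw_mono {Z : Type*} [NormedAddCommGroup Z] [NormedSpace 𝕜 Z] {W W' : Submodule 𝕜 Z}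
    (h : W ≤ W') : Lw W ≤ Lw W' := by
  intro f hf
  have hf' : ∀ᵐ t ∂mu, f t ∈ W := hf
  change ∀ᵐ t ∂mu, f t ∈ W'
  filter_upwards [hf'] with t ht using h ht

/-- The operator on subspaces. -/
noncomputable def Gam (W : Submodule 𝕜 (ZZ Y)) : Submodule 𝕜 (ZZ Y) :=
  (Lw W).map (sig (𝕜 := 𝕜) (Y := Y)).toLinearMap

lemma Gam_mono {W W' : Submodule 𝕜 (ZZ Y)} (h : W ≤ W') : Gam W ≤ Gam W' :=
  Submodule.map_mono (Lw_mono h)

lemma Gam_closed {W : Submodule 𝕜 (ZZ Y)} (hW : IsClosed (W : Set (ZZ Y))) :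
    IsClosed (Gam W : Set (ZZ Y)) := by
  have h := (sig (𝕜 := 𝕜) (Y := Y)).isometry.isClosedEmbedding.isClosedMap _ (Lw_closed hW)
  exact h

/-- The constants. -/
noncomputable def cst : Y →ₗ[𝕜] ZZ Y where
  toFun y := mkB (fun _ => y) ‖y‖ (fun _ => le_rfl)
  map_add' _ _ := rfl
  map_smul' _ _ := rfl

variable (𝕜 Y)

/-- The least fixed point. -/
noncomputable def XX : Submodule 𝕜 (ZZ Y) :=
  sInf {W | IsClosed (W : Set (ZZ Y)) ∧ LinearMap.range (cst (𝕜 := 𝕜) (Y := Y)) ≤ W ∧ Gam W ≤ W}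

variable {𝕜 Y}

lemma XX_closed : IsClosed (XX 𝕜 Y : Set (ZZ Y)) := by
  unfold XX
  rw [Submodule.coe_sInf]
  exact isClosed_biInter fun W hW => hW.1

instance : CompleteSpace (XX 𝕜 Y) := XX_closed.completeSpace_coe

lemma cst_le : LinearMap.range (cst (𝕜 := 𝕜) (Y := Y)) ≤ XX 𝕜 Y := le_sInf fun _ hW => hW.2.1

lemma Gam_XX_le : Gam (XX 𝕜 Y) ≤ XX 𝕜 Y :=
  le_sInf fun _ hW => (Gam_mono (sInf_le hW)).trans hW.2.2

lemma avg_const {X : Type*} [NormedAddCommGroup X] [NormedSpace ℝ X] [CompleteSpace X]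
    {A : Set ℝ} (hA : 0 < mu A) {f : ℝ → X} {z : X} (hf : f =ᵐ[mu] fun _ => z) : avg A f = z := by
  have hA' : 0 < (mu A).toReal := ENNReal.toReal_pos hA.ne' (measure_ne_top _ _)
  unfold avg
  rw [integral_congr_ae (ae_restrict_of_ae hf), setIntegral_const, smul_smul, measureReal_def,
    inv_mul_cancel₀ hA'.ne', one_smul]

lemma XX_le_Gam : XX 𝕜 Y ≤ Gam (XX 𝕜 Y) := by
  apply sInf_le
  refine ⟨Gam_closed XX_closed, ?_, Gam_mono Gam_XX_le⟩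
  rintro _ ⟨y, rfl⟩
  have hm : MemLp (fun _ : ℝ => cst (𝕜 := 𝕜) y) ∞ mu := memLp_const _
  refine ⟨hm.toLp _, ?_, ?_⟩
  · change ∀ᵐ t ∂mu, (hm.toLp _ : ℝ → ZZ Y) t ∈ XX 𝕜 Y
    filter_upwards [MemLp.coeFn_toLp hm] with t ht
    rw [ht]
    exact cst_le ⟨y, rfl⟩
  · ext s
    let _ : NormedSpace ℝ (ZZ Y) := NormedSpace.restrictScalars ℝ 𝕜 (ZZ Y)
    change (avg (s 0).1 (hm.toLp _ : ℝ → ZZ Y)) (fun n => s (n + 1)) = y
    rw [avg_const (s 0).2.2 (MemLp.coeFn_toLp hm)]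
    rfl

/-- Inclusion of `L^∞([0,1], W)` in `L^∞([0,1], Z)`. -/
noncomputable def inc {Z : Type*} [NormedAddCommGroup Z] [NormedSpace 𝕜 Z] (W : Submodule 𝕜 Z) :
    LinfUnit W →ₗᵢ[𝕜] LinfUnit Z where
  toLinearMap := (W.subtypeL.compLpL ∞ mu : LinfUnit W →L[𝕜] LinfUnit Z).toLinearMap
  norm_map' := by
    intro f
    have h1 : ∀ᵐ t ∂mu, (W.subtypeL.compLpL ∞ mu f : LinfUnit Z) t = (f t : Z) :=
      ContinuousLinearMap.coeFn_compLpL (p := ∞) (μ := mu) W.subtypeL f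
    apply le_antisymm
    · apply norm_le_of_ae (norm_nonneg _)
      change ∀ᵐ t ∂mu, ‖(W.subtypeL.compLpL ∞ mu f : LinfUnit Z) t‖ ≤ ‖f‖
      filter_upwards [h1, ae_norm_le f] with t h2 h3
      rw [h2]; exact h3
    · apply norm_le_of_ae (norm_nonneg _)
      change ∀ᵐ t ∂mu, ‖f t‖ ≤ ‖(W.subtypeL.compLpL ∞ mu f : LinfUnit Z)‖
      filter_upwards [h1, ae_norm_le (W.subtypeL.compLpL ∞ mu f : LinfUnit Z)] with t h2 h3
      rw [h2] at h3; exact h3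

lemma inc_coe {Z : Type*} [NormedAddCommGroup Z] [NormedSpace 𝕜 Z] (W : Submodule 𝕜 Z)
    (f : LinfUnit W) : ∀ᵐ t ∂mu, (inc W f : LinfUnit Z) t = (f t : Z) :=
  ContinuousLinearMap.coeFn_compLpL (p := ∞) (μ := mu) W.subtypeL f

lemma inc_surj {Z : Type*} [NormedAddCommGroup Z] [NormedSpace 𝕜 Z] (W : Submodule 𝕜 Z)
    {f : LinfUnit Z} (hf : f ∈ Lw W) : ∃ g : LinfUnit W, inc W g = f := by
  classical
  have hf' : ∀ᵐ t ∂mu, f t ∈ W := hf
  set g : ℝ → W := fun t => if h : f t ∈ W then ⟨f t, h⟩ else 0 with hg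
  have hgf : ∀ᵐ t ∂mu, (g t : Z) = f t := by
    filter_upwards [hf'] with t ht
    simp only [hg]
    rw [dif_pos ht]
  have hgm : AEStronglyMeasurable g mu := by
    rw [← (Topology.IsEmbedding.subtypeVal (p := fun z => z ∈ W)).aestronglyMeasurable_comp_iff]
    exact (Lp.aestronglyMeasurable f).congr (by filter_upwards [hgf] with t ht using ht.symm)
  have hgb : MemLp g ∞ mu := by
    apply memLp_top_of_bound hgm ‖f‖
    filter_upwards [hgf, ae_norm_le f] with t h1 h2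
    have : ‖g t‖ = ‖(g t : Z)‖ := rfl
    rw [this, h1]; exact h2
  refine ⟨hgb.toLp _, ?_⟩
  apply Lp.ext
  filter_upwards [inc_coe W (hgb.toLp _), MemLp.coeFn_toLp hgb, hgf] with t h1 h2 h3
  rw [h1, h2, h3]

/-- The least fixed point is isometric to `L^∞([0,1], X)`. -/
theorem XX_iso : Iso 𝕜 (LinfUnit (XX 𝕜 Y)) (XX 𝕜 Y) := by
  have hmem : ∀ f : LinfUnit (XX 𝕜 Y), sig (𝕜 := 𝕜) (inc (XX 𝕜 Y) f) ∈ XX 𝕜 Y := by
    intro f
    apply Gam_XX_le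
    refine ⟨inc (XX 𝕜 Y) f, ?_, rfl⟩
    change ∀ᵐ t ∂mu, (inc (XX 𝕜 Y) f : LinfUnit (ZZ Y)) t ∈ XX 𝕜 Y
    filter_upwards [inc_coe (XX 𝕜 Y) f] with t ht
    rw [ht]
    exact (f t).2
  let Φ : LinfUnit (XX 𝕜 Y) →ₗᵢ[𝕜] XX 𝕜 Y :=
    { toFun := fun f => ⟨sig (𝕜 := 𝕜) (inc (XX 𝕜 Y) f), hmem f⟩
      map_add' := fun f g => by
        apply Subtype.ext
        change sig (𝕜 := 𝕜) (inc (XX 𝕜 Y) (f + g)) = _
        rw [map_add, map_add]
        rfl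
      map_smul' := fun c f => by
        apply Subtype.ext
        change sig (𝕜 := 𝕜) (inc (XX 𝕜 Y) (c • f)) = _
        rw [map_smul, map_smul]
        rfl
      norm_map' := fun f => by
        change ‖sig (𝕜 := 𝕜) (inc (XX 𝕜 Y) f)‖ = ‖f‖
        rw [LinearIsometry.norm_map, LinearIsometry.norm_map] }
  have hsurj : Function.Surjective Φ := by
    rintro ⟨x, hx⟩
    obtain ⟨f, hf, rfl⟩ := XX_le_Gam hx
    obtain ⟨g, rfl⟩ := inc_surj _ hf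
    exact ⟨g, rfl⟩
  exact ⟨(LinearIsometryEquiv.ofSurjective Φ hsurj).toContinuousLinearEquiv⟩

lemma Y_complemented : IsComplementedIn 𝕜 Y (XX 𝕜 Y) := by
  let s0 : ℕ → PSet := fun _ => Classical.arbitrary PSet
  let T : Y →L[𝕜] XX 𝕜 Y := LinearMap.mkContinuous
    { toFun := fun y => ⟨cst (𝕜 := 𝕜) y, cst_le ⟨y, rfl⟩⟩
      map_add' := fun _ _ => rfl
      map_smul' := fun _ _ => rfl } 1 (fun y => by
        rw [one_mul]
        change ‖cst (𝕜 := 𝕜) y‖ ≤ ‖y‖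
        exact nrm_le (norm_nonneg _) fun _ => le_rfl)
  let S : XX 𝕜 Y →L[𝕜] Y := (lp.evalCLM 𝕜 (fun _ : ℕ → PSet => Y) ∞ s0).comp (XX 𝕜 Y).subtypeL
  exact ⟨T, S, fun y => rfl⟩

/-- **Main theorem.** -/
theorem exists_fixed (𝕜 : Type*) [RCLike 𝕜] (Y : Type u) [NormedAddCommGroup Y] [NormedSpace 𝕜 Y]
    [CompleteSpace Y] : ∃ (X : Type u) (_ : NormedAddCommGroup X) (_ : NormedSpace 𝕜 X)
    (_ : CompleteSpace X), IsComplementedIn 𝕜 Y X ∧ Iso 𝕜 X (LinfUnit X) ∧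
      Iso 𝕜 (linfSeq X) (LinfUnit X) := by
  refine ⟨XX 𝕜 Y, inferInstance, inferInstance, inferInstance, Y_complemented, XX_iso.symm, ?_⟩
  apply decomposition
  · exact XX_iso.complemented.trans complemented_seq
  · exact seq_complemented_unit

end Pool.Agent.LinfX
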