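import Pool.Agent.LinfX.Key

open MeasureTheory Set Filter Topology
open scoped ENNReal

namespace Pool.Agent.LinfX

variable {𝕜 : Type*} [RCLike 𝕜] {Y : Type*} [NormedAddCommGroup Y] [NormedSpace 𝕜 Y]
variable {E : ℕ → Type*} [∀ i, NormedAddCommGroup (E i)] [∀ i, NormedSpace 𝕜 (E i)]

/-- Generic recursion producing a sequence from a step property. -/
lemma exists_rec' {α : Type*} (Q : ℕ → α → Prop) (R : α → α → Prop) (a0 : α) (h0 : Q 0 a0)
    (hs : ∀ i a, Q i a → ∃ a', Q (i + 1) a' ∧ R a a') :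
    ∃ s : ℕ → α, (∀ i, Q i (s i)) ∧ ∀ i, R (s i) (s (i + 1)) := by
  classical
  choose! next h1 h2 using hs
  let s : ℕ → α := fun n => Nat.rec a0 (fun i a => next i a) n
  have hP : ∀ i, Q i (s i) := by
    intro i
    induction i with
    | zero => exact h0
    | succ i ih => exact h1 i _ ih
  exact ⟨s, hP, fun i => h2 i _ (hP i)⟩

lemma integral_ind_le (l : ℕ) (i : ℤ) : ∫ t, ind l i t ∂mu ≤ (1 / 2) ^ l := by
  have h2 : (0 : ℝ) < 2 ^ l := by positivity
  have hset : ind l i = (Ico ((i : ℝ) / 2 ^ l) (((i : ℝ) + 1) / 2 ^ l)).indicator 1 := by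
    funext t
    simp only [ind, indicator_apply, Pi.one_apply]
    have : ⌊(2 : ℝ) ^ l * t⌋ = i ↔ t ∈ Ico ((i : ℝ) / 2 ^ l) (((i : ℝ) + 1) / 2 ^ l) := by
      rw [Int.floor_eq_iff, mem_Ico, div_le_iff₀ h2, lt_div_iff₀ h2, mul_comm t]
    simp only [this]
  rw [hset, integral_indicator_one measurableSet_Ico, measureReal_def]
  have h1 : mu (Ico ((i : ℝ) / 2 ^ l) (((i : ℝ) + 1) / 2 ^ l)) ≤ ENNReal.ofReal ((1 / 2) ^ l) := by
    refine (Measure.restrict_apply_le _ _).trans (le_of_eq ?_)
    rw [Real.volume_Ico]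
    congr 1
    rw [one_div_pow]
    ring
  have h3 := ENNReal.toReal_mono ENNReal.ofReal_ne_top h1
  rwa [ENNReal.toReal_ofReal (by positivity)] at h3

/-- Superposition of functions with disjoint supports. -/
lemma exists_superposition (h : ℕ → ℝ → ℝ) (hm : ∀ j, Measurable (h j)) (hb : ∀ j t, |h j t| ≤ 1)
    (hdis : ∀ i j t, i < j → h i t ≠ 0 → h j t = 0) (𝕜 : Type*) [RCLike 𝕜] :
    ∃ A : lp (fun _ : ℕ => 𝕜) ∞ →L[𝕜] Lp 𝕜 ∞ mu, ∀ j, A (ev 𝕜 j) = toL 𝕜 (h j) := by
  classical
  have huniq : ∀ t i j, h i t ≠ 0 → h j t ≠ 0 → i = j := by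
    intro t i j hi hj
    rcases lt_trichotomy i j with hlt | heq | hgt
    · exact absurd (hdis i j t hlt hi) hj
    · exact heq
    · exact absurd (hdis j i t hgt hj) hi
  have hfs : ∀ (a : ℕ → 𝕜) t, (Function.support fun j => a j * (h j t : 𝕜)).Finite := by
    intro a t
    apply Set.Subsingleton.finite
    intro i hi j hj
    simp only [Function.mem_support, ne_eq, mul_eq_zero, not_or, RCLike.ofReal_eq_zero] at hi hj
    exact huniq t i j hi.2 hj.2
  have hsum : ∀ (a : ℕ → 𝕜) t, Summable fun j => a j * (h j t : 𝕜) := fun a t =>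
    summable_of_hasFiniteSupport (hfs a t)
  set F : (ℕ → 𝕜) → ℝ → 𝕜 := fun a t => ∑' j, a j * (h j t : 𝕜) with hF
  have hFm : ∀ a, Measurable (F a) := by
    intro a
    apply measurable_of_tendsto_metrizable (f := fun n t => ∑ j ∈ Finset.range n, a j * (h j t : 𝕜))
    · intro n
      apply Finset.measurable_fun_sum
      intro j _
      exact measurable_const.mul (RCLike.measurable_ofReal.comp (hm j))
    · rw [tendsto_pi_nhds]
      intro t
      exact (hsum a t).hasSum.tendsto_sum_nat
  have hFb : ∀ (a : lp (fun _ : ℕ => 𝕜) ∞) t, ‖F a t‖ ≤ ‖a‖ := by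
    intro a t
    by_cases hex : ∃ j, h j t ≠ 0
    · obtain ⟨j, hj⟩ := hex
      have : F a t = a j * (h j t : 𝕜) := by
        apply tsum_eq_single j
        intro i hi
        have : h i t = 0 := by
          by_contra hne
          exact hi (huniq t i j hne hj)
        rw [this]; simp
      rw [this, norm_mul, RCLike.norm_ofReal]
      have h1 := lp.norm_apply_le_norm ENNReal.top_ne_zero a j
      calc ‖a j‖ * |h j t| ≤ ‖a‖ * 1 := by
            apply mul_le_mul h1 (hb j t) (abs_nonneg _) (norm_nonneg _)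
        _ = ‖a‖ := mul_one _
    · push Not at hex
      have : F a t = 0 := by
        simp only [hF]
        simp [hex]
      rw [this, norm_zero]; exact norm_nonneg _
  have hmem : ∀ a : lp (fun _ : ℕ => 𝕜) ∞, MemLp (F a) ∞ mu := fun a =>
    memLp_top_of_bound (hFm a).aestronglyMeasurable ‖a‖ (Eventually.of_forall fun t => hFb a t)
  refine ⟨LinearMap.mkContinuous
    { toFun := fun a => (hmem a).toLp _
      map_add' := by
        intro a b
        rw [← MemLp.toLp_add]
        apply MemLp.toLp_congr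
        refine Eventually.of_forall fun t => ?_
        change F (⇑a + ⇑b) t = F a t + F b t
        simp only [hF, Pi.add_apply, add_mul]
        exact (hsum a t).tsum_add (hsum b t)
      map_smul' := by
        intro c a
        rw [RingHom.id_apply, ← MemLp.toLp_const_smul]
        apply MemLp.toLp_congr
        refine Eventually.of_forall fun t => ?_
        change F (c • ⇑a) t = c • F a t
        simp only [hF, Pi.smul_apply, smul_eq_mul, mul_assoc]
        exact tsum_mul_left } 1 ?_, ?_⟩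
  · intro a
    rw [one_mul]
    apply norm_le_of_ae (norm_nonneg _)
    change ∀ᵐ t ∂mu, ‖((hmem a).toLp _ : ℝ → 𝕜) t‖ ≤ ‖a‖
    filter_upwards [MemLp.coeFn_toLp (hmem a)] with t ht
    rw [ht]
    exact hFb a t
  · intro j
    change (hmem (ev 𝕜 j)).toLp _ = toL 𝕜 (h j)
    apply Lp.ext
    filter_upwards [MemLp.coeFn_toLp (hmem (ev 𝕜 j)), toL_coe (𝕜 := 𝕜) (hm j) (hb j)] with t h1 h2
    rw [h1, h2]
    simp only [hF]
    rw [tsum_eq_single j]
    · rw [ev_self, one_mul]
    · intro i hi
      rw [ev_ne hi, zero_mul]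

/-- Existence of good test functions. -/
lemma key (T : Lp Y ∞ mu →L[𝕜] lp E ∞) (S : lp E ∞ →L[𝕜] Lp Y ∞ mu) (K : ℕ)
    (hE : ∀ k < K, ¬ ContainsLinf 𝕜 (E k)) (y : Y) (y' : StrongDual 𝕜 Y) (M : ℕ) :
    ∃ m ≥ M, ∃ s : ℝ → ℝ, (∀ t, s t = 0 ∨ s t = 1 ∨ s t = -1) ∧ Dy m s ∧
      RCLike.re (pr (toL 𝕜 (fun t => rad (m + 1) t * s t)) y'
        (Rop T S K y (toL 𝕜 (fun t => rad (m + 1) t * s t)))) ≤
        (∫ t, s t * s t ∂mu) - 1 / 4 := by
  by_contra hcon
  push Not at hcon
  have H : ∀ m ≥ M, ∀ s : ℝ → ℝ, (∀ t, s t = 0 ∨ s t = 1 ∨ s t = -1) → Dy m s →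
      (∫ t, s t * s t ∂mu) - 1 / 4 < RCLike.re (pr (toL 𝕜 (fun t => rad (m + 1) t * s t)) y'
        (Rop T S K y (toL 𝕜 (fun t => rad (m + 1) t * s t)))) :=
    fun m hm s hs hsd => hcon m hm s hs hsd
  set C : ℝ := ‖y'‖ * ‖S‖ with hC
  have hC0 : 0 ≤ C := by positivity
  set c : ℝ := 1 / (4 * (C + 1)) with hc
  have hc0 : 0 < c := by positivity
  obtain ⟨σ, hQ, hR⟩ := exists_rec' (α := (ℝ → ℝ) × ℕ)
    (fun j p => (∀ t, p.1 t = 0 ∨ p.1 t = 1) ∧ Dy p.2 p.1 ∧
      1 / 2 + (1 / 2) ^ (j + 1) ≤ ∫ t, p.1 t ∂mu)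
    (fun p q => (∀ t, q.1 t ≠ 0 → p.1 t ≠ 0) ∧ ∃ h : ℝ → ℝ, Measurable h ∧ (∀ t, |h t| ≤ 1) ∧
      (∀ t, h t ≠ 0 → p.1 t ≠ 0 ∧ q.1 t = 0) ∧
      c < ‖trunc (𝕜 := 𝕜) K (T (tens y (toL 𝕜 h)))‖)
    (fun _ => 1, 0) (by
      refine ⟨fun t => Or.inr rfl, fun _ _ _ => rfl, ?_⟩
      simp only [integral_const]
      simp
      norm_num) (by
      rintro j ⟨χ, L⟩ ⟨hχ, hL, hI⟩
      simp only at hχ hL hI
      set l := j + 2 with hl
      set m := max M (max L l) with hm
      have hpow : (0 : ℝ) < (1 / 2) ^ (j + 1) := by positivity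
      obtain ⟨i, hi⟩ := step T S K y y' M H χ hχ hL (by linarith) l m (le_max_left _ _)
        ((le_max_left _ _).trans (le_max_right _ _)) ((le_max_right _ _).trans (le_max_right _ _))
      have hχabs : ∀ t, |χ t| ≤ 1 := by
        intro t; rcases hχ t with h | h <;> rw [h] <;> simp
      have hindabs : ∀ t, |ind l i t| ≤ 1 := by
        intro t; rcases ind_cases l i t with h | h <;> rw [h] <;> simp
      have hχ' : ∀ t, χ t * (1 - ind l i t) = 0 ∨ χ t * (1 - ind l i t) = 1 := by
        intro t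
        rcases hχ t with h | h <;> rcases ind_cases l i t with h' | h' <;> simp [h, h']
      refine ⟨(fun t => χ t * (1 - ind l i t), max L l), ⟨hχ', ?_, ?_⟩, ?_, ?_⟩
      · apply Dy.mul (hL.mono (le_max_left _ _))
        intro t t' htt
        simp only
        rw [(ind_dy l i).mono (le_max_right L l) t t' htt]
      · simp only
        have i1 : Integrable (fun t => χ t * ind l i t) mu :=
          integrable_real (hL.measurable.mul (ind_dy l i).measurable)
            (fun t => abs_mul_le (hχabs t) (hindabs t))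
        have i2 : Integrable χ mu := integrable_real hL.measurable hχabs
        have e : ∫ t, χ t * (1 - ind l i t) ∂mu = (∫ t, χ t ∂mu) - ∫ t, χ t * ind l i t ∂mu := by
          rw [← integral_sub i2 i1]
          congr 1; funext t; ring
        have h1 : ∫ t, χ t * ind l i t ∂mu ≤ ∫ t, ind l i t ∂mu := by
          apply integral_mono i1 (integrable_real (ind_dy l i).measurable hindabs)
          intro t
          rcases hχ t with h | h <;> rcases ind_cases l i t with h' | h' <;> simp [h, h']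
        have h2 := integral_ind_le l i
        have h3 : (1 / 2 : ℝ) ^ l = (1 / 2) ^ (j + 1) * (1 / 2) := by rw [hl]; ring
        have h4 : (1 / 2 : ℝ) ^ (j + 1 + 1) = (1 / 2) ^ (j + 1) * (1 / 2) := by ring
        rw [e, h4]
        rw [h3] at h2
        linarith
      · intro t ht h0
        apply ht
        simp only at h0 ⊢
        rw [h0, zero_mul]
      · refine ⟨fun t => rad (m + 1) t * (χ t * ind l i t), ?_, ?_, ?_, ?_⟩
        · exact (rad_meas _).mul (hL.measurable.mul (ind_dy l i).measurable)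
        · exact fun t => abs_mul_le (rad_abs _ _).le (abs_mul_le (hχabs t) (hindabs t))
        · intro t ht
          have h1 : χ t ≠ 0 := by
            intro h0; apply ht; simp only; rw [h0]; ring
          have h2 : ind l i t ≠ 0 := by
            intro h0; apply ht; simp only; rw [h0]; ring
          refine ⟨h1, ?_⟩
          simp only
          rcases ind_cases l i t with h' | h'
          · exact absurd h' h2
          · rw [h']; ring
        · set N := ‖trunc (𝕜 := 𝕜) K (T (tens y (toL 𝕜 (fun t => rad (m + 1) t *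
            (χ t * ind l i t)))))‖ with hN
          have hN0 : 0 ≤ N := norm_nonneg _
          have h5 : 1 / 4 < (C + 1) * N := by nlinarith
          rw [hc, div_lt_iff₀ (by positivity)]
          linarith)
  choose hdec h hhm hhb hsupp hbig using hR
  have hdec' : ∀ i j, i ≤ j → ∀ t, (σ j).1 t ≠ 0 → (σ i).1 t ≠ 0 := by
    intro i j hij
    induction hij with
    | refl => exact fun t ht => ht
    | step _ ih => exact fun t ht => ih t (hdec _ t ht)
  obtain ⟨A, hA⟩ := exists_superposition h hhm hhb (by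
    intro i j t hij hi
    by_contra hj
    have h1 := (hsupp j t hj).1
    have h2 := (hsupp i t hi).2
    exact hdec' (i + 1) j hij t h1 h2) 𝕜
  -- pigeonhole
  have hpig : ∃ k < K, {j | c < ‖(T (tens y (toL 𝕜 (h j)))) k‖}.Infinite := by
    by_contra hno
    push Not at hno
    have hfin : (⋃ k < K, {j | c < ‖(T (tens y (toL 𝕜 (h j)))) k‖}).Finite := by
      apply Set.Finite.biUnion (Set.finite_lt_nat K)
      intro k hk
      exact hno k hk
    apply Set.infinite_univ (α := ℕ)
    apply hfin.subset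
    intro j _
    simp only [mem_iUnion, mem_ofPred_eq, exists_prop]
    by_contra hall
    push Not at hall
    have := hbig j
    refine absurd this (not_lt.2 ?_)
    apply lp.norm_le_of_forall_le hc0.le
    intro k
    rw [trunc_apply]
    split_ifs with hk
    · exact hall k hk
    · rw [norm_zero]; exact hc0.le
  obtain ⟨k, hk, hinf⟩ := hpig
  apply hE k hk
  refine containsLinf_of_operator (((lp.evalCLM 𝕜 E ∞ k).comp T).comp ((tens y).comp A)) hc0 hinf ?_
  intro j hj
  simp only [ContinuousLinearMap.comp_apply, hA]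
  exact (le_of_lt hj)

end Pool.Agent.LinfX
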