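import Pool.Agent.LinfX.Ops

open MeasureTheory Set Filter Topology
open scoped ENNReal

namespace Pool.Agent.LinfX

variable {𝕜 : Type*} [RCLike 𝕜] {Y : Type*} [NormedAddCommGroup Y] [NormedSpace 𝕜 Y]
variable {E : ℕ → Type*} [∀ i, NormedAddCommGroup (E i)] [∀ i, NormedSpace 𝕜 (E i)]

/-- The operator `h ↦ S (T_{<K} (h ⊗ y))`. -/
noncomputable def Rop (T : Lp Y ∞ mu →L[𝕜] lp E ∞) (S : lp E ∞ →L[𝕜] Lp Y ∞ mu) (K : ℕ) (y : Y) :
    Lp 𝕜 ∞ mu →L[𝕜] Lp Y ∞ mu :=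
  S.comp ((trunc (𝕜 := 𝕜) K).comp (T.comp (tens y)))

/-- Linearity of the pairing in the first variable. -/
noncomputable def prL (y' : StrongDual 𝕜 Y) (g : Lp Y ∞ mu) : Lp 𝕜 ∞ mu →ₗ[𝕜] 𝕜 where
  toFun f := pr f y' g
  map_add' f f' := pr_add f f' y' g
  map_smul' c f := by rw [pr_smul]; rfl

/-- The indicator of a dyadic interval. -/
noncomputable def ind (l : ℕ) (i : ℤ) (t : ℝ) : ℝ := if ⌊(2 : ℝ) ^ l * t⌋ = i then 1 else 0

lemma ind_dy (l : ℕ) (i : ℤ) : Dy l (ind l i) := by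
  intro t t' h
  unfold ind
  rw [h]

lemma ind_cases (l : ℕ) (i : ℤ) (t : ℝ) : ind l i t = 0 ∨ ind l i t = 1 := by
  unfold ind; split_ifs <;> simp

lemma Dy.mul {m : ℕ} {f g : ℝ → ℝ} (hf : Dy m f) (hg : Dy m g) : Dy m (fun t => f t * g t) := by
  intro t t' h
  simp only
  rw [hf t t' h, hg t t' h]

lemma abs_mul_le {a b : ℝ} (ha : |a| ≤ 1) (hb : |b| ≤ 1) : |a * b| ≤ 1 := by
  rw [abs_mul]
  nlinarith [abs_nonneg a, abs_nonneg b]

lemma integrable_real {f : ℝ → ℝ} (hf : Measurable f) (hb : ∀ t, |f t| ≤ 1) : Integrable f mu :=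
  Integrable.of_bound hf.aestronglyMeasurable 1 (Eventually.of_forall fun t => hb t)

lemma mu_univ : mu univ = 1 := by
  simp

lemma integral_le_one {f : ℝ → ℝ} (hf : Measurable f) (hb : ∀ t, |f t| ≤ 1) :
    ∫ t, f t ∂mu ≤ 1 := by
  have h1 : ∫ t, f t ∂mu ≤ ∫ _ : ℝ, (1 : ℝ) ∂mu := by
    apply integral_mono (integrable_real hf hb) (integrable_const _)
    intro t
    exact (abs_le.1 (hb t)).2
  refine h1.trans (le_of_eq ?_)
  simp

lemma ae_mem_Ico : ∀ᵐ t ∂mu, t ∈ Ico (0 : ℝ) 1 := by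
  have h : ∀ᵐ t ∂(volume.restrict (Ico (0 : ℝ) 1)), t ∈ Ico (0 : ℝ) 1 :=
    ae_restrict_mem measurableSet_Ico
  rwa [Measure.restrict_congr_set Ico_ae_eq_Icc] at h

lemma step (T : Lp Y ∞ mu →L[𝕜] lp E ∞) (S : lp E ∞ →L[𝕜] Lp Y ∞ mu) (K : ℕ) (y : Y)
    (y' : StrongDual 𝕜 Y) (M : ℕ)
    (H : ∀ m ≥ M, ∀ s : ℝ → ℝ, (∀ t, s t = 0 ∨ s t = 1 ∨ s t = -1) → Dy m s →
      (∫ t, s t * s t ∂mu) - 1 / 4 < RCLike.re (pr (toL 𝕜 (fun t => rad (m + 1) t * s t)) y'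
        (Rop T S K y (toL 𝕜 (fun t => rad (m + 1) t * s t)))))
    (χ : ℝ → ℝ) (hχ : ∀ t, χ t = 0 ∨ χ t = 1) {L : ℕ} (hL : Dy L χ)
    (hI : 1 / 2 ≤ ∫ t, χ t ∂mu) (l m : ℕ) (hM : M ≤ m) (hLm : L ≤ m) (hlm : l ≤ m) :
    ∃ i : ℤ, 1 / 4 < ‖y'‖ * ‖S‖ * ‖trunc (𝕜 := 𝕜) K (T (tens y
      (toL 𝕜 (fun t => rad (m + 1) t * (χ t * ind l i t)))))‖ := by
  classical
  set hh : ℤ → ℝ → ℝ := fun i t => rad (m + 1) t * (χ t * ind l i t) with hhdef
  set h : ℤ → Lp 𝕜 ∞ mu := fun i => toL 𝕜 (hh i) with hdef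
  have hχabs : ∀ t, |χ t| ≤ 1 := by
    intro t; rcases hχ t with h | h <;> rw [h] <;> simp
  have hindabs : ∀ i t, |ind l i t| ≤ 1 := by
    intro i t; rcases ind_cases l i t with h | h <;> rw [h] <;> simp
  have hhm : ∀ i, Measurable (hh i) := fun i =>
    (rad_meas _).mul (hL.measurable.mul (ind_dy l i).measurable)
  have hhb : ∀ i t, |hh i t| ≤ 1 := fun i t =>
    abs_mul_le (rad_abs _ _).le (abs_mul_le (hχabs t) (hindabs i t))
  set b : ℤ → ℤ → ℝ := fun i j => RCLike.re (pr (h i) y' (Rop T S K y (h j))) with hb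
  set G : Finset ℤ := Finset.Ico 0 (2 ^ l) with hG
  obtain ⟨ε, hε, hle⟩ := exists_signs b G
  have hεabs : ∀ i, |ε i| ≤ 1 := by
    intro i; rcases hε i with h | h <;> rw [h] <;> simp
  set s : ℝ → ℝ := fun t => χ t * ε ⌊(2 : ℝ) ^ l * t⌋ with hs
  have hεdy : Dy l (fun t : ℝ => ε ⌊(2 : ℝ) ^ l * t⌋) := by
    intro t t' h
    simp only [h]
  have hsdy : Dy m s := (hL.mono hLm).mul (hεdy.mono hlm)
  have hs3 : ∀ t, s t = 0 ∨ s t = 1 ∨ s t = -1 := by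
    intro t
    simp only [hs]
    rcases hχ t with h | h <;> rw [h]
    · left; ring
    · rcases hε ⌊(2 : ℝ) ^ l * t⌋ with h' | h' <;> rw [h'] <;> simp
  have hsabs : ∀ t, |s t| ≤ 1 := by
    intro t; rcases hs3 t with h | h | h <;> rw [h] <;> simp
  have hss : ∀ t, s t * s t = χ t := by
    intro t
    simp only [hs]
    rcases hχ t with h | h <;> rw [h]
    · ring
    · rcases hε ⌊(2 : ℝ) ^ l * t⌋ with h' | h' <;> rw [h'] <;> ring
  have hfm : Measurable (fun t => rad (m + 1) t * s t) := (rad_meas _).mul hsdy.measurable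
  have hfb : ∀ t, |rad (m + 1) t * s t| ≤ 1 := fun t => abs_mul_le (rad_abs _ _).le (hsabs t)
  -- decomposition of the test function
  have hdecomp : toL 𝕜 (fun t => rad (m + 1) t * s t) = ∑ i ∈ G, (ε i : 𝕜) • h i := by
    apply Lp.ext
    have e1 : (∑ i ∈ G, (ε i : 𝕜) • h i : Lp 𝕜 ∞ mu) =ᵐ[mu]
        fun t => ∑ i ∈ G, ((ε i : 𝕜) • h i : Lp 𝕜 ∞ mu) t := by
      have := Lp.coeFn_finsetSum (p := ∞) (μ := mu) G (fun i => (ε i : 𝕜) • h i)
      filter_upwards [this] with t ht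
      rw [ht, Finset.sum_apply]
    have e2 : ∀ᵐ t ∂mu, ∀ i, ((ε i : 𝕜) • h i : Lp 𝕜 ∞ mu) t = (ε i : 𝕜) * (hh i t : 𝕜) := by
      rw [ae_all_iff]
      intro i
      filter_upwards [Lp.coeFn_smul (ε i : 𝕜) (h i), toL_coe (𝕜 := 𝕜) (hhm i) (hhb i)] with t h1 h2
      rw [h1, Pi.smul_apply, smul_eq_mul]
      simp only [hdef]
      rw [h2]
    filter_upwards [e1, e2, toL_coe (𝕜 := 𝕜) hfm hfb, ae_mem_Ico] with t h1 h2 h3 h4
    rw [h1, h3, Finset.sum_congr rfl (fun i _ => h2 i)]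
    have h5 : ⌊(2 : ℝ) ^ l * t⌋ ∈ G := by
      rw [hG, Finset.mem_Ico]
      exact (mem_unit_iff l t).1 h4
    rw [Finset.sum_eq_single_of_mem _ h5]
    · simp only [hhdef, hs, ind, if_true]
      push_cast
      ring
    · intro i _ hi
      simp only [hhdef, ind]
      rw [if_neg (Ne.symm hi)]
      simp
  have hbil : RCLike.re (pr (toL 𝕜 (fun t => rad (m + 1) t * s t)) y'
        (Rop T S K y (toL 𝕜 (fun t => rad (m + 1) t * s t)))) =
      ∑ i ∈ G, ∑ j ∈ G, ε i * ε j * b i j := by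
    rw [hdecomp]
    have e1 : pr (∑ i ∈ G, (ε i : 𝕜) • h i) y' (Rop T S K y (∑ j ∈ G, (ε j : 𝕜) • h j)) =
        ∑ i ∈ G, ∑ j ∈ G, (ε i : 𝕜) * ((ε j : 𝕜) * pr (h i) y' (Rop T S K y (h j))) := by
      change prL y' _ (∑ i ∈ G, (ε i : 𝕜) • h i) = _
      rw [map_sum]
      apply Finset.sum_congr rfl
      intro i _
      rw [map_smul, smul_eq_mul, ← Finset.mul_sum]
      congr 1
      change pr (h i) y' _ = _
      rw [map_sum, map_sum]
      apply Finset.sum_congr rfl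
      intro j _
      rw [map_smul, map_smul, smul_eq_mul]
    rw [e1, map_sum]
    apply Finset.sum_congr rfl
    intro i _
    rw [map_sum]
    apply Finset.sum_congr rfl
    intro j _
    rw [← mul_assoc, ← RCLike.ofReal_mul, RCLike.re_ofReal_mul]
  have hH := H m hM s hs3 hsdy
  rw [hbil] at hH
  have hint : ∫ t, s t * s t ∂mu = ∫ t, χ t ∂mu := by
    congr 1; funext t; exact hss t
  rw [hint] at hH
  -- masses of the pieces
  set I : ℤ → ℝ := fun i => ∫ t, χ t * ind l i t ∂mu with hIdef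
  have hIi : ∀ i, Integrable (fun t => χ t * ind l i t) mu := fun i =>
    integrable_real (hL.measurable.mul (ind_dy l i).measurable)
      (fun t => abs_mul_le (hχabs t) (hindabs i t))
  have hI0 : ∀ i, 0 ≤ I i := by
    intro i
    apply integral_nonneg
    intro t
    rcases hχ t with h | h <;> rcases ind_cases l i t with h' | h' <;> simp [h, h']
  have hIsum : ∑ i ∈ G, I i = ∫ t, χ t ∂mu := by
    simp only [hIdef]
    rw [← integral_finsetSum _ (fun i _ => hIi i)]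
    apply integral_congr_ae
    filter_upwards [ae_mem_Ico] with t h4
    have h5 : ⌊(2 : ℝ) ^ l * t⌋ ∈ G := by
      rw [hG, Finset.mem_Ico]
      exact (mem_unit_iff l t).1 h4
    rw [Finset.sum_eq_single_of_mem _ h5]
    · simp [ind]
    · intro i _ hi
      simp [ind, Ne.symm hi]
  have hχ1 : ∫ t, χ t ∂mu ≤ 1 := integral_le_one hL.measurable hχabs
  have hlt : ∑ i ∈ G, I i / 4 < ∑ i ∈ G, b i i := by
    rw [← Finset.sum_div, hIsum]
    linarith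
  obtain ⟨i, _, hi⟩ := Finset.exists_lt_of_sum_lt hlt
  refine ⟨i, ?_⟩
  have hnorm : ∫ t, ‖h i t‖ ∂mu = I i := by
    apply integral_congr_ae
    filter_upwards [toL_coe (𝕜 := 𝕜) (hhm i) (hhb i)] with t h2
    simp only [hdef]
    rw [h2, RCLike.norm_ofReal]
    simp only [hhdef]
    rw [abs_mul, rad_abs, one_mul]
    rcases hχ t with h | h <;> rcases ind_cases l i t with h' | h' <;> simp [h, h']
  have hbnd : b i i ≤ I i * (‖y'‖ * ‖S‖ * ‖trunc (𝕜 := 𝕜) K (T (tens y (h i)))‖) := by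
    simp only [hb]
    refine (RCLike.re_le_norm _).trans ((norm_pr_le _ _ _).trans ?_)
    rw [hnorm]
    have : ‖Rop T S K y (h i)‖ ≤ ‖S‖ * ‖trunc (𝕜 := 𝕜) K (T (tens y (h i)))‖ := S.le_opNorm _
    calc I i * ‖y'‖ * ‖Rop T S K y (h i)‖
        ≤ I i * ‖y'‖ * (‖S‖ * ‖trunc (𝕜 := 𝕜) K (T (tens y (h i)))‖) :=
          mul_le_mul_of_nonneg_left this (mul_nonneg (hI0 i) (norm_nonneg _))
      _ = _ := by ring
  have h9 := hi.trans_le hbnd
  rcases (hI0 i).eq_or_lt with h0 | h0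
  · rw [← h0] at h9
    simp at h9
  · have h10 : I i * (1 / 4) < I i * (‖y'‖ * ‖S‖ * ‖trunc (𝕜 := 𝕜) K (T (tens y (h i)))‖) := by
      linarith
    exact lt_of_mul_lt_mul_left h10 h0.le

end Pool.Agent.LinfX
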