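import Pool.Agent.LinfX.WUC

/-!
Banach lattices: scalar multiplication, positive functionals, monotone sequences.
-/

open Filter Topology Set TopologicalSpace

set_option linter.unusedSectionVars false

namespace Pool.Agent.LinfX

variable {Y : Type*} [NormedAddCommGroup Y] [Lattice Y] [HasSolidNorm Y] [IsOrderedAddMonoid Y]
  [NormedSpace ℝ Y]

lemma half_nonneg' {x : Y} (hx : 0 ≤ x + x) : 0 ≤ x := by
  have h1 : -x ≤ x := by
    have := add_le_add_left hx (-x)
    simpa using this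
  have h2 : |x| = x := by
    rw [abs, sup_eq_left.2 h1]
  rw [← h2]
  exact abs_nonneg x

lemma dyadic_smul_nonneg {x : Y} (hx : 0 ≤ x) (n : ℕ) : 0 ≤ ((1 / 2 : ℝ) ^ n) • x := by
  induction n with
  | zero => simpa using hx
  | succ n ih =>
    apply half_nonneg'
    rw [← add_smul]
    have : (1 / 2 : ℝ) ^ (n + 1) + (1 / 2) ^ (n + 1) = (1 / 2) ^ n := by ring
    rw [this]
    exact ih

/-- In a Banach lattice the product of a nonnegative scalar and a nonnegative vector is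
nonnegative. -/
lemma smul_nonneg'' {c : ℝ} (hc : 0 ≤ c) {x : Y} (hx : 0 ≤ x) : 0 ≤ c • x := by
  have h1 : ∀ n : ℕ, 0 ≤ (((⌊c * 2 ^ n⌋₊ : ℕ) : ℝ) * (1 / 2 : ℝ) ^ n) • x := by
    intro n
    rw [mul_smul, Nat.cast_smul_eq_nsmul]
    exact nsmul_nonneg (dyadic_smul_nonneg hx n) _
  have h2 : Tendsto (fun n : ℕ => ((⌊c * 2 ^ n⌋₊ : ℕ) : ℝ) * (1 / 2 : ℝ) ^ n) atTop (𝓝 c) := by
    have h3 : Tendsto (fun n : ℕ => c - (1 / 2 : ℝ) ^ n) atTop (𝓝 c) := by
      have := (tendsto_pow_atTop_nhds_zero_of_lt_one (r := (1 / 2 : ℝ)) (by norm_num)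
        (by norm_num)).const_sub c
      rwa [sub_zero] at this
    have hp : ∀ n : ℕ, (0 : ℝ) < (1 / 2) ^ n := fun n => by positivity
    have hp' : ∀ n : ℕ, (2 : ℝ) ^ n * (1 / 2) ^ n = 1 := fun n => by
      rw [← mul_pow]; norm_num
    refine tendsto_of_tendsto_of_tendsto_of_le_of_le h3 tendsto_const_nhds ?_ ?_
    · intro n
      have h4 : c * 2 ^ n < (⌊c * 2 ^ n⌋₊ : ℕ) + 1 := Nat.lt_floor_add_one _
      have h5 := mul_lt_mul_of_pos_right h4 (hp n)
      rw [mul_assoc, hp', mul_one, add_mul, one_mul] at h5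
      simp only
      linarith
    · intro n
      have h4 : ((⌊c * 2 ^ n⌋₊ : ℕ) : ℝ) ≤ c * 2 ^ n := Nat.floor_le (by positivity)
      have h5 := mul_le_mul_of_nonneg_right h4 (hp n).le
      rw [mul_assoc, hp', mul_one] at h5
      exact h5
  exact ge_of_tendsto' (h2.smul_const x) h1

lemma isOrderedModule' : IsOrderedModule ℝ Y :=
  IsOrderedModule.of_smul_nonneg fun _ ha _ hb => smul_nonneg'' ha hb

lemma smul_posPart {c : ℝ} (hc : 0 < c) (x : Y) : (c • x)⁺ = c • x⁺ := by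
  have := isOrderedModule' (Y := Y)
  have h := (OrderIso.smulRight (β := Y) hc).map_sup x 0
  change c • (x ⊔ 0) = c • x ⊔ c • 0 at h
  rw [smul_zero] at h
  exact h.symm

omit [HasSolidNorm Y] [NormedSpace ℝ Y] in
lemma posPart_add_le' (x y : Y) : (x + y)⁺ ≤ x⁺ + y⁺ := by
  change (x + y) ⊔ 0 ≤ x⁺ + y⁺
  apply sup_le
  · exact add_le_add (le_posPart x) (le_posPart y)
  · exact add_nonneg (posPart_nonneg x) (posPart_nonneg y)

omit [NormedSpace ℝ Y] in
lemma norm_le_of_le {x y : Y} (hx : 0 ≤ x) (hxy : x ≤ y) : ‖x‖ ≤ ‖y‖ := by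
  apply norm_le_norm_of_abs_le_abs
  rw [abs_of_nonneg hx, abs_of_nonneg (hx.trans hxy)]
  exact hxy

omit [NormedSpace ℝ Y] in
lemma norm_posPart_le' (x : Y) : ‖x⁺‖ ≤ ‖x‖ := by
  rw [← norm_abs_eq_norm x]
  exact norm_le_of_le (posPart_nonneg x) (by
    rw [← posPart_add_negPart]
    exact le_add_of_nonneg_right (negPart_nonneg x))

/-- Positive functionals. -/
def PosF (φ : StrongDual ℝ Y) : Prop := ∀ x, 0 ≤ x → 0 ≤ φ x

lemma PosF.mono {φ : StrongDual ℝ Y} (h : PosF φ) {x y : Y} (hxy : x ≤ y) : φ x ≤ φ y := by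
  have := h (y - x) (sub_nonneg.2 hxy)
  rw [map_sub] at this
  linarith

/-- A positive functional which attains the norm of the positive part. -/
lemma exists_posF (x : Y) : ∃ φ : StrongDual ℝ Y, ‖φ‖ ≤ 1 ∧ φ x = ‖x⁺‖ ∧ PosF φ := by
  by_cases hx : x = 0
  · refine ⟨0, by simp, by simp [hx], fun y _ => le_rfl⟩
  obtain ⟨g, hg1, hg2⟩ := exists_extension_of_le_sublinear
    (LinearPMap.mkSpanSingleton x ‖x⁺‖ hx : Y →ₗ.[ℝ] ℝ) (fun y => ‖y⁺‖)
    (fun c hc y => by
      show ‖(c • y)⁺‖ = c * ‖y⁺‖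
      rw [smul_posPart hc, norm_smul, Real.norm_of_nonneg hc.le])
    (fun y z =>
      (norm_le_of_le (posPart_nonneg _) (posPart_add_le' y z)).trans (norm_add_le _ _))
    (by
      rintro ⟨y, hy⟩
      have hy' : y ∈ Submodule.span ℝ {x} := hy
      obtain ⟨c, rfl⟩ := Submodule.mem_span_singleton.1 hy'
      have e : (LinearPMap.mkSpanSingleton x ‖x⁺‖ hx : Y →ₗ.[ℝ] ℝ) ⟨c • x, hy⟩ = c * ‖x⁺‖ := by
        exact LinearPMap.mkSpanSingleton'_apply _ _ _ _ _
      rw [e]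
      show c * ‖x⁺‖ ≤ ‖(c • x)⁺‖
      rcases le_or_gt c 0 with hc | hc
      · exact (mul_nonpos_of_nonpos_of_nonneg hc (norm_nonneg _)).trans (norm_nonneg _)
      · rw [smul_posPart hc, norm_smul, Real.norm_of_nonneg hc.le])
  have hgx : g x = ‖x⁺‖ := by
    have h1 := hg1 ⟨x, Submodule.mem_span_singleton_self x⟩
    exact h1.trans (LinearPMap.mkSpanSingleton'_apply_self _ _ _ _)
  have hle : ∀ y, |g y| ≤ ‖y‖ := by
    intro y
    rw [abs_le]
    constructor
    · have h1 := hg2 (-y)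
      rw [map_neg] at h1
      have h2 := norm_posPart_le' (-y)
      rw [norm_neg] at h2
      linarith
    · exact (hg2 y).trans (norm_posPart_le' y)
  refine ⟨g.mkContinuous 1 (fun y => by rw [one_mul]; exact hle y), ?_, hgx, ?_⟩
  · exact LinearMap.mkContinuous_norm_le _ zero_le_one _
  · intro y hy
    have h1 := hg2 (-y)
    have h2 : (-y)⁺ = 0 := posPart_eq_zero.2 (neg_nonpos.2 hy)
    rw [h2, norm_zero, map_neg] at h1
    change 0 ≤ g y
    linarith

/-- The order is determined by the positive functionals. -/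
lemma le_of_posF {x y : Y} (h : ∀ φ : StrongDual ℝ Y, PosF φ → φ x ≤ φ y) : x ≤ y := by
  obtain ⟨φ, -, hφ2, hφ3⟩ := exists_posF (x - y)
  have h1 := h φ hφ3
  rw [map_sub] at hφ2
  have h2 : ‖(x - y)⁺‖ ≤ 0 := by linarith
  have h3 : (x - y)⁺ = 0 := norm_le_zero_iff.1 h2
  exact sub_nonpos.1 (posPart_eq_zero.1 h3)

/-- On a separable set there is a strictly positive functional. -/
lemma exists_strictly_posF {Z : Set Y} (hZ : IsSeparable Z) :
    ∃ φ : StrongDual ℝ Y, PosF φ ∧ ∀ x ∈ Z, 0 ≤ x → x ≠ 0 → 0 < φ x := by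
  obtain ⟨s, hs, hZs⟩ := hZ
  rcases s.eq_empty_or_nonempty with rfl | hne
  · rw [closure_empty, subset_empty_iff] at hZs
    exact ⟨0, fun x _ => le_rfl, fun x hx => by rw [hZs] at hx; exact absurd hx (notMem_empty x)⟩
  obtain ⟨u, rfl⟩ := hs.exists_eq_range hne
  choose ψ hψ1 hψ2 hψ3 using fun n => exists_posF (u n)
  have hsum : Summable (fun n => (1 / 2 : ℝ) ^ n • ψ n) := by
    refine Summable.of_norm_bounded (g := fun n => (1 / 2 : ℝ) ^ n)
      (summable_geometric_of_lt_one (by norm_num) (by norm_num)) ?_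
    intro n
    rw [norm_smul, Real.norm_of_nonneg (by positivity)]
    exact mul_le_of_le_one_right (by positivity) (hψ1 n)
  have happ : ∀ x, HasSum (fun n => (1 / 2 : ℝ) ^ n * ψ n x) ((∑' n, (1 / 2 : ℝ) ^ n • ψ n) x) := by
    intro x
    have h1 := hsum.hasSum
    have h2 := (ContinuousLinearMap.apply ℝ ℝ x).hasSum h1
    exact h2
  refine ⟨∑' n, (1 / 2 : ℝ) ^ n • ψ n, ?_, ?_⟩
  · intro x hx
    exact (happ x).nonneg fun n => mul_nonneg (by positivity) (hψ3 n x hx)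
  · intro x hx hx0 hxne
    have hxn : 0 < ‖x‖ := norm_pos_iff.2 hxne
    obtain ⟨y, ⟨n, rfl⟩, hy⟩ := Metric.mem_closure_iff.1 (hZs hx) (‖x‖ / 3) (by positivity)
    have h1 : ‖(u n)⁺ - x‖ < ‖x‖ / 3 := by
      have h2 : ‖(u n)⁺ - x⁺‖ ≤ ‖u n - x‖ := by
        have := lipschitzWith_posPart.dist_le_mul (u n) x
        rw [dist_eq_norm, dist_eq_norm] at this
        simpa using this
      rw [posPart_eq_self.2 hx0] at h2
      rw [dist_comm, dist_eq_norm] at hy
      exact h2.trans_lt hy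
    have h3 : ‖x‖ - ‖x‖ / 3 < ‖(u n)⁺‖ := by
      have : ‖x‖ ≤ ‖(u n)⁺‖ + ‖(u n)⁺ - x‖ := by
        calc ‖x‖ = ‖(u n)⁺ - ((u n)⁺ - x)‖ := by congr 1; abel
          _ ≤ _ := norm_sub_le _ _
      linarith
    have h4 : 0 < ψ n x := by
      have h5 : ψ n x = ψ n (u n)⁺ - ψ n ((u n)⁺ - x) := by rw [map_sub]; ring
      have h6 : |ψ n ((u n)⁺ - x)| ≤ ‖(u n)⁺ - x‖ := by
        have := (ψ n).le_opNorm ((u n)⁺ - x)
        rw [Real.norm_eq_abs] at this
        exact this.trans (mul_le_of_le_one_left (norm_nonneg _) (hψ1 n))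
      have h7 : ‖(u n)⁺‖ ≤ ψ n (u n)⁺ := by
        rw [← hψ2 n]
        exact (hψ3 n).mono (le_posPart _)
      have h8 := le_abs_self (ψ n ((u n)⁺ - x))
      linarith
    have h9 := (happ x).summable.le_tsum n (fun m _ => mul_nonneg (by positivity) (hψ3 m x hx0))
    rw [(happ x).tsum_eq] at h9
    refine lt_of_lt_of_le ?_ h9
    positivity

end Pool.Agent.LinfX
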