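import Pool.Agent.LinfX.Lat1

/-!
Banach lattices in which bounded monotone sequences converge.
-/

open Filter Topology Set TopologicalSpace

set_option linter.unusedSectionVars false

namespace Pool.Agent.LinfX

/-- Every bounded monotone sequence converges. -/
def KB (Y : Type*) [NormedAddCommGroup Y] [Lattice Y] : Prop :=
  ∀ f : ℕ → Y, Monotone f → (∃ C, ∀ n, ‖f n‖ ≤ C) → ∃ L, Tendsto f atTop (𝓝 L)

variable {Y : Type*} [NormedAddCommGroup Y] [Lattice Y] [HasSolidNorm Y] [IsOrderedAddMonoid Y]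

/-- A Banach lattice without `c_0` is a KB-space. -/
theorem KB.of_not_containsC0 [NormedSpace ℝ Y] [CompleteSpace Y] (h : ¬ ContainsC0 ℝ Y) :
    KB Y := by
  rintro f hf ⟨C, hC⟩
  apply cauchySeq_tendsto_of_complete
  by_contra hcon
  rw [Metric.cauchySeq_iff'] at hcon
  push Not at hcon
  obtain ⟨ε, hε, hN⟩ := hcon
  choose nx hnx1 hnx2 using hN
  let N : ℕ → ℕ := fun j => Nat.rec 0 (fun _ n => nx n) j
  have hNs : ∀ j, N (j + 1) = nx (N j) := fun j => rfl
  have hmono : Monotone N := monotone_nat_of_le_succ fun j => by rw [hNs]; exact hnx1 _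
  set u : ℕ → Y := fun j => f (N (j + 1)) - f (N j) with hu
  have hu0 : ∀ j, 0 ≤ u j := fun j => sub_nonneg.2 (hf (hmono (Nat.le_succ j)))
  have huε : ∀ j, ε ≤ ‖u j‖ := fun j => by
    have := hnx2 (N j)
    rw [dist_eq_norm] at this
    exact this
  have hWU : WU (2 * C) u := by
    intro F
    obtain ⟨J, hJ⟩ : ∃ J, F ⊆ Finset.range J := F.exists_nat_subset_range
    have h1 : ∑ j ∈ F, u j ≤ f (N J) - f (N 0) := by
      rw [← Finset.sum_range_sub (fun j => f (N j))]
      exact Finset.sum_le_sum_of_subset_of_nonneg hJ (fun j _ _ => hu0 j)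
    refine (norm_le_of_le (Finset.sum_nonneg fun j _ => hu0 j) h1).trans ?_
    refine (norm_sub_le _ _).trans ?_
    have := hC (N J)
    have := hC (N 0)
    linarith
  have h1 := hWU.tendsto_zero ℝ h
  rw [Metric.tendsto_atTop] at h1
  obtain ⟨n, hn⟩ := h1 ε hε
  have h2 := hn n le_rfl
  rw [dist_zero_right] at h2
  exact absurd (huε n) (not_le.2 h2)

/-- Bounded monotone nets converge in KB-spaces. -/
theorem KB.tendsto_net [CompleteSpace Y] (hY : KB Y) {ι : Type*} [Nonempty ι] [Preorder ι]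
    [IsDirectedOrder ι] {f : ι → Y} (hf : Monotone f) {C : ℝ} (hC : ∀ i, ‖f i‖ ≤ C) :
    ∃ L, Tendsto f atTop (𝓝 L) := by
  apply cauchy_map_iff_exists_tendsto.1
  rw [Metric.cauchy_iff]
  refine ⟨inferInstance, fun ε hε => ?_⟩
  by_contra hcon
  push Not at hcon
  have hex : ∀ i : ι, ∃ j, i ≤ j ∧ ε / 2 ≤ ‖f j - f i‖ := by
    intro i
    by_contra h
    push Not at h
    obtain ⟨x, hx, y, hy, hxy⟩ := hcon (f '' Ici i) (image_mem_map (Ici_mem_atTop i))
    obtain ⟨j, hj, rfl⟩ := hx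
    obtain ⟨k, hk, rfl⟩ := hy
    have h1 := h j hj
    have h2 := h k hk
    have h3 : dist (f j) (f k) ≤ ‖f j - f i‖ + ‖f k - f i‖ := by
      rw [dist_eq_norm]
      calc ‖f j - f k‖ = ‖(f j - f i) - (f k - f i)‖ := by congr 1; abel
        _ ≤ _ := norm_sub_le _ _
    linarith
  choose nx hnx1 hnx2 using hex
  let N : ℕ → ι := fun j => Nat.rec (Classical.arbitrary ι) (fun _ n => nx n) j
  have hNs : ∀ j, N (j + 1) = nx (N j) := fun j => rfl
  have hmono : Monotone N := monotone_nat_of_le_succ fun j => by rw [hNs]; exact hnx1 _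
  obtain ⟨L, hL⟩ := hY (fun j => f (N j)) (hf.comp hmono) ⟨C, fun j => hC _⟩
  have h1 := hL.cauchySeq
  rw [Metric.cauchySeq_iff'] at h1
  obtain ⟨n, hn⟩ := h1 (ε / 2) (half_pos hε)
  have h2 := hn (n + 1) (Nat.le_succ n)
  rw [dist_eq_norm] at h2
  exact absurd (hnx2 (N n)) (not_le.2 h2)

variable [NormedSpace ℝ Y]

lemma sup_mem_of_abs {Z : Submodule ℝ Y} (hZ : ∀ x ∈ Z, |x| ∈ Z) {x y : Y} (hx : x ∈ Z)
    (hy : y ∈ Z) : x ⊔ y ∈ Z := by
  have := isOrderedModule' (Y := Y)
  rw [sup_eq_half_smul_add_add_abs_sub' ℝ x y]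
  exact Z.smul_mem _ (Z.add_mem (Z.add_mem hx hy) (hZ _ (Z.sub_mem hy hx)))

omit [NormedAddCommGroup Y] [Lattice Y] [HasSolidNorm Y] [IsOrderedAddMonoid Y]
  [NormedSpace ℝ Y] in
lemma exists_rec (a : Y) (g : Y → Y) : ∃ W : ℕ → Y, W 0 = a ∧ ∀ n, W (n + 1) = g (W n) :=
  ⟨fun n => Nat.rec a (fun _ x => g x) n, rfl, fun _ => rfl⟩

/-- Separable sublattices. -/
lemma exists_sublattice {s : Set Y} (hs : IsSeparable s) :
    ∃ Z : Submodule ℝ Y, IsSeparable (Z : Set Y) ∧ IsClosed (Z : Set Y) ∧ s ⊆ Z ∧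
      ∀ x ∈ Z, |x| ∈ Z := by
  obtain ⟨W, hW0, hWs⟩ := exists_rec (Submodule.span ℝ s)
    (fun V : Submodule ℝ Y => Submodule.span ℝ ((V : Set Y) ∪ (fun x => |x|) '' (V : Set Y)))
  have hcont : Continuous (fun x : Y => |x|) := by
    have : (fun x : Y => |x|) = fun x => x ⊔ -x := rfl
    rw [this]
    exact continuous_id.sup continuous_neg
  have hsep : ∀ n, IsSeparable (W n : Set Y) := by
    intro n
    induction n with
    | zero => rw [hW0]; exact hs.span
    | succ n ih =>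
      rw [hWs]
      apply IsSeparable.span
      exact ih.union (ih.image hcont)
  have hmono : Monotone W := by
    apply monotone_nat_of_le_succ
    intro n x hx
    rw [hWs]
    exact Submodule.subset_span (Or.inl hx)
  have hcoe : ((⨆ n, W n : Submodule ℝ Y) : Set Y) = ⋃ n, (W n : Set Y) :=
    Submodule.coe_iSup_of_directed W hmono.directed_le
  refine ⟨(⨆ n, W n).topologicalClosure, ?_, Submodule.isClosed_topologicalClosure _, ?_, ?_⟩
  · rw [Submodule.topologicalClosure_coe, hcoe]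
    exact (IsSeparable.iUnion hsep).closure
  · intro x hx
    apply Submodule.le_topologicalClosure
    exact (le_iSup W 0) (by rw [hW0]; exact Submodule.subset_span hx)
  · intro x hx
    have hx' : x ∈ closure ((⨆ n, W n : Submodule ℝ Y) : Set Y) := hx
    have h1 : |x| ∈ closure ((fun x : Y => |x|) '' ((⨆ n, W n : Submodule ℝ Y) : Set Y)) :=
      mem_closure_image hcont.continuousAt hx'
    refine closure_mono ?_ h1
    rintro _ ⟨y, hy, rfl⟩
    have hy' : |y| ∈ ((⨆ n, W n : Submodule ℝ Y) : Set Y) := by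
      rw [hcoe] at hy ⊢
      obtain ⟨n, hn⟩ := mem_iUnion.1 hy
      refine mem_iUnion.2 ⟨n + 1, ?_⟩
      change |y| ∈ W (n + 1)
      rw [hWs]
      exact Submodule.subset_span (Or.inr ⟨y, hn, rfl⟩)
    exact hy'

lemma partialSups_le_sum {φ : StrongDual ℝ Y} (hφ : PosF φ) {f : ℕ → Y} (hf : ∀ n, 0 ≤ f n)
    (n : ℕ) : φ (partialSups f n) ≤ ∑ j ∈ Finset.range (n + 1), φ (f j) := by
  rw [← map_sum]
  apply hφ.mono
  apply partialSups_le
  intro j hj
  exact Finset.single_le_sum (fun i _ => hf i) (Finset.mem_range.2 (Nat.lt_succ_of_le hj))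

/-- An order bounded sequence on which a strictly positive functional tends to zero tends to
zero. -/
theorem KB.tendsto_zero_of_posF (hY : KB Y) {Z : Submodule ℝ Y} (hZc : IsClosed (Z : Set Y))
    (hZ : ∀ x ∈ Z, |x| ∈ Z) {φ : StrongDual ℝ Y} (hφ : PosF φ)
    (hφs : ∀ x ∈ (Z : Set Y), 0 ≤ x → x ≠ 0 → 0 < φ x) {h : Y} {D : ℕ → Y} (hD0 : ∀ n, 0 ≤ D n)
    (hDh : ∀ n, D n ≤ h) (hDZ : ∀ n, D n ∈ Z) (hlim : Tendsto (fun n => φ (D n)) atTop (𝓝 0)) :
    Tendsto D atTop (𝓝 0) := by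
  apply tendsto_of_subseq_tendsto
  intro ns hns
  have hlim' : Tendsto (fun n => φ (D (ns n))) atTop (𝓝 0) := hlim.comp hns
  have hex : ∀ n : ℕ, ∃ m, φ (D (ns m)) ≤ (1 / 2 : ℝ) ^ n := by
    intro n
    have := hlim'.eventually (ge_mem_nhds (show (0 : ℝ) < (1 / 2) ^ n by positivity))
    exact this.exists
  choose ms hms using hex
  refine ⟨ms, ?_⟩
  set E : ℕ → Y := fun n => D (ns (ms n)) with hE
  have hE0 : ∀ n, 0 ≤ E n := fun n => hD0 _
  have hEh : ∀ n, E n ≤ h := fun n => hDh _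
  have hEZ : ∀ n, E n ∈ Z := fun n => hDZ _
  have hEφ : ∀ n, φ (E n) ≤ (1 / 2 : ℝ) ^ n := hms
  have hh : 0 ≤ h := (hE0 0).trans (hEh 0)
  -- the suprema of the tails
  have hpsle : ∀ n k, partialSups (fun j => E (n + j)) k ≤ h := fun n k =>
    partialSups_le _ _ _ fun j _ => hEh _
  have hps0 : ∀ n k, 0 ≤ partialSups (fun j => E (n + j)) k := fun n k =>
    (hE0 (n + 0)).trans (le_partialSups_of_le (fun j => E (n + j)) (Nat.zero_le k))
  have hpsZ : ∀ n k, partialSups (fun j => E (n + j)) k ∈ Z := by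
    intro n k
    induction k with
    | zero => rw [partialSups_zero]; exact hEZ _
    | succ k ih =>
      rw [partialSups_add_one]
      exact sup_mem_of_abs hZ ih (hEZ _)
  have hex2 : ∀ n, ∃ s, Tendsto (fun k => partialSups (fun j => E (n + j)) k) atTop (𝓝 s) := by
    intro n
    apply hY _ (partialSups (fun j => E (n + j))).monotone
    exact ⟨‖h‖, fun k => norm_le_of_le (hps0 n k) (hpsle n k)⟩
  choose s hs using hex2
  have hsh : ∀ n, s n ≤ h := fun n => le_of_tendsto' (hs n) (hpsle n)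
  have hs0 : ∀ n, 0 ≤ s n := fun n => ge_of_tendsto' (hs n) (hps0 n)
  have hsZ : ∀ n, s n ∈ Z := fun n => hZc.mem_of_tendsto (hs n) (Eventually.of_forall (hpsZ n))
  have hEs : ∀ n, E n ≤ s n := by
    intro n
    have h1 := (partialSups (fun j => E (n + j))).monotone.ge_of_tendsto (hs n) 0
    rw [partialSups_zero] at h1
    exact h1
  have hanti : ∀ n, s (n + 1) ≤ s n := by
    intro n
    apply le_of_tendsto' (hs (n + 1))
    intro k
    apply partialSups_le
    intro j _
    have h1 := (partialSups (fun j => E (n + j))).monotone.ge_of_tendsto (hs n) (j + 1)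
    refine le_trans ?_ h1
    have h2 := le_partialSups (fun j => E (n + j)) (j + 1)
    have h3 : E (n + 1 + j) = E (n + (j + 1)) := by congr 1; ring
    rw [h3]
    exact h2
  have hφs' : ∀ n, φ (s n) ≤ 2 * (1 / 2 : ℝ) ^ n := by
    intro n
    apply le_of_tendsto' ((φ.continuous.tendsto (s n)).comp (hs n))
    intro k
    refine (partialSups_le_sum hφ (fun j => hE0 _) k).trans ?_
    have h1 : ∀ j ∈ Finset.range (k + 1), φ (E (n + j)) ≤ (1 / 2 : ℝ) ^ n * (1 / 2) ^ j :=
      fun j _ => by rw [← pow_add]; exact hEφ _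
    refine (Finset.sum_le_sum h1).trans ?_
    rw [← Finset.mul_sum, mul_comm]
    apply mul_le_mul_of_nonneg_right _ (by positivity)
    have h2 := (summable_geometric_of_lt_one (r := (1 / 2 : ℝ)) (by norm_num)
      (by norm_num)).sum_le_tsum (Finset.range (k + 1)) (fun j _ => by positivity)
    rw [tsum_geometric_of_lt_one (by norm_num) (by norm_num)] at h2
    norm_num at h2 ⊢
    exact h2
  obtain ⟨L, hL⟩ := hY (fun n => h - s n) (monotone_nat_of_le_succ fun n =>
    sub_le_sub_left (hanti n) h) ⟨‖h‖, fun n => norm_le_of_le (sub_nonneg.2 (hsh n))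
      (sub_le_self _ (hs0 n))⟩
  have hsL : Tendsto s atTop (𝓝 (h - L)) := by
    have h1 := hL.const_sub h
    simpa using h1
  have hL0 : h - L = 0 := by
    by_contra hne
    have h1 : 0 ≤ h - L := ge_of_tendsto' hsL hs0
    have h2 : h - L ∈ Z := hZc.mem_of_tendsto hsL (Eventually.of_forall hsZ)
    have h3 := hφs _ h2 h1 hne
    have h4 : φ (h - L) ≤ 0 := by
      have h5 := (φ.continuous.tendsto (h - L)).comp hsL
      have h6 : Tendsto (fun n : ℕ => 2 * (1 / 2 : ℝ) ^ n) atTop (𝓝 0) := by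
        have := (tendsto_pow_atTop_nhds_zero_of_lt_one (r := (1 / 2 : ℝ)) (by norm_num)
          (by norm_num)).const_mul 2
        rwa [mul_zero] at this
      exact le_of_tendsto_of_tendsto' h5 h6 hφs'
    linarith
  rw [hL0] at hsL
  rw [tendsto_zero_iff_norm_tendsto_zero] at hsL ⊢
  exact squeeze_zero (fun n => norm_nonneg _) (fun n => norm_le_of_le (hE0 n) (hEs n)) hsL

end Pool.Agent.LinfX
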