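import Pool.Agent.LinfX.Lat2

/-!
Weak limits of order bounded sequences in KB-spaces.
-/

open Filter Topology Set TopologicalSpace

set_option linter.unusedSectionVars false

namespace Pool.Agent.LinfX

section abstractlim

variable {Y : Type*} [NormedAddCommGroup Y] [NormedSpace ℝ Y]

/-- If there is a bounded uniformly convex function on the convex hull of a sequence, then the
sequence has a weak limit along each ultrafilter. -/
theorem exists_weak_lim [CompleteSpace Y] (y : ℕ → Y) (R : Y → ℝ) {B : ℝ}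
    (hR0 : ∀ f ∈ convexHull ℝ (range y), 0 ≤ R f) (hRB : ∀ f ∈ convexHull ℝ (range y), R f ≤ B)
    (huc : ∀ ε : ℝ, 0 < ε → ∃ δ : ℝ, 0 < δ ∧ ∀ f ∈ convexHull ℝ (range y),
      ∀ g ∈ convexHull ℝ (range y), R f + R g - 2 * R ((1 / 2 : ℝ) • (f + g)) ≤ δ → ‖f - g‖ ≤ ε)
    (U : Ultrafilter ℕ) :
    ∃ z, ∀ φ : StrongDual ℝ Y, Tendsto (fun m => φ (y m)) U (𝓝 (φ z)) := by
  have hsub : ∀ A : Set ℕ, convexHull ℝ (y '' A) ⊆ convexHull ℝ (range y) := fun A =>
    convexHull_mono (image_subset_range _ _)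
  have hne : ∀ A ∈ U, (convexHull ℝ (y '' A)).Nonempty := fun A hA =>
    ((U.nonempty_of_mem hA).image y).convexHull
  let v : Set ℕ → ℝ := fun A => sInf (R '' convexHull ℝ (y '' A))
  have hbb : ∀ A, BddBelow (R '' convexHull ℝ (y '' A)) := fun A =>
    ⟨0, by rintro _ ⟨f, hf, rfl⟩; exact hR0 f (hsub A hf)⟩
  have hvle : ∀ A, ∀ f ∈ convexHull ℝ (y '' A), v A ≤ R f := fun A f hf =>
    csInf_le (hbb A) ⟨f, hf, rfl⟩
  have hvB : ∀ A ∈ U, v A ≤ B := fun A hA => by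
    obtain ⟨f, hf⟩ := hne A hA
    exact (hvle A f hf).trans (hRB f (hsub A hf))
  have hvex : ∀ A ∈ U, ∀ ε : ℝ, 0 < ε → ∃ f ∈ convexHull ℝ (y '' A), R f < v A + ε := by
    intro A hA ε hε
    obtain ⟨_, ⟨f, hf, rfl⟩, hlt⟩ := exists_lt_of_csInf_lt ((hne A hA).image R)
      (show sInf (R '' convexHull ℝ (y '' A)) < v A + ε by
        change v A < v A + ε
        linarith)
    exact ⟨f, hf, hlt⟩
  have hvmono : ∀ A A' : Set ℕ, A ∈ U → A ⊆ A' → v A' ≤ v A := by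
    intro A A' hA hAA'
    apply le_csInf ((hne A hA).image R)
    rintro _ ⟨f, hf, rfl⟩
    exact hvle A' f (convexHull_mono (image_mono hAA') hf)
  set V : ℝ := sSup {r | ∃ A ∈ U, v A = r} with hV
  have hVb : BddAbove {r | ∃ A ∈ U, v A = r} := ⟨B, by rintro _ ⟨A, hA, rfl⟩; exact hvB A hA⟩
  have hvV : ∀ A ∈ U, v A ≤ V := fun A hA => le_csSup hVb ⟨A, hA, rfl⟩
  have hexA : ∀ n : ℕ, ∃ A ∈ U, V - 1 / ((n : ℝ) + 1) < v A := by
    intro n
    obtain ⟨_, ⟨A, hA, rfl⟩, hlt⟩ := exists_lt_of_lt_csSup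
      (⟨v univ, univ, univ_mem, rfl⟩ : {r | ∃ A ∈ U, v A = r}.Nonempty)
      (show V - 1 / ((n : ℝ) + 1) < sSup {r | ∃ A ∈ U, v A = r} by
        have : (0 : ℝ) < 1 / ((n : ℝ) + 1) := by positivity
        rw [← hV]
        linarith)
    exact ⟨A, hA, hlt⟩
  choose A hAU hAv using hexA
  let Bs : ℕ → Set ℕ := fun n => ⋂ k ∈ Finset.range (n + 1), A k
  have hBU : ∀ n, Bs n ∈ U := by
    intro n
    have : (⋂ k ∈ Finset.range (n + 1), A k) ∈ (U : Filter ℕ) :=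
      (biInter_finset_mem _).2 fun k _ => hAU k
    exact this
  have hBanti : ∀ n k, n ≤ k → Bs k ⊆ Bs n := by
    intro n k hnk x hx
    simp only [Bs, mem_iInter, Finset.mem_range] at hx ⊢
    intro i hi
    exact hx i (by omega)
  have hBA : ∀ n, Bs n ⊆ A n := by
    intro n x hx
    simp only [Bs, mem_iInter, Finset.mem_range] at hx
    exact hx n (by omega)
  have hBv : ∀ n : ℕ, V - 1 / ((n : ℝ) + 1) < v (Bs n) := fun n =>
    (hAv n).trans_le (hvmono _ _ (hBU n) (hBA n))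
  have hpos : ∀ n : ℕ, (0 : ℝ) < 1 / ((n : ℝ) + 1) := fun n => by positivity
  -- near minimisers are close to each other
  have hclose : ∀ n : ℕ, ∀ f ∈ convexHull ℝ (y '' Bs n), ∀ g ∈ convexHull ℝ (y '' Bs n),
      R f < V + 1 / ((n : ℝ) + 1) → R g < V + 1 / ((n : ℝ) + 1) →
      R f + R g - 2 * R ((1 / 2 : ℝ) • (f + g)) ≤ 4 / ((n : ℝ) + 1) := by
    intro n f hf g hg h1 h2
    have hmid : (1 / 2 : ℝ) • (f + g) ∈ convexHull ℝ (y '' Bs n) := by
      rw [smul_add]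
      exact (convex_convexHull ℝ _) hf hg (by norm_num) (by norm_num) (by norm_num)
    have h3 := hvle (Bs n) _ hmid
    have h4 := hBv n
    have h5 : 4 / ((n : ℝ) + 1) = 4 * (1 / ((n : ℝ) + 1)) := by ring
    rw [h5]
    linarith
  have hnear : ∀ ε : ℝ, 0 < ε → ∃ n₀ : ℕ, ∀ n : ℕ, n₀ ≤ n → ∀ f ∈ convexHull ℝ (y '' Bs n),
      ∀ g ∈ convexHull ℝ (y '' Bs n), R f < V + 1 / ((n : ℝ) + 1) → R g < V + 1 / ((n : ℝ) + 1) →
      ‖f - g‖ ≤ ε := by
    intro ε hε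
    obtain ⟨δ, hδ, hδ'⟩ := huc ε hε
    obtain ⟨n₀, hn₀⟩ := exists_nat_one_div_lt (show (0 : ℝ) < δ / 4 by positivity)
    refine ⟨n₀, fun n hn f hf g hg h1 h2 => ?_⟩
    apply hδ' f (hsub _ hf) g (hsub _ hg)
    refine (hclose n f hf g hg h1 h2).trans ?_
    have h3 : 1 / ((n : ℝ) + 1) ≤ 1 / ((n₀ : ℝ) + 1) := by
      apply one_div_le_one_div_of_le (by positivity)
      have : (n₀ : ℝ) ≤ n := by exact_mod_cast hn
      linarith
    have h5 : 4 / ((n : ℝ) + 1) = 4 * (1 / ((n : ℝ) + 1)) := by ring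
    rw [h5]
    linarith
  have hexf : ∀ n : ℕ, ∃ f ∈ convexHull ℝ (y '' Bs n), R f < V + 1 / ((n : ℝ) + 1) := by
    intro n
    obtain ⟨f, hf, h1⟩ := hvex (Bs n) (hBU n) _ (hpos n)
    exact ⟨f, hf, h1.trans_le (by have := hvV _ (hBU n); linarith)⟩
  choose f hf hfR using hexf
  have hanti : ∀ n k : ℕ, n ≤ k → 1 / ((k : ℝ) + 1) ≤ 1 / ((n : ℝ) + 1) := by
    intro n k hnk
    apply one_div_le_one_div_of_le (by positivity)
    have : (n : ℝ) ≤ k := by exact_mod_cast hnk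
    linarith
  have hcau : CauchySeq f := by
    rw [Metric.cauchySeq_iff']
    intro ε hε
    obtain ⟨n₀, hn₀⟩ := hnear (ε / 2) (half_pos hε)
    refine ⟨n₀, fun n hn => ?_⟩
    rw [dist_eq_norm]
    refine lt_of_le_of_lt (hn₀ n₀ le_rfl (f n) ?_ (f n₀) (hf n₀) ?_ (hfR n₀)) (half_lt_self hε)
    · exact convexHull_mono (image_mono (hBanti _ _ hn)) (hf n)
    · exact (hfR n).trans_le (by have := hanti _ _ hn; linarith)
  obtain ⟨z, hz⟩ := cauchySeq_tendsto_of_complete hcau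
  -- a set in the ultrafilter on which a functional is at least `c`
  have hkey : ∀ (φ : StrongDual ℝ Y) (c : ℝ) (A' : Set ℕ), A' ∈ U → (∀ m ∈ A', c ≤ φ (y m)) →
      c ≤ φ z := by
    intro φ c A' hA' hc
    have hexg : ∀ n : ℕ, ∃ g ∈ convexHull ℝ (y '' (A' ∩ Bs n)), R g < V + 1 / ((n : ℝ) + 1) := by
      intro n
      have hU' : A' ∩ Bs n ∈ U := inter_mem hA' (hBU n)
      obtain ⟨g, hg, h1⟩ := hvex (A' ∩ Bs n) hU' _ (hpos n)
      exact ⟨g, hg, h1.trans_le (by have := hvV _ hU'; linarith)⟩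
    choose g hg hgR using hexg
    have hgz : Tendsto g atTop (𝓝 z) := by
      have h1 : Tendsto (fun n => f n - g n) atTop (𝓝 0) := by
        rw [Metric.tendsto_atTop]
        intro ε hε
        obtain ⟨n₀, hn₀⟩ := hnear (ε / 2) (half_pos hε)
        refine ⟨n₀, fun n hn => ?_⟩
        rw [dist_zero_right]
        refine lt_of_le_of_lt (hn₀ n hn (f n) (hf n) (g n) ?_ (hfR n) (hgR n)) (half_lt_self hε)
        exact convexHull_mono (image_mono inter_subset_right) (hg n)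
      have h2 := hz.sub h1
      simpa using h2
    have hφg : ∀ n, c ≤ φ (g n) := by
      intro n
      have hconv : Convex ℝ {x : Y | c ≤ φ x} := (convex_Ici c).is_linear_preimage
        φ.toLinearMap.isLinear
      have h1 : convexHull ℝ (y '' (A' ∩ Bs n)) ⊆ {x : Y | c ≤ φ x} := by
        apply convexHull_min _ hconv
        rintro _ ⟨m, hm, rfl⟩
        exact hc m hm.1
      exact h1 (hg n)
    exact ge_of_tendsto' ((φ.continuous.tendsto z).comp hgz) hφg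
  refine ⟨z, fun φ => ?_⟩
  rw [tendsto_order]
  constructor
  · intro a ha
    by_contra hcon
    have h1 : {m | a < φ (y m)}ᶜ ∈ U := Ultrafilter.compl_mem_iff_notMem.2 hcon
    have h2 := hkey (-φ) (-a) _ h1 (by
      intro m hm
      have : ¬ a < φ (y m) := hm
      change -a ≤ -φ (y m)
      linarith [not_lt.1 this])
    have h3 : (-φ) z = -φ z := rfl
    rw [h3] at h2
    linarith
  · intro a ha
    by_contra hcon
    have h1 : {m | φ (y m) < a}ᶜ ∈ U := Ultrafilter.compl_mem_iff_notMem.2 hcon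
    have h2 := hkey φ a _ h1 (by
      intro m hm
      have : ¬ φ (y m) < a := hm
      exact not_lt.1 this)
    linarith

end abstractlim

variable {Y : Type*} [NormedAddCommGroup Y] [Lattice Y] [HasSolidNorm Y] [IsOrderedAddMonoid Y]
  [NormedSpace ℝ Y]

/-- The tangents of the square function. -/
noncomputable def tng (h : Y) (c : ℝ) (f : Y) : Y := (2 * c) • f - (c ^ 2) • h

/-- Approximations of the square function. -/
noncomputable def qN (h : Y) (N : ℕ) (f : Y) : Y :=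
  (Finset.range (N + 2)).sup' ⟨0, by simp⟩ (fun k => tng h ((k : ℝ) / ((N : ℝ) + 1)) f)

lemma tng_le_qN (h : Y) (N : ℕ) (f : Y) {k : ℕ} (hk : k ≤ N + 1) :
    tng h ((k : ℝ) / ((N : ℝ) + 1)) f ≤ qN h N f :=
  Finset.le_sup' (fun k : ℕ => tng h ((k : ℝ) / ((N : ℝ) + 1)) f)
    (Finset.mem_range.2 (by omega))

lemma qN_nonneg (h : Y) (N : ℕ) (f : Y) : 0 ≤ qN h N f := by
  have h1 := tng_le_qN h N f (Nat.zero_le (N + 1))
  have h2 : tng h (((0 : ℕ) : ℝ) / ((N : ℝ) + 1)) f = 0 := by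
    unfold tng; simp
  rwa [h2] at h1

lemma tng_le {h : Y} (hh : 0 ≤ h) {f : Y} (hf : f ≤ h) {c : ℝ} (hc : 0 ≤ c) : tng h c f ≤ h := by
  have := isOrderedModule' (Y := Y)
  unfold tng
  have h1 : (2 * c) • f ≤ (2 * c) • h := smul_le_smul_of_nonneg_left hf (by positivity)
  have h2 : (2 * c) • h - (c ^ 2) • h = h - ((1 - c) ^ 2) • h := by
    rw [← sub_smul]
    have : 2 * c - c ^ 2 = 1 - (1 - c) ^ 2 := by ring
    rw [this, sub_smul, one_smul]
  have h3 : 0 ≤ ((1 - c) ^ 2) • h := smul_nonneg'' (sq_nonneg _) hh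
  calc (2 * c) • f - (c ^ 2) • h ≤ (2 * c) • h - (c ^ 2) • h := sub_le_sub_right h1 _
    _ = h - ((1 - c) ^ 2) • h := h2
    _ ≤ h := sub_le_self _ h3

lemma qN_le {h : Y} (hh : 0 ≤ h) (N : ℕ) {f : Y} (hf : f ≤ h) : qN h N f ≤ h :=
  Finset.sup'_le _ _ fun k _ => tng_le hh hf (by positivity)

lemma tng_neg_le {h : Y} (hh : 0 ≤ h) (N : ℕ) {f : Y} (hf : 0 ≤ f) {c : ℝ} (hc : c ≤ 0) :
    tng h c f ≤ qN h N f := by
  refine le_trans ?_ (qN_nonneg h N f)
  unfold tng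
  have h1 : 0 ≤ (-(2 * c)) • f := smul_nonneg'' (by linarith) hf
  have h2 : 0 ≤ (c ^ 2) • h := smul_nonneg'' (sq_nonneg _) hh
  have h3 : (2 * c) • f - (c ^ 2) • h = -((-(2 * c)) • f + (c ^ 2) • h) := by
    rw [neg_smul]; abel
  rw [h3]
  exact neg_nonpos.2 (add_nonneg h1 h2)

lemma tng_ge_one_le {h : Y} (hh : 0 ≤ h) (N : ℕ) {f : Y} (hf : f ≤ h) {c : ℝ} (hc : 1 ≤ c) :
    tng h c f ≤ qN h N f := by
  have h0 := tng_le_qN h N f (le_refl (N + 1))
  have h1 : (((N + 1 : ℕ) : ℝ)) / ((N : ℝ) + 1) = 1 := by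
    push_cast
    exact div_self (by positivity)
  rw [h1] at h0
  refine le_trans ?_ h0
  unfold tng
  have h2 : 0 ≤ (2 * (c - 1)) • (h - f) := smul_nonneg'' (by linarith) (sub_nonneg.2 hf)
  have h3 : 0 ≤ ((c - 1) ^ 2) • h := smul_nonneg'' (sq_nonneg _) hh
  have h4 : (2 * (1 : ℝ)) • f - ((1 : ℝ) ^ 2) • h - ((2 * c) • f - (c ^ 2) • h) =
      (2 * (c - 1)) • (h - f) + ((c - 1) ^ 2) • h := by
    module
  rw [← sub_nonneg, h4]
  exact add_nonneg h2 h3

lemma qN_convex_aux {h : Y} (hh : 0 ≤ h) (N : ℕ) {f g : Y} (hfh : f ≤ h) (hg0 : 0 ≤ g) :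
    (2 / ((N : ℝ) + 1)) • (f - g) ≤ qN h N f + qN h N g - (2 : ℝ) • qN h N ((1 / 2 : ℝ) • (f + g)) +
      (2 / ((N : ℝ) + 1) ^ 2) • h := by
  have := isOrderedModule' (Y := Y)
  have hN : (0 : ℝ) < (N : ℝ) + 1 := by positivity
  have key : ∀ k ∈ Finset.range (N + 2), tng h ((k : ℝ) / ((N : ℝ) + 1)) ((1 / 2 : ℝ) • (f + g)) ≤
      (1 / 2 : ℝ) • (qN h N f + qN h N g - (2 / ((N : ℝ) + 1)) • (f - g) +
        (2 / ((N : ℝ) + 1) ^ 2) • h) := by
    intro k hk
    rw [Finset.mem_range] at hk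
    have h1 : tng h (((k : ℝ) + 1) / ((N : ℝ) + 1)) f ≤ qN h N f := by
      by_cases hk' : k + 1 ≤ N + 1
      · have := tng_le_qN h N f hk'
        push_cast at this
        exact this
      · apply tng_ge_one_le hh N hfh
        rw [le_div_iff₀ hN]
        have : N + 1 ≤ k + 1 := by omega
        have h' : (N : ℝ) + 1 ≤ (k : ℝ) + 1 := by exact_mod_cast this
        linarith
    have h2 : tng h (((k : ℝ) - 1) / ((N : ℝ) + 1)) g ≤ qN h N g := by
      by_cases hk' : 1 ≤ k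
      · obtain ⟨j, rfl⟩ : ∃ j, k = j + 1 := ⟨k - 1, by omega⟩
        have := tng_le_qN h N g (k := j) (by omega)
        push_cast
        rw [add_sub_cancel_right]
        exact this
      · apply tng_neg_le hh N hg0
        have : k = 0 := by omega
        rw [this]
        apply div_nonpos_of_nonpos_of_nonneg _ hN.le
        norm_num
    have h3 : tng h ((k : ℝ) / ((N : ℝ) + 1)) ((1 / 2 : ℝ) • (f + g)) =
        (1 / 2 : ℝ) • (tng h (((k : ℝ) + 1) / ((N : ℝ) + 1)) f +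
          tng h (((k : ℝ) - 1) / ((N : ℝ) + 1)) g - (2 / ((N : ℝ) + 1)) • (f - g) +
        (2 / ((N : ℝ) + 1) ^ 2) • h) := by
      unfold tng
      match_scalars
      · field_simp
        ring
      · field_simp
        ring
      · field_simp
        ring
    rw [h3]
    apply smul_le_smul_of_nonneg_left _ (by norm_num)
    exact add_le_add_left (sub_le_sub_right (add_le_add h1 h2) _) _
  have h4 : qN h N ((1 / 2 : ℝ) • (f + g)) ≤
      (1 / 2 : ℝ) • (qN h N f + qN h N g - (2 / ((N : ℝ) + 1)) • (f - g) +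
        (2 / ((N : ℝ) + 1) ^ 2) • h) := Finset.sup'_le _ _ key
  have h5 := smul_le_smul_of_nonneg_left h4 (show (0 : ℝ) ≤ 2 by norm_num)
  rw [smul_smul, mul_one_div_cancel (by norm_num), one_smul] at h5
  rw [← sub_nonneg] at h5 ⊢
  convert h5 using 1
  abel

lemma qN_convex {h : Y} (hh : 0 ≤ h) (N : ℕ) {f g : Y} (hf0 : 0 ≤ f) (hfh : f ≤ h)
    (hg0 : 0 ≤ g) (hgh : g ≤ h) :
    (2 / ((N : ℝ) + 1)) • |f - g| ≤ qN h N f + qN h N g -
      (2 : ℝ) • qN h N ((1 / 2 : ℝ) • (f + g)) + (2 / ((N : ℝ) + 1) ^ 2) • h := by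
  have := isOrderedModule' (Y := Y)
  have hN : (0 : ℝ) < 2 / ((N : ℝ) + 1) := by positivity
  have e := (OrderIso.smulRight (β := Y) hN).map_sup (f - g) (-(f - g))
  change (2 / ((N : ℝ) + 1)) • |f - g| = (2 / ((N : ℝ) + 1)) • (f - g) ⊔
    (2 / ((N : ℝ) + 1)) • (-(f - g)) at e
  rw [e]
  apply sup_le
  · exact qN_convex_aux hh N hfh hg0
  · rw [neg_sub]
    have := qN_convex_aux hh N hgh hf0
    rw [add_comm g f, add_comm (qN h N g)] at this
    exact this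

lemma qN_mid (h : Y) (N : ℕ) (f g : Y) :
    (2 : ℝ) • qN h N ((1 / 2 : ℝ) • (f + g)) ≤ qN h N f + qN h N g := by
  have := isOrderedModule' (Y := Y)
  have key : ∀ k ∈ Finset.range (N + 2), tng h ((k : ℝ) / ((N : ℝ) + 1)) ((1 / 2 : ℝ) • (f + g)) ≤
      (1 / 2 : ℝ) • (qN h N f + qN h N g) := by
    intro k hk
    rw [Finset.mem_range] at hk
    have h1 := tng_le_qN h N f (k := k) (by omega)
    have h2 := tng_le_qN h N g (k := k) (by omega)
    have h3 : tng h ((k : ℝ) / ((N : ℝ) + 1)) ((1 / 2 : ℝ) • (f + g)) =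
        (1 / 2 : ℝ) • (tng h ((k : ℝ) / ((N : ℝ) + 1)) f + tng h ((k : ℝ) / ((N : ℝ) + 1)) g) := by
      unfold tng
      module
    rw [h3]
    exact smul_le_smul_of_nonneg_left (add_le_add h1 h2) (by norm_num)
  have h4 : qN h N ((1 / 2 : ℝ) • (f + g)) ≤ (1 / 2 : ℝ) • (qN h N f + qN h N g) :=
    Finset.sup'_le _ _ key
  have h5 := smul_le_smul_of_nonneg_left h4 (show (0 : ℝ) ≤ 2 by norm_num)
  rwa [smul_smul, mul_one_div_cancel (by norm_num), one_smul] at h5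

/-- A bounded function on an order interval which is uniformly convex with respect to a positive
functional. -/
lemma exists_R {φ : StrongDual ℝ Y} (hφ : PosF φ) {h : Y} (hh : 0 ≤ h) :
    ∃ R : Y → ℝ, (∀ f, 0 ≤ f → f ≤ h → 0 ≤ R f ∧ R f ≤ 2 * φ h) ∧
      ∀ ε : ℝ, 0 < ε → ∃ δ : ℝ, 0 < δ ∧ ∀ f g, 0 ≤ f → f ≤ h → 0 ≤ g → g ≤ h →
        R f + R g - 2 * R ((1 / 2 : ℝ) • (f + g)) ≤ δ → φ |f - g| ≤ ε := by
  have := isOrderedModule' (Y := Y)
  have hgeo : Summable (fun N : ℕ => (1 / 2 : ℝ) ^ N) :=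
    summable_geometric_of_lt_one (by norm_num) (by norm_num)
  have hφh : 0 ≤ φ h := hφ h hh
  have hr0 : ∀ N f, 0 ≤ φ (qN h N f) := fun N f => hφ _ (qN_nonneg h N f)
  have hrh : ∀ N f, f ≤ h → φ (qN h N f) ≤ φ h := fun N f hf => hφ.mono (qN_le hh N hf)
  have hsum : ∀ f, f ≤ h → Summable (fun N => (1 / 2 : ℝ) ^ N * φ (qN h N f)) := by
    intro f hf
    refine Summable.of_nonneg_of_le (fun N => mul_nonneg (by positivity) (hr0 N f)) (fun N => ?_)
      (hgeo.mul_right (φ h))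
    exact mul_le_mul_of_nonneg_left (hrh N f hf) (by positivity)
  refine ⟨fun f => ∑' N, (1 / 2 : ℝ) ^ N * φ (qN h N f), ?_, ?_⟩
  · intro f _ hf
    refine ⟨tsum_nonneg fun N => mul_nonneg (by positivity) (hr0 N f), ?_⟩
    refine ((hsum f hf).tsum_le_tsum (fun N => ?_) (hgeo.mul_right (φ h))).trans ?_
    · exact mul_le_mul_of_nonneg_left (hrh N f hf) (by positivity)
    · rw [tsum_mul_right, tsum_geometric_of_lt_one (by norm_num) (by norm_num)]
      norm_num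
  · intro ε hε
    obtain ⟨N, hN⟩ := exists_nat_one_div_lt (show (0 : ℝ) < ε / (2 * (φ h + 1)) by positivity)
    refine ⟨(1 / 2 : ℝ) ^ N * (ε / ((N : ℝ) + 1)), by positivity, ?_⟩
    intro f g hf0 hfh hg0 hgh hle
    have hmid : (1 / 2 : ℝ) • (f + g) ≤ h := by
      have h1 := smul_le_smul_of_nonneg_left (add_le_add hfh hgh) (show (0 : ℝ) ≤ 1 / 2 by norm_num)
      have h2 : (1 / 2 : ℝ) • (h + h) = h := by module
      rwa [h2] at h1
    set d : ℕ → ℝ := fun n => (1 / 2 : ℝ) ^ n * φ (qN h n f) + (1 / 2 : ℝ) ^ n * φ (qN h n g) -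
      2 * ((1 / 2 : ℝ) ^ n * φ (qN h n ((1 / 2 : ℝ) • (f + g)))) with hd
    have hds : HasSum d ((∑' n, (1 / 2 : ℝ) ^ n * φ (qN h n f)) +
        (∑' n, (1 / 2 : ℝ) ^ n * φ (qN h n g)) -
        2 * ∑' n, (1 / 2 : ℝ) ^ n * φ (qN h n ((1 / 2 : ℝ) • (f + g)))) :=
      ((hsum f hfh).hasSum.add (hsum g hgh).hasSum).sub ((hsum _ hmid).hasSum.mul_left 2)
    have hd0 : ∀ n, 0 ≤ d n := by
      intro n
      have h1 := hφ.mono (qN_mid h n f g)
      rw [map_smul, map_add, smul_eq_mul] at h1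
      have h2 : d n = (1 / 2 : ℝ) ^ n * (φ (qN h n f) + φ (qN h n g) -
        2 * φ (qN h n ((1 / 2 : ℝ) • (f + g)))) := by rw [hd]; ring
      rw [h2]
      exact mul_nonneg (by positivity) (by linarith)
    have hdN : d N ≤ (1 / 2 : ℝ) ^ N * (ε / ((N : ℝ) + 1)) := by
      have h1 := hds.summable.le_tsum N (fun m _ => hd0 m)
      rw [hds.tsum_eq] at h1
      exact h1.trans hle
    have h3 := hφ.mono (qN_convex hh N hf0 hfh hg0 hgh)
    rw [map_smul, map_add, map_sub, map_add, map_smul, map_smul, smul_eq_mul, smul_eq_mul,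
      smul_eq_mul] at h3
    have h4 : φ (qN h N f) + φ (qN h N g) - 2 * φ (qN h N ((1 / 2 : ℝ) • (f + g))) ≤
        ε / ((N : ℝ) + 1) := by
      have h5 : d N = (1 / 2 : ℝ) ^ N * (φ (qN h N f) + φ (qN h N g) -
        2 * φ (qN h N ((1 / 2 : ℝ) • (f + g)))) := by rw [hd]; ring
      rw [h5] at hdN
      exact le_of_mul_le_mul_left hdN (by positivity)
    have hN1 : (0 : ℝ) < (N : ℝ) + 1 := by positivity
    have h6 : 2 / ((N : ℝ) + 1) * φ |f - g| ≤ ε / ((N : ℝ) + 1) + 2 / ((N : ℝ) + 1) ^ 2 * φ h := by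
      linarith
    have h7 : 2 * φ |f - g| ≤ ε + 2 / ((N : ℝ) + 1) * φ h := by
      have h8 := mul_le_mul_of_nonneg_left h6 hN1.le
      have e1 : ((N : ℝ) + 1) * (2 / ((N : ℝ) + 1) * φ |f - g|) = 2 * φ |f - g| := by
        field_simp
      have e2 : ((N : ℝ) + 1) * (ε / ((N : ℝ) + 1) + 2 / ((N : ℝ) + 1) ^ 2 * φ h) =
          ε + 2 / ((N : ℝ) + 1) * φ h := by
        field_simp
      rwa [e1, e2] at h8
    have h9 : 2 / ((N : ℝ) + 1) * φ h ≤ ε := by
      have h10 : 2 / ((N : ℝ) + 1) * φ h = 2 * (1 / ((N : ℝ) + 1)) * φ h := by ring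
      have h11 : 2 * (1 / ((N : ℝ) + 1)) * φ h ≤ 2 * (ε / (2 * (φ h + 1))) * φ h := by
        apply mul_le_mul_of_nonneg_right _ hφh
        linarith
      have h12 : 2 * (ε / (2 * (φ h + 1))) * φ h = ε * (φ h / (φ h + 1)) := by
        field_simp
      have h13 : φ h / (φ h + 1) ≤ 1 := by
        rw [div_le_one (by positivity)]; linarith
      rw [h10]
      refine h11.trans ?_
      rw [h12]
      exact mul_le_of_le_one_right hε.le h13
    linarith

/-- Order bounded sequences in KB-spaces have weak limits along ultrafilters. -/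
theorem KB.exists_wlim [CompleteSpace Y] (hY : KB Y) {h : Y} {y : ℕ → Y} (hy0 : ∀ m, 0 ≤ y m)
    (hyh : ∀ m, y m ≤ h) (U : Ultrafilter ℕ) :
    ∃ z, ∀ φ : StrongDual ℝ Y, Tendsto (fun m => φ (y m)) U (𝓝 (φ z)) := by
  have := isOrderedModule' (Y := Y)
  have hh : 0 ≤ h := (hy0 0).trans (hyh 0)
  obtain ⟨Z, hZs, hZc, hyZ, hZ⟩ := exists_sublattice (Set.countable_range y).isSeparable
  obtain ⟨φ, hφ, hφs⟩ := exists_strictly_posF hZs
  obtain ⟨R, hR, hRuc⟩ := exists_R hφ hh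
  have hC : convexHull ℝ (range y) ⊆ {f | 0 ≤ f ∧ f ≤ h ∧ f ∈ Z} := by
    apply convexHull_min
    · rintro _ ⟨m, rfl⟩
      exact ⟨hy0 m, hyh m, hyZ ⟨m, rfl⟩⟩
    · rintro f ⟨hf0, hfh, hfZ⟩ g ⟨hg0, hgh, hgZ⟩ a b ha hb hab
      refine ⟨add_nonneg (smul_nonneg'' ha hf0) (smul_nonneg'' hb hg0), ?_,
        Z.add_mem (Z.smul_mem a hfZ) (Z.smul_mem b hgZ)⟩
      calc a • f + b • g ≤ a • h + b • h :=
            add_le_add (smul_le_smul_of_nonneg_left hfh ha) (smul_le_smul_of_nonneg_left hgh hb)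
        _ = h := by rw [← add_smul, hab, one_smul]
  apply exists_weak_lim y R (B := 2 * φ h) (fun f hf => (hR f (hC hf).1 (hC hf).2.1).1)
    (fun f hf => (hR f (hC hf).1 (hC hf).2.1).2)
  intro ε hε
  by_contra hcon
  push Not at hcon
  have hex : ∀ n : ℕ, ∃ f ∈ convexHull ℝ (range y), ∃ g ∈ convexHull ℝ (range y),
      R f + R g - 2 * R ((1 / 2 : ℝ) • (f + g)) ≤ 1 / ((n : ℝ) + 1) ∧ ε < ‖f - g‖ :=
    fun n => hcon _ (by positivity)
  choose f hf g hg hR' hfg using hex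
  have h1 : Tendsto (fun n => φ |f n - g n|) atTop (𝓝 0) := by
    rw [Metric.tendsto_atTop]
    intro η hη
    obtain ⟨δ, hδ, hδ'⟩ := hRuc (η / 2) (half_pos hη)
    obtain ⟨N, hN⟩ := exists_nat_one_div_lt hδ
    refine ⟨N, fun n hn => ?_⟩
    rw [Real.dist_eq, sub_zero, abs_of_nonneg (hφ _ (abs_nonneg _))]
    refine lt_of_le_of_lt (hδ' (f n) (g n) (hC (hf n)).1 (hC (hf n)).2.1 (hC (hg n)).1
      (hC (hg n)).2.1 ((hR' n).trans ?_)) (half_lt_self hη)
    refine le_trans ?_ hN.le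
    apply one_div_le_one_div_of_le (by positivity)
    have : (N : ℝ) ≤ n := by exact_mod_cast hn
    linarith
  have h2 := hY.tendsto_zero_of_posF hZc hZ hφ hφs (h := h) (D := fun n => |f n - g n|)
    (fun n => abs_nonneg _) (fun n => by
      apply sup_le
      · exact (sub_le_self _ (hC (hg n)).1).trans (hC (hf n)).2.1
      · rw [neg_sub]
        exact (sub_le_self _ (hC (hf n)).1).trans (hC (hg n)).2.1)
    (fun n => hZ _ (Z.sub_mem (hC (hf n)).2.2 (hC (hg n)).2.2)) h1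
  rw [Metric.tendsto_atTop] at h2
  obtain ⟨N, hN⟩ := h2 ε hε
  have h3 := hN N le_rfl
  rw [dist_zero_right, norm_abs_eq_norm] at h3
  exact absurd (hfg N) (not_lt.2 h3.le)

end Pool.Agent.LinfX
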