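import Pool.Agent.LinfX.Lat3
import Pool.Agent.LinfX.Decomp

/-!
The generalised limit on a KB-space.
-/

open Filter Topology Set TopologicalSpace

set_option linter.unusedSectionVars false

namespace Pool.Agent.LinfX

variable {Y : Type*} [NormedAddCommGroup Y] [Lattice Y] [HasSolidNorm Y] [IsOrderedAddMonoid Y]
  [NormedSpace ℝ Y]

/-- Weak limit along a fixed free ultrafilter. -/
def IsWL {Y : Type*} [NormedAddCommGroup Y] [NormedSpace ℝ Y] (y : ℕ → Y) (z : Y) : Prop :=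
  ∀ φ : StrongDual ℝ Y, Tendsto (fun m => φ (y m)) (hyperfilter ℕ : Filter ℕ) (𝓝 (φ z))

lemma IsWL.add {y y' : ℕ → Y} {z z' : Y} (h : IsWL y z) (h' : IsWL y' z') :
    IsWL (fun m => y m + y' m) (z + z') := by
  intro φ
  simp only [map_add]
  exact (h φ).add (h' φ)

lemma IsWL.le {y y' : ℕ → Y} {z z' : Y} (h : IsWL y z) (h' : IsWL y' z')
    (hle : ∀ m, y m ≤ y' m) : z ≤ z' := by
  apply le_of_posF
  intro φ hφ
  exact le_of_tendsto_of_tendsto' (h φ) (h' φ) fun m => hφ.mono (hle m)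

lemma IsWL.unique {y : ℕ → Y} {z z' : Y} (h : IsWL y z) (h' : IsWL y z') : z = z' :=
  le_antisymm (h.le h' fun _ => le_rfl) (h'.le h fun _ => le_rfl)

lemma IsWL.of_tendsto {y : ℕ → Y} {z : Y} (h : Tendsto y atTop (𝓝 z)) : IsWL y z := by
  intro φ
  exact ((φ.continuous.tendsto z).comp h).mono_left Nat.hyperfilter_le_atTop

lemma IsWL.norm_le {W : Type*} [NormedAddCommGroup W] [NormedSpace ℝ W] (T : Y →L[ℝ] W)
    {y : ℕ → Y} {z : Y} (h : IsWL y z) {C : ℝ} (hC : ∀ m, ‖T (y m)‖ ≤ C) : ‖T z‖ ≤ C := by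
  obtain ⟨ψ, hψ1, hψ2⟩ := exists_dual_vector'' ℝ (T z)
  have h1 := h (ψ.comp T)
  have h2 : ‖T z‖ = (ψ.comp T) z := by
    rw [ContinuousLinearMap.comp_apply, hψ2]; rfl
  rw [h2]
  apply le_of_tendsto' h1
  intro m
  have h3 := ψ.le_opNorm (T (y m))
  have h4 := le_abs_self (ψ (T (y m)))
  rw [Real.norm_eq_abs] at h3
  have h5 : ‖ψ‖ * ‖T (y m)‖ ≤ 1 * ‖T (y m)‖ := mul_le_mul_of_nonneg_right hψ1 (norm_nonneg _)
  change ψ (T (y m)) ≤ C
  linarith [hC m]

/-- The generalised limit of a sequence of nonnegative vectors. -/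
def IsLam (y : ℕ → Y) (L : Y) : Prop :=
  ∃ w : Y → Y, (∀ h, IsWL (fun m => y m ⊓ h⁺) (w h)) ∧ Tendsto w atTop (𝓝 L)

lemma w_mono {y : ℕ → Y} {w : Y → Y} (hw : ∀ h, IsWL (fun m => y m ⊓ h⁺) (w h)) :
    Monotone w := by
  intro h h' hh
  exact (hw h).le (hw h') fun m => inf_le_inf_left _ (posPart_mono hh)

lemma IsLam.unique {y : ℕ → Y} {L L' : Y} (h : IsLam y L) (h' : IsLam y L') : L = L' := by
  obtain ⟨w, hw, hL⟩ := h
  obtain ⟨w', hw', hL'⟩ := h'
  have : w = w' := funext fun h => (hw h).unique (hw' h)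
  rw [this] at hL
  exact tendsto_nhds_unique hL hL'

lemma inf_add_le {a b h : Y} (ha : 0 ≤ a) (hb : 0 ≤ b) (hh : 0 ≤ h) :
    (a + b) ⊓ h ≤ a ⊓ h + b ⊓ h := by
  have h1 : (a + b) ⊓ h - a ⊓ h ≤ b ⊓ h := by
    rw [sub_le_comm]
    apply le_inf
    · rw [sub_le_comm]
      apply le_inf
      · exact (sub_le_sub_right inf_le_left a).trans (by rw [add_sub_cancel_left])
      · exact (sub_le_self _ ha).trans inf_le_right
    · rw [sub_le_comm]
      exact (sub_le_sub_right inf_le_right h).trans (by rw [sub_self]; exact le_inf hb hh)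
  rw [sub_le_iff_le_add'] at h1
  exact h1

lemma IsLam.add {y y' : ℕ → Y} {L L' L'' : Y} (hy : ∀ m, 0 ≤ y m) (hy' : ∀ m, 0 ≤ y' m)
    (h : IsLam y L) (h' : IsLam y' L') (h'' : IsLam (fun m => y m + y' m) L'') :
    L'' = L + L' := by
  obtain ⟨w, hw, hL⟩ := h
  obtain ⟨w', hw', hL'⟩ := h'
  obtain ⟨w'', hw'', hL''⟩ := h''
  apply le_antisymm
  · apply le_of_tendsto' hL''
    intro h
    have h1 : w'' h ≤ w h + w' h := (hw'' h).le ((hw h).add (hw' h)) fun m =>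
      inf_add_le (hy m) (hy' m) (posPart_nonneg h)
    exact h1.trans (add_le_add ((w_mono hw).ge_of_tendsto hL h) ((w_mono hw').ge_of_tendsto hL' h))
  · apply le_of_tendsto' (hL.add hL')
    intro h
    have hpp : (h⁺ + h⁺)⁺ = h⁺ + h⁺ :=
      posPart_eq_self.2 (add_nonneg (posPart_nonneg h) (posPart_nonneg h))
    have h1 : w h + w' h ≤ w'' (h⁺ + h⁺) := ((hw h).add (hw' h)).le (hw'' _) fun m => by
      rw [hpp]
      exact le_inf (add_le_add inf_le_left inf_le_left) (add_le_add inf_le_right inf_le_right)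
    exact h1.trans ((w_mono hw'').ge_of_tendsto hL'' _)

lemma IsLam.of_tendsto {y : ℕ → Y} {a : Y} (h : Tendsto y atTop (𝓝 a)) : IsLam y a := by
  refine ⟨fun h => a ⊓ h⁺, fun g => ?_, ?_⟩
  · apply IsWL.of_tendsto
    exact h.inf_nhds tendsto_const_nhds
  · apply tendsto_const_nhds.congr'
    filter_upwards [eventually_ge_atTop a] with g hg
    exact (inf_eq_left.2 (hg.trans (le_posPart g))).symm

lemma IsLam.norm_le {W : Type*} [NormedAddCommGroup W] [NormedSpace ℝ W] (T : Y →L[ℝ] W)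
    {y : ℕ → Y} {L : Y} (h : IsLam y L) {C : ℝ} (hC : ∀ m h, ‖T (y m ⊓ h⁺)‖ ≤ C) :
    ‖T L‖ ≤ C := by
  obtain ⟨w, hw, hL⟩ := h
  have h1 := ((T.continuous.tendsto L).comp hL).norm
  exact le_of_tendsto' h1 fun g => (hw g).norm_le T fun m => hC m g

lemma KB.exists_lam [CompleteSpace Y] (hY : KB Y) {y : ℕ → Y} (hy0 : ∀ m, 0 ≤ y m) {C : ℝ}
    (hC : ∀ m, ‖y m‖ ≤ C) : ∃ L, IsLam y L := by
  have hex : ∀ h : Y, ∃ z, IsWL (fun m => y m ⊓ h⁺) z := fun h =>
    hY.exists_wlim (h := h⁺) (fun m => le_inf (hy0 m) (posPart_nonneg h)) (fun m => inf_le_right)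
      (hyperfilter ℕ)
  choose w hw using hex
  have hwC : ∀ h, ‖w h‖ ≤ C := by
    intro h
    refine (hw h).norm_le (ContinuousLinearMap.id ℝ Y) fun m => ?_
    exact (norm_le_of_le (le_inf (hy0 m) (posPart_nonneg h)) inf_le_left).trans (hC m)
  obtain ⟨L, hL⟩ := hY.tendsto_net (w_mono hw) hwC
  exact ⟨L, w, hw, hL⟩

open Classical in
/-- The generalised limit of a bounded sequence of nonnegative vectors. -/
noncomputable def PL (y : ℕ → Y) : Y := if H : ∃ L, IsLam y L then H.choose else 0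

lemma isLam_PL {y : ℕ → Y} (h : ∃ L, IsLam y L) : IsLam y (PL y) := by
  unfold PL
  rw [dif_pos h]
  exact h.choose_spec

lemma PL_eq {y : ℕ → Y} {L : Y} (h : IsLam y L) : PL y = L := (isLam_PL ⟨L, h⟩).unique h

lemma KB.PL_add [CompleteSpace Y] (hY : KB Y) {y y' : ℕ → Y} (hy0 : ∀ m, 0 ≤ y m) {C C' : ℝ}
    (hC : ∀ m, ‖y m‖ ≤ C) (hy0' : ∀ m, 0 ≤ y' m) (hC' : ∀ m, ‖y' m‖ ≤ C') :
    PL (fun m => y m + y' m) = PL y + PL y' := by
  have h1 := isLam_PL (hY.exists_lam hy0 hC)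
  have h2 := isLam_PL (hY.exists_lam hy0' hC')
  have h3 := isLam_PL (hY.exists_lam (y := fun m => y m + y' m) (C := C + C')
    (fun m => add_nonneg (hy0 m) (hy0' m))
    (fun m => (norm_add_le _ _).trans (add_le_add (hC m) (hC' m))))
  exact IsLam.add hy0 hy0' h1 h2 h3

lemma norm_negPart_le' (x : Y) : ‖x⁻‖ ≤ ‖x‖ := by
  rw [← posPart_neg, ← norm_neg x]
  exact norm_posPart_le' _

lemma KB.lam_add [CompleteSpace Y] (hY : KB Y) (y y' : linfSeq Y) :
    PL (fun m => (y m + y' m)⁺) - PL (fun m => (y m + y' m)⁻) =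
      (PL (fun m => (y m)⁺) - PL (fun m => (y m)⁻)) +
      (PL (fun m => (y' m)⁺) - PL (fun m => (y' m)⁻)) := by
  have hp : ∀ (y : linfSeq Y) m, ‖(y m)⁺‖ ≤ ‖y‖ := fun y m =>
    (norm_posPart_le' _).trans (nrm_apply y m)
  have hn : ∀ (y : linfSeq Y) m, ‖(y m)⁻‖ ≤ ‖y‖ := fun y m =>
    (norm_negPart_le' _).trans (nrm_apply y m)
  have hp0 : ∀ (y : linfSeq Y) m, 0 ≤ (y m)⁺ := fun y m => posPart_nonneg _
  have hn0 : ∀ (y : linfSeq Y) m, 0 ≤ (y m)⁻ := fun y m => negPart_nonneg _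
  have h1 : (fun m => (y m + y' m)⁺ + ((y m)⁻ + (y' m)⁻)) =
      fun m => (y m + y' m)⁻ + ((y m)⁺ + (y' m)⁺) := by
    funext m
    have e1 := posPart_sub_negPart (y m + y' m)
    have e2 := posPart_sub_negPart (y m)
    have e3 := posPart_sub_negPart (y' m)
    have e4 : (y m + y' m)⁺ - (y m + y' m)⁻ = (y m)⁺ - (y m)⁻ + ((y' m)⁺ - (y' m)⁻) := by
      rw [e1, e2, e3]
    rw [sub_eq_iff_eq_add] at e4
    rw [e4]
    abel
  have h2 := congrArg PL h1
  have hb1 : ∀ m, ‖(y m)⁻ + (y' m)⁻‖ ≤ ‖y‖ + ‖y'‖ := fun m =>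
    (norm_add_le _ _).trans (add_le_add (hn y m) (hn y' m))
  have hb2 : ∀ m, ‖(y m)⁺ + (y' m)⁺‖ ≤ ‖y‖ + ‖y'‖ := fun m =>
    (norm_add_le _ _).trans (add_le_add (hp y m) (hp y' m))
  rw [hY.PL_add (y := fun m => (y m + y' m)⁺) (y' := fun m => (y m)⁻ + (y' m)⁻)
    (hp0 (y + y')) (hp (y + y')) (fun m => add_nonneg (hn0 y m) (hn0 y' m)) hb1,
    hY.PL_add (y := fun m => (y m + y' m)⁻) (y' := fun m => (y m)⁺ + (y' m)⁺)
    (hn0 (y + y')) (hn (y + y')) (fun m => add_nonneg (hp0 y m) (hp0 y' m)) hb2,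
    hY.PL_add (y := fun m => (y m)⁻) (y' := fun m => (y' m)⁻) (hn0 y) (hn y) (hn0 y') (hn y'),
    hY.PL_add (y := fun m => (y m)⁺) (y' := fun m => (y' m)⁺) (hp0 y) (hp y) (hp0 y') (hp y')] at h2
  have h3 : PL (fun m => (y m + y' m)⁺) = PL (fun m => (y m + y' m)⁻) +
      (PL (fun m => (y m)⁺) + PL (fun m => (y' m)⁺)) -
      (PL (fun m => (y m)⁻) + PL (fun m => (y' m)⁻)) := by
    rw [← h2]; abel
  rw [h3]
  abel

lemma KB.lam_norm [CompleteSpace Y] (hY : KB Y) {W : Type*} [NormedAddCommGroup W]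
    [NormedSpace ℝ W] (T : Y →L[ℝ] W) (y : linfSeq Y) {C : ℝ}
    (hp : ∀ m h, ‖T ((y m)⁺ ⊓ h⁺)‖ ≤ C) (hn : ∀ m h, ‖T ((y m)⁻ ⊓ h⁺)‖ ≤ C) :
    ‖T (PL (fun m => (y m)⁺) - PL (fun m => (y m)⁻))‖ ≤ 2 * C := by
  have h1 := isLam_PL (hY.exists_lam (y := fun m => (y m)⁺) (fun m => posPart_nonneg _)
    (fun m => (norm_posPart_le' _).trans (nrm_apply y m)))
  have h2 := isLam_PL (hY.exists_lam (y := fun m => (y m)⁻) (fun m => negPart_nonneg _)
    (fun m => (norm_negPart_le' _).trans (nrm_apply y m)))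
  rw [map_sub]
  refine (norm_sub_le _ _).trans ?_
  have h3 := h1.norm_le T hp
  have h4 := h2.norm_le T hn
  linarith

/-- The generalised limit as an operator. -/
noncomputable def lamL [CompleteSpace Y] (hY : KB Y) : linfSeq Y →L[ℝ] Y :=
  AddMonoidHom.toRealLinearMap
    { toFun := fun y => PL (fun m => (y m)⁺) - PL (fun m => (y m)⁻)
      map_zero' := by
        have h1 : PL (fun m => ((0 : linfSeq Y) m)⁺) = 0 := by
          apply PL_eq
          apply IsLam.of_tendsto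
          have : (fun m => ((0 : linfSeq Y) m)⁺) = fun _ => (0 : Y) := by
            funext m
            exact posPart_eq_zero.2 le_rfl
          rw [this]
          exact tendsto_const_nhds
        have h2 : PL (fun m => ((0 : linfSeq Y) m)⁻) = 0 := by
          apply PL_eq
          apply IsLam.of_tendsto
          have : (fun m => ((0 : linfSeq Y) m)⁻) = fun _ => (0 : Y) := by
            funext m
            exact negPart_eq_zero.2 le_rfl
          rw [this]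
          exact tendsto_const_nhds
        rw [h1, h2, sub_zero]
      map_add' := fun y y' => hY.lam_add y y' } (by
    apply AddMonoidHomClass.continuous_of_bound _ 2
    intro y
    exact hY.lam_norm (ContinuousLinearMap.id ℝ Y) y (C := ‖y‖)
      (fun m h => (norm_le_of_le (le_inf (posPart_nonneg _) (posPart_nonneg h))
        inf_le_left).trans ((norm_posPart_le' _).trans (nrm_apply y m)))
      (fun m h => (norm_le_of_le (le_inf (negPart_nonneg _) (posPart_nonneg h))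
        inf_le_left).trans ((norm_negPart_le' _).trans (nrm_apply y m))))

lemma lamL_apply [CompleteSpace Y] (hY : KB Y) (y : linfSeq Y) :
    lamL hY y = PL (fun m => (y m)⁺) - PL (fun m => (y m)⁻) := rfl

lemma lamL_tendsto [CompleteSpace Y] (hY : KB Y) (y : linfSeq Y) {a : Y}
    (h : Tendsto (fun n => y n) atTop (𝓝 a)) : lamL hY y = a := by
  have h1 : PL (fun m => (y m)⁺) = a⁺ :=
    PL_eq (IsLam.of_tendsto ((continuous_posPart.tendsto a).comp h))
  have h2 : PL (fun m => (y m)⁻) = a⁻ :=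
    PL_eq (IsLam.of_tendsto ((continuous_negPart.tendsto a).comp h))
  rw [lamL_apply, h1, h2, posPart_sub_negPart]

lemma norm_lamL_le [CompleteSpace Y] (hY : KB Y) {W : Type*} [NormedAddCommGroup W]
    [NormedSpace ℝ W] (T : Y →L[ℝ] W) (y : linfSeq Y) {C : ℝ}
    (hp : ∀ m h, ‖T ((y m)⁺ ⊓ h⁺)‖ ≤ C) (hn : ∀ m h, ‖T ((y m)⁻ ⊓ h⁺)‖ ≤ C) :
    ‖T (lamL hY y)‖ ≤ 2 * C := hY.lam_norm T y hp hn

end Pool.Agent.LinfX
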