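import Pool.Agent.LinfX.Lat4
import Pool.Agent.LinfX.Diff

/-!
Banach lattices without `c_0`: almost everywhere convergent sequences have a generalised limit.
-/

open MeasureTheory Set Filter Topology
open scoped ENNReal NNReal

set_option linter.unusedSectionVars false

namespace Pool.Agent.LinfX

variable {X : Type*} [NormedAddCommGroup X]

/-- Dominated convergence in `L^1`. -/
lemma L1_tendsto {F : ℕ → Lp X 1 mu} {L : Lp X 1 mu} {bound : ℝ → ℝ}
    (hb : Integrable bound mu) (hbd : ∀ n, ∀ᵐ t ∂mu, ‖(F n : ℝ → X) t‖ ≤ bound t)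
    (hlim : ∀ᵐ t ∂mu, Tendsto (fun n => (F n : ℝ → X) t) atTop (𝓝 ((L : ℝ → X) t))) :
    Tendsto F atTop (𝓝 L) := by
  rw [tendsto_iff_norm_sub_tendsto_zero]
  have h1 : ∀ n, ‖F n - L‖ = ∫ t, ‖(F n : ℝ → X) t - (L : ℝ → X) t‖ ∂mu := by
    intro n
    rw [L1.norm_eq_integral_norm]
    apply integral_congr_ae
    filter_upwards [Lp.coeFn_sub (F n) L] with t ht
    rw [ht, Pi.sub_apply]
  simp only [h1]
  have hLb : ∀ᵐ t ∂mu, ‖(L : ℝ → X) t‖ ≤ bound t := by
    filter_upwards [hlim, ae_all_iff.2 hbd] with t h2 h3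
    exact le_of_tendsto' h2.norm h3
  have h2 : Tendsto (fun n => ∫ t, ‖(F n : ℝ → X) t - (L : ℝ → X) t‖ ∂mu) atTop
      (𝓝 (∫ _, (0 : ℝ) ∂mu)) := by
    apply tendsto_integral_of_dominated_convergence (fun t => 2 * bound t)
    · intro n
      exact ((Lp.aestronglyMeasurable (F n)).sub (Lp.aestronglyMeasurable L)).norm
    · exact hb.const_mul 2
    · intro n
      filter_upwards [hbd n, hLb] with t h3 h4
      rw [norm_norm]
      refine (norm_sub_le _ _).trans ?_
      linarith
    · filter_upwards [hlim] with t h3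
      have h4 := (h3.sub_const ((L : ℝ → X) t)).norm
      rwa [sub_self, norm_zero] at h4
  rwa [integral_zero] at h2

section lattice

variable [Lattice X] [HasSolidNorm X] [IsOrderedAddMonoid X]

/-- `L^1([0,1], X)` is a KB-space if `X` is. -/
theorem KB.L1 [CompleteSpace X] (hX : KB X) : KB (Lp X 1 mu) := by
  rintro F hF ⟨C, hC⟩
  have hmono : ∀ᵐ t ∂mu, Monotone (fun n => (F n : ℝ → X) t) := by
    have h1 : ∀ᵐ t ∂mu, ∀ n, (F n : ℝ → X) t ≤ (F (n + 1) : ℝ → X) t :=
      ae_all_iff.2 fun n => (Lp.coeFn_le _ _).2 (hF (Nat.le_succ n))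
    filter_upwards [h1] with t ht
    exact monotone_nat_of_le_succ ht
  set G : ℕ → ℝ → ℝ≥0∞ := fun n t => ‖(F n : ℝ → X) t - (F 0 : ℝ → X) t‖ₑ with hG
  have hGm : ∀ n, AEMeasurable (G n) mu := fun n =>
    ((Lp.aestronglyMeasurable (F n)).sub (Lp.aestronglyMeasurable (F 0))).enorm
  have hGmono : ∀ᵐ t ∂mu, Monotone (fun n => G n t) := by
    filter_upwards [hmono] with t ht n m hnm
    simp only [hG]
    rw [← ofReal_norm, ← ofReal_norm]
    apply ENNReal.ofReal_le_ofReal
    apply norm_le_of_le (sub_nonneg.2 (ht (Nat.zero_le n)))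
    exact sub_le_sub_right (ht hnm) _
  have hGint : ∀ n, ∫⁻ t, G n t ∂mu ≤ ENNReal.ofReal (2 * C) := by
    intro n
    have h1 : ∫⁻ t, G n t ∂mu = ENNReal.ofReal ‖F n - F 0‖ := by
      rw [L1.norm_def, ENNReal.ofReal_toReal]
      · apply lintegral_congr_ae
        filter_upwards [Lp.coeFn_sub (F n) (F 0)] with t ht
        rw [ht, Pi.sub_apply]
      · exact (L1.hasFiniteIntegral_coeFn (F n - F 0)).ne
    rw [h1]
    apply ENNReal.ofReal_le_ofReal
    refine (norm_sub_le _ _).trans ?_
    have := hC n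
    have := hC 0
    linarith
  have hsup : ∫⁻ t, ⨆ n, G n t ∂mu ≤ ENNReal.ofReal (2 * C) := by
    rw [lintegral_iSup' hGm hGmono]
    exact iSup_le hGint
  have hsupm : AEMeasurable (fun t => ⨆ n, G n t) mu := AEMeasurable.iSup hGm
  have hfin : ∀ᵐ t ∂mu, ⨆ n, G n t < ∞ :=
    ae_lt_top' hsupm (hsup.trans_lt ENNReal.ofReal_lt_top).ne
  set bound : ℝ → ℝ := fun t => (⨆ n, G n t).toReal + ‖(F 0 : ℝ → X) t‖ with hbound
  have hbi : Integrable bound mu := by
    apply Integrable.add
    · exact integrable_toReal_of_lintegral_ne_top hsupm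
        (hsup.trans_lt ENNReal.ofReal_lt_top).ne
    · exact (L1.integrable_coeFn (F 0)).norm
  have hbd' : ∀ᵐ t ∂mu, ∀ n, ‖(F n : ℝ → X) t‖ ≤ bound t := by
    filter_upwards [hfin] with t ht n
    have h1 : ‖(F n : ℝ → X) t - (F 0 : ℝ → X) t‖ ≤ (⨆ n, G n t).toReal := by
      rw [← toReal_enorm]
      exact ENNReal.toReal_mono ht.ne (le_iSup (fun n => G n t) n)
    have h2 : ‖(F n : ℝ → X) t‖ ≤ ‖(F n : ℝ → X) t - (F 0 : ℝ → X) t‖ + ‖(F 0 : ℝ → X) t‖ := by
      calc ‖(F n : ℝ → X) t‖ = ‖((F n : ℝ → X) t - (F 0 : ℝ → X) t) + (F 0 : ℝ → X) t‖ := by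
            rw [sub_add_cancel]
        _ ≤ _ := norm_add_le _ _
    simp only [hbound]
    linarith
  have hlim : ∀ᵐ t ∂mu, ∃ l, Tendsto (fun n => (F n : ℝ → X) t) atTop (𝓝 l) := by
    filter_upwards [hmono, hbd'] with t h1 h2
    exact hX _ h1 ⟨bound t, h2⟩
  obtain ⟨g, hgm, hg⟩ := exists_stronglyMeasurable_limit_of_tendsto_ae
    (fun n => Lp.aestronglyMeasurable (F n)) hlim
  have hgb : ∀ᵐ t ∂mu, ‖g t‖ ≤ bound t := by
    filter_upwards [hg, hbd'] with t h1 h2
    exact le_of_tendsto' h1.norm h2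
  have hgi : Integrable g mu := hbi.mono' hgm.aestronglyMeasurable hgb
  have hgL : MemLp g 1 mu := memLp_one_iff_integrable.2 hgi
  refine ⟨hgL.toLp g, ?_⟩
  apply L1_tendsto hbi (fun n => by filter_upwards [hbd'] with t ht using ht n)
  filter_upwards [hg, hgL.coeFn_toLp] with t h1 h2
  rw [h2]
  exact h1

lemma ae_norm_le_of_abs_le {u v : Lp X 1 mu} (h : |u| ≤ |v|) :
    ∀ᵐ t ∂mu, ‖(u : ℝ → X) t‖ ≤ ‖(v : ℝ → X) t‖ := by
  filter_upwards [(Lp.coeFn_le _ _).2 h, Lp.coeFn_abs u, Lp.coeFn_abs v] with t h1 h2 h3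
  rw [h2, h3] at h1
  exact norm_le_norm_of_abs_le_abs h1

end lattice

variable [NormedSpace ℝ X]

/-- Averages of integrable functions. -/
noncomputable def avgOne [CompleteSpace X] (A : Set ℝ) : Lp X 1 mu →L[ℝ] X :=
  LinearMap.mkContinuous
    { toFun := fun f => avg A f
      map_add' := by
        intro f g
        unfold avg
        rw [← smul_add, ← integral_add (L1.integrable_coeFn f).integrableOn
          (L1.integrable_coeFn g).integrableOn]
        congr 1
        apply integral_congr_ae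
        exact ae_restrict_of_ae (Lp.coeFn_add f g)
      map_smul' := by
        intro c f
        unfold avg
        rw [RingHom.id_apply, smul_comm c]
        congr 1
        rw [← integral_smul]
        apply integral_congr_ae
        exact ae_restrict_of_ae (Lp.coeFn_smul c f) } (mu A).toReal⁻¹ (by
      intro f
      change ‖avg A f‖ ≤ _
      unfold avg
      rw [norm_smul, Real.norm_of_nonneg (by positivity)]
      apply mul_le_mul_of_nonneg_left _ (by positivity)
      refine (norm_integral_le_integral_norm _).trans ?_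
      rw [L1.norm_eq_integral_norm]
      exact setIntegral_le_integral (L1.integrable_coeFn f).norm
        (Eventually.of_forall fun t => norm_nonneg _))

lemma avgOne_apply [CompleteSpace X] (A : Set ℝ) (f : Lp X 1 mu) : avgOne A f = avg A f := rfl

lemma iota_mem (f : LinfUnit X) : MemLp (f : ℝ → X) 1 mu := (Lp.memLp f).mono_exponent le_top

/-- The inclusion `L^∞([0,1], X) → L^1([0,1], X)`. -/
noncomputable def iota (X : Type*) [NormedAddCommGroup X] [NormedSpace ℝ X] :
    LinfUnit X →L[ℝ] Lp X 1 mu :=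
  LinearMap.mkContinuous
    { toFun := fun f => (iota_mem f).toLp _
      map_add' := by
        intro f g
        apply Lp.ext
        filter_upwards [(iota_mem (f + g)).coeFn_toLp, (iota_mem f).coeFn_toLp,
          (iota_mem g).coeFn_toLp, Lp.coeFn_add f g,
          Lp.coeFn_add ((iota_mem f).toLp _) ((iota_mem g).toLp _)] with t h1 h2 h3 h4 h5
        rw [h1, h5, Pi.add_apply, h2, h3, h4, Pi.add_apply]
      map_smul' := by
        intro c f
        apply Lp.ext
        filter_upwards [(iota_mem (c • f)).coeFn_toLp, (iota_mem f).coeFn_toLp,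
          Lp.coeFn_smul c f, Lp.coeFn_smul c ((iota_mem f).toLp _)] with t h1 h2 h4 h5
        rw [RingHom.id_apply, h1, h5, Pi.smul_apply, h2, h4, Pi.smul_apply] } 1 (by
      intro f
      change ‖(iota_mem f).toLp _‖ ≤ 1 * ‖f‖
      rw [L1.norm_eq_integral_norm, one_mul]
      have h1 : ∫ t, ‖((iota_mem f).toLp _ : ℝ → X) t‖ ∂mu ≤ ∫ _, ‖f‖ ∂mu := by
        apply integral_mono_ae (L1.integrable_coeFn _).norm (integrable_const _)
        filter_upwards [(iota_mem f).coeFn_toLp, ae_norm_le f] with t h1 h2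
        rw [h1]
        exact h2
      refine h1.trans ?_
      rw [integral_const, measureReal_def, mu_univ]
      simp)

lemma iota_coe (f : LinfUnit X) : (iota X f : ℝ → X) =ᵐ[mu] f := (iota_mem f).coeFn_toLp

/-- The inclusion of sequences. -/
noncomputable def iotaSeq (X : Type*) [NormedAddCommGroup X] [NormedSpace ℝ X] :
    linfSeq (LinfUnit X) →L[ℝ] linfSeq (Lp X 1 mu) :=
  LinearMap.mkContinuous
    { toFun := fun F => mkB (fun m => iota X (F m)) (‖iota X‖ * ‖F‖) (fun m =>
        ((iota X).le_opNorm _).trans (mul_le_mul_of_nonneg_left (nrm_apply F m) (norm_nonneg _)))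
      map_add' := by
        intro F G
        ext m : 2
        exact map_add (iota X) (F m) (G m)
      map_smul' := by
        intro c F
        ext m : 2
        exact map_smul (iota X) c (F m) } ‖iota X‖ (by
      intro F
      exact nrm_le (by positivity) fun m => ((iota X).le_opNorm _).trans
        (mul_le_mul_of_nonneg_left (nrm_apply F m) (norm_nonneg _)))

lemma iotaSeq_apply (F : linfSeq (LinfUnit X)) (m : ℕ) : iotaSeq X F m = iota X (F m) := rfl

variable [Lattice X] [HasSolidNorm X] [IsOrderedAddMonoid X]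

/-- Banach lattices without `c_0`. -/
theorem AEProp.of_KB [CompleteSpace X] (hX : KB X) : AEProp ℝ X := by
  have hY : KB (Lp X 1 mu) := hX.L1
  set Λ : linfSeq (Lp X 1 mu) →L[ℝ] Lp X 1 mu := lamL hY with hΛ
  have hbd : ∀ F : linfSeq (LinfUnit X), ∀ᵐ t ∂mu,
      ‖(Λ (iotaSeq X F) : ℝ → X) t‖ ≤ 2 * ‖F‖ := by
    intro F
    apply ae_le_of_avg (Lp.aestronglyMeasurable _) (L1.integrable_coeFn _)
    intro A hA hA0
    rw [← avgOne_apply]
    have hpt : ∀ (u : Lp X 1 mu) (m : ℕ), |u| ≤ |iotaSeq X F m| → ‖avgOne A u‖ ≤ ‖F‖ := by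
      intro u m hu
      apply norm_avg_le hA0
      filter_upwards [ae_norm_le_of_abs_le hu, iota_coe (F m), ae_norm_le (F m)] with t h1 h2 h3
      rw [iotaSeq_apply, h2] at h1
      exact h1.trans (h3.trans (nrm_apply F m))
    apply norm_lamL_le hY
    · intro m h
      apply hpt _ m
      rw [abs_of_nonneg (le_inf (posPart_nonneg _) (posPart_nonneg h))]
      refine inf_le_left.trans ?_
      rw [← posPart_add_negPart]
      exact le_add_of_nonneg_right (negPart_nonneg _)
    · intro m h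
      apply hpt _ m
      rw [abs_of_nonneg (le_inf (negPart_nonneg _) (posPart_nonneg h))]
      refine inf_le_left.trans ?_
      rw [← posPart_add_negPart]
      exact le_add_of_nonneg_left (posPart_nonneg _)
  have hmem : ∀ F : linfSeq (LinfUnit X), MemLp (Λ (iotaSeq X F) : ℝ → X) ∞ mu := fun F =>
    memLp_top_of_bound (Lp.aestronglyMeasurable _) _ (hbd F)
  let P : linfSeq (LinfUnit X) →L[ℝ] LinfUnit X := LinearMap.mkContinuous
    { toFun := fun F => (hmem F).toLp _
      map_add' := by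
        intro F G
        apply Lp.ext
        have h0 : Λ (iotaSeq X (F + G)) = Λ (iotaSeq X F) + Λ (iotaSeq X G) := by
          rw [map_add, map_add]
        filter_upwards [(hmem (F + G)).coeFn_toLp, (hmem F).coeFn_toLp, (hmem G).coeFn_toLp,
          Lp.coeFn_add (Λ (iotaSeq X F)) (Λ (iotaSeq X G)),
          Lp.coeFn_add ((hmem F).toLp _) ((hmem G).toLp _)] with t h1 h2 h3 h4 h5
        rw [h1, h5, Pi.add_apply, h2, h3, h0, h4, Pi.add_apply]
      map_smul' := by
        intro c F
        apply Lp.ext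
        have h0 : Λ (iotaSeq X (c • F)) = c • Λ (iotaSeq X F) := by
          rw [map_smul, map_smul]
        filter_upwards [(hmem (c • F)).coeFn_toLp, (hmem F).coeFn_toLp,
          Lp.coeFn_smul c (Λ (iotaSeq X F)),
          Lp.coeFn_smul c ((hmem F).toLp _)] with t h1 h2 h4 h5
        rw [RingHom.id_apply, h1, h5, Pi.smul_apply, h2, h0, h4, Pi.smul_apply] } 2 (by
      intro F
      apply norm_le_of_ae (by positivity)
      change ∀ᵐ t ∂mu, ‖((hmem F).toLp _ : ℝ → X) t‖ ≤ 2 * ‖F‖
      filter_upwards [(hmem F).coeFn_toLp, hbd F] with t h1 h2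
      rw [h1]
      exact h2)
  refine ⟨P, fun F g hF => ?_⟩
  have h1 : Tendsto (fun m => iotaSeq X F m) atTop (𝓝 (iota X g)) := by
    apply L1_tendsto (integrable_const ‖F‖)
    · intro m
      filter_upwards [iota_coe (F m), ae_norm_le (F m)] with t h2 h3
      rw [iotaSeq_apply, h2]
      exact h3.trans (nrm_apply F m)
    · have h2 : ∀ᵐ t ∂mu, ∀ m, (iotaSeq X F m : ℝ → X) t = (F m : ℝ → X) t :=
        ae_all_iff.2 fun m => iota_coe (F m)
      filter_upwards [h2, iota_coe g, hF] with t h3 h4 h5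
      simp only [h3, h4]
      exact h5
  have h2 : Λ (iotaSeq X F) = iota X g := lamL_tendsto hY _ h1
  apply Lp.ext
  filter_upwards [(hmem F).coeFn_toLp, iota_coe g] with t h3 h4
  change ((hmem F).toLp _ : ℝ → X) t = (g : ℝ → X) t
  rw [h3, h2, h4]

/-- If a Banach lattice does not contain `c_0`, the two spaces are isomorphic. -/
theorem lattice_iso [CompleteSpace X] (hX : ¬ ContainsC0 ℝ X) :
    Iso ℝ (linfSeq X) (LinfUnit X) := (AEProp.of_KB (KB.of_not_containsC0 hX)).iso

end Pool.Agent.LinfX
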