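import Pool.Agent.LinfX.Good

open MeasureTheory Set Filter Topology
open scoped ENNReal

namespace Pool.Agent.LinfX

variable {𝕜 : Type*} [RCLike 𝕜] {Y : Type*} [NormedAddCommGroup Y] [NormedSpace 𝕜 Y]
variable {E : ℕ → Type*} [∀ i, NormedAddCommGroup (E i)] [∀ i, NormedSpace 𝕜 (E i)]

/-- Oscillating test functionals tend to zero. -/
lemma pr_tendsto (g : Lp Y ∞ mu) (m : ℕ → ℕ) (hm : ∀ n, n ≤ m n) (s : ℕ → ℝ → ℝ)
    (hs : ∀ n t, s n t = 0 ∨ s n t = 1 ∨ s n t = -1) (hsd : ∀ n, Dy (m n) (s n))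
    (y' : ℕ → StrongDual 𝕜 Y) {C : ℝ} (hC : ∀ n, ‖y' n‖ ≤ C) :
    Tendsto (fun n => pr (toL 𝕜 (fun t => rad (m n + 1) t * s n t)) (y' n) g) atTop (𝓝 0) := by
  let _ : NormedSpace ℝ Y := NormedSpace.restrictScalars ℝ 𝕜 Y
  have hC0 : 0 ≤ C := (norm_nonneg _).trans (hC 0)
  have hsabs : ∀ n t, |s n t| ≤ 1 := by
    intro n t; rcases hs n t with h | h | h <;> rw [h] <;> simp
  have hfm : ∀ n, Measurable (fun t => rad (m n + 1) t * s n t) := fun n =>
    (rad_meas _).mul (hsd n).measurable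
  have hfb : ∀ n t, |rad (m n + 1) t * s n t| ≤ 1 := fun n t =>
    abs_mul_le (rad_abs _ _).le (hsabs n t)
  rw [Metric.tendsto_atTop]
  intro ε hε
  have hgi := integrable_of_Linf g
  obtain ⟨m0, g', hg'd, hg'i, hg'⟩ := exists_dyadic_approx hgi
    (show 0 < ε / (2 * (C + 1)) by positivity)
  refine ⟨m0, fun n hn => ?_⟩
  rw [dist_zero_right, pr_apply]
  have e1 : ∫ t, (toL 𝕜 (fun t => rad (m n + 1) t * s n t) : ℝ → 𝕜) t * y' n (g t) ∂mu =
      ∫ t, ((rad (m n + 1) t * s n t : ℝ) : 𝕜) * y' n (g t) ∂mu := by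
    apply integral_congr_ae
    filter_upwards [toL_coe (𝕜 := 𝕜) (hfm n) (hfb n)] with t ht
    rw [ht]
  have hstrong : AEStronglyMeasurable (fun t => ((rad (m n + 1) t * s n t : ℝ) : 𝕜)) mu :=
    (RCLike.measurable_ofReal.comp (hfm n)).aestronglyMeasurable
  have hbd : ∀ᵐ t ∂mu, ‖((rad (m n + 1) t * s n t : ℝ) : 𝕜)‖ ≤ 1 :=
    Eventually.of_forall fun t => by rw [RCLike.norm_ofReal]; exact hfb n t
  have i1 : Integrable (fun t => ((rad (m n + 1) t * s n t : ℝ) : 𝕜) * y' n (g t)) mu :=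
    ((y' n).integrable_comp hgi).bdd_mul (c := 1) hstrong hbd
  have i2 : Integrable (fun t => ((rad (m n + 1) t * s n t : ℝ) : 𝕜) * y' n (g' t)) mu :=
    ((y' n).integrable_comp hg'i).bdd_mul (c := 1) hstrong hbd
  have hzero : ∫ t, ((rad (m n + 1) t * s n t : ℝ) : 𝕜) * y' n (g' t) ∂mu = 0 := by
    have e2 : (fun t => ((rad (m n + 1) t * s n t : ℝ) : 𝕜) * y' n (g' t)) =
        fun t => rad (m n + 1) t • ((s n t : 𝕜) * y' n (g' t)) := by
      funext t
      rw [RCLike.real_smul_eq_coe_mul]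
      push_cast
      ring
    rw [e2]
    apply integral_rad
    · intro t t' htt
      simp only
      rw [hsd n t t' htt, (hg'd.mono (hn.trans (hm n))) t t' htt]
    · have hst : AEStronglyMeasurable (fun t => (s n t : 𝕜)) mu :=
        (RCLike.measurable_ofReal.comp (hsd n).measurable).aestronglyMeasurable
      exact ((y' n).integrable_comp hg'i).bdd_mul (c := 1) hst
        (Eventually.of_forall fun t => by rw [RCLike.norm_ofReal]; exact hsabs n t)
  rw [e1]
  have e3 : ∫ t, ((rad (m n + 1) t * s n t : ℝ) : 𝕜) * y' n (g t) ∂mu =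
      ∫ t, ((rad (m n + 1) t * s n t : ℝ) : 𝕜) * y' n (g t - g' t) ∂mu := by
    have : ∀ t, ((rad (m n + 1) t * s n t : ℝ) : 𝕜) * y' n (g t - g' t) =
      ((rad (m n + 1) t * s n t : ℝ) : 𝕜) * y' n (g t) -
        ((rad (m n + 1) t * s n t : ℝ) : 𝕜) * y' n (g' t) := by
      intro t; rw [map_sub, mul_sub]
    simp only [this]
    rw [integral_sub i1 i2, hzero, sub_zero]
  rw [e3]
  refine (norm_integral_le_integral_norm _).trans_lt ?_
  have h1 : ∫ t, ‖((rad (m n + 1) t * s n t : ℝ) : 𝕜) * y' n (g t - g' t)‖ ∂mu ≤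
      ∫ t, C * ‖g t - g' t‖ ∂mu := by
    apply integral_mono_of_nonneg (Eventually.of_forall fun t => norm_nonneg _)
    · exact (hgi.sub hg'i).norm.const_mul C
    · refine Eventually.of_forall fun t => ?_
      simp only
      rw [norm_mul, RCLike.norm_ofReal]
      have h2 : ‖y' n (g t - g' t)‖ ≤ C * ‖g t - g' t‖ :=
        ((y' n).le_opNorm _).trans (by gcongr; exact hC n)
      have h3 := hfb n t
      nlinarith [norm_nonneg (y' n (g t - g' t)), abs_nonneg (rad (m n + 1) t * s n t)]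
  refine h1.trans_lt ?_
  rw [integral_const_mul]
  have h4 : C * ∫ t, ‖g t - g' t‖ ∂mu ≤ C * (ε / (2 * (C + 1))) :=
    mul_le_mul_of_nonneg_left hg' hC0
  refine h4.trans_lt ?_
  have h5 : C * (ε / (2 * (C + 1))) = ε / 2 * (C / (C + 1)) := by
    field_simp
  have h6 : C / (C + 1) ≤ 1 := by
    rw [div_le_one (by positivity)]; linarith
  rw [h5]
  nlinarith

/-- The unit vectors of `c_0`. -/
noncomputable def ec (𝕜 : Type*) [RCLike 𝕜] (n : ℕ) : ZeroAtInftyContinuousMap ℕ 𝕜 where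
  toFun := Pi.single n 1
  continuous_toFun := continuous_of_discreteTopology
  zero_at_infty' := by
    rw [cocompact_eq_cofinite]
    apply tendsto_nhds_of_eventually_eq
    have : ({n} : Set ℕ)ᶜ ∈ cofinite := (Set.finite_singleton n).compl_mem_cofinite
    filter_upwards [this] with i hi
    exact Pi.single_eq_of_ne hi _

lemma ec_apply (n i : ℕ) : ec 𝕜 n i = if i = n then 1 else 0 := by
  change (Pi.single n 1 : ℕ → 𝕜) i = _
  rw [Pi.single_apply]

lemma norm_c0_le {a : ZeroAtInftyContinuousMap ℕ 𝕜} {C : ℝ} (hC : 0 ≤ C) (h : ∀ i, ‖a i‖ ≤ C) :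
    ‖a‖ ≤ C := by
  rw [← ZeroAtInftyContinuousMap.norm_toBCF_eq_norm]
  exact (BoundedContinuousFunction.norm_le hC).2 h

lemma le_norm_c0 (a : ZeroAtInftyContinuousMap ℕ 𝕜) (i : ℕ) : ‖a i‖ ≤ ‖a‖ := by
  rw [← ZeroAtInftyContinuousMap.norm_toBCF_eq_norm]
  exact a.toBCF.norm_coe_le_norm i

lemma norm_ec (n : ℕ) : 1 ≤ ‖ec 𝕜 n‖ := by
  have := le_norm_c0 (ec 𝕜 n) n
  rw [ec_apply, if_pos rfl, norm_one] at this
  exact this

lemma norm_comb (G : Finset ℕ) (b : ℕ → 𝕜) {B : ℝ} (hB : 0 ≤ B) (hb : ∀ n, ‖b n‖ ≤ B) :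
    ‖∑ n ∈ G, b n • ec 𝕜 n‖ ≤ B := by
  apply norm_c0_le hB
  intro i
  have e : (∑ n ∈ G, b n • ec 𝕜 n : ZeroAtInftyContinuousMap ℕ 𝕜) i =
      ∑ n ∈ G, b n * (if i = n then 1 else 0) := by
    have : ∀ G : Finset ℕ, (∑ n ∈ G, b n • ec 𝕜 n : ZeroAtInftyContinuousMap ℕ 𝕜) i =
      ∑ n ∈ G, b n * (if i = n then 1 else 0) := by
      intro G
      classical
      induction G using Finset.induction_on with
      | empty => simp
      | insert a G ha ih =>
        rw [Finset.sum_insert ha, Finset.sum_insert ha, ← ih, ← ec_apply (𝕜 := 𝕜) a i]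
        rfl
    exact this G
  rw [e]
  simp only [mul_ite, mul_one, mul_zero, Finset.sum_ite_eq]
  split_ifs
  · exact hb i
  · rw [norm_zero]; exact hB

/-- **Main theorem.** If `Y` contains `c_0` and no `E n` contains `ℓ^∞`, then `L^∞([0,1], Y)` is
not isomorphic to a complemented subspace of the `ℓ^∞`-sum of the `E n`. -/
theorem main (hY : ContainsC0 𝕜 Y) (hE : ∀ n, ¬ ContainsLinf 𝕜 (E n)) :
    ¬ ∃ (T : Lp Y ∞ mu →L[𝕜] lp E ∞) (S : lp E ∞ →L[𝕜] Lp Y ∞ mu), ∀ g, S (T g) = g := by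
  rintro ⟨T, S, hST⟩
  obtain ⟨J, c, hc, hJ⟩ := hY
  set x : ℕ → Y := fun n => J (ec 𝕜 n) with hx
  have hxn : ∀ n, c ≤ ‖x n‖ := fun n => by
    have h1 := hJ (ec 𝕜 n)
    have h2 := norm_ec (𝕜 := 𝕜) n
    simp only [hx]
    nlinarith
  have hxpos : ∀ n, 0 < ‖x n‖ := fun n => hc.trans_le (hxn n)
  have hy' : ∀ n, ∃ y' : StrongDual 𝕜 Y, ‖y'‖ ≤ 1 / c ∧ y' (x n) = 1 := by
    intro n
    obtain ⟨z, hz1, hz2⟩ := exists_dual_vector'' 𝕜 (x n)
    refine ⟨((‖x n‖⁻¹ : ℝ) : 𝕜) • z, ?_, ?_⟩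
    · rw [norm_smul, RCLike.norm_ofReal, abs_of_pos (inv_pos.2 (hxpos n))]
      calc ‖x n‖⁻¹ * ‖z‖ ≤ c⁻¹ * 1 := by
            apply mul_le_mul _ hz1 (norm_nonneg _) (inv_pos.2 hc).le
            exact inv_anti₀ hc (hxn n)
        _ = 1 / c := by rw [mul_one, one_div]
    · change ((‖x n‖⁻¹ : ℝ) : 𝕜) * z (x n) = 1
      rw [hz2, ← RCLike.ofReal_mul, inv_mul_cancel₀ (hxpos n).ne', RCLike.ofReal_one]
  choose y' hy'n hy'1 using hy'
  have hkey := fun n => key T S n (fun k _ => hE k) (x n) (y' n) n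
  choose m hm s hs hsd hgood using hkey
  set f : ℕ → Lp 𝕜 ∞ mu := fun n => toL 𝕜 (fun t => rad (m n + 1) t * s n t) with hf
  have hsabs : ∀ n t, |s n t| ≤ 1 := by
    intro n t; rcases hs n t with h | h | h <;> rw [h] <;> simp
  have hfm : ∀ n, Measurable (fun t => rad (m n + 1) t * s n t) := fun n =>
    (rad_meas _).mul (hsd n).measurable
  have hfb : ∀ n t, |rad (m n + 1) t * s n t| ≤ 1 := fun n t =>
    abs_mul_le (rad_abs _ _).le (hsabs n t)
  have hfle : ∀ n, ∀ᵐ t ∂mu, ‖f n t‖ ≤ 1 := fun n => by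
    filter_upwards [toL_coe (𝕜 := 𝕜) (hfm n) (hfb n)] with t ht
    simp only [hf]
    rw [ht, RCLike.norm_ofReal]; exact hfb n t
  -- bound of the partial sums
  have hbound : ∀ (a : lp (fun _ : ℕ => 𝕜) ∞) (G : Finset ℕ),
      ‖∑ n ∈ G, a n • tens (x n) (f n)‖ ≤ ‖J‖ * ‖a‖ := by
    intro a G
    apply norm_le_of_ae (by positivity)
    have e1 := Lp.coeFn_finsetSum (p := ∞) (μ := mu) G (fun n => a n • tens (x n) (f n))
    have e2 : ∀ᵐ t ∂mu, ∀ n, (a n • tens (x n) (f n) : Lp Y ∞ mu) t = (a n * f n t) • x n := by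
      rw [ae_all_iff]
      intro n
      filter_upwards [Lp.coeFn_smul (a n) (tens (x n) (f n)), tens_coe (x n) (f n)] with t h1 h2
      rw [h1, Pi.smul_apply, h2, smul_smul]
    have e3 : ∀ᵐ t ∂mu, ∀ n, ‖f n t‖ ≤ 1 := ae_all_iff.2 hfle
    filter_upwards [e1, e2, e3] with t h1 h2 h3
    rw [h1, Finset.sum_apply, Finset.sum_congr rfl (fun n _ => h2 n)]
    have h4 : ∑ n ∈ G, (a n * f n t) • x n = J (∑ n ∈ G, (a n * f n t) • ec 𝕜 n) := by
      rw [map_sum]
      apply Finset.sum_congr rfl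
      intro n _
      rw [map_smul]
    rw [h4]
    refine (J.le_opNorm _).trans ?_
    gcongr
    apply norm_comb G _ (norm_nonneg _)
    intro n
    rw [norm_mul]
    have h5 := lp.norm_apply_le_norm ENNReal.top_ne_zero a n
    calc ‖a n‖ * ‖f n t‖ ≤ ‖a‖ * 1 :=
          mul_le_mul h5 (h3 n) (norm_nonneg _) (norm_nonneg _)
      _ = ‖a‖ := mul_one _
  have hbdU : ∀ (a : lp (fun _ : ℕ => 𝕜) ∞) (k : ℕ),
      ‖(T (∑ n ∈ Finset.range (k + 1), a n • tens (x n) (f n))) k‖ ≤ ‖T‖ * (‖J‖ * ‖a‖) := by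
    intro a k
    refine (lp.norm_apply_le_norm ENNReal.top_ne_zero _ k).trans ((T.le_opNorm _).trans ?_)
    exact mul_le_mul_of_nonneg_left (hbound a _) (norm_nonneg _)
  let U : lp (fun _ : ℕ => 𝕜) ∞ →L[𝕜] lp E ∞ := LinearMap.mkContinuous
    { toFun := fun a => ⟨fun k => (T (∑ n ∈ Finset.range (k + 1), a n • tens (x n) (f n))) k,
        memℓp_infty ⟨‖T‖ * (‖J‖ * ‖a‖), by rintro _ ⟨k, rfl⟩; exact hbdU a k⟩⟩
      map_add' := by
        intro a b
        ext k
        change (T (∑ n ∈ Finset.range (k + 1), (a n + b n) • tens (x n) (f n))) k =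
          (T (∑ n ∈ Finset.range (k + 1), a n • tens (x n) (f n))) k +
          (T (∑ n ∈ Finset.range (k + 1), b n • tens (x n) (f n))) k
        simp only [add_smul, Finset.sum_add_distrib, map_add]
        rfl
      map_smul' := by
        intro r a
        ext k
        change (T (∑ n ∈ Finset.range (k + 1), (r • a n) • tens (x n) (f n))) k =
          r • (T (∑ n ∈ Finset.range (k + 1), a n • tens (x n) (f n))) k
        have : ∑ n ∈ Finset.range (k + 1), (r • a n) • tens (x n) (f n) =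
            r • ∑ n ∈ Finset.range (k + 1), a n • tens (x n) (f n) := by
          rw [Finset.smul_sum]
          apply Finset.sum_congr rfl
          intro n _
          rw [smul_assoc]
        rw [this, map_smul]
        rfl } (‖T‖ * ‖J‖) (by
      intro a
      apply lp.norm_le_of_forall_le (by positivity)
      intro k
      refine (hbdU a k).trans (le_of_eq ?_)
      ring)
  have hU : ∀ a k, (U a) k = (T (∑ n ∈ Finset.range (k + 1), a n • tens (x n) (f n))) k :=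
    fun a k => rfl
  have hUev : ∀ n, U (ev 𝕜 n) = T (tens (x n) (f n)) -
      trunc (𝕜 := 𝕜) n (T (tens (x n) (f n))) := by
    intro n
    ext k
    have e0 : (T (tens (x n) (f n)) - trunc (𝕜 := 𝕜) n (T (tens (x n) (f n))) : lp E ∞) k =
      (T (tens (x n) (f n))) k - trunc (𝕜 := 𝕜) n (T (tens (x n) (f n))) k := rfl
    rw [hU, e0, trunc_apply]
    by_cases hk : k < n
    · rw [if_pos hk, sub_self]
      have : ∑ i ∈ Finset.range (k + 1), ev 𝕜 n i • tens (x i) (f i) = 0 := by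
        apply Finset.sum_eq_zero
        intro i hi
        rw [ev_ne (by rw [Finset.mem_range] at hi; omega), zero_smul]
      rw [this, map_zero]
      rfl
    · rw [if_neg hk, sub_zero]
      have : ∑ i ∈ Finset.range (k + 1), ev 𝕜 n i • tens (x i) (f i) = tens (x n) (f n) := by
        rw [Finset.sum_eq_single_of_mem n (by rw [Finset.mem_range]; omega)]
        · rw [ev_self, one_smul]
        · intro i _ hi
          rw [ev_ne hi, zero_smul]
      rw [this]
  set w : ℕ → (lp (fun _ : ℕ => 𝕜) ∞ →L[𝕜] 𝕜) := fun n => (pr (f n) (y' n)).comp (S.comp U) with hw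
  have hpn : ∀ n, ‖pr (f n) (y' n)‖ ≤ 1 / c := by
    intro n
    apply ContinuousLinearMap.opNorm_le_bound _ (by positivity)
    intro g
    refine (norm_pr_le _ _ _).trans ?_
    have h1 : ∫ t, ‖f n t‖ ∂mu ≤ 1 := by
      have h2 : ∫ t, ‖f n t‖ ∂mu ≤ ∫ _ : ℝ, (1 : ℝ) ∂mu :=
        integral_mono_of_nonneg (Eventually.of_forall fun t => norm_nonneg _)
          (integrable_const _) (hfle n)
      refine h2.trans (le_of_eq ?_)
      simp
    have h3 : 0 ≤ ∫ t, ‖f n t‖ ∂mu := integral_nonneg fun t => norm_nonneg _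
    gcongr
    calc (∫ t, ‖f n t‖ ∂mu) * ‖y' n‖ ≤ 1 * (1 / c) :=
          mul_le_mul h1 (hy'n n) (norm_nonneg _) zero_le_one
      _ = 1 / c := one_mul _
  obtain ⟨n, hn⟩ := diag_small w (C := 1 / c * ‖S.comp U‖) (by
      intro n
      refine (ContinuousLinearMap.opNorm_comp_le _ _).trans ?_
      exact mul_le_mul_of_nonneg_right (hpn n) (norm_nonneg _)) (by
      intro a
      exact pr_tendsto (S (U a)) m hm s hs hsd y' hy'n) (show (0 : ℝ) < 1 / 4 by norm_num)
  have e1 : w n (ev 𝕜 n) = pr (f n) (y' n) (tens (x n) (f n)) -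
      pr (f n) (y' n) (Rop T S n (x n) (f n)) := by
    change pr (f n) (y' n) (S (U (ev 𝕜 n))) = _
    rw [hUev, map_sub, map_sub, hST]
    rfl
  have e2 : pr (f n) (y' n) (tens (x n) (f n)) = ((∫ t, s n t * s n t ∂mu : ℝ) : 𝕜) := by
    rw [pr_apply, ← integral_ofReal]
    apply integral_congr_ae
    filter_upwards [toL_coe (𝕜 := 𝕜) (hfm n) (hfb n), tens_coe (x n) (f n)] with t h1 h2
    rw [h2, map_smul, hy'1, smul_eq_mul, mul_one]
    simp only [hf]
    rw [h1]
    have h3 := rad_sq (m n + 1) t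
    rw [← RCLike.ofReal_mul]
    congr 1
    calc rad (m n + 1) t * s n t * (rad (m n + 1) t * s n t) =
        (rad (m n + 1) t * rad (m n + 1) t) * (s n t * s n t) := by ring
      _ = s n t * s n t := by rw [h3, one_mul]
  have e3 : RCLike.re (w n (ev 𝕜 n)) = (∫ t, s n t * s n t ∂mu) -
      RCLike.re (pr (f n) (y' n) (Rop T S n (x n) (f n))) := by
    rw [e1, map_sub, e2, RCLike.ofReal_re]
  have h4 := hgood n
  have h5 := RCLike.re_le_norm (w n (ev 𝕜 n))
  rw [e3] at h5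
  linarith

end Pool.Agent.LinfX
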