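import Pool.Agent.LinfX.Cut
import Pool.Agent.LinfX.Avg

/-!
The normal part of an operator on `ℓ^∞(X)` with values in a space without `c_0`.
-/

open MeasureTheory Set Filter Topology
open scoped ENNReal NNReal

namespace Pool.Agent.LinfX

variable {𝕜 : Type*} [RCLike 𝕜]
variable {X : Type*} [NormedAddCommGroup X] [NormedSpace 𝕜 X]
variable {Y : Type*} [NormedAddCommGroup Y] [NormedSpace 𝕜 Y]

/-- Evaluation at a coordinate. -/
noncomputable def evL (𝕜 : Type*) [RCLike 𝕜] {X : Type*} [NormedAddCommGroup X]
    [NormedSpace 𝕜 X] (n : ℕ) : linfSeq X →L[𝕜] X :=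
  LinearMap.mkContinuous
    { toFun := fun a => a n
      map_add' := fun _ _ => rfl
      map_smul' := fun _ _ => rfl } 1 (fun a => by rw [one_mul]; exact nrm_apply a n)

lemma evL_apply (n : ℕ) (a : linfSeq X) : evL 𝕜 n a = a n := rfl

/-- The sequence with one nonzero term. -/
noncomputable def sg (n : ℕ) (x : X) : linfSeq X := lp.single ∞ n x

lemma sg_self (n : ℕ) (x : X) : sg n x n = x := lp.single_apply_self _ _ _

lemma sg_ne {n i : ℕ} (x : X) (h : i ≠ n) : sg n x i = 0 := lp.single_apply_ne _ _ _ h

lemma sg_apply (n i : ℕ) (x : X) : sg n x i = if i = n then x else 0 := by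
  by_cases h : i = n
  · rw [if_pos h, h, sg_self]
  · rw [if_neg h, sg_ne x h]

lemma sum_sg_apply (y : ℕ → X) (F : Finset ℕ) (i : ℕ) :
    (∑ n ∈ F, sg n (y n) : linfSeq X) i = if i ∈ F then y i else 0 := by
  rw [lp.coeFn_sum, Finset.sum_apply]
  simp only [sg_apply]
  rw [Finset.sum_ite_eq]

/-- The constant sequence. -/
noncomputable def cseq (x : X) : linfSeq X := mkB (fun _ => x) ‖x‖ (fun _ => le_rfl)

lemma cseq_apply (x : X) (n : ℕ) : cseq x n = x := rfl

lemma norm_cseq_le (x : X) : ‖cseq x‖ ≤ ‖x‖ := nrm_le (norm_nonneg _) fun _ => le_rfl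

/-- The constant sequences as an operator. -/
noncomputable def cseqL (𝕜 : Type*) [RCLike 𝕜] {X : Type*} [NormedAddCommGroup X]
    [NormedSpace 𝕜 X] : X →L[𝕜] linfSeq X :=
  LinearMap.mkContinuous
    { toFun := fun x => cseq x
      map_add' := fun _ _ => rfl
      map_smul' := fun _ _ => rfl } 1 (fun a => by rw [one_mul]; exact norm_cseq_le a)

lemma cseqL_apply (x : X) : cseqL 𝕜 x = cseq x := rfl

/-- The normal part. -/
theorem exists_normal [CompleteSpace Y] (hY : ¬ ContainsC0 𝕜 Y) (A : linfSeq X →L[𝕜] Y) :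
    ∃ B : linfSeq X →L[𝕜] Y, (∀ y, HasSum (fun n => A (sg n (y n))) (B y)) ∧
      ∀ y : linfSeq X, Tendsto (fun n => y n) atTop (𝓝 0) → B y = A y := by
  have hWU : ∀ y : linfSeq X, WU (‖A‖ * ‖y‖) (fun n => A (sg n (y n))) := by
    intro y F
    rw [← map_sum]
    refine (A.le_opNorm _).trans ?_
    apply mul_le_mul_of_nonneg_left _ (norm_nonneg _)
    apply nrm_le (norm_nonneg _)
    intro i
    rw [sum_sg_apply]
    split_ifs
    · exact nrm_apply y i
    · rw [norm_zero]; exact norm_nonneg _
  have hs : ∀ y : linfSeq X, Summable (fun n => A (sg n (y n))) := fun y =>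
    (hWU y).summable 𝕜 hY
  let B : linfSeq X →L[𝕜] Y := LinearMap.mkContinuous
    { toFun := fun y => ∑' n, A (sg n (y n))
      map_add' := by
        intro a b
        rw [← (hs a).tsum_add (hs b)]
        congr 1
        ext n
        rw [← map_add]
        congr 1
        ext i
        change sg n (a n + b n) i = sg n (a n) i + sg n (b n) i
        simp only [sg_apply]
        split_ifs
        · rfl
        · rw [add_zero]
      map_smul' := by
        intro c a
        rw [RingHom.id_apply, ← (hs a).tsum_const_smul]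
        congr 1
        ext n
        rw [← map_smul]
        congr 1
        ext i
        change sg n (c • a n) i = c • sg n (a n) i
        simp only [sg_apply]
        split_ifs
        · rfl
        · rw [smul_zero] } ‖A‖ (by
      intro y
      change ‖∑' n, A (sg n (y n))‖ ≤ _
      exact le_of_tendsto (hs y).hasSum.norm (Eventually.of_forall fun F => hWU y F))
  have hB : ∀ y, HasSum (fun n => A (sg n (y n))) (B y) := fun y => (hs y).hasSum
  refine ⟨B, hB, fun y hy => ?_⟩
  -- both sides are the limit of the partial sums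
  have h1 : Tendsto (fun N => ∑ n ∈ Finset.range N, A (sg n (y n))) atTop (𝓝 (B y)) :=
    (hB y).tendsto_sum_nat
  have h2 : Tendsto (fun N => ∑ n ∈ Finset.range N, A (sg n (y n))) atTop (𝓝 (A y)) := by
    have e : ∀ N, ∑ n ∈ Finset.range N, A (sg n (y n)) =
        A (∑ n ∈ Finset.range N, sg n (y n)) := fun N => (map_sum _ _ _).symm
    simp only [e]
    apply (A.continuous.tendsto y).comp
    rw [Metric.tendsto_atTop]
    intro ε hε
    rw [Metric.tendsto_atTop] at hy
    obtain ⟨N, hN⟩ := hy (ε / 2) (half_pos hε)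
    refine ⟨N, fun M hM => ?_⟩
    rw [dist_eq_norm]
    refine lt_of_le_of_lt ?_ (half_lt_self hε)
    apply nrm_le (half_pos hε).le
    intro i
    have e2 : (∑ n ∈ Finset.range M, sg n (y n) - y : linfSeq X) i =
        (∑ n ∈ Finset.range M, sg n (y n) : linfSeq X) i - y i := rfl
    rw [e2, sum_sg_apply]
    by_cases hi : i ∈ Finset.range M
    · rw [if_pos hi, sub_self, norm_zero]; exact (half_pos hε).le
    · rw [if_neg hi, zero_sub, norm_neg]
      have := hN i (by rw [Finset.mem_range] at hi; omega)
      rw [dist_zero_right] at this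
      exact this.le
  exact tendsto_nhds_unique h1 h2

end Pool.Agent.LinfX
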