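import Pool.Agent.LinfX.Diff

/-!
Operators on `L^1([0,1])` and generalised limits.
-/

open MeasureTheory Set Filter Topology
open scoped ENNReal NNReal

namespace Pool.Agent.LinfX

variable {𝕜 : Type*} [RCLike 𝕜]
variable {X : Type*} [NormedAddCommGroup X] [NormedSpace 𝕜 X]

open Classical in
/-- The normalised indicator function of a set, in `L^1`. -/
noncomputable def nind (𝕜 : Type*) [RCLike 𝕜] (A : Set ℝ) : Lp 𝕜 1 mu :=
  if hA : MeasurableSet A then
    indicatorConstLp 1 hA (measure_ne_top mu A) (((mu A).toReal⁻¹ : ℝ) : 𝕜) else 0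

lemma nind_coe {A : Set ℝ} (hA : MeasurableSet A) :
    (nind 𝕜 A : ℝ → 𝕜) =ᵐ[mu] A.indicator (fun _ => (((mu A).toReal⁻¹ : ℝ) : 𝕜)) := by
  unfold nind
  rw [dif_pos hA]
  exact indicatorConstLp_coeFn

lemma norm_nind_le (A : Set ℝ) : ‖nind 𝕜 A‖ ≤ 1 := by
  unfold nind
  by_cases hA : MeasurableSet A
  · rw [dif_pos hA, norm_indicatorConstLp one_ne_zero ENNReal.one_ne_top, RCLike.norm_ofReal,
      ENNReal.toReal_one, div_one, Real.rpow_one, measureReal_def, abs_inv,
      abs_of_nonneg ENNReal.toReal_nonneg]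
    exact inv_mul_le_one
  · rw [dif_neg hA, norm_zero]; exact zero_le_one

lemma Represents.nind [CompleteSpace X] {g : LinfUnit X} {R : Lp 𝕜 1 mu →L[𝕜] X}
    (h : Represents g R) {A : Set ℝ} (hA : MeasurableSet A) :
    letI : NormedSpace ℝ X := NormedSpace.restrictScalars ℝ 𝕜 X
    R (nind 𝕜 A) = avg A g := by
  let _ : NormedSpace ℝ X := NormedSpace.restrictScalars ℝ 𝕜 X
  rw [h (LinfX.nind 𝕜 A)]
  have h1 : ∫ t, (LinfX.nind 𝕜 A : ℝ → 𝕜) t • (g : ℝ → X) t ∂mu =
      ∫ t, A.indicator (fun t => (mu A).toReal⁻¹ • (g : ℝ → X) t) t ∂mu := by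
    apply integral_congr_ae
    filter_upwards [nind_coe (𝕜 := 𝕜) hA] with t ht
    rw [ht]
    by_cases htA : t ∈ A
    · rw [indicator_of_mem htA, indicator_of_mem htA]
      rw [← algebraMap_smul 𝕜 ((mu A).toReal⁻¹) ((g : ℝ → X) t)]
    · rw [indicator_of_notMem htA, indicator_of_notMem htA, zero_smul]
  rw [h1, integral_indicator hA, integral_smul]
  rfl

lemma rep_integrable (f : LinfUnit X) (φ : Lp 𝕜 1 mu) :
    Integrable (fun t => (φ : ℝ → 𝕜) t • (f : ℝ → X) t) mu := by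
  have h1 : Integrable (φ : ℝ → 𝕜) mu := L1.integrable_coeFn φ
  exact h1.smul_bdd ‖f‖ (Lp.aestronglyMeasurable f) (ae_norm_le f)

lemma rep_norm_le [NormedSpace ℝ X] (f : LinfUnit X) (φ : Lp 𝕜 1 mu) :
    ‖∫ t, (φ : ℝ → 𝕜) t • (f : ℝ → X) t ∂mu‖ ≤ ‖f‖ * ‖φ‖ := by
  refine (norm_integral_le_integral_norm _).trans ?_
  have h1 : ‖φ‖ = ∫ t, ‖(φ : ℝ → 𝕜) t‖ ∂mu := L1.norm_eq_integral_norm φ
  rw [h1, ← integral_const_mul]
  apply integral_mono_ae (rep_integrable f φ).norm
  · exact (L1.integrable_coeFn φ).norm.const_mul _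
  · filter_upwards [ae_norm_le f] with t ht
    rw [norm_smul, mul_comm]
    exact mul_le_mul_of_nonneg_right ht (norm_nonneg _)

/-- The operator on `L^1` represented by `f`. -/
noncomputable def rep (𝕜 : Type*) [RCLike 𝕜] {X : Type*} [NormedAddCommGroup X]
    [NormedSpace 𝕜 X] (f : LinfUnit X) : Lp 𝕜 1 mu →L[𝕜] X :=
  letI : NormedSpace ℝ X := NormedSpace.restrictScalars ℝ 𝕜 X
  LinearMap.mkContinuous
    { toFun := fun φ => ∫ t, (φ : ℝ → 𝕜) t • (f : ℝ → X) t ∂mu
      map_add' := by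
        intro φ ψ
        rw [← integral_add (rep_integrable f φ) (rep_integrable f ψ)]
        apply integral_congr_ae
        filter_upwards [Lp.coeFn_add φ ψ] with t ht
        rw [ht, Pi.add_apply, add_smul]
      map_smul' := by
        intro c φ
        rw [RingHom.id_apply, ← integral_smul]
        apply integral_congr_ae
        filter_upwards [Lp.coeFn_smul c φ] with t ht
        rw [ht, Pi.smul_apply, smul_assoc] } ‖f‖ (fun φ => rep_norm_le f φ)

lemma rep_apply (f : LinfUnit X) (φ : Lp 𝕜 1 mu) :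
    letI : NormedSpace ℝ X := NormedSpace.restrictScalars ℝ 𝕜 X
    rep 𝕜 f φ = ∫ t, (φ : ℝ → 𝕜) t • (f : ℝ → X) t ∂mu := rfl

lemma represents_rep (f : LinfUnit X) : Represents f (rep 𝕜 f) := fun _ => rfl

lemma norm_rep_apply_le (f : LinfUnit X) (φ : Lp 𝕜 1 mu) : ‖rep 𝕜 f φ‖ ≤ ‖f‖ * ‖φ‖ := by
  let _ : NormedSpace ℝ X := NormedSpace.restrictScalars ℝ 𝕜 X
  exact rep_norm_le f φ

lemma rep_add (f g : LinfUnit X) (φ : Lp 𝕜 1 mu) :
    rep 𝕜 (f + g) φ = rep 𝕜 f φ + rep 𝕜 g φ := by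
  let _ : NormedSpace ℝ X := NormedSpace.restrictScalars ℝ 𝕜 X
  rw [rep_apply, rep_apply, rep_apply, ← integral_add (rep_integrable f φ) (rep_integrable g φ)]
  apply integral_congr_ae
  filter_upwards [Lp.coeFn_add f g] with t ht
  rw [ht, Pi.add_apply, smul_add]

lemma rep_smul (c : 𝕜) (f : LinfUnit X) (φ : Lp 𝕜 1 mu) :
    rep 𝕜 (c • f) φ = c • rep 𝕜 f φ := by
  let _ : NormedSpace ℝ X := NormedSpace.restrictScalars ℝ 𝕜 X
  rw [rep_apply, rep_apply, ← integral_smul]
  apply integral_congr_ae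
  filter_upwards [Lp.coeFn_smul c f] with t ht
  rw [ht, Pi.smul_apply, smul_comm]

/-- The sequence `(R (1_J / |J|))_J`. -/
noncomputable def seqOf (𝕜 : Type*) [RCLike 𝕜] (X : Type*) [NormedAddCommGroup X]
    [NormedSpace 𝕜 X] : (Lp 𝕜 1 mu →L[𝕜] X) →L[𝕜] linfSeq X :=
  LinearMap.mkContinuous
    { toFun := fun R => mkB (fun n => R (nind 𝕜 (JJ n.unpair.1 n.unpair.2))) ‖R‖
        (fun n => R.unit_le_opNorm _ (norm_nind_le _))
      map_add' := fun _ _ => rfl
      map_smul' := fun _ _ => rfl } 1 (by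
      intro R
      rw [one_mul]
      exact nrm_le (norm_nonneg _) fun n => R.unit_le_opNorm _ (norm_nind_le _))

lemma seqOf_apply (R : Lp 𝕜 1 mu →L[𝕜] X) (m k : ℕ) :
    seqOf 𝕜 X R (Nat.pair m k) = R (nind 𝕜 (JJ m k)) := by
  change R (nind 𝕜 (JJ (Nat.pair m k).unpair.1 (Nat.pair m k).unpair.2)) = _
  rw [Nat.unpair_pair]

/-- If almost everywhere convergent sequences have a generalised limit, then the representable
operators are complemented. -/
theorem AEProp.repComplemented [CompleteSpace X] (h : AEProp 𝕜 X) : RepComplemented 𝕜 X := by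
  let _ : NormedSpace ℝ X := NormedSpace.restrictScalars ℝ 𝕜 X
  obtain ⟨P, hP⟩ := h
  refine ⟨P.comp ((Gall 𝕜 X).comp (seqOf 𝕜 X)), fun g R hgR => ?_⟩
  rw [ContinuousLinearMap.comp_apply, ContinuousLinearMap.comp_apply]
  apply hP
  have h1 : ∀ᵐ t ∂mu, ∀ m, (Gall 𝕜 X (seqOf 𝕜 X R) m : ℝ → X) t = avg (JJ m (idx m t)) g :=
    ae_all_iff.2 fun m => by
      rw [Gall_apply]
      filter_upwards [pull_coe (𝕜 := 𝕜) (pairIdx_meas m) (seqOf 𝕜 X R)] with t ht
      rw [ht, seqOf_apply, hgR.nind (JJ_meas _ _)]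
  filter_upwards [h1, ae_tendsto_avg (integrable_of_Linf g)] with t h2 h3
  simp only [h2]
  exact h3

/-- The generalised limit of the operators represented by the terms of a sequence. -/
noncomputable def limRep (L : linfSeq X →L[𝕜] X) :
    linfSeq (LinfUnit X) →L[𝕜] (Lp 𝕜 1 mu →L[𝕜] X) :=
  LinearMap.mkContinuous₂
    (LinearMap.mk₂ 𝕜 (fun (F : linfSeq (LinfUnit X)) (φ : Lp 𝕜 1 mu) =>
      L (mkB (fun m => rep 𝕜 (F m) φ) (‖F‖ * ‖φ‖) (fun m => (norm_rep_apply_le (F m) φ).trans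
        (mul_le_mul_of_nonneg_right (nrm_apply F m) (norm_nonneg _)))))
      (by
        intro F G φ
        rw [← map_add]
        congr 1
        ext m
        exact rep_add (F m) (G m) φ)
      (by
        intro c F φ
        rw [← map_smul]
        congr 1
        ext m
        exact rep_smul c (F m) φ)
      (by
        intro F φ ψ
        rw [← map_add]
        congr 1
        ext m
        exact map_add (rep 𝕜 (F m)) φ ψ)
      (by
        intro c F φ
        rw [← map_smul]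
        congr 1
        ext m
        exact map_smul (rep 𝕜 (F m)) c φ)) ‖L‖ (by
      intro F φ
      rw [LinearMap.mk₂_apply]
      refine (L.le_opNorm _).trans ?_
      rw [mul_assoc]
      refine mul_le_mul_of_nonneg_left ?_ (norm_nonneg _)
      exact nrm_le (by positivity) fun m => (norm_rep_apply_le (F m) φ).trans
        (mul_le_mul_of_nonneg_right (nrm_apply F m) (norm_nonneg _)))

/-- The two conditions are sufficient. -/
theorem AEProp.of_banachLimit (h1 : HasBanachLimit 𝕜 X) (h2 : RepComplemented 𝕜 X) :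
    AEProp 𝕜 X := by
  let _ : NormedSpace ℝ X := NormedSpace.restrictScalars ℝ 𝕜 X
  obtain ⟨L, hL⟩ := h1
  obtain ⟨P, hP⟩ := h2
  refine ⟨P.comp (limRep L), fun F g hF => ?_⟩
  rw [ContinuousLinearMap.comp_apply]
  apply hP
  intro φ
  change L _ = ∫ t, (φ : ℝ → 𝕜) t • (g : ℝ → X) t ∂mu
  apply hL
  change Tendsto (fun m => ∫ t, (φ : ℝ → 𝕜) t • (F m : ℝ → X) t ∂mu) atTop _
  apply tendsto_integral_of_dominated_convergence (fun t => ‖(φ : ℝ → 𝕜) t‖ * ‖F‖)
  · intro m
    exact (rep_integrable (F m) φ).1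
  · exact (L1.integrable_coeFn φ).norm.mul_const _
  · intro m
    filter_upwards [ae_norm_le (F m)] with t ht
    rw [norm_smul]
    exact mul_le_mul_of_nonneg_left (ht.trans (nrm_apply F m)) (norm_nonneg _)
  · filter_upwards [hF] with t ht
    exact ht.const_smul _

/-- A function is determined by the operator which it represents, and its norm is at most the norm
of the operator. -/
lemma Represents.norm_le [CompleteSpace X] {g : LinfUnit X} {R : Lp 𝕜 1 mu →L[𝕜] X}
    (h : Represents g R) : ‖g‖ ≤ ‖R‖ := by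
  let _ : NormedSpace ℝ X := NormedSpace.restrictScalars ℝ 𝕜 X
  apply norm_le_of_ae (norm_nonneg _)
  apply ae_le_of_avg (Lp.aestronglyMeasurable g) (integrable_of_Linf g)
  intro A hA _
  rw [← h.nind hA]
  exact R.unit_le_opNorm _ (norm_nind_le _)

lemma Represents.add {g g' : LinfUnit X} {R R' : Lp 𝕜 1 mu →L[𝕜] X}
    (h : Represents g R) (h' : Represents g' R') : Represents (g + g') (R + R') := by
  let _ : NormedSpace ℝ X := NormedSpace.restrictScalars ℝ 𝕜 X
  intro φ
  have := rep_add (𝕜 := 𝕜) g g' φ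
  rw [rep_apply, rep_apply, rep_apply] at this
  rw [this, ← h φ, ← h' φ]
  rfl

lemma Represents.smul {g : LinfUnit X} {R : Lp 𝕜 1 mu →L[𝕜] X}
    (h : Represents g R) (c : 𝕜) : Represents (c • g) (c • R) := by
  let _ : NormedSpace ℝ X := NormedSpace.restrictScalars ℝ 𝕜 X
  intro φ
  have := rep_smul (𝕜 := 𝕜) c g φ
  rw [rep_apply, rep_apply] at this
  rw [this, ← h φ]
  rfl

lemma Represents.unique [CompleteSpace X] {g g' : LinfUnit X} {R : Lp 𝕜 1 mu →L[𝕜] X}
    (h : Represents g R) (h' : Represents g' R) : g = g' := by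
  have h1 := h.add (h'.smul (-1 : 𝕜))
  have h2 := h1.norm_le
  have h3 : R + (-1 : 𝕜) • R = 0 := by
    rw [neg_one_smul, add_neg_cancel]
  rw [h3, norm_zero, neg_one_smul, ← sub_eq_add_neg] at h2
  exact sub_eq_zero.1 (norm_le_zero_iff.1 h2)

/-- Spaces with the Radon-Nikodym property satisfy the second condition. -/
theorem HasRNP.repComplemented [CompleteSpace X] (h : HasRNP 𝕜 X) : RepComplemented 𝕜 X := by
  choose P hP using h
  let P' : (Lp 𝕜 1 mu →L[𝕜] X) →L[𝕜] LinfUnit X := LinearMap.mkContinuous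
    { toFun := P
      map_add' := fun R R' => (hP (R + R')).unique ((hP R).add (hP R'))
      map_smul' := fun c R => (hP (c • R)).unique ((hP R).smul c) } 1 (by
      intro R
      rw [one_mul]
      exact (hP R).norm_le)
  exact ⟨P', fun g R hgR => (hP R).unique hgR⟩

end Pool.Agent.LinfX
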