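import Pool.Agent.LinfX.Rep

/-!
Spaces with the Radon-Nikodym property do not contain `c_0`.
-/

open MeasureTheory Set Filter Topology
open scoped ENNReal NNReal

namespace Pool.Agent.LinfX

variable {𝕜 : Type*} [RCLike 𝕜]
variable {X : Type*} [NormedAddCommGroup X] [NormedSpace 𝕜 X]

lemma rad_smul_integrable {Z : Type*} [NormedAddCommGroup Z] [NormedSpace ℝ Z] (n : ℕ)
    {φ : ℝ → Z} (hφ : Integrable φ mu) : Integrable (fun t => rad n t • φ t) mu :=
  hφ.bdd_smul 1 (rad_meas n).aestronglyMeasurable (Eventually.of_forall fun t => by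
    rw [Real.norm_eq_abs, rad_abs])

/-- The Riemann-Lebesgue lemma. -/
lemma tendsto_rad {Z : Type*} [NormedAddCommGroup Z] [NormedSpace ℝ Z]
    {φ : ℝ → Z} (hφ : Integrable φ mu) :
    Tendsto (fun n => ∫ t, rad (n + 1) t • φ t ∂mu) atTop (𝓝 0) := by
  rw [Metric.tendsto_atTop]
  intro ε hε
  obtain ⟨m, g', hg'd, hg'i, hg'⟩ := exists_dyadic_approx hφ (half_pos hε)
  refine ⟨m, fun n hn => ?_⟩
  have h0 := integral_rad n (hg'd.mono hn) hg'i
  have h1 : ∫ t, rad (n + 1) t • φ t ∂mu = ∫ t, rad (n + 1) t • (φ t - g' t) ∂mu := by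
    simp only [smul_sub]
    rw [integral_sub (rad_smul_integrable _ hφ) (rad_smul_integrable _ hg'i), h0, sub_zero]
  rw [dist_zero_right, h1]
  refine (norm_integral_le_integral_norm _).trans_lt ?_
  have h2 : ∀ t, ‖rad (n + 1) t • (φ t - g' t)‖ = ‖φ t - g' t‖ := by
    intro t
    rw [norm_smul, Real.norm_eq_abs, rad_abs, one_mul]
  simp only [h2]
  linarith

/-- The operator `L^1 → c_0`, `φ ↦ (∫ r_n φ)_n`. -/
noncomputable def radOp (𝕜 : Type*) [RCLike 𝕜] :
    Lp 𝕜 1 mu →L[𝕜] ZeroAtInftyContinuousMap ℕ 𝕜 :=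
  LinearMap.mkContinuous
    { toFun := fun φ =>
        { toFun := fun n => ∫ t, rad (n + 1) t • (φ : ℝ → 𝕜) t ∂mu
          continuous_toFun := continuous_of_discreteTopology
          zero_at_infty' := by
            rw [cocompact_eq_cofinite, Nat.cofinite_eq_atTop]
            exact tendsto_rad (L1.integrable_coeFn φ) }
      map_add' := by
        intro φ ψ
        ext n
        change ∫ t, rad (n + 1) t • ((φ + ψ : Lp 𝕜 1 mu) : ℝ → 𝕜) t ∂mu =
          ∫ t, rad (n + 1) t • (φ : ℝ → 𝕜) t ∂mu + ∫ t, rad (n + 1) t • (ψ : ℝ → 𝕜) t ∂mu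
        rw [← integral_add (rad_smul_integrable _ (L1.integrable_coeFn φ))
          (rad_smul_integrable _ (L1.integrable_coeFn ψ))]
        apply integral_congr_ae
        filter_upwards [Lp.coeFn_add φ ψ] with t ht
        rw [ht, Pi.add_apply, smul_add]
      map_smul' := by
        intro c φ
        ext n
        change ∫ t, rad (n + 1) t • ((c • φ : Lp 𝕜 1 mu) : ℝ → 𝕜) t ∂mu =
          c • ∫ t, rad (n + 1) t • (φ : ℝ → 𝕜) t ∂mu
        rw [← integral_smul]
        apply integral_congr_ae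
        filter_upwards [Lp.coeFn_smul c φ] with t ht
        rw [ht, Pi.smul_apply, smul_comm] } 1 (by
      intro φ
      rw [one_mul]
      apply norm_c0_le (norm_nonneg _)
      intro n
      change ‖∫ t, rad (n + 1) t • (φ : ℝ → 𝕜) t ∂mu‖ ≤ ‖φ‖
      refine (norm_integral_le_integral_norm _).trans ?_
      have h2 : ∀ t, ‖rad (n + 1) t • (φ : ℝ → 𝕜) t‖ = ‖(φ : ℝ → 𝕜) t‖ := by
        intro t
        rw [norm_smul, Real.norm_eq_abs, rad_abs, one_mul]
      simp only [h2]
      exact (L1.norm_eq_integral_norm φ).ge)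

lemma radOp_apply (φ : Lp 𝕜 1 mu) (n : ℕ) :
    radOp 𝕜 φ n = ∫ t, rad (n + 1) t • (φ : ℝ → 𝕜) t ∂mu := rfl

lemma radOp_nind {A : Set ℝ} (hA : MeasurableSet A) (n : ℕ) :
    radOp 𝕜 (nind 𝕜 A) n = avg A (fun t => (rad (n + 1) t : 𝕜)) := by
  rw [radOp_apply]
  have h1 : ∫ t, rad (n + 1) t • (nind 𝕜 A : ℝ → 𝕜) t ∂mu =
      ∫ t, A.indicator (fun t => (mu A).toReal⁻¹ • (rad (n + 1) t : 𝕜)) t ∂mu := by
    apply integral_congr_ae
    filter_upwards [nind_coe (𝕜 := 𝕜) hA] with t ht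
    rw [ht]
    by_cases htA : t ∈ A
    · rw [indicator_of_mem htA, indicator_of_mem htA, RCLike.real_smul_eq_coe_mul,
        RCLike.real_smul_eq_coe_mul, mul_comm]
    · rw [indicator_of_notMem htA, indicator_of_notMem htA, smul_zero]
  rw [h1, integral_indicator hA, integral_smul]
  rfl

/-- Spaces with the Radon-Nikodym property do not contain `c_0`. -/
theorem HasRNP.not_containsC0 [CompleteSpace X] (h : HasRNP 𝕜 X) : ¬ ContainsC0 𝕜 X := by
  rintro ⟨J, c, hc, hJ⟩
  let _ : NormedSpace ℝ X := NormedSpace.restrictScalars ℝ 𝕜 X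
  obtain ⟨g, hg⟩ := h (J.comp (radOp 𝕜))
  have hrad : ∀ n, Integrable (fun t => (rad (n + 1) t : 𝕜)) mu := fun n => by
    apply Integrable.of_bound (RCLike.measurable_ofReal.comp
      (rad_meas (n + 1))).aestronglyMeasurable 1
    exact Eventually.of_forall fun t => by
      rw [Function.comp_apply, RCLike.norm_ofReal, rad_abs]
  have h1 : ∀ᵐ t ∂mu, ∀ n, Tendsto (fun m => avg (JJ m (idx m t)) (fun s => (rad (n + 1) s : 𝕜)))
      atTop (𝓝 (rad (n + 1) t : 𝕜)) := ae_all_iff.2 fun n => ae_tendsto_avg (hrad n)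
  have hne : (ae mu).NeBot := by
    rw [ae_neBot]
    intro h0
    have := mu_univ
    rw [h0] at this
    simp at this
  obtain ⟨t, ht1, ht2⟩ := (h1.and (ae_tendsto_avg (integrable_of_Linf g))).exists
  set a : ℕ → ZeroAtInftyContinuousMap ℕ 𝕜 := fun m => radOp 𝕜 (nind 𝕜 (JJ m (idx m t))) with ha
  have hJa : ∀ m, J (a m) = avg (JJ m (idx m t)) g := by
    intro m
    rw [← hg.nind (JJ_meas _ _)]
    rfl
  have hcau : CauchySeq a := by
    have h2 : CauchySeq (fun m => J (a m)) := by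
      simp only [hJa]
      exact ht2.cauchySeq
    rw [Metric.cauchySeq_iff] at h2 ⊢
    intro ε hε
    obtain ⟨N, hN⟩ := h2 (c * ε) (by positivity)
    refine ⟨N, fun m hm n hn => ?_⟩
    have h3 := hN m hm n hn
    rw [dist_eq_norm, ← map_sub] at h3
    have h4 := hJ (a m - a n)
    rw [dist_eq_norm]
    exact lt_of_mul_lt_mul_left (h4.trans_lt h3) hc.le
  obtain ⟨b, hb⟩ := cauchySeq_tendsto_of_complete hcau
  have hbn : ∀ n, b n = (rad (n + 1) t : 𝕜) := by
    intro n
    have h2 : Tendsto (fun m => a m n) atTop (𝓝 (b n)) := by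
      rw [Metric.tendsto_atTop] at hb ⊢
      intro ε hε
      obtain ⟨N, hN⟩ := hb ε hε
      refine ⟨N, fun m hm => ?_⟩
      have h3 := hN m hm
      rw [dist_eq_norm] at h3 ⊢
      exact (le_norm_c0 (a m - b) n).trans_lt h3
    have h3 := ht1 n
    have h4 : ∀ m, a m n = avg (JJ m (idx m t)) (fun s => (rad (n + 1) s : 𝕜)) := fun m =>
      radOp_nind (JJ_meas _ _) n
    simp only [h4] at h2
    exact tendsto_nhds_unique h2 h3
  have hb0 : Tendsto (fun n => ‖b n‖) atTop (𝓝 0) := by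
    have h2 := b.zero_at_infty'
    rw [cocompact_eq_cofinite, Nat.cofinite_eq_atTop] at h2
    have h3 := h2.norm
    rw [norm_zero] at h3
    exact h3
  have hb1 : ∀ n, ‖b n‖ = 1 := fun n => by rw [hbn, RCLike.norm_ofReal, rad_abs]
  simp only [hb1] at hb0
  exact one_ne_zero (tendsto_nhds_unique tendsto_const_nhds hb0)

end Pool.Agent.LinfX
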