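import Pool.Agent.LinfX.Main

/-!
Weakly unconditionally Cauchy series in Banach spaces without a copy of `c_0`
(the theorem of Bessaga and Pelczynski).
-/

open MeasureTheory Set Filter Topology
open scoped ENNReal

namespace Pool.Agent.LinfX

variable {𝕜 : Type*} [RCLike 𝕜]
variable {X : Type*} [NormedAddCommGroup X] [NormedSpace 𝕜 X]

lemma real_sum_abs {r : ℕ → ℝ} {C : ℝ} (h : ∀ F : Finset ℕ, |∑ n ∈ F, r n| ≤ C)
    (F : Finset ℕ) : ∑ n ∈ F, |r n| ≤ 2 * C := by
  have h1 := h (F.filter (fun n => 0 ≤ r n))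
  have h2 := h (F.filter (fun n => ¬ 0 ≤ r n))
  rw [← Finset.sum_filter_add_sum_filter_not F (fun n => 0 ≤ r n)]
  have e1 : ∑ n ∈ F.filter (fun n => 0 ≤ r n), |r n| = ∑ n ∈ F.filter (fun n => 0 ≤ r n), r n := by
    apply Finset.sum_congr rfl
    intro n hn
    rw [Finset.mem_filter] at hn
    exact abs_of_nonneg hn.2
  have e2 : ∑ n ∈ F.filter (fun n => ¬ 0 ≤ r n), |r n| =
      - ∑ n ∈ F.filter (fun n => ¬ 0 ≤ r n), r n := by
    rw [← Finset.sum_neg_distrib]
    apply Finset.sum_congr rfl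
    intro n hn
    rw [Finset.mem_filter] at hn
    exact abs_of_neg (not_le.1 hn.2)
  rw [e1, e2]
  have h3 := le_abs_self (∑ n ∈ F.filter (fun n => 0 ≤ r n), r n)
  have h4 := neg_abs_le (∑ n ∈ F.filter (fun n => ¬ 0 ≤ r n), r n)
  linarith

/-- All finite subset sums are bounded by `C`. -/
def WU (C : ℝ) (u : ℕ → X) : Prop := ∀ F : Finset ℕ, ‖∑ n ∈ F, u n‖ ≤ C

lemma WU.nonneg {C : ℝ} {u : ℕ → X} (h : WU C u) : 0 ≤ C := by
  have := h ∅
  simpa using this

lemma WU.sum_dual_le {C : ℝ} {u : ℕ → X} (h : WU C u) (z : StrongDual 𝕜 X) (hz : ‖z‖ ≤ 1)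
    (F : Finset ℕ) : ∑ n ∈ F, ‖z (u n)‖ ≤ 4 * C := by
  have key : ∀ F : Finset ℕ, ‖∑ n ∈ F, z (u n)‖ ≤ C := by
    intro F
    rw [← map_sum]
    exact (z.le_opNorm _).trans ((mul_le_of_le_one_left (norm_nonneg _) hz).trans (h F))
  have h1 := real_sum_abs (r := fun n => RCLike.re (z (u n))) (C := C) (by
    intro F
    have e : ∑ n ∈ F, RCLike.re (z (u n)) = RCLike.re (∑ n ∈ F, z (u n)) := by rw [map_sum]
    rw [e]
    exact (RCLike.abs_re_le_norm _).trans (key F)) F
  have h2 := real_sum_abs (r := fun n => RCLike.im (z (u n))) (C := C) (by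
    intro F
    have e : ∑ n ∈ F, RCLike.im (z (u n)) = RCLike.im (∑ n ∈ F, z (u n)) := by rw [map_sum]
    rw [e]
    exact (RCLike.abs_im_le_norm _).trans (key F)) F
  have h3 : ∑ n ∈ F, ‖z (u n)‖ ≤ ∑ n ∈ F, (|RCLike.re (z (u n))| + |RCLike.im (z (u n))|) := by
    apply Finset.sum_le_sum
    intro n _
    have e : z (u n) = (RCLike.re (z (u n)) : 𝕜) + (RCLike.im (z (u n)) : 𝕜) * RCLike.I :=
      (RCLike.re_add_im _).symm
    calc ‖z (u n)‖ = ‖(RCLike.re (z (u n)) : 𝕜) + (RCLike.im (z (u n)) : 𝕜) * RCLike.I‖ := by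
          rw [← e]
      _ ≤ ‖(RCLike.re (z (u n)) : 𝕜)‖ + ‖(RCLike.im (z (u n)) : 𝕜) * RCLike.I‖ := norm_add_le _ _
      _ ≤ _ := by
          rw [norm_mul, RCLike.norm_ofReal, RCLike.norm_ofReal]
          have : ‖(RCLike.I : 𝕜)‖ ≤ 1 := by
            rw [RCLike.norm_I]; split_ifs <;> norm_num
          have h5 := abs_nonneg (RCLike.im (z (u n)))
          nlinarith
  rw [Finset.sum_add_distrib] at h3
  linarith

lemma WU.comb_le (𝕜 : Type*) [RCLike 𝕜] {X : Type*} [NormedAddCommGroup X] [NormedSpace 𝕜 X]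
    {C : ℝ} {u : ℕ → X} (h : WU C u) (b : ℕ → 𝕜) {B : ℝ} (F : Finset ℕ) (hB : 0 ≤ B)
    (hb : ∀ n ∈ F, ‖b n‖ ≤ B) : ‖∑ n ∈ F, b n • u n‖ ≤ 4 * C * B := by
  obtain ⟨z, hz1, hz2⟩ := exists_dual_vector'' 𝕜 (∑ n ∈ F, b n • u n)
  have h1 : ‖∑ n ∈ F, b n • u n‖ = ‖z (∑ n ∈ F, b n • u n)‖ := by
    rw [hz2, RCLike.norm_ofReal, abs_norm]
  rw [h1, map_sum]
  refine (norm_sum_le _ _).trans ?_
  have h2 : ∑ n ∈ F, ‖z (b n • u n)‖ ≤ ∑ n ∈ F, B * ‖z (u n)‖ := by
    apply Finset.sum_le_sum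
    intro n hn
    rw [map_smul, norm_smul]
    exact mul_le_mul_of_nonneg_right (hb n hn) (norm_nonneg _)
  refine h2.trans ?_
  rw [← Finset.mul_sum]
  have h3 := h.sum_dual_le z hz1 F
  nlinarith

lemma WU.comp_injective {C : ℝ} {u : ℕ → X} (h : WU C u) {e : ℕ → ℕ}
    (he : Function.Injective e) : WU C (u ∘ e) := by
  intro F
  have := h (F.map ⟨e, he⟩)
  rw [Finset.sum_map] at this
  exact this

lemma WU.summable_c0 (𝕜 : Type*) [RCLike 𝕜] {X : Type*} [NormedAddCommGroup X] [NormedSpace 𝕜 X]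
    [CompleteSpace X] {C : ℝ} {u : ℕ → X} (h : WU C u) (b : ℕ → 𝕜)
    (hb : Tendsto b cofinite (𝓝 0)) : Summable (fun n => b n • u n) := by
  rw [summable_iff_vanishing_norm]
  intro ε hε
  have hC : 0 ≤ C := h.nonneg
  have hpos : 0 < 4 * C + 1 := by linarith
  have h1 : ∀ᶠ n in cofinite, ‖b n‖ < ε / (4 * C + 1) := by
    have := (tendsto_zero_iff_norm_tendsto_zero.1 hb).eventually (gt_mem_nhds
      (show (0 : ℝ) < ε / (4 * C + 1) by positivity))
    exact this
  rw [eventually_cofinite] at h1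
  refine ⟨h1.toFinset, fun t ht => ?_⟩
  have h2 := h.comb_le 𝕜 b t (B := ε / (4 * C + 1)) (by positivity) (by
    intro n hn
    by_contra hcon
    have hmem : n ∈ h1.toFinset := by
      rw [Set.Finite.mem_toFinset]
      exact fun hlt => hcon hlt.le
    exact (Finset.disjoint_left.1 ht hn hmem))
  refine h2.trans_lt ?_
  rw [mul_div_assoc', div_lt_iff₀ hpos]
  nlinarith

/-- The operator on `c_0` given by a weakly unconditionally Cauchy series. -/
lemma WU.exists_op (𝕜 : Type*) [RCLike 𝕜] {X : Type*} [NormedAddCommGroup X] [NormedSpace 𝕜 X]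
    [CompleteSpace X] {C : ℝ} {u : ℕ → X} (h : WU C u) :
    ∃ J : ZeroAtInftyContinuousMap ℕ 𝕜 →L[𝕜] X,
      ∀ a, HasSum (fun n => a n • u n) (J a) := by
  have ht : ∀ a : ZeroAtInftyContinuousMap ℕ 𝕜, Tendsto (fun n => a n) cofinite (𝓝 0) := by
    intro a
    have := a.zero_at_infty'
    rwa [cocompact_eq_cofinite] at this
  have hs : ∀ a : ZeroAtInftyContinuousMap ℕ 𝕜, Summable (fun n => a n • u n) := fun a =>
    h.summable_c0 𝕜 _ (ht a)
  refine ⟨LinearMap.mkContinuous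
    { toFun := fun a => ∑' n, a n • u n
      map_add' := by
        intro a b
        rw [← (hs a).tsum_add (hs b)]
        congr 1
        ext n
        change (a n + b n) • u n = _
        rw [add_smul]
      map_smul' := by
        intro c a
        rw [RingHom.id_apply, ← (hs a).tsum_const_smul]
        congr 1
        ext n
        change (c • a n) • u n = _
        rw [smul_assoc] } (4 * C) (by
      intro a
      change ‖∑' n, a n • u n‖ ≤ _
      refine le_of_tendsto (hs a).hasSum.norm (Eventually.of_forall fun F => ?_)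
      exact h.comb_le 𝕜 (fun n => a n) F (norm_nonneg _) (fun n _ => le_norm_c0 a n)),
    fun a => (hs a).hasSum⟩

/-- In a Banach space without `c_0`, the terms of a weakly unconditionally Cauchy series tend to
zero. -/
theorem WU.tendsto_zero (𝕜 : Type*) [RCLike 𝕜] {X : Type*} [NormedAddCommGroup X]
    [NormedSpace 𝕜 X] [CompleteSpace X] (hX : ¬ ContainsC0 𝕜 X) {C : ℝ} {u : ℕ → X}
    (h : WU C u) : Tendsto u atTop (𝓝 0) := by
  by_contra hcon
  have hC : 0 ≤ C := h.nonneg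
  -- a large subsequence
  obtain ⟨δ, hδ, hfreq⟩ : ∃ δ > 0, ∃ᶠ n in atTop, δ ≤ ‖u n‖ := by
    rw [Metric.tendsto_atTop] at hcon
    push Not at hcon
    obtain ⟨δ, hδ, hN⟩ := hcon
    refine ⟨δ, hδ, ?_⟩
    rw [frequently_atTop]
    intro N
    obtain ⟨n, hn, hn'⟩ := hN N
    rw [dist_zero_right] at hn'
    exact ⟨n, hn, hn'⟩
  have hS : {n | δ ≤ ‖u n‖}.Infinite := Nat.frequently_atTop_iff_infinite.1 hfreq
  have hz : ∀ n, ∃ z : StrongDual 𝕜 X, ‖z‖ ≤ 1 ∧ z (u n) = (‖u n‖ : 𝕜) := by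
    intro n
    obtain ⟨z, hz1, hz2⟩ := exists_dual_vector'' 𝕜 (u n)
    exact ⟨z, hz1, hz2⟩
  choose z hz1 hz2 using hz
  -- the functionals on `ℓ^∞`
  have hsumz : ∀ n, Summable (fun j => ‖z n (u j)‖) := fun n =>
    summable_of_sum_le (fun _ => norm_nonneg _) (fun F => h.sum_dual_le (z n) (hz1 n) F)
  have hsuma : ∀ n (a : lp (fun _ : ℕ => 𝕜) ∞), Summable (fun j => a j * z n (u j)) := by
    intro n a
    refine Summable.of_norm_bounded ((hsumz n).mul_left ‖a‖) fun j => ?_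
    rw [norm_mul]
    exact mul_le_mul_of_nonneg_right (lp.norm_apply_le_norm ENNReal.top_ne_zero a j)
      (norm_nonneg _)
  let w : ℕ → (lp (fun _ : ℕ => 𝕜) ∞ →L[𝕜] 𝕜) := fun n => LinearMap.mkContinuous
    { toFun := fun a => ∑' j, a j * z n (u j)
      map_add' := by
        intro a b
        rw [← (hsuma n a).tsum_add (hsuma n b)]
        congr 1
        ext j
        change (a j + b j) * _ = _
        rw [add_mul]
      map_smul' := by
        intro c a
        rw [RingHom.id_apply, smul_eq_mul, ← (hsuma n a).tsum_mul_left]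
        congr 1
        ext j
        change (c * a j) * _ = _
        rw [mul_assoc] } (4 * C) (by
      intro a
      change ‖∑' j, a j * z n (u j)‖ ≤ _
      refine le_of_tendsto (hsuma n a).hasSum.norm (Eventually.of_forall fun F => ?_)
      refine (norm_sum_le _ _).trans ?_
      have h2 : ∑ j ∈ F, ‖a j * z n (u j)‖ ≤ ∑ j ∈ F, ‖a‖ * ‖z n (u j)‖ := by
        apply Finset.sum_le_sum
        intro j _
        rw [norm_mul]
        exact mul_le_mul_of_nonneg_right (lp.norm_apply_le_norm ENNReal.top_ne_zero a j)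
          (norm_nonneg _)
      refine h2.trans ?_
      rw [← Finset.mul_sum]
      have h3 := h.sum_dual_le (z n) (hz1 n) F
      have h4 := norm_nonneg a
      nlinarith)
  have hw : ∀ n a, w n a = ∑' j, a j * z n (u j) := fun n a => rfl
  obtain ⟨M, hMS, hM, hMw⟩ := rosenthal w (C := 4 * C) (fun n =>
    LinearMap.mkContinuous_norm_le _ (by positivity) _) hS (half_pos hδ)
  set e : ℕ → ℕ := fun j => ((hM.natEmbedding _ j : M) : ℕ) with he
  have hinj : Function.Injective e :=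
    Subtype.val_injective.comp (hM.natEmbedding _).injective
  have heM : ∀ j, e j ∈ M := fun j => (hM.natEmbedding _ j).2
  obtain ⟨J, hJ⟩ := (h.comp_injective hinj).exists_op 𝕜
  apply hX
  refine ⟨J, δ / 2, half_pos hδ, fun a => ?_⟩
  -- lower bound of finite sums
  have key : ∀ k, ∀ F : Finset ℕ, k ∈ F →
      δ * ‖a k‖ ≤ ‖∑ j ∈ F, a j • u (e j)‖ + δ / 2 * ‖a‖ := by
    intro k F hk
    classical
    set ã : lp (fun _ : ℕ => 𝕜) ∞ :=
      ∑ j ∈ F.erase k, a j • ev 𝕜 (e j) with hã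
    have hãi : ∀ i, ã i = ∑ j ∈ F.erase k, if i = e j then a j else 0 := by
      intro i
      rw [hã, lp.coeFn_sum, Finset.sum_apply]
      apply Finset.sum_congr rfl
      intro j _
      change a j * ev 𝕜 (e j) i = _
      by_cases hij : i = e j
      · rw [if_pos hij, hij, ev_self, mul_one]
      · rw [if_neg hij, ev_ne hij, mul_zero]
    have hãe : ∀ j, j ∈ F.erase k → ã (e j) = a j := by
      intro j hj
      rw [hãi, Finset.sum_eq_single_of_mem j hj]
      · rw [if_pos rfl]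
      · intro j' _ hj'
        rw [if_neg]
        intro hee
        exact hj' (hinj hee).symm
    have hã0 : ∀ i, (∀ j ∈ F.erase k, i ≠ e j) → ã i = 0 := by
      intro i hi
      rw [hãi]
      apply Finset.sum_eq_zero
      intro j hj
      rw [if_neg (hi j hj)]
    have hãn : ‖ã‖ ≤ ‖a‖ := by
      apply lp.norm_le_of_forall_le (norm_nonneg _)
      intro i
      by_cases hi : ∃ j ∈ F.erase k, i = e j
      · obtain ⟨j, hj, rfl⟩ := hi
        rw [hãe j hj]
        exact le_norm_c0 a j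
      · push Not at hi
        rw [hã0 i hi, norm_zero]
        exact norm_nonneg _
    have h1 := hMw (e k) (heM k) ã (by
        intro i hi
        apply hã0
        rintro j _ rfl
        exact hi (heM j)) (by
        apply hã0
        intro j hj hee
        rw [Finset.mem_erase] at hj
        exact hj.1 (hinj hee).symm)
    have h2 : w (e k) ã = z (e k) (∑ j ∈ F.erase k, a j • u (e j)) := by
      rw [hã, map_sum, map_sum]
      apply Finset.sum_congr rfl
      intro j _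
      rw [map_smul, map_smul]
      congr 1
      rw [hw, tsum_eq_single (e j)]
      · rw [ev_self, one_mul]
      · intro i hi
        rw [ev_ne hi, zero_mul]
    have h3 : z (e k) (∑ j ∈ F, a j • u (e j)) = a k * (‖u (e k)‖ : 𝕜) + w (e k) ã := by
      rw [h2, ← Finset.add_sum_erase F _ hk, map_add, map_smul, hz2, smul_eq_mul]
    have h4 : ‖z (e k) (∑ j ∈ F, a j • u (e j))‖ ≤ ‖∑ j ∈ F, a j • u (e j)‖ :=
      ((z (e k)).le_opNorm _).trans (mul_le_of_le_one_left (norm_nonneg _) (hz1 _))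
    have h5 : ‖a k * (‖u (e k)‖ : 𝕜)‖ = ‖a k‖ * ‖u (e k)‖ := by
      rw [norm_mul, RCLike.norm_ofReal, abs_norm]
    have h6 : ‖a k * (‖u (e k)‖ : 𝕜)‖ ≤ ‖z (e k) (∑ j ∈ F, a j • u (e j))‖ + ‖w (e k) ã‖ := by
      have : a k * (‖u (e k)‖ : 𝕜) = z (e k) (∑ j ∈ F, a j • u (e j)) - w (e k) ã := by
        rw [h3]; ring
      rw [this]
      exact norm_sub_le _ _
    have h7 : δ ≤ ‖u (e k)‖ := hMS (heM k)
    have h8 : δ / 2 * ‖ã‖ ≤ δ / 2 * ‖a‖ := mul_le_mul_of_nonneg_left hãn (half_pos hδ).le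
    have h9 : δ * ‖a k‖ ≤ ‖a k‖ * ‖u (e k)‖ := by
      rw [mul_comm]
      exact mul_le_mul_of_nonneg_left h7 (norm_nonneg _)
    linarith
  have key2 : ∀ k, δ * ‖a k‖ ≤ ‖J a‖ + δ / 2 * ‖a‖ := by
    intro k
    have ht : Tendsto (fun F : Finset ℕ => ‖∑ j ∈ F, a j • u (e j)‖ + δ / 2 * ‖a‖) atTop
        (𝓝 (‖J a‖ + δ / 2 * ‖a‖)) := ((hJ a).norm).add_const _
    refine ge_of_tendsto ht ?_
    filter_upwards [Filter.eventually_ge_atTop {k}] with F hF
    exact key k F (Finset.singleton_subset_iff.1 hF)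
  have h9 : ‖a‖ ≤ (‖J a‖ + δ / 2 * ‖a‖) / δ := by
    apply norm_c0_le (by positivity)
    intro j
    rw [le_div_iff₀ hδ, mul_comm]
    exact key2 j
  rw [le_div_iff₀ hδ] at h9
  linarith

/-- In a Banach space without `c_0`, weakly unconditionally Cauchy series converge. -/
theorem WU.summable (𝕜 : Type*) [RCLike 𝕜] {X : Type*} [NormedAddCommGroup X]
    [NormedSpace 𝕜 X] [CompleteSpace X] (hX : ¬ ContainsC0 𝕜 X) {C : ℝ} {u : ℕ → X}
    (h : WU C u) : Summable u := by
  by_contra hcon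
  rw [summable_iff_vanishing_norm] at hcon
  push Not at hcon
  obtain ⟨ε, hε, hs⟩ := hcon
  choose t ht1 ht2 using hs
  -- recursive choice of disjoint blocks
  let G : ℕ → Finset ℕ := fun n => Nat.rec ∅ (fun _ s => s ∪ t s) n
  have hG : ∀ n, G (n + 1) = G n ∪ t (G n) := fun n => rfl
  have hmono : Monotone G := monotone_nat_of_le_succ fun n => by
    rw [hG]; exact Finset.subset_union_left
  have hdisj : ∀ m n, m < n → Disjoint (t (G n)) (t (G m)) := by
    intro m n hmn
    refine (ht1 (G n)).mono_right ?_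
    refine le_trans ?_ (hmono (Nat.succ_le_of_lt hmn))
    rw [Nat.succ_eq_add_one, hG]
    exact Finset.subset_union_right
  have hv : WU C (fun n => ∑ i ∈ t (G n), u i) := by
    intro F
    rw [← Finset.sum_biUnion]
    · exact h _
    · intro m _ n _ hmn
      rcases lt_or_gt_of_ne hmn with h1 | h1
      · exact (hdisj m n h1).symm
      · exact hdisj n m h1
  have h1 := hv.tendsto_zero 𝕜 hX
  rw [Metric.tendsto_atTop] at h1
  obtain ⟨N, hN⟩ := h1 ε hε
  have h2 := hN N le_rfl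
  rw [dist_zero_right] at h2
  exact absurd (ht2 (G N)) (not_le.2 h2)

end Pool.Agent.LinfX
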